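import Pool.Agent.MPdf6699Lib.Base

/-!
Tails of the block polynomials: upper and lower bounds.
-/

namespace Pool.Agent.MPdf6699Lib

open Polynomial

theorem om_re : om.re = -1 / 2 := rfl
theorem om_im : om.im = Real.sqrt 3 / 2 := rfl

theorem om_normSq : Complex.normSq om = 1 := by
  rw [Complex.normSq_apply, om_re, om_im]
  have h : Real.sqrt 3 * Real.sqrt 3 = 3 := Real.mul_self_sqrt (by norm_num)
  nlinarith

theorem om_norm : ‖om‖ = 1 := by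
  have h : ‖om‖ ^ 2 = 1 := by rw [Complex.sq_norm, om_normSq]
  nlinarith [norm_nonneg om]

theorem om_pow_norm (j : ℕ) : ‖om ^ j‖ = 1 := by
  rw [norm_pow, om_norm, one_pow]

theorem one_sub_om_norm : 17 / 10 ≤ ‖1 - om‖ := by
  have h : ‖1 - om‖ ^ 2 = 3 := by
    rw [Complex.sq_norm, Complex.normSq_apply]
    simp only [Complex.sub_re, Complex.one_re, Complex.sub_im, Complex.one_im, om_re, om_im]
    have h : Real.sqrt 3 * Real.sqrt 3 = 3 := Real.mul_self_sqrt (by norm_num)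
    nlinarith
  nlinarith [norm_nonneg (1 - om)]

theorem tl_eq (ρ : ℕ → ℂ) (q : ℂ) (j d : ℕ) (hjd : j ≤ d) :
    tl ρ d j q = ρ j * q ^ j - (1 - q) * ∑ i ∈ Finset.Ico j d, ρ (i + 1) * q ^ i
      - ρ (d + 1) * q ^ d := by
  induction d, hjd using Nat.le_induction with
  | base => simp [tl, cf]; ring
  | succ d hd ih =>
    unfold tl at ih ⊢
    rw [Finset.sum_Ico_succ_top (by omega), ih, Finset.sum_Ico_succ_top hd]
    unfold cf
    ring

variable {T d : ℕ} {ρ : ℕ → ℂ}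

theorem BlockOK.norm_le (h : BlockOK T d ρ) (i : ℕ) : ‖ρ i‖ ≤ 21 / 20 := by
  rcases Nat.eq_zero_or_pos i with rfl | hi
  · rw [h.zero]; norm_num
  · rcases le_or_gt i d with hid | hid
    · have h1 := h.close i hi hid
      have h2 : ‖ρ i‖ ≤ ‖ρ i - om ^ i‖ + ‖om ^ i‖ := by
        calc ‖ρ i‖ = ‖(ρ i - om ^ i) + om ^ i‖ := by ring_nf
          _ ≤ _ := norm_add_le _ _
      rw [om_pow_norm] at h2
      linarith
    · rw [h.top i hid]; norm_num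

theorem BlockOK.tl_eq (h : BlockOK T d ρ) (q : ℂ) {j : ℕ} (hjd : j ≤ d) :
    tl ρ d j q = ρ j * q ^ j - (1 - q) * ∑ i ∈ Finset.Ico j d, ρ (i + 1) * q ^ i := by
  rw [MPdf6699Lib.tl_eq ρ q j d hjd, h.top (d + 1) (by omega)]
  ring

theorem tl_of_lt {ρ : ℕ → ℂ} {d j : ℕ} (q : ℂ) (hj : d < j) : tl ρ d j q = 0 := by
  unfold tl
  rw [Finset.Ico_eq_empty (by omega), Finset.sum_empty]

theorem BlockOK.tl_norm_le (h : BlockOK T d ρ) (q : ℂ) {j : ℕ} (hjd : j ≤ d) :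
    ‖tl ρ d j q‖ ≤ 21 / 20 * (‖q‖ ^ j + ‖1 - q‖ * ∑ i ∈ Finset.Ico j d, ‖q‖ ^ i) := by
  rw [h.tl_eq q hjd]
  have h1 : ‖ρ j * q ^ j‖ ≤ 21 / 20 * ‖q‖ ^ j := by
    rw [norm_mul, norm_pow]
    exact mul_le_mul_of_nonneg_right (h.norm_le j) (by positivity)
  have h2 : ‖∑ i ∈ Finset.Ico j d, ρ (i + 1) * q ^ i‖
      ≤ 21 / 20 * ∑ i ∈ Finset.Ico j d, ‖q‖ ^ i := by
    refine (norm_sum_le _ _).trans ?_
    rw [Finset.mul_sum]
    refine Finset.sum_le_sum fun i _ => ?_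
    rw [norm_mul, norm_pow]
    exact mul_le_mul_of_nonneg_right (h.norm_le (i + 1)) (by positivity)
  calc ‖ρ j * q ^ j - (1 - q) * ∑ i ∈ Finset.Ico j d, ρ (i + 1) * q ^ i‖
      ≤ ‖ρ j * q ^ j‖ + ‖(1 - q) * ∑ i ∈ Finset.Ico j d, ρ (i + 1) * q ^ i‖ := norm_sub_le _ _
    _ ≤ 21 / 20 * ‖q‖ ^ j + ‖1 - q‖ * (21 / 20 * ∑ i ∈ Finset.Ico j d, ‖q‖ ^ i) := by
        rw [norm_mul (1 - q)]
        have := mul_le_mul_of_nonneg_left h2 (norm_nonneg (1 - q))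
        linarith
    _ = _ := by ring

/-- Upper bound for tails outside the unit disc. -/
theorem BlockOK.tl_out (h : BlockOK T d ρ) {q : ℂ} (hq : 1 ≤ ‖q‖) (j : ℕ) :
    ‖tl ρ d j q‖ ≤ 21 / 20 * (‖q‖ ^ d * (1 + (d : ℝ) * ‖1 - q‖)) := by
  rcases le_or_gt j d with hjd | hjd
  · refine (h.tl_norm_le q hjd).trans ?_
    have h1 : ‖q‖ ^ j ≤ ‖q‖ ^ d := pow_le_pow_right₀ hq hjd
    have h2 : ∑ i ∈ Finset.Ico j d, ‖q‖ ^ i ≤ (d : ℝ) * ‖q‖ ^ d := by
      calc ∑ i ∈ Finset.Ico j d, ‖q‖ ^ i ≤ ∑ i ∈ Finset.Ico j d, ‖q‖ ^ d := by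
            refine Finset.sum_le_sum fun i hi => pow_le_pow_right₀ hq ?_
            have := Finset.mem_Ico.mp hi
            omega
        _ = ((d - j : ℕ) : ℝ) * ‖q‖ ^ d := by
            rw [Finset.sum_const, Nat.card_Ico, nsmul_eq_mul]
        _ ≤ _ := by
            refine mul_le_mul_of_nonneg_right ?_ (by positivity)
            exact_mod_cast Nat.sub_le d j
    have h3 := mul_le_mul_of_nonneg_left h2 (norm_nonneg (1 - q))
    nlinarith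
  · rw [tl_of_lt q hjd, norm_zero]
    positivity

/-- Crude upper bound for tails inside the unit disc. -/
theorem BlockOK.tl_in (h : BlockOK T d ρ) {q : ℂ} (hq : ‖q‖ ≤ 1) (j : ℕ) :
    ‖tl ρ d j q‖ ≤ 3 * ((d : ℝ) + 1) := by
  rcases le_or_gt j d with hjd | hjd
  · refine (h.tl_norm_le q hjd).trans ?_
    have h1 : ‖q‖ ^ j ≤ 1 := pow_le_one₀ (norm_nonneg _) hq
    have h2 : ∑ i ∈ Finset.Ico j d, ‖q‖ ^ i ≤ (d : ℝ) := by
      calc ∑ i ∈ Finset.Ico j d, ‖q‖ ^ i ≤ ∑ i ∈ Finset.Ico j d, 1 := by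
            refine Finset.sum_le_sum fun i hi => pow_le_one₀ (norm_nonneg _) hq
        _ = ((d - j : ℕ) : ℝ) := by
            rw [Finset.sum_const, Nat.card_Ico, nsmul_eq_mul, mul_one]
        _ ≤ _ := by
            exact_mod_cast Nat.sub_le d j
    have h4 : ‖1 - q‖ ≤ 2 := by
      have := norm_sub_le (1 : ℂ) q
      rw [norm_one] at this
      linarith
    have h5 : 0 ≤ ∑ i ∈ Finset.Ico j d, ‖q‖ ^ i := by positivity
    have h3 : ‖1 - q‖ * ∑ i ∈ Finset.Ico j d, ‖q‖ ^ i ≤ 2 * d := by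
      apply mul_le_mul h4 h2 h5 (by norm_num)
    nlinarith
  · rw [tl_of_lt q hjd, norm_zero]
    positivity

theorem pow_near {q : ℂ} {δ : ℝ} {d : ℕ} (hq : ‖1 - q‖ ≤ δ) (hδ : (d : ℝ) * δ ≤ 1 / 2000)
    (i : ℕ) (hi : i ≤ d) : ‖q‖ ^ i ≤ 1001 / 1000 := by
  have hδ0 : 0 ≤ δ := (norm_nonneg _).trans hq
  have h1 : ‖q‖ ≤ 1 + δ := by
    have := norm_sub_norm_le q 1
    rw [norm_one, norm_sub_rev q 1] at this
    linarith
  calc ‖q‖ ^ i ≤ (1 + δ) ^ i := pow_le_pow_left₀ (norm_nonneg _) h1 i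
    _ ≤ (Real.exp δ) ^ i := by
        refine pow_le_pow_left₀ (by positivity) ?_ i
        have := Real.add_one_le_exp δ
        linarith
    _ = Real.exp (i * δ) := by rw [← Real.exp_nat_mul]
    _ ≤ Real.exp (1 / 2000) := by
        apply Real.exp_le_exp.mpr
        refine le_trans ?_ hδ
        exact mul_le_mul_of_nonneg_right (by exact_mod_cast hi) hδ0
    _ ≤ 1001 / 1000 := by
        have h := Real.exp_bound_div_one_sub_of_interval (x := 1 / 2000) (by norm_num) (by norm_num)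
        refine h.trans ?_
        norm_num

theorem pow_sub_one_near {q : ℂ} {δ : ℝ} {d : ℕ} (hq : ‖1 - q‖ ≤ δ) (hδ : (d : ℝ) * δ ≤ 1 / 2000)
    (j : ℕ) (hj : j ≤ d) : ‖q ^ j - 1‖ ≤ 1 / 1000 := by
  have hδ0 : 0 ≤ δ := (norm_nonneg _).trans hq
  have h1 : q ^ j - 1 = (q - 1) * ∑ i ∈ Finset.range j, q ^ i := (mul_geom_sum q j).symm
  rw [h1, norm_mul, norm_sub_rev q 1]
  have h2 : ‖∑ i ∈ Finset.range j, q ^ i‖ ≤ (d : ℝ) * (1001 / 1000) := by
    refine (norm_sum_le _ _).trans ?_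
    calc ∑ i ∈ Finset.range j, ‖q ^ i‖ ≤ ∑ i ∈ Finset.range j, (1001 / 1000 : ℝ) := by
          refine Finset.sum_le_sum fun i hi => ?_
          rw [norm_pow]
          exact pow_near hq hδ i (by have := Finset.mem_range.mp hi; omega)
      _ = (j : ℝ) * (1001 / 1000) := by
          rw [Finset.sum_const, Finset.card_range, nsmul_eq_mul]
      _ ≤ _ := by
          refine mul_le_mul_of_nonneg_right (by exact_mod_cast hj) (by norm_num)
  calc ‖1 - q‖ * ‖∑ i ∈ Finset.range j, q ^ i‖ ≤ δ * ((d : ℝ) * (1001 / 1000)) :=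
        mul_le_mul hq h2 (norm_nonneg _) hδ0
    _ = (d * δ) * (1001 / 1000) := by ring
    _ ≤ 1 / 2000 * (1001 / 1000) := mul_le_mul_of_nonneg_right hδ (by norm_num)
    _ ≤ _ := by norm_num

/-- Tails close to `q = 1`. -/
theorem BlockOK.tl_near (h : BlockOK T d ρ) {q : ℂ} {δ : ℝ} (hq : ‖1 - q‖ ≤ δ)
    (hδ : (d : ℝ) * δ ≤ 1 / 2000) {j : ℕ} (hj : 1 ≤ j) (hjd : j ≤ d) :
    ‖tl ρ d j q - om ^ j‖ ≤ 1 / 5 := by
  have hδ0 : 0 ≤ δ := (norm_nonneg _).trans hq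
  have e : tl ρ d j q - om ^ j = (ρ j - om ^ j) * q ^ j + om ^ j * (q ^ j - 1)
      - (1 - q) * ∑ i ∈ Finset.Ico j d, ρ (i + 1) * q ^ i := by
    rw [h.tl_eq q hjd]; ring
  have h1 : ‖(ρ j - om ^ j) * q ^ j‖ ≤ 1 / 20 * (1001 / 1000) := by
    rw [norm_mul, norm_pow]
    exact mul_le_mul (h.close j hj hjd) (pow_near hq hδ j hjd) (by positivity) (by norm_num)
  have h2 : ‖om ^ j * (q ^ j - 1)‖ ≤ 1 / 1000 := by
    rw [norm_mul, om_pow_norm, one_mul]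
    exact pow_sub_one_near hq hδ j hjd
  have h3 : ‖∑ i ∈ Finset.Ico j d, ρ (i + 1) * q ^ i‖ ≤ (d : ℝ) * (21 / 20 * (1001 / 1000)) := by
    refine (norm_sum_le _ _).trans ?_
    calc ∑ i ∈ Finset.Ico j d, ‖ρ (i + 1) * q ^ i‖
        ≤ ∑ i ∈ Finset.Ico j d, (21 / 20 * (1001 / 1000) : ℝ) := by
          refine Finset.sum_le_sum fun i hi => ?_
          rw [norm_mul, norm_pow]
          exact mul_le_mul (h.norm_le _)
            (pow_near hq hδ i (by have := Finset.mem_Ico.mp hi; omega)) (by positivity)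
            (by norm_num)
      _ = ((d - j : ℕ) : ℝ) * (21 / 20 * (1001 / 1000)) := by
          rw [Finset.sum_const, Nat.card_Ico, nsmul_eq_mul]
      _ ≤ _ := by
          refine mul_le_mul_of_nonneg_right ?_ (by norm_num)
          exact_mod_cast Nat.sub_le d j
  have h4 : ‖(1 - q) * ∑ i ∈ Finset.Ico j d, ρ (i + 1) * q ^ i‖
      ≤ 1 / 2000 * (21 / 20 * (1001 / 1000)) := by
    rw [norm_mul]
    calc ‖1 - q‖ * ‖∑ i ∈ Finset.Ico j d, ρ (i + 1) * q ^ i‖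
        ≤ δ * ((d : ℝ) * (21 / 20 * (1001 / 1000))) := mul_le_mul hq h3 (norm_nonneg _) hδ0
      _ = (d * δ) * (21 / 20 * (1001 / 1000)) := by ring
      _ ≤ _ := mul_le_mul_of_nonneg_right hδ (by norm_num)
  rw [e]
  calc ‖(ρ j - om ^ j) * q ^ j + om ^ j * (q ^ j - 1)
      - (1 - q) * ∑ i ∈ Finset.Ico j d, ρ (i + 1) * q ^ i‖
      ≤ ‖(ρ j - om ^ j) * q ^ j + om ^ j * (q ^ j - 1)‖
        + ‖(1 - q) * ∑ i ∈ Finset.Ico j d, ρ (i + 1) * q ^ i‖ := norm_sub_le _ _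
    _ ≤ (‖(ρ j - om ^ j) * q ^ j‖ + ‖om ^ j * (q ^ j - 1)‖)
        + ‖(1 - q) * ∑ i ∈ Finset.Ico j d, ρ (i + 1) * q ^ i‖ := by
        gcongr
        exact norm_add_le _ _
    _ ≤ (1 / 20 * (1001 / 1000) + 1 / 1000) + 1 / 2000 * (21 / 20 * (1001 / 1000)) := by
        gcongr
    _ ≤ 1 / 5 := by norm_num

theorem geo_Ico {R : Type*} [CommRing R] (x : R) {j d : ℕ} (hjd : j ≤ d) :
    (1 - x) * ∑ i ∈ Finset.Ico j d, x ^ i = x ^ j - x ^ d := by
  induction d, hjd using Nat.le_induction with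
  | base => simp
  | succ d hd ih =>
    rw [Finset.sum_Ico_succ_top hd, mul_add, ih]
    ring

/-- Lower bound for tails in the thin sector. -/
theorem BlockOK.tl_lower (h : BlockOK T d ρ) {q : ℂ} {ε : ℝ} (hq : ‖q‖ ≤ 1) (hre : 0 ≤ q.re)
    (him : |q.im| ≤ ε) (hε : (d : ℝ) * ε ≤ 1 / 4) (hε1 : ε ≤ 1 / 200) {j : ℕ} (hj : 1 ≤ j)
    (hjd : j ≤ d) :
    ‖q‖ ^ j / 10 ≤ ‖tl ρ d j q‖ := by
  have hε0 : 0 ≤ ε := (abs_nonneg _).trans him
  have hq0 : 0 ≤ ‖q‖ := norm_nonneg q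
  have hre1 : q.re ≤ 1 := (Complex.re_le_norm q).trans hq
  have hqle : ‖q‖ ≤ q.re + |q.im| := by
    have := Complex.norm_le_abs_re_add_abs_im q
    rwa [abs_of_nonneg hre] at this
  have hqre : q.re ≤ ‖q‖ := Complex.re_le_norm q
  have h1q : ‖1 - q‖ ≤ (1 - q.re) + |q.im| := by
    have := Complex.norm_le_abs_re_add_abs_im (1 - q)
    simp only [Complex.sub_re, Complex.one_re, Complex.sub_im, Complex.one_im, zero_sub,
      abs_neg] at this
    rwa [abs_of_nonneg (by linarith : (0 : ℝ) ≤ 1 - q.re)] at this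
  have h1q' : ‖1 - q‖ ≤ (1 - ‖q‖) + 2 * ε := by linarith
  have h1q'' : ‖1 - q‖ ≤ 201 / 200 := by linarith
  have hqj : 0 ≤ ‖q‖ ^ j := by positivity
  have hqdj : ‖q‖ ^ d ≤ ‖q‖ ^ j := pow_le_pow_of_le_one hq0 hq hjd
  have hqd : 0 ≤ ‖q‖ ^ d := by positivity
  -- geometric sums
  have hS0 : 0 ≤ ∑ i ∈ Finset.Ico j d, ‖q‖ ^ i := by positivity
  have hS1 : (1 - ‖q‖) * ∑ i ∈ Finset.Ico j d, ‖q‖ ^ i ≤ ‖q‖ ^ j := by
    rw [geo_Ico _ hjd]
    linarith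
  have hS2 : ∑ i ∈ Finset.Ico j d, ‖q‖ ^ i ≤ (d : ℝ) * ‖q‖ ^ j := by
    calc ∑ i ∈ Finset.Ico j d, ‖q‖ ^ i ≤ ∑ i ∈ Finset.Ico j d, ‖q‖ ^ j := by
          refine Finset.sum_le_sum fun i hi => pow_le_pow_of_le_one hq0 hq ?_
          have := Finset.mem_Ico.mp hi
          omega
      _ = ((d - j : ℕ) : ℝ) * ‖q‖ ^ j := by
          rw [Finset.sum_const, Nat.card_Ico, nsmul_eq_mul]
      _ ≤ _ := by
          refine mul_le_mul_of_nonneg_right ?_ (by positivity)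
          exact_mod_cast Nat.sub_le d j
  have hS3 : ‖1 - q‖ * ∑ i ∈ Finset.Ico j d, ‖q‖ ^ i ≤ 3 / 2 * ‖q‖ ^ j := by
    calc ‖1 - q‖ * ∑ i ∈ Finset.Ico j d, ‖q‖ ^ i
        ≤ ((1 - ‖q‖) + 2 * ε) * ∑ i ∈ Finset.Ico j d, ‖q‖ ^ i :=
          mul_le_mul_of_nonneg_right h1q' hS0
      _ = (1 - ‖q‖) * ∑ i ∈ Finset.Ico j d, ‖q‖ ^ i
          + 2 * ε * ∑ i ∈ Finset.Ico j d, ‖q‖ ^ i := by ring
      _ ≤ ‖q‖ ^ j + 2 * ε * ((d : ℝ) * ‖q‖ ^ j) := by
          have := mul_le_mul_of_nonneg_left hS2 (by linarith : 0 ≤ 2 * ε)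
          linarith
      _ = ‖q‖ ^ j + 2 * (d * ε) * ‖q‖ ^ j := by ring
      _ ≤ ‖q‖ ^ j + 2 * (1 / 4) * ‖q‖ ^ j := by
          have := mul_le_mul_of_nonneg_right hε hqj
          linarith
      _ = _ := by ring
  -- the main part
  set M := om ^ j * q ^ j - (1 - q) * ∑ i ∈ Finset.Ico j d, om ^ (i + 1) * q ^ i with hM
  have hMe : M * (1 - om * q) = (om * q) ^ j * (1 - om) + (1 - q) * om * (om * q) ^ d := by
    have h1 : ∑ i ∈ Finset.Ico j d, om ^ (i + 1) * q ^ i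
        = om * ∑ i ∈ Finset.Ico j d, (om * q) ^ i := by
      rw [Finset.mul_sum]
      refine Finset.sum_congr rfl fun i _ => ?_
      rw [mul_pow, pow_succ]; ring
    have h2 := geo_Ico (om * q) hjd
    rw [hM, h1, ← mul_pow]
    linear_combination (-(1 - q) * om) * h2
  have hMn : 34 / 100 * ‖q‖ ^ j ≤ ‖M‖ := by
    have h1 : ‖1 - om * q‖ ≤ 2 := by
      have := norm_sub_le (1 : ℂ) (om * q)
      rw [norm_one, norm_mul, om_norm, one_mul] at this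
      linarith
    have h2 : ‖M * (1 - om * q)‖ ≤ ‖M‖ * 2 := by
      rw [norm_mul]
      exact mul_le_mul_of_nonneg_left h1 (norm_nonneg _)
    have h3 : ‖q‖ ^ j * (17 / 10) ≤ ‖(om * q) ^ j * (1 - om)‖ := by
      rw [norm_mul, norm_pow, norm_mul, om_norm, one_mul]
      exact mul_le_mul_of_nonneg_left one_sub_om_norm hqj
    have h4 : ‖(1 - q) * om * (om * q) ^ d‖ ≤ 201 / 200 * ‖q‖ ^ j := by
      rw [norm_mul, norm_mul, om_norm, mul_one, norm_pow, norm_mul, om_norm, one_mul]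
      exact mul_le_mul h1q'' hqdj hqd (by norm_num)
    have h5 : ‖(om * q) ^ j * (1 - om)‖ - ‖(1 - q) * om * (om * q) ^ d‖
        ≤ ‖(om * q) ^ j * (1 - om) + (1 - q) * om * (om * q) ^ d‖ := by
      have := norm_sub_le ((om * q) ^ j * (1 - om) + (1 - q) * om * (om * q) ^ d)
        ((1 - q) * om * (om * q) ^ d)
      rw [add_sub_cancel_right] at this
      linarith
    rw [← hMe] at h5
    linarith
  -- the error
  have hE : tl ρ d j q - M = (ρ j - om ^ j) * q ^ j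
      - (1 - q) * ∑ i ∈ Finset.Ico j d, (ρ (i + 1) - om ^ (i + 1)) * q ^ i := by
    have h1 : ∑ i ∈ Finset.Ico j d, (ρ (i + 1) - om ^ (i + 1)) * q ^ i
        = ∑ i ∈ Finset.Ico j d, ρ (i + 1) * q ^ i
          - ∑ i ∈ Finset.Ico j d, om ^ (i + 1) * q ^ i := by
      rw [← Finset.sum_sub_distrib]
      exact Finset.sum_congr rfl fun i _ => by ring
    rw [h.tl_eq q hjd, h1, hM]
    ring
  have hEn : ‖tl ρ d j q - M‖ ≤ 1 / 8 * ‖q‖ ^ j := by
    rw [hE]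
    have h1 : ‖(ρ j - om ^ j) * q ^ j‖ ≤ 1 / 20 * ‖q‖ ^ j := by
      rw [norm_mul, norm_pow]
      exact mul_le_mul_of_nonneg_right (h.close j hj hjd) hqj
    have h2 : ‖∑ i ∈ Finset.Ico j d, (ρ (i + 1) - om ^ (i + 1)) * q ^ i‖
        ≤ 1 / 20 * ∑ i ∈ Finset.Ico j d, ‖q‖ ^ i := by
      refine (norm_sum_le _ _).trans ?_
      rw [Finset.mul_sum]
      refine Finset.sum_le_sum fun i hi => ?_
      rw [norm_mul, norm_pow]
      have := Finset.mem_Ico.mp hi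
      exact mul_le_mul_of_nonneg_right (h.close (i + 1) (by omega) (by omega)) (by positivity)
    have h3 := norm_sub_le ((ρ j - om ^ j) * q ^ j)
      ((1 - q) * ∑ i ∈ Finset.Ico j d, (ρ (i + 1) - om ^ (i + 1)) * q ^ i)
    rw [norm_mul (1 - q)] at h3
    have h4 := mul_le_mul_of_nonneg_left h2 (norm_nonneg (1 - q))
    linarith
  have h6 : ‖M‖ ≤ ‖tl ρ d j q‖ + ‖tl ρ d j q - M‖ := by
    have := norm_sub_le (tl ρ d j q) (tl ρ d j q - M)
    rwa [sub_sub_cancel] at this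
  linarith

end Pool.Agent.MPdf6699Lib
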