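import Pool.Agent.MPdf6699Lib.Base

/-!
The coefficient sequence attached to a chain, and its partial sums.
-/

namespace Pool.Agent.MPdf6699Lib

open Polynomial

/-- Coefficient of block `k` in degree `i`. -/
noncomputable def bc (n : ℕ → ℕ) (x C : ℕ → ℝ) (G : ℕ → ℂ[X]) (ρ : ℕ → ℕ → ℂ) (k i : ℕ) : ℂ :=
  if n k < i then 0 else C k * x k ^ (n k - i) * cf (ρ k) (n k - i) + (G (k + 1)).coeff i

/-- The coefficients of the series. -/
noncomputable def ser (n : ℕ → ℕ) (x C : ℕ → ℝ) (G : ℕ → ℂ[X]) (ρ : ℕ → ℕ → ℂ) (i : ℕ) : ℂ :=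
  (if i = 0 then 1 else 0) + ∑ k ∈ Finset.range (i + 1), bc n x C G ρ k i

/-- The sum of the first `k` blocks. -/
noncomputable def PP (T n : ℕ → ℕ) (x C : ℕ → ℝ) (G : ℕ → ℂ[X]) (ρ : ℕ → ℕ → ℂ)
    (k : ℕ) (z : ℂ) : ℂ :=
  ∑ j ∈ Finset.range (k + 1), (G j).eval z
    + ∑ j ∈ Finset.range k, C j * z ^ n j * tl (ρ j) ((T j) ^ 80) 0 (x j / z)

/-- Lower end of block `k`. -/
def lo (n : ℕ → ℕ) : ℕ → ℕ
  | 0 => 0
  | k + 1 => n k

theorem cf_of_lt {T d : ℕ} {ρ : ℕ → ℂ} (h : BlockOK T d ρ) {j : ℕ} (hj : d < j) : cf ρ j = 0 := by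
  unfold cf
  rw [h.top j hj, h.top (j + 1) (by omega), sub_zero]

section
variable {T n : ℕ → ℕ} {x y C : ℕ → ℝ} {G : ℕ → ℂ[X]} {ρ : ℕ → ℕ → ℂ}

theorem lo_lt (h : ChainOK T n x y C G) (k : ℕ) : lo n k + (T k) ^ 80 < n k := by
  cases k with
  | zero => simpa [lo] using h.n0
  | succ k => exact h.nstep k

theorem n_lt (h : ChainOK T n x y C G) (k : ℕ) : n k < n (k + 1) := by
  have := h.nstep k
  omega

theorem n_mono (h : ChainOK T n x y C G) : StrictMono n :=
  strictMono_nat_of_lt_succ (n_lt h)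

theorem k_lt_n (h : ChainOK T n x y C G) (k : ℕ) : k < n k := by
  induction k with
  | zero => have := h.n0; omega
  | succ k ih => have := n_lt h k; omega

theorem bc_low (h : ChainOK T n x y C G) (hρ : ∀ k, BlockOK (T k) ((T k) ^ 80) (ρ k)) {k i : ℕ}
    (hi : i + (T k) ^ 80 < n k) : bc n x C G ρ k i = 0 := by
  unfold bc
  rw [if_neg (by omega), cf_of_lt (hρ k) (by omega), h.Glow k i hi]
  ring

theorem bc_high {k i : ℕ} (hi : n k < i) : bc n x C G ρ k i = 0 := by
  unfold bc
  rw [if_pos hi]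

theorem ser_eq (h : ChainOK T n x y C G) (hρ : ∀ k, BlockOK (T k) ((T k) ^ 80) (ρ k)) {k i : ℕ}
    (h1 : lo n k < i) (h2 : i ≤ n k) : ser n x C G ρ i = bc n x C G ρ k i := by
  unfold ser
  rw [if_neg (by omega), zero_add]
  have hki : k ∈ Finset.range (i + 1) := by
    rw [Finset.mem_range]
    cases k with
    | zero => omega
    | succ k => have := k_lt_n h k; simp only [lo] at h1; omega
  refine Finset.sum_eq_single_of_mem k hki fun k' _ hk' => ?_
  rcases lt_or_gt_of_ne hk' with hlt | hgt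
  · apply bc_high
    cases k with
    | zero => omega
    | succ k =>
      simp only [lo] at h1
      have := (n_mono h).monotone (show k' ≤ k by omega)
      omega
  · apply bc_low h hρ
    have h3 := lo_lt h k'
    cases k' with
    | zero => omega
    | succ k' =>
      simp only [lo] at h3
      have := (n_mono h).monotone (show k ≤ k' by omega)
      omega

theorem ser_zero (h : ChainOK T n x y C G) (hρ : ∀ k, BlockOK (T k) ((T k) ^ 80) (ρ k)) :
    ser n x C G ρ 0 = 1 := by
  unfold ser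
  rw [if_pos rfl, Finset.sum_range_one, bc_low h hρ (by have := h.n0; omega), add_zero]

theorem sum_reflect_Ico (f : ℕ → ℂ) {N m : ℕ} (hN : N ≤ m) :
    ∑ i ∈ Finset.range (N + 1), f (m - i) = ∑ j ∈ Finset.Ico (m - N) (m + 1), f j := by
  refine Finset.sum_nbij' (fun i => m - i) (fun j => m - j) ?_ ?_ ?_ ?_ ?_
  · intro i hi
    rw [Finset.mem_range] at hi
    rw [Finset.mem_Ico]
    omega
  · intro j hj
    rw [Finset.mem_Ico] at hj
    rw [Finset.mem_range]
    omega
  · intro i hi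
    rw [Finset.mem_range] at hi
    omega
  · intro j hj
    rw [Finset.mem_Ico] at hj
    omega
  · intro i _
    rfl

theorem block_sum (h : ChainOK T n x y C G) (hρ : ∀ k, BlockOK (T k) ((T k) ^ 80) (ρ k))
    {z : ℂ} (hz : z ≠ 0) {k N : ℕ} (hN : N ≤ n k) :
    ∑ i ∈ Finset.range (N + 1), bc n x C G ρ k i * z ^ i
      = C k * z ^ n k * tl (ρ k) ((T k) ^ 80) (n k - N) (x k / z)
        + ∑ i ∈ Finset.range (N + 1), (G (k + 1)).coeff i * z ^ i := by
  have h1 : ∀ i ∈ Finset.range (N + 1), bc n x C G ρ k i * z ^ i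
      = C k * z ^ n k * (cf (ρ k) (n k - i) * (x k / z) ^ (n k - i))
        + (G (k + 1)).coeff i * z ^ i := by
    intro i hi
    rw [Finset.mem_range] at hi
    unfold bc
    rw [if_neg (by omega)]
    have h2 : z ^ n k = z ^ (n k - i) * z ^ i := by rw [← pow_add]; congr 1; omega
    rw [h2, div_pow]
    have h3 : z ^ (n k - i) ≠ 0 := pow_ne_zero _ hz
    field_simp
  rw [Finset.sum_congr rfl h1, Finset.sum_add_distrib, ← Finset.mul_sum,
    sum_reflect_Ico (fun j => cf (ρ k) j * (x k / z) ^ j) hN]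
  congr 2
  unfold tl
  symm
  refine Finset.sum_subset ?_ ?_
  · intro j hj
    rw [Finset.mem_Ico] at hj ⊢
    have := lo_lt h k
    omega
  · intro j hj hj'
    rw [Finset.mem_Ico] at hj hj'
    rw [cf_of_lt (hρ k) (by omega), zero_mul]

theorem sum_coeff_eq (h : ChainOK T n x y C G) (k : ℕ) (z : ℂ) :
    ∑ i ∈ Finset.range (n k + 1), (G (k + 1)).coeff i * z ^ i = (G (k + 1)).eval z := by
  rw [Polynomial.eval_eq_sum_range' (n := n k + 1) (by have := h.Gdeg k; omega)]

theorem partial_sum (h : ChainOK T n x y C G) (hρ : ∀ k, BlockOK (T k) ((T k) ^ 80) (ρ k))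
    {z : ℂ} (hz : z ≠ 0) (k : ℕ) : ∀ N, lo n k ≤ N → N ≤ n k →
    ∑ i ∈ Finset.range (N + 1), ser n x C G ρ i * z ^ i
      = PP T n x C G ρ k z + (C k * z ^ n k * tl (ρ k) ((T k) ^ 80) (n k - N) (x k / z)
        + ∑ i ∈ Finset.range (N + 1), (G (k + 1)).coeff i * z ^ i) := by
  induction k with
  | zero =>
    intro N _ hN'
    rw [← block_sum h hρ hz hN']
    have hPP : PP T n x C G ρ 0 z = 1 := by simp [PP, h.G0]
    rw [hPP]
    clear hPP
    induction N with
    | zero =>
      rw [Finset.sum_range_one, Finset.sum_range_one, ser_zero h hρ,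
        bc_low h hρ (by have := h.n0; omega)]
      ring
    | succ N ih =>
      rw [Finset.sum_range_succ, ih (by simp [lo]) (by omega),
        Finset.sum_range_succ (fun i => bc n x C G ρ 0 i * z ^ i) (N + 1),
        ser_eq h hρ (k := 0) (by simp [lo]) hN']
      ring
  | succ k ihk =>
    intro N hN hN'
    rw [← block_sum h hρ hz hN']
    induction N, hN using Nat.le_induction with
    | base =>
      have h1 := ihk (n k) (by have := lo_lt h k; omega) le_rfl
      simp only [lo] at hN' ⊢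
      rw [h1, Nat.sub_self, sum_coeff_eq h k z]
      have h2 : ∑ i ∈ Finset.range (n k + 1), bc n x C G ρ (k + 1) i * z ^ i = 0 := by
        refine Finset.sum_eq_zero fun i hi => ?_
        rw [Finset.mem_range] at hi
        rw [bc_low h hρ (by have := h.nstep k; omega), zero_mul]
      rw [h2]
      unfold PP
      rw [Finset.sum_range_succ (fun j => (G j).eval z) (k + 1),
        Finset.sum_range_succ (fun j => C j * z ^ n j * tl (ρ j) ((T j) ^ 80) 0 (x j / z)) k]
      ring
    | succ N hN ih =>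
      rw [Finset.sum_range_succ, ih (by omega),
        Finset.sum_range_succ (fun i => bc n x C G ρ (k + 1) i * z ^ i) (N + 1),
        ser_eq h hρ (k := k + 1) (by omega) hN']
      ring

/-- Every degree lies in some block. -/
theorem exists_block (h : ChainOK T n x y C G) (N : ℕ) : ∃ k, lo n k ≤ N ∧ N ≤ n k := by
  classical
  have hex : ∃ k, N ≤ n k := ⟨N, (k_lt_n h N).le⟩
  refine ⟨Nat.find hex, ?_, Nat.find_spec hex⟩
  rcases hk : Nat.find hex with _ | k
  · simp [lo]
  · have := Nat.find_min hex (m := k) (by omega)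
    simp only [lo]
    omega

theorem ser_top (h : ChainOK T n x y C G) (hρ : ∀ k, BlockOK (T k) ((T k) ^ 80) (ρ k)) (k : ℕ) :
    1 / 2 * C k ≤ ‖ser n x C G ρ (n k)‖ := by
  rw [ser_eq h hρ (k := k) (by have := lo_lt h k; omega) le_rfl]
  unfold bc
  rw [if_neg (lt_irrefl _), Nat.sub_self, pow_zero, mul_one]
  have hT : 1 ≤ (T k) ^ 80 := Nat.one_le_pow _ _ (by have := h.hT k; omega)
  have hC := h.Cpos k
  have hx : 0 < x k := by
    have h1 := h.xlow k
    have h2 : (0 : ℝ) < (T k : ℝ) := by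
      have := h.hT k
      have h3 : 0 < T k := by omega
      exact_mod_cast h3
    have h3 : (0 : ℝ) < (T k : ℝ) ^ 100 := by positivity
    linarith
  have hcf : 19 / 20 ≤ ‖cf (ρ k) 0‖ := by
    unfold cf
    rw [(hρ k).zero, zero_sub, norm_neg, zero_add]
    have h1 := (hρ k).close 1 le_rfl hT
    rw [pow_one] at h1
    have h2 : ‖om‖ = 1 := by
      have h : ‖om‖ ^ 2 = 1 := by
        rw [Complex.sq_norm, Complex.normSq_apply]
        have h : Real.sqrt 3 * Real.sqrt 3 = 3 := Real.mul_self_sqrt (by norm_num)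
        simp only [om]
        nlinarith
      nlinarith [norm_nonneg om]
    have h3 := norm_sub_norm_le om (om - ρ k 1)
    rw [sub_sub_cancel, norm_sub_rev] at h3
    linarith
  have hG : ‖(G (k + 1)).coeff (n k)‖ ≤ 1 / 1000 * C k := by
    have h1 := h.Gsum k
    have h2 : ‖(G (k + 1)).coeff (n k)‖ * x k ^ n k
        ≤ ∑ i ∈ Finset.range (n k + 1), ‖(G (k + 1)).coeff i‖ * x k ^ i :=
      Finset.single_le_sum (f := fun i => ‖(G (k + 1)).coeff i‖ * x k ^ i)
        (fun i _ => by positivity) (Finset.mem_range.mpr (Nat.lt_succ_self _))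
    have h3 : ‖(G (k + 1)).coeff (n k)‖ * x k ^ n k ≤ (1 / 1000 * C k) * x k ^ n k := by
      linarith
    exact le_of_mul_le_mul_right h3 (by positivity)
  have h1 : ‖(C k : ℂ) * cf (ρ k) 0‖ = C k * ‖cf (ρ k) 0‖ := by
    rw [norm_mul, Complex.norm_real, Real.norm_eq_abs, abs_of_pos hC]
  have h2 := norm_sub_le ((C k : ℂ) * cf (ρ k) 0 + (G (k + 1)).coeff (n k))
    ((G (k + 1)).coeff (n k))
  rw [add_sub_cancel_right, h1] at h2
  nlinarith

end

end Pool.Agent.MPdf6699Lib
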