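import Pool.Agent.MPdf6699Lib.AsmC1

/-!
Abstract summation lemmas and numerical facts used in the assembly.
-/

namespace Pool.Agent.MPdf6699Lib

open Polynomial

theorem up_sum {g : ℕ → ℝ} (k : ℕ) (h : ∀ j < k, g j ≤ 1 / 20 * g (j + 1)) (h0 : ∀ j, 0 ≤ g j) :
    ∑ j ∈ Finset.range k, g j ≤ 1 / 19 * g k := by
  induction k with
  | zero =>
    rw [Finset.sum_range_zero]
    have := h0 0
    positivity
  | succ k ih =>
    rw [Finset.sum_range_succ]
    have h1 := ih fun j hj => h j (by omega)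
    have h2 := h k (by omega)
    linarith

theorem pair_lower {u v : ℂ} (h : ‖v‖ ≤ 1 / 20 * ‖u‖ ∨ 0 ≤ (v * (starRingEnd ℂ) u).re) :
    7 / 10 * (‖u‖ + ‖v‖) ≤ ‖u + v‖ := by
  rcases h with h | h
  · have := norm_sub_le (u + v) v
    rw [add_sub_cancel_right] at this
    linarith [norm_nonneg u, norm_nonneg v]
  · have h1 : ‖u + v‖ ^ 2 = ‖u‖ ^ 2 + ‖v‖ ^ 2 + 2 * (v * (starRingEnd ℂ) u).re := by
      rw [Complex.sq_norm, Complex.sq_norm, Complex.sq_norm, Complex.normSq_apply,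
        Complex.normSq_apply, Complex.normSq_apply]
      simp only [Complex.add_re, Complex.add_im, Complex.mul_re, Complex.conj_re, Complex.conj_im]
      ring
    have h2 : 0 ≤ ‖u‖ := norm_nonneg _
    have h3 : 0 ≤ ‖v‖ := norm_nonneg _
    have h4 : (7 / 10 * (‖u‖ + ‖v‖)) ^ 2 ≤ ‖u + v‖ ^ 2 := by
      rw [h1]
      nlinarith [sq_nonneg (‖u‖ - ‖v‖)]
    exact le_of_sq_le_sq h4 (norm_nonneg _)

theorem main_lower_abs {w : ℕ → ℂ} {i : ℕ} (h1 : ∀ j < i, ‖w j‖ ≤ 1 / 20 * ‖w (j + 1)‖)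
    (h2 : ∀ j, i < j → ‖w (j + 1)‖ ≤ 1 / 20 * ‖w j‖)
    (h3 : ‖w (i + 1)‖ ≤ 1 / 20 * ‖w i‖ ∨ 0 ≤ (w (i + 1) * (starRingEnd ℂ) (w i)).re) (k : ℕ) :
    3 / 5 * ∑ j ∈ Finset.range (k + 1), ‖w j‖ ≤ ‖∑ j ∈ Finset.range (k + 1), w j‖ := by
  rcases le_or_gt k i with hki | hki
  · have h4 := up_sum (g := fun j => ‖w j‖) k (fun j hj => h1 j (by omega)) (fun _ => norm_nonneg _)
    rw [Finset.sum_range_succ, Finset.sum_range_succ]
    have h5 := norm_sub_le (∑ j ∈ Finset.range k, w j + w k) (∑ j ∈ Finset.range k, w j)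
    rw [add_sub_cancel_left] at h5
    have h6 := norm_sum_le (Finset.range k) w
    linarith [norm_nonneg (w k)]
  · have hA : ∀ k, i + 1 ≤ k → ∑ j ∈ Finset.range (k + 1), ‖w j‖
        ≤ 20 / 19 * (‖w i‖ + ‖w (i + 1)‖) - 1 / 19 * ‖w k‖ := by
      intro k hk
      induction k, hk using Nat.le_induction with
      | base =>
        have h4 := up_sum (g := fun j => ‖w j‖) i h1 (fun _ => norm_nonneg _)
        rw [Finset.sum_range_succ, Finset.sum_range_succ]
        linarith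
      | succ k hk ih =>
        rw [Finset.sum_range_succ]
        have := h2 k (by omega)
        linarith
    have hB : ∀ k, i + 1 ≤ k → 7 / 10 * (‖w i‖ + ‖w (i + 1)‖)
        - 1 / 19 * (‖w i‖ + ‖w (i + 1)‖ - ‖w k‖) ≤ ‖∑ j ∈ Finset.range (k + 1), w j‖ := by
      intro k hk
      induction k, hk using Nat.le_induction with
      | base =>
        have h4 := up_sum (g := fun j => ‖w j‖) i h1 (fun _ => norm_nonneg _)
        have h5 := pair_lower h3
        rw [Finset.sum_range_succ, Finset.sum_range_succ]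
        have h6 := norm_sub_le (∑ j ∈ Finset.range i, w j + w i + w (i + 1))
          (∑ j ∈ Finset.range i, w j)
        have e : ∑ j ∈ Finset.range i, w j + w i + w (i + 1) - ∑ j ∈ Finset.range i, w j
          = w i + w (i + 1) := by ring
        rw [e] at h6
        have h7 := norm_sum_le (Finset.range i) w
        linarith
      | succ k hk ih =>
        rw [Finset.sum_range_succ]
        have h4 := h2 k (by omega)
        have h5 := norm_sub_le (∑ j ∈ Finset.range (k + 1), w j + w (k + 1)) (w (k + 1))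
        rw [add_sub_cancel_right] at h5
        linarith
    have h4 := hA k (by omega)
    have h5 := hB k (by omega)
    linarith [norm_nonneg (w k), norm_nonneg (w i), norm_nonneg (w (i + 1))]

theorem sum_three {g b : ℕ → ℝ} (h0 : ∀ j, 0 ≤ g j) (K : ℕ)
    (hb : ∀ j < K, b j ≤ 1 / 50 * (g j + g (j + 1) + g (j + 2))) :
    ∑ j ∈ Finset.range K, b j ≤ 3 / 50 * ∑ j ∈ Finset.range (K + 2), g j := by
  have h1 : ∑ j ∈ Finset.range K, b j ≤ ∑ j ∈ Finset.range K,
      1 / 50 * (g j + g (j + 1) + g (j + 2)) :=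
    Finset.sum_le_sum fun j hj => hb j (Finset.mem_range.mp hj)
  rw [← Finset.mul_sum, Finset.sum_add_distrib, Finset.sum_add_distrib] at h1
  have h2 := Finset.sum_range_succ g K
  have h3 := Finset.sum_range_succ g (K + 1)
  have h4 := Finset.sum_range_succ' g K
  have h5 := Finset.sum_range_succ' g (K + 1)
  have h6 := Finset.sum_range_succ' (fun j => g (j + 1)) K
  have := h0 0
  have := h0 1
  have := h0 K
  have := h0 (K + 1)
  simp only [Nat.add_assoc] at *
  norm_num at *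
  linarith

theorem sum_three' {g b : ℕ → ℝ} (h0 : ∀ j, 0 ≤ g j) (K : ℕ)
    (hb : ∀ j < K, b j ≤ 1 / 50 * (g j + g (j + 1) + g (j + 2)))
    (hK : b K ≤ 1 / 50 * (g K + g (K + 1))) :
    ∑ j ∈ Finset.range (K + 1), b j ≤ 3 / 50 * ∑ j ∈ Finset.range (K + 2), g j := by
  have h1 : ∑ j ∈ Finset.range K, b j ≤ ∑ j ∈ Finset.range K,
      1 / 50 * (g j + g (j + 1) + g (j + 2)) :=
    Finset.sum_le_sum fun j hj => hb j (Finset.mem_range.mp hj)
  rw [← Finset.mul_sum, Finset.sum_add_distrib, Finset.sum_add_distrib] at h1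
  have h2 := Finset.sum_range_succ g K
  have h3 := Finset.sum_range_succ g (K + 1)
  have h4 := Finset.sum_range_succ' g K
  have h5 := Finset.sum_range_succ' g (K + 1)
  have h6 := Finset.sum_range_succ' (fun j => g (j + 1)) K
  have h7 := Finset.sum_range_succ b K
  have := h0 0
  have := h0 1
  have := h0 K
  have := h0 (K + 1)
  simp only [Nat.add_assoc] at *
  norm_num at *
  linarith

/-! ### numerical facts -/

theorem num_pow_le {t : ℝ} (ht : (10 : ℝ) ^ 10 ≤ t) {a b : ℕ} (hab : a ≤ b) : t ^ a ≤ t ^ b :=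
  pow_le_pow_right₀ (by linarith [show (1 : ℝ) ≤ 10 ^ 10 by norm_num]) hab

theorem num_le_pow {t : ℝ} (ht : (10 : ℝ) ^ 10 ≤ t) (a : ℕ) (ha : 1 ≤ a) : (10 : ℝ) ^ 10 ≤ t ^ a := by
  have := num_pow_le ht ha
  rw [pow_one] at this
  linarith

theorem num_exp_small {s : ℝ} (hs : 10000 ≤ s) : Real.exp (-s) ≤ 1 / 10000 := by
  rw [Real.exp_neg, ← one_div]
  apply one_div_le_one_div_of_le (by norm_num)
  have := Real.add_one_le_exp s
  linarith

theorem num_exp_big {s : ℝ} (hs : (10 : ℝ) ^ 10 ≤ s) :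
    3000 * (s ^ 80 + 1) ≤ Real.exp (6 * s ^ 17) := by
  have hs0 : 0 < s := by linarith [show (0 : ℝ) < 10 ^ 10 by norm_num]
  have h1 : s ≤ Real.exp s := by have := Real.add_one_le_exp s; linarith
  have h2 : s ^ 80 ≤ Real.exp (80 * s) := by
    have := pow_le_pow_left₀ hs0.le h1 80
    rwa [← Real.exp_nat_mul] at this
  have h3 : (1 : ℝ) ≤ s ^ 80 := one_le_pow₀ (by linarith [show (1 : ℝ) ≤ 10 ^ 10 by norm_num])
  have h4 : 3000 * (s ^ 80 + 1) ≤ s * s ^ 80 := by
    have : (6000 : ℝ) ≤ s := by linarith [show (6000 : ℝ) ≤ 10 ^ 10 by norm_num]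
    nlinarith
  calc 3000 * (s ^ 80 + 1) ≤ s * s ^ 80 := h4
    _ ≤ Real.exp s * Real.exp (80 * s) := mul_le_mul h1 h2 (by positivity) (Real.exp_pos _).le
    _ = Real.exp (s + 80 * s) := by rw [Real.exp_add]
    _ ≤ _ := by
      apply Real.exp_le_exp.mpr
      have h5 := num_le_pow hs 16 (by norm_num)
      have h6 : s ^ 17 = s ^ 16 * s := by ring
      rw [h6]
      nlinarith [show (100 : ℝ) ≤ 10 ^ 10 by norm_num]

end Pool.Agent.MPdf6699Lib
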