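import Pool.Agent.MPdf6699Lib.AsmC2
import Pool.Agent.MPdf6699Lib.AsmC3

/-!
Size of the complete blocks.
-/

namespace Pool.Agent.MPdf6699Lib

open Polynomial

section
variable {T n : ℕ → ℕ} {x y C : ℕ → ℝ} {G : ℕ → ℂ[X]} {ρ : ℕ → ℕ → ℂ}

/-- The block term. -/
noncomputable def bt (T n : ℕ → ℕ) (x C : ℕ → ℝ) (ρ : ℕ → ℕ → ℂ) (j : ℕ) (z : ℂ) : ℂ :=
  C j * z ^ n j * tl (ρ j) ((T j) ^ 80) 0 (x j / z)

/-- The far zone of block `j`. -/
def Far (T : ℕ → ℕ) (x : ℕ → ℝ) (j : ℕ) (z : ℂ) : Prop :=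
  x j * (1 + 1 / (5 * (T j : ℝ) ^ 58)) ≤ z.re ∧ 1 / (4 * (T j : ℝ) ^ 58) ≤ ‖1 - (x j : ℂ) / z‖

theorem t_ge (h : ChainOK T n x y C G) (k : ℕ) : (10 : ℝ) ^ 10 ≤ (T k : ℝ) := by
  exact_mod_cast h.hT k

theorem x_ge (h : ChainOK T n x y C G) (k : ℕ) : (10 : ℝ) ^ 10 ≤ x k :=
  (num_le_pow (t_ge h k) 100 (by norm_num)).trans (h.xlow k)

theorem strip_ne {z : ℂ} (hz : z ∈ Strip) : z ≠ 0 := by
  intro h0
  rw [h0] at hz
  exact lt_irrefl _ hz.1

theorem strip_norm {z : ℂ} (hz : z ∈ Strip) : 0 < z.re ∧ z.re ≤ ‖z‖ ∧ ‖z‖ ≤ z.re + 1 / 10 := by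
  refine ⟨hz.1, Complex.re_le_norm z, ?_⟩
  have h1 := Complex.norm_le_abs_re_add_abs_im z
  rw [abs_of_pos hz.1] at h1
  have := hz.2
  linarith

theorem q_norm {x : ℝ} (hx : 0 < x) (z : ℂ) : ‖(x : ℂ) / z‖ = x / ‖z‖ := by
  rw [norm_div, Complex.norm_real, Real.norm_eq_abs, abs_of_pos hx]

theorem one_sub_q {x : ℝ} {z : ℂ} (hz : z ≠ 0) : ‖1 - (x : ℂ) / z‖ = ‖z - x‖ / ‖z‖ := by
  rw [← norm_div]
  congr 1
  field_simp

theorem zx_norm {x : ℝ} {z : ℂ} (hz : z ∈ Strip) : ‖z - x‖ ≤ |z.re - x| + 1 / 10 := by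
  have h1 := Complex.norm_le_abs_re_add_abs_im (z - x)
  simp only [Complex.sub_re, Complex.ofReal_re, Complex.sub_im, Complex.ofReal_im, sub_zero] at h1
  have := hz.2
  linarith

theorem near_delta (h : ChainOK T n x y C G) {z : ℂ} (hz : z ∈ Strip) {k : ℕ}
    (hk : |z.re - x k| ≤ 100) : ‖1 - (x k : ℂ) / z‖ ≤ 200 / (T k : ℝ) ^ 100 := by
  have ht := t_ge h k
  have hx := h.xlow k
  have h1 := num_le_pow ht 100 (by norm_num)
  obtain ⟨h2, h3, h4⟩ := strip_norm hz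
  rw [one_sub_q (strip_ne hz)]
  have h5 := zx_norm (x := x k) hz
  have h6 := (abs_le.mp hk).1
  have h7 : 9 / 10 * (T k : ℝ) ^ 100 ≤ ‖z‖ := by
    nlinarith [show (10000 : ℝ) ≤ 10 ^ 10 by norm_num]
  have h8 : 0 < (T k : ℝ) ^ 100 := by linarith [show (0 : ℝ) < 10 ^ 10 by norm_num]
  rw [div_le_div_iff₀ (by linarith) h8]
  nlinarith

theorem delta_small (h : ChainOK T n x y C G) (k : ℕ) :
    (((T k) ^ 80 : ℕ) : ℝ) * (200 / (T k : ℝ) ^ 100) ≤ 1 / 2000 := by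
  have ht := t_ge h k
  have h0 : (0 : ℝ) < T k := by linarith [show (0 : ℝ) < 10 ^ 10 by norm_num]
  have h1 := num_le_pow ht 20 (by norm_num)
  have h2 : (T k : ℝ) ^ 100 = (T k : ℝ) ^ 80 * (T k : ℝ) ^ 20 := by ring
  have h3 : 0 < (T k : ℝ) ^ 80 := by positivity
  push_cast
  rw [h2]
  have h4 : (T k : ℝ) ^ 80 * (200 / ((T k : ℝ) ^ 80 * (T k : ℝ) ^ 20)) = 200 / (T k : ℝ) ^ 20 := by
    field_simp
  rw [h4, div_le_div_iff₀ (by positivity) (by norm_num)]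
  nlinarith [show (400000 : ℝ) ≤ 10 ^ 10 by norm_num]

theorem delta_le (h : ChainOK T n x y C G) (k : ℕ) :
    200 / (T k : ℝ) ^ 100 ≤ 1 / (4 * (T k : ℝ) ^ 58) := by
  have ht := t_ge h k
  have h0 : (0 : ℝ) < T k := by linarith [show (0 : ℝ) < 10 ^ 10 by norm_num]
  have h1 := num_le_pow ht 42 (by norm_num)
  have h2 : (T k : ℝ) ^ 100 = (T k : ℝ) ^ 58 * (T k : ℝ) ^ 42 := by ring
  have h3 : 0 < (T k : ℝ) ^ 58 := by positivity
  rw [div_le_div_iff₀ (by positivity) (by positivity), h2]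
  nlinarith [show (800 : ℝ) ≤ 10 ^ 10 by norm_num]

/-- `x k / (5 T^58)` is larger than the step. -/
theorem step_lt (h : ChainOK T n x y C G) (k : ℕ) :
    x (k + 1) + 1000 < x k * (1 + 1 / (5 * (T k : ℝ) ^ 58)) := by
  have ht := t_ge h k
  have h0 : (0 : ℝ) < T k := by linarith [show (0 : ℝ) < 10 ^ 10 by norm_num]
  have h1 := h.xstep k
  have hx := h.xlow k
  have h3 : 0 < (T k : ℝ) ^ 58 := by positivity
  have h4 : (T k : ℝ) ^ 42 / 5 ≤ x k * (1 / (5 * (T k : ℝ) ^ 58)) := by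
    rw [mul_one_div, div_le_div_iff₀ (by norm_num) (by positivity)]
    have h2 : (T k : ℝ) ^ 100 = (T k : ℝ) ^ 42 * (T k : ℝ) ^ 58 := by ring
    rw [h2] at hx
    nlinarith
  have h5 : (T k : ℝ) ^ 42 = (T k : ℝ) ^ 17 * (T k : ℝ) ^ 25 := by ring
  have h6 := num_le_pow ht 25 (by norm_num)
  have h7 := num_le_pow ht 17 (by norm_num)
  rw [h5] at h4
  nlinarith [show (10000 : ℝ) ≤ 10 ^ 10 by norm_num, mul_le_mul_of_nonneg_left h6 (by positivity : (0:ℝ) ≤ (T k : ℝ) ^ 17)]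

theorem far_re (h : ChainOK T n x y C G) {z : ℂ} {j : ℕ} (hf : Far T x j z) :
    x (j + 1) + 1000 < z.re :=
  (step_lt h j).trans_le hf.1

theorem max_pow_near {q : ℂ} {δ : ℝ} {d : ℕ} (hq : ‖1 - q‖ ≤ δ) (hδ : (d : ℝ) * δ ≤ 1 / 2000) :
    max 1 ‖q‖ ^ d ≤ 1001 / 1000 := by
  rcases le_total 1 ‖q‖ with h1 | h1
  · rw [max_eq_right h1]
    exact pow_near hq hδ d le_rfl
  · rw [max_eq_left h1, one_pow]
    norm_num

theorem near_bound (h : ChainOK T n x y C G) (hρ : ∀ k, BlockOK (T k) ((T k) ^ 80) (ρ k))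
    {z : ℂ} (hz : z ∈ Strip) {j : ℕ} (hf : ¬ Far T x j z) :
    ‖bt T n x C ρ j z‖ ≤ 1 / 50 * (‖(G j).eval z‖ + ‖(G (j + 1)).eval z‖) := by
  have ht := t_ge h j
  have h0 : (0 : ℝ) < T j := by linarith [show (0 : ℝ) < 10 ^ 10 by norm_num]
  have hx := x_ge h j
  have hx0 : 0 < x j := by linarith [show (0 : ℝ) < 10 ^ 10 by norm_num]
  obtain ⟨hre, hzre, hzre'⟩ := strip_norm hz
  have hz0 := strip_ne hz
  have hzn : 0 < ‖z‖ := norm_pos_iff.mpr hz0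
  have hg0 : 0 ≤ ‖(G j).eval z‖ := norm_nonneg _
  have hg1 : 0 ≤ ‖(G (j + 1)).eval z‖ := norm_nonneg _
  have h17 := num_le_pow ht 17 (by norm_num)
  have hm0 : 0 ≤ ‖(C j : ℂ) * z ^ n j‖ := norm_nonneg _
  unfold bt
  rw [norm_mul]
  rcases le_or_gt z.re (x j - 100) with hA | hA
  · -- left of the zone
    have h1 := h.T2 j z hz hA
    have hq : 1 ≤ ‖(x j : ℂ) / z‖ := by
      rw [q_norm hx0, one_le_div hzn]
      linarith
    have h2 := (hρ j).tl_out hq 0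
    push_cast at h2
    have h3 := mul_le_mul_of_nonneg_left h2 hm0
    have e : ‖(C j : ℂ) * z ^ n j‖ * (21 / 20 * (‖(x j : ℂ) / z‖ ^ T j ^ 80
        * (1 + (T j : ℝ) ^ 80 * ‖1 - (x j : ℂ) / z‖)))
      = 21 / 20 * (‖(C j : ℂ) * z ^ n j‖ * ‖(x j : ℂ) / z‖ ^ T j ^ 80
        * (1 + (T j : ℝ) ^ 80 * ‖1 - (x j : ℂ) / z‖)) := by ring
    rw [e] at h3
    linarith
  · rcases le_or_gt z.re (x j + 100) with hB | hB
    · -- the middle zone
      have hk : |z.re - x j| ≤ 100 := abs_le.mpr ⟨by linarith, by linarith⟩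
      have hδ := near_delta h hz hk
      have hs := (hρ j).small _ (hδ.trans (delta_le h j))
      have hmax := max_pow_near hδ (delta_small h j)
      have h1 := h.T1 j z hz hk
      have h2 : ‖Complex.exp (-(z - x j))‖ = Real.exp (-(z.re - x j)) := by
        rw [Complex.norm_exp]
        simp
      have h3 : ‖(C j : ℂ) * z ^ n j * Complex.exp (-(z - x j))‖ ≤ 20 / 19 * ‖(G j).eval z‖ := by
        have := norm_sub_norm_le ((C j : ℂ) * z ^ n j * Complex.exp (-(z - x j)))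
          ((C j : ℂ) * z ^ n j * Complex.exp (-(z - x j)) - (G j).eval z)
        rw [sub_sub_cancel, norm_sub_rev _ ((G j).eval z)] at this
        linarith
      rw [norm_mul, h2] at h3
      have h4 : Real.exp (-100) ≤ Real.exp (-(z.re - x j)) :=
        Real.exp_le_exp.mpr (by linarith)
      have h5 : ‖(C j : ℂ) * z ^ n j‖ * Real.exp (-100) ≤ 20 / 19 * ‖(G j).eval z‖ :=
        (mul_le_mul_of_nonneg_left h4 hm0).trans h3
      have h6 : Real.exp (-(20 * (T j : ℝ) ^ 17)) ≤ Real.exp (-100) * (1 / 10000) := by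
        have h7 : Real.exp (-(20 * (T j : ℝ) ^ 17))
            = Real.exp (-100) * Real.exp (-(20 * (T j : ℝ) ^ 17 - 100)) := by
          rw [← Real.exp_add]; congr 1; ring
        rw [h7]
        refine mul_le_mul_of_nonneg_left (num_exp_small ?_) (Real.exp_pos _).le
        nlinarith [show (10000 : ℝ) ≤ 10 ^ 10 by norm_num]
      have h7 : ‖tl (ρ j) (T j ^ 80) 0 ((x j : ℂ) / z)‖
          ≤ Real.exp (-100) * (1 / 10000) * (1001 / 1000) :=
        hs.trans (mul_le_mul h6 hmax (by positivity) (by positivity))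
      calc ‖(C j : ℂ) * z ^ n j‖ * ‖tl (ρ j) (T j ^ 80) 0 ((x j : ℂ) / z)‖
          ≤ ‖(C j : ℂ) * z ^ n j‖ * (Real.exp (-100) * (1 / 10000) * (1001 / 1000)) :=
            mul_le_mul_of_nonneg_left h7 hm0
        _ = (‖(C j : ℂ) * z ^ n j‖ * Real.exp (-100)) * ((1 / 10000) * (1001 / 1000)) := by ring
        _ ≤ (20 / 19 * ‖(G j).eval z‖) * ((1 / 10000) * (1001 / 1000)) :=
            mul_le_mul_of_nonneg_right h5 (by norm_num)
        _ ≤ _ := by linarith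
    · -- right of the zone
      have hq : ‖(x j : ℂ) / z‖ ≤ 1 := by
        rw [q_norm hx0, div_le_one hzn]
        linarith
      rcases le_or_gt ‖1 - (x j : ℂ) / z‖ (1 / (4 * (T j : ℝ) ^ 58)) with hC | hC
      · have hs := (hρ j).small _ hC
        rw [max_eq_left hq, one_pow, mul_one] at hs
        have h1 := h.B1 j z hz
        calc ‖(C j : ℂ) * z ^ n j‖ * ‖tl (ρ j) (T j ^ 80) 0 ((x j : ℂ) / z)‖
            ≤ (Real.exp (4 * (T j : ℝ) ^ 17) * ‖(G (j + 1)).eval z‖)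
              * Real.exp (-(20 * (T j : ℝ) ^ 17)) :=
              mul_le_mul h1 hs (norm_nonneg _) (by positivity)
          _ = Real.exp (-(16 * (T j : ℝ) ^ 17)) * ‖(G (j + 1)).eval z‖ := by
              have e : Real.exp (-(16 * (T j : ℝ) ^ 17))
                = Real.exp (4 * (T j : ℝ) ^ 17) * Real.exp (-(20 * (T j : ℝ) ^ 17)) := by
                rw [← Real.exp_add]; congr 1; ring
              rw [e]; ring
          _ ≤ 1 / 10000 * ‖(G (j + 1)).eval z‖ := by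
              refine mul_le_mul_of_nonneg_right (num_exp_small ?_) (norm_nonneg _)
              nlinarith [show (10000 : ℝ) ≤ 10 ^ 10 by norm_num]
          _ ≤ _ := by linarith
      · exfalso
        apply hf
        refine ⟨?_, hC.le⟩
        rw [one_sub_q hz0, lt_div_iff₀ hzn] at hC
        have h1 := zx_norm (x := x j) hz
        rw [abs_of_pos (by linarith)] at h1
        have h2 : x j * (1 / (4 * (T j : ℝ) ^ 58)) ≤ 1 / (4 * (T j : ℝ) ^ 58) * ‖z‖ := by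
          rw [mul_comm]
          exact mul_le_mul_of_nonneg_left (by linarith) (by positivity)
        have h3 : x j * (1 / (4 * (T j : ℝ) ^ 58)) = 5 / 4 * (x j * (1 / (5 * (T j : ℝ) ^ 58))) := by
          field_simp
        have h4 : (10 : ℝ) ^ 10 / 5 ≤ x j * (1 / (5 * (T j : ℝ) ^ 58)) := by
          rw [mul_one_div, div_le_div_iff₀ (by norm_num) (by positivity)]
          have h5 : (T j : ℝ) ^ 100 = (T j : ℝ) ^ 42 * (T j : ℝ) ^ 58 := by ring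
          have h6 := h.xlow j
          rw [h5] at h6
          have h7 := num_le_pow ht 42 (by norm_num)
          have h8 : 0 < (T j : ℝ) ^ 58 := by positivity
          nlinarith
        rw [mul_add, mul_one]
        nlinarith [show (10000 : ℝ) ≤ 10 ^ 10 by norm_num]

theorem far_bound (h : ChainOK T n x y C G) (hρ : ∀ k, BlockOK (T k) ((T k) ^ 80) (ρ k))
    {z : ℂ} (hz : z ∈ Strip) {j : ℕ} (hf : Far T x j z) :
    1000 * ‖bt T n x C ρ j z‖ ≤ ‖(x (j + 1) : ℂ) / z‖ ^ (T (j + 1)) ^ 80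
      * ‖(C (j + 1) : ℂ) * z ^ n (j + 1)‖ ∧
    1000 * ‖bt T n x C ρ j z‖ ≤ ‖(G (j + 2)).eval z‖ := by
  have ht := t_ge h j
  have hs := t_ge h (j + 1)
  have h0 : (0 : ℝ) < T j := by linarith [show (0 : ℝ) < 10 ^ 10 by norm_num]
  have hx := x_ge h j
  have hx0 : 0 < x j := by linarith [show (0 : ℝ) < 10 ^ 10 by norm_num]
  have hx1 := x_ge h (j + 1)
  have hx10 : 0 < x (j + 1) := by linarith [show (0 : ℝ) < 10 ^ 10 by norm_num]
  obtain ⟨hre, hzre, hzre'⟩ := strip_norm hz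
  have hz0 := strip_ne hz
  have hzn : 0 < ‖z‖ := norm_pos_iff.mpr hz0
  have hfar := far_re h hf
  have hxx : x j < x (j + 1) := by have := h.xy j; have := h.yx j; linarith
  have hq : ‖(x j : ℂ) / z‖ ≤ 1 := by
    rw [q_norm hx0, div_le_one hzn]
    linarith
  have hq1 : ‖(x (j + 1) : ℂ) / z‖ ≤ 1 := by
    rw [q_norm hx10, div_le_one hzn]
    linarith
  have h1 := (hρ j).tl_in hq 0
  push_cast at h1
  have h2 : (T j : ℝ) ^ 80 ≤ (T (j + 1) : ℝ) ^ 80 :=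
    pow_le_pow_left₀ h0.le (by exact_mod_cast h.Tmono j) 80
  have h3 := num_exp_big hs
  have hm0 : 0 ≤ ‖(C j : ℂ) * z ^ n j‖ := norm_nonneg _
  have h4 : 1000 * ‖bt T n x C ρ j z‖
      ≤ Real.exp (6 * (T (j + 1) : ℝ) ^ 17) * ‖(C j : ℂ) * z ^ n j‖ := by
    unfold bt
    rw [norm_mul]
    calc 1000 * (‖(C j : ℂ) * z ^ n j‖ * ‖tl (ρ j) (T j ^ 80) 0 ((x j : ℂ) / z)‖)
        = (1000 * ‖tl (ρ j) (T j ^ 80) 0 ((x j : ℂ) / z)‖) * ‖(C j : ℂ) * z ^ n j‖ := by ring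
      _ ≤ _ := mul_le_mul_of_nonneg_right (by linarith) hm0
  have h5 := h.B2 j z hz hf.1
  have e10 : Real.exp (10 * (T (j + 1) : ℝ) ^ 17)
      = Real.exp (4 * (T (j + 1) : ℝ) ^ 17) * Real.exp (6 * (T (j + 1) : ℝ) ^ 17) := by
    rw [← Real.exp_add]; congr 1; ring
  have h4' : Real.exp (4 * (T (j + 1) : ℝ) ^ 17) * (1000 * ‖bt T n x C ρ j z‖)
      ≤ ‖(x (j + 1) : ℂ) / z‖ ^ (T (j + 1)) ^ 80 * ‖(C (j + 1) : ℂ) * z ^ n (j + 1)‖ := by
    refine le_trans ?_ h5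
    rw [e10, mul_assoc]
    exact mul_le_mul_of_nonneg_left h4 (Real.exp_pos _).le
  have he1 : 1 ≤ Real.exp (4 * (T (j + 1) : ℝ) ^ 17) := Real.one_le_exp (by positivity)
  have hb0 : 0 ≤ ‖bt T n x C ρ j z‖ := norm_nonneg _
  refine ⟨?_, ?_⟩
  · refine le_trans ?_ h4'
    nlinarith
  · have h6 := h.B1 (j + 1) z hz
    have h7 : ‖(x (j + 1) : ℂ) / z‖ ^ (T (j + 1)) ^ 80 ≤ 1 := pow_le_one₀ (norm_nonneg _) hq1
    have h8 : ‖(x (j + 1) : ℂ) / z‖ ^ (T (j + 1)) ^ 80 * ‖(C (j + 1) : ℂ) * z ^ n (j + 1)‖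
        ≤ Real.exp (4 * (T (j + 1) : ℝ) ^ 17) * ‖(G (j + 2)).eval z‖ := by
      calc _ ≤ 1 * ‖(C (j + 1) : ℂ) * z ^ n (j + 1)‖ :=
            mul_le_mul_of_nonneg_right h7 (norm_nonneg _)
        _ ≤ _ := by rw [one_mul]; exact h6
    exact le_of_mul_le_mul_left (h4'.trans h8) (Real.exp_pos _)

theorem bt_bound (h : ChainOK T n x y C G) (hρ : ∀ k, BlockOK (T k) ((T k) ^ 80) (ρ k))
    {z : ℂ} (hz : z ∈ Strip) (j : ℕ) :
    ‖bt T n x C ρ j z‖ ≤ 1 / 50 * (‖(G j).eval z‖ + ‖(G (j + 1)).eval z‖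
      + ‖(G (j + 2)).eval z‖) := by
  by_cases hf : Far T x j z
  · have := (far_bound h hρ hz hf).2
    linarith [norm_nonneg ((G j).eval z), norm_nonneg ((G (j + 1)).eval z),
      norm_nonneg ((G (j + 2)).eval z)]
  · have := near_bound h hρ hz hf
    linarith [norm_nonneg ((G j).eval z), norm_nonneg ((G (j + 1)).eval z),
      norm_nonneg ((G (j + 2)).eval z)]

end

end Pool.Agent.MPdf6699Lib
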