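import Pool.Agent.MPdf6699Lib.AsmC4

/-!
Assembly: all partial sums are zero free in the half strip.
-/

namespace Pool.Agent.MPdf6699Lib

open Polynomial

theorem om_pow_cases (j : ℕ) : om ^ j = 1 ∨ om ^ j = om ∨ om ^ j = (starRingEnd ℂ) om := by
  have h3 : Real.sqrt 3 * Real.sqrt 3 = 3 := Real.mul_self_sqrt (by norm_num)
  have h1 : om * om = (starRingEnd ℂ) om := by
    apply Complex.ext
    · simp only [Complex.mul_re, Complex.conj_re, om]
      nlinarith
    · simp only [Complex.mul_im, Complex.conj_im, om]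
      ring
  have h2 : (starRingEnd ℂ) om * om = 1 := by
    rw [mul_comm, Complex.mul_conj, om_normSq, Complex.ofReal_one]
  induction j with
  | zero => left; rw [pow_zero]
  | succ j ih =>
    rw [pow_succ]
    rcases ih with h | h | h
    · right; left; rw [h, one_mul]
    · right; right; rw [h, h1]
    · left; rw [h, h2]

theorem sqrt3_le : Real.sqrt 3 ≤ 18 / 10 := by
  rw [Real.sqrt_le_left (by norm_num)]
  norm_num

/-- A complex number in the thin sector does not get close to `-om^j`. -/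
theorem sector_sum {E : ℂ} (hre : 0 ≤ E.re) (him : |E.im| ≤ 1 / 10 * ‖E‖) (j : ℕ) :
    18 / 100 * ‖E‖ + 21 / 100 < ‖E + om ^ j‖ := by
  have hE0 : 0 ≤ ‖E‖ := norm_nonneg E
  have hreE : E.re ≤ ‖E‖ := Complex.re_le_norm E
  have hs := sqrt3_le
  have hs0 : 0 ≤ Real.sqrt 3 := Real.sqrt_nonneg 3
  have h3 : Real.sqrt 3 * Real.sqrt 3 = 3 := Real.mul_self_sqrt (by norm_num)
  have hEsq : ‖E‖ ^ 2 = E.re * E.re + E.im * E.im := by
    rw [Complex.sq_norm, Complex.normSq_apply]
  have him1 := (abs_le.mp him).1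
  have him2 := (abs_le.mp him).2
  have key : ‖E‖ ^ 2 + 1 - 118 / 100 * ‖E‖ ≤ ‖E + om ^ j‖ ^ 2 := by
    rcases om_pow_cases j with h | h | h
    · rw [h, Complex.sq_norm (E + 1), Complex.normSq_apply, hEsq]
      simp only [Complex.add_re, Complex.add_im, Complex.one_re, Complex.one_im]
      nlinarith
    · rw [h, Complex.sq_norm (E + om), Complex.normSq_apply, hEsq]
      simp only [Complex.add_re, Complex.add_im, om_re, om_im]
      nlinarith
    · rw [h, Complex.sq_norm (E + (starRingEnd ℂ) om), Complex.normSq_apply, hEsq]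
      simp only [Complex.add_re, Complex.add_im, Complex.conj_re, Complex.conj_im, om_re, om_im]
      nlinarith
  have h4 : (18 / 100 * ‖E‖ + 21 / 100) ^ 2 < ‖E + om ^ j‖ ^ 2 := by
    refine lt_of_lt_of_le ?_ key
    nlinarith [sq_nonneg (‖E‖ - 65 / 100)]
  exact lt_of_pow_lt_pow_left₀ 2 (norm_nonneg _) h4

section
variable {T n : ℕ → ℕ} {x y C : ℕ → ℝ} {G : ℕ → ℂ[X]} {ρ : ℕ → ℕ → ℂ}

theorem y_mono (h : ChainOK T n x y C G) {i j : ℕ} (hij : i ≤ j) : y i ≤ y j := by
  refine monotone_nat_of_le_succ (fun k => ?_) hij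
  have := h.xy (k + 1)
  have := h.yx k
  linarith

theorem y_lin (h : ChainOK T n x y C G) (k : ℕ) : (k : ℝ) ≤ y k := by
  induction k with
  | zero =>
    have := h.xy 0
    have := x_ge h 0
    push_cast
    linarith [show (0 : ℝ) ≤ 10 ^ 10 by norm_num]
  | succ k ih =>
    have := h.xy (k + 1)
    have := h.yx k
    push_cast
    linarith

theorem main_lower (h : ChainOK T n x y C G) {z : ℂ} (hz : z ∈ Strip) (k : ℕ) :
    3 / 5 * ∑ j ∈ Finset.range (k + 1), ‖(G j).eval z‖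
      ≤ ‖∑ j ∈ Finset.range (k + 1), (G j).eval z‖ := by
  classical
  have hex : ∃ i, z.re < y i + 100 := by
    obtain ⟨i, hi⟩ := exists_nat_gt z.re
    exact ⟨i, by have := y_lin h i; linarith⟩
  have hi := Nat.find_spec hex
  set i := Nat.find hex with hidef
  have hmin : ∀ j < i, y j + 100 ≤ z.re := fun j hj => not_lt.mp (Nat.find_min hex hj)
  refine main_lower_abs (w := fun j => (G j).eval z) (i := i) ?_ ?_ ?_ k
  · intro j hj
    exact h.D2 j z hz (hmin j hj)
  · intro j hj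
    refine h.D1 j z hz ?_
    have h1 := y_mono h (show i + 1 ≤ j by omega)
    have h2 := h.xy (i + 1)
    have h3 := h.yx i
    linarith
  · rcases le_or_gt z.re (y i - 100) with h1 | h1
    · left
      exact h.D1 i z hz h1
    · right
      exact h.D3 i z hz (abs_le.mpr ⟨by linarith, by linarith⟩)

theorem S_pos (h : ChainOK T n x y C G) (z : ℂ) (k : ℕ) :
    1 ≤ ∑ j ∈ Finset.range (k + 1), ‖(G j).eval z‖ := by
  have h1 : ‖(G 0).eval z‖ ≤ ∑ j ∈ Finset.range (k + 1), ‖(G j).eval z‖ :=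
    Finset.single_le_sum (f := fun j => ‖(G j).eval z‖) (fun _ _ => norm_nonneg _)
      (Finset.mem_range.mpr (Nat.succ_pos k))
  rw [h.G0] at h1
  simpa using h1

theorem S_last (z : ℂ) (k : ℕ) :
    ‖(G k).eval z‖ ≤ ∑ j ∈ Finset.range (k + 1), ‖(G j).eval z‖ :=
  Finset.single_le_sum (f := fun j => ‖(G j).eval z‖) (fun _ _ => norm_nonneg _)
    (Finset.mem_range.mpr (Nat.lt_succ_self k))

theorem PP_eq (k : ℕ) (z : ℂ) : PP T n x C G ρ k z
    = ∑ j ∈ Finset.range (k + 1), (G j).eval z + ∑ j ∈ Finset.range k, bt T n x C ρ j z := rfl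

/-- Lower bound for the complete partial sums away from the far zone of the last block. -/
theorem PP_lower (h : ChainOK T n x y C G) (hρ : ∀ k, BlockOK (T k) ((T k) ^ 80) (ρ k))
    {z : ℂ} (hz : z ∈ Strip) (k : ℕ) (hk : ∀ K, k = K + 1 → ¬ Far T x K z) :
    1 / 2 * ∑ j ∈ Finset.range (k + 1), ‖(G j).eval z‖ ≤ ‖PP T n x C G ρ k z‖ := by
  have h1 := main_lower h hz k
  have h2 : ∑ j ∈ Finset.range k, ‖bt T n x C ρ j z‖
      ≤ 3 / 50 * ∑ j ∈ Finset.range (k + 1), ‖(G j).eval z‖ := by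
    cases k with
    | zero =>
      rw [Finset.sum_range_zero]
      have := S_pos h z 0
      linarith
    | succ K =>
      exact sum_three' (g := fun j => ‖(G j).eval z‖) (b := fun j => ‖bt T n x C ρ j z‖)
        (fun _ => norm_nonneg _) K (fun j _ => bt_bound h hρ hz j)
        (near_bound h hρ hz (hk K rfl))
  have h3 := norm_sum_le (Finset.range k) (fun j => bt T n x C ρ j z)
  have h4 := norm_sub_le (PP T n x C G ρ k z) (∑ j ∈ Finset.range k, bt T n x C ρ j z)
  rw [PP_eq, add_sub_cancel_right] at h4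
  rw [PP_eq]
  have := S_pos h z k
  linarith

/-- When `z` is to the right of `y_(k-1)`, the last term dominates. -/
theorem right_sum (h : ChainOK T n x y C G) {z : ℂ} (hz : z ∈ Strip) (k : ℕ)
    (hk : ∀ K, k = K + 1 → y K + 100 ≤ z.re) :
    ∑ j ∈ Finset.range k, ‖(G j).eval z‖ ≤ 1 / 19 * ‖(G k).eval z‖ := by
  refine up_sum (g := fun j => ‖(G j).eval z‖) k (fun j hj => ?_) (fun _ => norm_nonneg _)
  refine h.D2 j z hz ?_
  cases k with
  | zero => omega
  | succ K =>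
    have := hk K rfl
    have := y_mono h (show j ≤ K by omega)
    linarith

theorem G_ne (h : ChainOK T n x y C G) {z : ℂ} (hz : z ∈ Strip) (k : ℕ) :
    (G (k + 1)).eval z ≠ 0 := by
  intro h0
  have h1 := h.B1 k z hz
  rw [h0, norm_zero, mul_zero] at h1
  have h2 : (C k : ℂ) * z ^ n k ≠ 0 :=
    mul_ne_zero (by have := (h.Cpos k).ne'; exact_mod_cast this) (pow_ne_zero _ (strip_ne hz))
  exact h2 (norm_le_zero_iff.mp h1)

theorem q_re_im {x : ℝ} (hx : 0 < x) {z : ℂ} (hz : z ∈ Strip) (hxz : x ≤ z.re) :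
    0 ≤ ((x : ℂ) / z).re ∧ |((x : ℂ) / z).im| ≤ 1 / x := by
  have hz0 := strip_ne hz
  have hn : 0 < Complex.normSq z := Complex.normSq_pos.mpr hz0
  have hn2 : x * x ≤ Complex.normSq z := by
    rw [Complex.normSq_apply]
    nlinarith [mul_self_nonneg z.im]
  rw [Complex.div_re, Complex.div_im]
  simp only [Complex.ofReal_re, Complex.ofReal_im, zero_mul, zero_div, add_zero, zero_sub]
  refine ⟨?_, ?_⟩
  · have := hz.1
    positivity
  · rw [abs_neg, abs_div, abs_of_pos hn, abs_mul, abs_of_pos hx, div_le_div_iff₀ hn hx]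
    have := hz.2
    nlinarith [abs_nonneg z.im, mul_pos hx hx]

/-- All complete partial sums are zero free. -/
theorem PP_ne (h : ChainOK T n x y C G) (hρ : ∀ k, BlockOK (T k) ((T k) ^ 80) (ρ k))
    {z : ℂ} (hz : z ∈ Strip) (k : ℕ) : PP T n x C G ρ k z ≠ 0 := by
  by_cases hk : ∀ K, k = K + 1 → ¬ Far T x K z
  · have h1 := PP_lower h hρ hz k hk
    have h2 := S_pos h z k
    intro h0
    rw [h0, norm_zero] at h1
    linarith
  · push Not at hk
    obtain ⟨K, rfl, hf⟩ := hk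
    have hx := x_ge h K
    have hx0 : 0 < x K := by linarith [show (0 : ℝ) < 10 ^ 10 by norm_num]
    have hfar := far_re h hf
    have hy := h.yx K
    have hxy := h.xy K
    have hz0 := strip_ne hz
    have hzn : 0 < ‖z‖ := norm_pos_iff.mpr hz0
    obtain ⟨hre, hzre, hzre'⟩ := strip_norm hz
    have hG := G_ne h hz K
    have hGn : 0 < ‖(G (K + 1)).eval z‖ := norm_pos_iff.mpr hG
    have h1 := right_sum h hz (K + 1) (fun K' hK' => by
      have : K' = K := by omega
      subst this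
      linarith)
    have h2 : ∑ j ∈ Finset.range K, ‖bt T n x C ρ j z‖
        ≤ 3 / 50 * ∑ j ∈ Finset.range (K + 2), ‖(G j).eval z‖ :=
      sum_three (g := fun j => ‖(G j).eval z‖) (b := fun j => ‖bt T n x C ρ j z‖)
        (fun _ => norm_nonneg _) K (fun j _ => bt_bound h hρ hz j)
    rw [Finset.sum_range_succ (fun j => ‖(G j).eval z‖) (K + 1)] at h2
    -- the sector for the block
    have hq : ‖(x K : ℂ) / z‖ ≤ 1 := by
      rw [q_norm hx0, div_le_one hzn]
      linarith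
    obtain ⟨hqre, hqim⟩ := q_re_im hx0 hz (by linarith : x K ≤ z.re)
    have hTx : (0 : ℝ) < (T K : ℝ) ^ 100 := by
      have := num_le_pow (t_ge h K) 100 (by norm_num)
      linarith [show (0 : ℝ) < 10 ^ 10 by norm_num]
    have hqim' : |((x K : ℂ) / z).im| ≤ 1 / (T K : ℝ) ^ 100 :=
      hqim.trans (one_div_le_one_div_of_le hTx (h.xlow K))
    obtain ⟨hB1, hB2⟩ := (hρ K).sector _ hq hqre hqim' hf.2
    obtain ⟨hC1, hC2⟩ := h.B3 K z hz hf.1
    set B := tl (ρ K) ((T K) ^ 80) 0 ((x K : ℂ) / z) with hB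
    set μ := (C K : ℂ) * z ^ n K / (G (K + 1)).eval z with hμ
    have hμB : 0 ≤ (μ * B).re := by
      rw [Complex.mul_re]
      have h3 : μ.im * B.im ≤ (1 / 2 * μ.re) * (2 * B.re) := by
        calc μ.im * B.im ≤ |μ.im * B.im| := le_abs_self _
          _ = |μ.im| * |B.im| := abs_mul _ _
          _ ≤ _ := mul_le_mul hC2 hB2 (abs_nonneg _) (by linarith)
      nlinarith
    intro h0
    rw [PP_eq, Finset.sum_range_succ (fun j => (G j).eval z) (K + 1),
      Finset.sum_range_succ (fun j => bt T n x C ρ j z) K] at h0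
    have h4 : bt T n x C ρ K z = μ * B * (G (K + 1)).eval z := by
      rw [hμ, hB]
      unfold bt
      field_simp
    rw [h4] at h0
    set R := ∑ j ∈ Finset.range (K + 1), (G j).eval z + ∑ j ∈ Finset.range K, bt T n x C ρ j z
      with hR
    have h5 : R = -(1 + μ * B) * (G (K + 1)).eval z := by
      rw [hR]
      linear_combination h0
    have h6 : ‖R‖ ≤ 1 / 2 * ‖(G (K + 1)).eval z‖ := by
      have h7 := norm_sum_le (Finset.range (K + 1)) (fun j => (G j).eval z)
      have h8 := norm_sum_le (Finset.range K) (fun j => bt T n x C ρ j z)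
      have h9 := norm_add_le (∑ j ∈ Finset.range (K + 1), (G j).eval z)
        (∑ j ∈ Finset.range K, bt T n x C ρ j z)
      rw [← hR] at h9
      linarith
    have h7 : ‖R‖ = ‖1 + μ * B‖ * ‖(G (K + 1)).eval z‖ := by
      rw [h5, norm_mul, norm_neg]
    have h8 : 1 ≤ ‖1 + μ * B‖ := by
      have := Complex.re_le_norm (1 + μ * B)
      rw [Complex.add_re, Complex.one_re] at this
      linarith
    nlinarith

/-- The lower part of `G (k+1)` outside the disc. -/
theorem gam_out (h : ChainOK T n x y C G) {z : ℂ} (hz : z ∈ Strip) {k N : ℕ}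
    (hN' : N ≤ n k) (hxz : x k ≤ ‖z‖) :
    ‖∑ i ∈ Finset.range (N + 1), (G (k + 1)).coeff i * z ^ i‖
      ≤ 1 / 1000 * (‖(x k : ℂ) / z‖ ^ (n k - N) * ‖(C k : ℂ) * z ^ n k‖) := by
  have hx := x_ge h k
  have hx0 : 0 < x k := by linarith [show (0 : ℝ) < 10 ^ 10 by norm_num]
  have hzn : 0 < ‖z‖ := norm_pos_iff.mpr (strip_ne hz)
  have hr : 1 ≤ ‖z‖ / x k := by rwa [one_le_div hx0]
  have h1 : ‖∑ i ∈ Finset.range (N + 1), (G (k + 1)).coeff i * z ^ i‖
      ≤ ∑ i ∈ Finset.range (N + 1), ‖(G (k + 1)).coeff i‖ * x k ^ i * (‖z‖ / x k) ^ N := by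
    refine (norm_sum_le _ _).trans (Finset.sum_le_sum fun i hi => ?_)
    rw [Finset.mem_range] at hi
    rw [norm_mul, norm_pow, mul_assoc]
    refine mul_le_mul_of_nonneg_left ?_ (norm_nonneg _)
    have h2 : ‖z‖ ^ i = x k ^ i * (‖z‖ / x k) ^ i := by
      rw [← mul_pow]; congr 1; field_simp
    rw [h2]
    exact mul_le_mul_of_nonneg_left (pow_le_pow_right₀ hr (by omega)) (by positivity)
  rw [← Finset.sum_mul] at h1
  have h2 : ∑ i ∈ Finset.range (N + 1), ‖(G (k + 1)).coeff i‖ * x k ^ i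
      ≤ 1 / 1000 * (C k * x k ^ n k) := by
    refine le_trans ?_ (h.Gsum k)
    exact Finset.sum_le_sum_of_subset_of_nonneg
      (Finset.range_mono (by omega)) (fun i _ _ => by positivity)
  refine h1.trans ((mul_le_mul_of_nonneg_right h2 (by positivity)).trans (le_of_eq ?_))
  rw [q_norm hx0, norm_mul, norm_pow, Complex.norm_real, Real.norm_eq_abs, abs_of_pos (h.Cpos k),
    div_pow, div_pow]
  have e1 : x k ^ n k = x k ^ (n k - N) * x k ^ N := by rw [← pow_add]; congr 1; omega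
  have e2 : ‖z‖ ^ n k = ‖z‖ ^ (n k - N) * ‖z‖ ^ N := by rw [← pow_add]; congr 1; omega
  rw [e1, e2]
  have : x k ^ N ≠ 0 := by positivity
  have : ‖z‖ ^ (n k - N) ≠ 0 := by positivity
  field_simp

/-- The lower part of `G (k+1)` inside the disc. -/
theorem gam_in (h : ChainOK T n x y C G) {z : ℂ} (hz : z ∈ Strip) {k N : ℕ}
    (hN' : N ≤ n k) (hxz : ‖z‖ ≤ x k) :
    ‖∑ i ∈ Finset.range (N + 1), (G (k + 1)).coeff i * z ^ i‖
      ≤ 1 / 1000 * (‖(x k : ℂ) / z‖ ^ (T k) ^ 80 * ‖(C k : ℂ) * z ^ n k‖) := by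
  have hx := x_ge h k
  have hx0 : 0 < x k := by linarith [show (0 : ℝ) < 10 ^ 10 by norm_num]
  have hzn : 0 < ‖z‖ := norm_pos_iff.mpr (strip_ne hz)
  have hr : ‖z‖ / x k ≤ 1 := by rwa [div_le_one hx0]
  have hd := lo_lt h k
  set M := n k - (T k) ^ 80 with hM
  have h1 : ‖∑ i ∈ Finset.range (N + 1), (G (k + 1)).coeff i * z ^ i‖
      ≤ ∑ i ∈ Finset.range (N + 1), ‖(G (k + 1)).coeff i‖ * x k ^ i * (‖z‖ / x k) ^ M := by
    refine (norm_sum_le _ _).trans (Finset.sum_le_sum fun i hi => ?_)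
    rw [Finset.mem_range] at hi
    rw [norm_mul, norm_pow, mul_assoc]
    rcases lt_or_ge i M with hiM | hiM
    · rw [h.Glow k i (by omega), norm_zero, zero_mul, zero_mul]
    refine mul_le_mul_of_nonneg_left ?_ (norm_nonneg _)
    have h2 : ‖z‖ ^ i = x k ^ i * (‖z‖ / x k) ^ i := by
      rw [← mul_pow]; congr 1; field_simp
    rw [h2]
    exact mul_le_mul_of_nonneg_left (pow_le_pow_of_le_one (by positivity) hr hiM) (by positivity)
  rw [← Finset.sum_mul] at h1
  have h2 : ∑ i ∈ Finset.range (N + 1), ‖(G (k + 1)).coeff i‖ * x k ^ i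
      ≤ 1 / 1000 * (C k * x k ^ n k) := by
    refine le_trans ?_ (h.Gsum k)
    exact Finset.sum_le_sum_of_subset_of_nonneg
      (Finset.range_mono (by omega)) (fun i _ _ => by positivity)
  refine h1.trans ((mul_le_mul_of_nonneg_right h2 (by positivity)).trans (le_of_eq ?_))
  rw [q_norm hx0, norm_mul, norm_pow, Complex.norm_real, Real.norm_eq_abs, abs_of_pos (h.Cpos k),
    div_pow, div_pow]
  have e1 : x k ^ n k = x k ^ (T k) ^ 80 * x k ^ M := by rw [← pow_add]; congr 1; omega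
  have e2 : ‖z‖ ^ n k = ‖z‖ ^ (T k) ^ 80 * ‖z‖ ^ M := by rw [← pow_add]; congr 1; omega
  rw [e1, e2]
  have : x k ^ M ≠ 0 := by positivity
  have : ‖z‖ ^ (T k) ^ 80 ≠ 0 := by positivity
  field_simp

theorem not_far_of_le (h : ChainOK T n x y C G) {z : ℂ} {k : ℕ} (hk : z.re ≤ x k + 100) :
    ∀ K, k = K + 1 → ¬ Far T x K z := by
  rintro K rfl hf
  have := far_re h hf
  linarith

/-- Incomplete blocks, left zone. -/
theorem inc_left (h : ChainOK T n x y C G) (hρ : ∀ k, BlockOK (T k) ((T k) ^ 80) (ρ k))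
    {z : ℂ} (hz : z ∈ Strip) {k N : ℕ} (hN' : N ≤ n k) (hzk : z.re ≤ x k - 100) :
    PP T n x C G ρ k z + (C k * z ^ n k * tl (ρ k) ((T k) ^ 80) (n k - N) (x k / z)
        + ∑ i ∈ Finset.range (N + 1), (G (k + 1)).coeff i * z ^ i) ≠ 0 := by
  have hx := x_ge h k
  have hx0 : 0 < x k := by linarith [show (0 : ℝ) < 10 ^ 10 by norm_num]
  obtain ⟨hre, hzre, hzre'⟩ := strip_norm hz
  have hzn : 0 < ‖z‖ := norm_pos_iff.mpr (strip_ne hz)
  have h1 := PP_lower h hρ hz k (not_far_of_le h (by linarith))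
  have h2 := S_pos h z k
  have h3 := S_last (G := G) z k
  have h4 := gam_in h hz hN' (by linarith)
  have hq : 1 ≤ ‖(x k : ℂ) / z‖ := by
    rw [q_norm hx0, one_le_div hzn]
    linarith
  have h5 := (hρ k).tl_out hq (n k - N)
  push_cast at h5
  have h6 := h.T2 k z hz hzk
  have hm0 : 0 ≤ ‖(C k : ℂ) * z ^ n k‖ := norm_nonneg _
  have h7 := mul_le_mul_of_nonneg_left h5 hm0
  have e : ‖(C k : ℂ) * z ^ n k‖ * (21 / 20 * (‖(x k : ℂ) / z‖ ^ T k ^ 80
      * (1 + (T k : ℝ) ^ 80 * ‖1 - (x k : ℂ) / z‖)))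
    = 21 / 20 * (‖(C k : ℂ) * z ^ n k‖ * ‖(x k : ℂ) / z‖ ^ T k ^ 80
      * (1 + (T k : ℝ) ^ 80 * ‖1 - (x k : ℂ) / z‖)) := by ring
  rw [e, ← norm_mul] at h7
  have h8 : ‖(x k : ℂ) / z‖ ^ T k ^ 80 * ‖(C k : ℂ) * z ^ n k‖
      ≤ ‖(C k : ℂ) * z ^ n k‖ * ‖(x k : ℂ) / z‖ ^ T k ^ 80
        * (1 + (T k : ℝ) ^ 80 * ‖1 - (x k : ℂ) / z‖) := by
    rw [mul_comm (‖(x k : ℂ) / z‖ ^ T k ^ 80)]
    apply le_mul_of_one_le_right (by positivity)
    have : 0 ≤ (T k : ℝ) ^ 80 * ‖1 - (x k : ℂ) / z‖ := by positivity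
    linarith
  intro h0
  have h9 : ‖PP T n x C G ρ k z‖
      ≤ ‖(C k : ℂ) * z ^ n k * tl (ρ k) ((T k) ^ 80) (n k - N) (x k / z)‖
        + ‖∑ i ∈ Finset.range (N + 1), (G (k + 1)).coeff i * z ^ i‖ := by
    rw [eq_neg_of_add_eq_zero_left h0, norm_neg]
    exact norm_add_le _ _
  linarith

/-- Incomplete blocks, middle zone. -/
theorem inc_mid (h : ChainOK T n x y C G) (hρ : ∀ k, BlockOK (T k) ((T k) ^ 80) (ρ k))
    {z : ℂ} (hz : z ∈ Strip) {k N : ℕ} (hN : 1 ≤ n k - N) (hN2 : n k - N ≤ (T k) ^ 80)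
    (hzk : |z.re - x k| ≤ 100) :
    PP T n x C G ρ k z + (C k * z ^ n k * tl (ρ k) ((T k) ^ 80) (n k - N) (x k / z)
        + ∑ i ∈ Finset.range (N + 1), (G (k + 1)).coeff i * z ^ i) ≠ 0 := by
  have hx := x_ge h k
  have hx0 : 0 < x k := by linarith [show (0 : ℝ) < 10 ^ 10 by norm_num]
  obtain ⟨hre, hzre, hzre'⟩ := strip_norm hz
  obtain ⟨hzk1, hzk2⟩ := abs_le.mp hzk
  have hz0 := strip_ne hz
  have hzn : 0 < ‖z‖ := norm_pos_iff.mpr hz0
  have hm0 : 0 < ‖(C k : ℂ) * z ^ n k‖ :=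
    norm_pos_iff.mpr (mul_ne_zero (by have := (h.Cpos k).ne'; exact_mod_cast this)
      (pow_ne_zero _ hz0))
  have hδ := near_delta h hz hzk
  have hd := delta_small h k
  -- the complete sum
  have h1 := right_sum h hz k (fun K hK => by
    subst hK
    have := h.yx K
    linarith)
  have h2 : ∑ j ∈ Finset.range k, ‖bt T n x C ρ j z‖
      ≤ 3 / 50 * ∑ j ∈ Finset.range (k + 1), ‖(G j).eval z‖ := by
    cases k with
    | zero =>
      rw [Finset.sum_range_zero]
      have := S_pos h z 0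
      linarith
    | succ K =>
      exact sum_three' (g := fun j => ‖(G j).eval z‖) (b := fun j => ‖bt T n x C ρ j z‖)
        (fun _ => norm_nonneg _) K (fun j _ => bt_bound h hρ hz j)
        (near_bound h hρ hz (not_far_of_le h (by linarith) K rfl))
  rw [Finset.sum_range_succ (fun j => ‖(G j).eval z‖) k] at h2
  have h3 := h.T1 k z hz hzk
  set E := Complex.exp (-(z - x k)) with hE
  set m := (C k : ℂ) * z ^ n k with hm
  have h4 : ‖(G k).eval z‖ ≤ 21 / 20 * ‖m * E‖ := by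
    have := norm_sub_norm_le ((G k).eval z) (m * E)
    linarith
  have h5 : ‖PP T n x C G ρ k z - m * E‖ ≤ 18 / 100 * ‖m * E‖ := by
    have e : PP T n x C G ρ k z - m * E = ((G k).eval z - m * E)
        + (∑ j ∈ Finset.range k, (G j).eval z + ∑ j ∈ Finset.range k, bt T n x C ρ j z) := by
      rw [PP_eq, Finset.sum_range_succ]
      ring
    rw [e]
    have h6 := norm_add_le ((G k).eval z - m * E)
      (∑ j ∈ Finset.range k, (G j).eval z + ∑ j ∈ Finset.range k, bt T n x C ρ j z)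
    have h7 := norm_add_le (∑ j ∈ Finset.range k, (G j).eval z)
      (∑ j ∈ Finset.range k, bt T n x C ρ j z)
    have h8 := norm_sum_le (Finset.range k) (fun j => (G j).eval z)
    have h9 := norm_sum_le (Finset.range k) (fun j => bt T n x C ρ j z)
    linarith [norm_nonneg (m * E)]
  -- the tail
  have h6 := (hρ k).tl_near hδ hd hN hN2
  have h7 : ‖m * tl (ρ k) ((T k) ^ 80) (n k - N) (x k / z) - m * om ^ (n k - N)‖
      ≤ 1 / 5 * ‖m‖ := by
    rw [← mul_sub, norm_mul, mul_comm]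
    exact mul_le_mul_of_nonneg_right h6 (norm_nonneg _)
  -- the lower part
  have h8 : ‖∑ i ∈ Finset.range (N + 1), (G (k + 1)).coeff i * z ^ i‖ ≤ 1 / 100 * ‖m‖ := by
    rcases le_total (x k) ‖z‖ with hxz | hxz
    · have h9 := gam_out h hz (show N ≤ n k by omega) hxz
      have h10 := pow_near hδ hd (n k - N) hN2
      have h11 := mul_le_mul_of_nonneg_right h10 (norm_nonneg m)
      linarith [norm_nonneg m]
    · have h9 := gam_in h hz (show N ≤ n k by omega) hxz
      have h10 := pow_near hδ hd ((T k) ^ 80) le_rfl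
      have h11 := mul_le_mul_of_nonneg_right h10 (norm_nonneg m)
      linarith [norm_nonneg m]
  -- the sector
  have hEn : ‖E‖ = Real.exp (-(z.re - x k)) := by
    rw [hE, Complex.norm_exp]; simp
  have hEre : 0 ≤ E.re := by
    rw [hE, Complex.exp_re]
    refine mul_nonneg (Real.exp_pos _).le ?_
    apply Real.cos_nonneg_of_neg_pi_div_two_le_of_le
    · simp only [Complex.neg_im, Complex.sub_im, Complex.ofReal_im, sub_zero]
      have := (abs_lt.mp hz.2).2
      have := Real.pi_gt_three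
      linarith
    · simp only [Complex.neg_im, Complex.sub_im, Complex.ofReal_im, sub_zero]
      have := (abs_lt.mp hz.2).1
      have := Real.pi_gt_three
      linarith
  have hEim : |E.im| ≤ 1 / 10 * ‖E‖ := by
    rw [hEn, hE, Complex.exp_im, abs_mul, abs_of_pos (Real.exp_pos _)]
    simp only [Complex.neg_im, Complex.sub_im, Complex.ofReal_im, sub_zero, Complex.neg_re,
      Complex.sub_re, Complex.ofReal_re]
    rw [mul_comm]
    refine mul_le_mul_of_nonneg_right ?_ (Real.exp_pos _).le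
    have h12 : |Real.sin (-z.im)| ≤ |-z.im| := Real.abs_sin_le_abs
    rw [abs_neg] at h12
    linarith [hz.2]
  have h9 := sector_sum hEre hEim (n k - N)
  have h10 := mul_lt_mul_of_pos_left h9 hm0
  intro h0
  have e : m * (E + om ^ (n k - N)) = -((PP T n x C G ρ k z - m * E)
      + (m * tl (ρ k) ((T k) ^ 80) (n k - N) (x k / z) - m * om ^ (n k - N))
      + ∑ i ∈ Finset.range (N + 1), (G (k + 1)).coeff i * z ^ i) := by
    linear_combination h0
  have h11 : ‖m * (E + om ^ (n k - N))‖ ≤ 18 / 100 * ‖m * E‖ + 1 / 5 * ‖m‖ + 1 / 100 * ‖m‖ := by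
    rw [e, norm_neg]
    refine (norm_add_le _ _).trans (add_le_add ((norm_add_le _ _).trans (add_le_add h5 h7)) h8)
  rw [norm_mul m (E + om ^ (n k - N)), norm_mul m E] at h11
  linarith

/-- Incomplete blocks, right zone. -/
theorem inc_right (h : ChainOK T n x y C G) (hρ : ∀ k, BlockOK (T k) ((T k) ^ 80) (ρ k))
    {z : ℂ} (hz : z ∈ Strip) {k N : ℕ} (hN : 1 ≤ n k - N) (hN2 : n k - N ≤ (T k) ^ 80)
    (hzk : x k + 100 ≤ z.re) :
    PP T n x C G ρ k z + (C k * z ^ n k * tl (ρ k) ((T k) ^ 80) (n k - N) (x k / z)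
        + ∑ i ∈ Finset.range (N + 1), (G (k + 1)).coeff i * z ^ i) ≠ 0 := by
  have hx := x_ge h k
  have hx0 : 0 < x k := by linarith [show (0 : ℝ) < 10 ^ 10 by norm_num]
  obtain ⟨hre, hzre, hzre'⟩ := strip_norm hz
  have hz0 := strip_ne hz
  have hzn : 0 < ‖z‖ := norm_pos_iff.mpr hz0
  have hq : ‖(x k : ℂ) / z‖ ≤ 1 := by
    rw [q_norm hx0, div_le_one hzn]
    linarith
  have hqpos : 0 < ‖(x k : ℂ) / z‖ := by
    rw [q_norm hx0]
    positivity
  have hm0 : 0 < ‖(C k : ℂ) * z ^ n k‖ :=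
    norm_pos_iff.mpr (mul_ne_zero (by have := (h.Cpos k).ne'; exact_mod_cast this)
      (pow_ne_zero _ hz0))
  have ht := t_ge h k
  have ht100 := num_le_pow ht 100 (by norm_num)
  have hTx : (0 : ℝ) < (T k : ℝ) ^ 100 := by linarith [show (0 : ℝ) < 10 ^ 10 by norm_num]
  obtain ⟨hqre, hqim⟩ := q_re_im hx0 hz (by linarith : x k ≤ z.re)
  have hqim' : |((x k : ℂ) / z).im| ≤ 200 / (T k : ℝ) ^ 100 := by
    refine (hqim.trans (one_div_le_one_div_of_le hTx (h.xlow k))).trans ?_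
    exact div_le_div_of_nonneg_right (by norm_num) hTx.le
  have hd := delta_small h k
  have hd1 : 200 / (T k : ℝ) ^ 100 ≤ 1 / 200 := by
    rw [div_le_div_iff₀ hTx (by norm_num)]
    linarith [show (40000 : ℝ) ≤ 10 ^ 10 by norm_num]
  have h1 := (hρ k).tl_lower hq hqre hqim' (hd.trans (by norm_num)) hd1 hN hN2
  have h2 := gam_out h hz (show N ≤ n k by omega) (by linarith : x k ≤ ‖z‖)
  have h3 := h.T3 k z hz hzk
  have h4 := right_sum h hz k (fun K hK => by
    subst hK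
    have := h.yx K
    linarith)
  set Q := ‖(x k : ℂ) / z‖ ^ (T k) ^ 80 * ‖(C k : ℂ) * z ^ n k‖ with hQ
  have hQ0 : 0 < Q := by positivity
  have h5 : ∑ j ∈ Finset.range k, ‖bt T n x C ρ j z‖
      ≤ 5 / 50 * ∑ j ∈ Finset.range (k + 1), ‖(G j).eval z‖ + 1 / 1000 * Q := by
    have hS := S_pos h z k
    cases k with
    | zero =>
      rw [Finset.sum_range_zero]
      linarith
    | succ K =>
      have h6 : ∑ j ∈ Finset.range K, ‖bt T n x C ρ j z‖
          ≤ 3 / 50 * ∑ j ∈ Finset.range (K + 2), ‖(G j).eval z‖ :=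
        sum_three (g := fun j => ‖(G j).eval z‖) (b := fun j => ‖bt T n x C ρ j z‖)
          (fun _ => norm_nonneg _) K (fun j _ => bt_bound h hρ hz j)
      rw [Finset.sum_range_succ (fun j => ‖bt T n x C ρ j z‖) K]
      have h7 : ‖(G K).eval z‖ + ‖(G (K + 1)).eval z‖
          ≤ ∑ j ∈ Finset.range (K + 1 + 1), ‖(G j).eval z‖ := by
        rw [Finset.sum_range_succ, Finset.sum_range_succ]
        have : 0 ≤ ∑ j ∈ Finset.range K, ‖(G j).eval z‖ := by positivity
        linarith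
      by_cases hf : Far T x K z
      · have h8 := (far_bound h hρ hz hf).1
        rw [← hQ] at h8
        linarith
      · have h8 := near_bound h hρ hz hf
        linarith
  rw [Finset.sum_range_succ (fun j => ‖(G j).eval z‖) k] at h5
  have h6 : ‖PP T n x C G ρ k z‖ ≤ 3 / 1000 * Q := by
    rw [PP_eq]
    have h7 := norm_add_le (∑ j ∈ Finset.range (k + 1), (G j).eval z)
      (∑ j ∈ Finset.range k, bt T n x C ρ j z)
    have h8 := norm_sum_le (Finset.range (k + 1)) (fun j => (G j).eval z)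
    rw [Finset.sum_range_succ (fun j => ‖(G j).eval z‖) k] at h8
    have h9 := norm_sum_le (Finset.range k) (fun j => bt T n x C ρ j z)
    linarith
  have h7 : Q ≤ ‖(x k : ℂ) / z‖ ^ (n k - N) * ‖(C k : ℂ) * z ^ n k‖ :=
    mul_le_mul_of_nonneg_right (pow_le_pow_of_le_one hqpos.le hq hN2) hm0.le
  have h8 : ‖(x k : ℂ) / z‖ ^ (n k - N) / 10 * ‖(C k : ℂ) * z ^ n k‖
      ≤ ‖(C k : ℂ) * z ^ n k * tl (ρ k) ((T k) ^ 80) (n k - N) (x k / z)‖ := by
    rw [norm_mul ((C k : ℂ) * z ^ n k), mul_comm]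
    exact mul_le_mul_of_nonneg_left h1 hm0.le
  intro h0
  have e : (C k : ℂ) * z ^ n k * tl (ρ k) ((T k) ^ 80) (n k - N) (x k / z)
      = -(PP T n x C G ρ k z + ∑ i ∈ Finset.range (N + 1), (G (k + 1)).coeff i * z ^ i) := by
    linear_combination h0
  have h9 : ‖(C k : ℂ) * z ^ n k * tl (ρ k) ((T k) ^ 80) (n k - N) (x k / z)‖
      ≤ ‖PP T n x C G ρ k z‖
        + ‖∑ i ∈ Finset.range (N + 1), (G (k + 1)).coeff i * z ^ i‖ := by
    rw [e, norm_neg]
    exact norm_add_le _ _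
  linarith

/-- **Assembly theorem.** -/
theorem assembly (h : ChainOK T n x y C G) (ρ : ℕ → ℕ → ℂ)
    (hρ : ∀ k, BlockOK (T k) ((T k) ^ 80) (ρ k)) :
    ∃ a : ℕ → ℂ, (∀ N, ∀ z ∈ Strip, ∑ i ∈ Finset.range (N + 1), a i * z ^ i ≠ 0) ∧
      (∀ k, 1 / 2 * C k ≤ ‖a (n k)‖) := by
  refine ⟨ser n x C G ρ, fun N z hz => ?_, ser_top h hρ⟩
  obtain ⟨k, hk1, hk2⟩ := exists_block h N
  rw [partial_sum h hρ (strip_ne hz) k N hk1 hk2]
  rcases Nat.eq_zero_or_pos (n k - N) with h0 | h0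
  · -- complete block
    have hN : N = n k := by omega
    have h1 := PP_ne h hρ hz (k + 1)
    subst hN
    rw [Nat.sub_self, sum_coeff_eq h k z]
    unfold PP at h1 ⊢
    rw [Finset.sum_range_succ (fun j => (G j).eval z) (k + 1),
      Finset.sum_range_succ (fun j => C j * z ^ n j * tl (ρ j) ((T j) ^ 80) 0 (x j / z)) k] at h1
    intro h2
    apply h1
    linear_combination h2
  · rcases le_or_gt (n k - N) ((T k) ^ 80) with h1 | h1
    · rcases le_or_gt z.re (x k - 100) with hA | hA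
      · exact inc_left h hρ hz hk2 hA
      · rcases le_or_gt z.re (x k + 100) with hB | hB
        · exact inc_mid h hρ hz h0 h1 (abs_le.mpr ⟨by linarith, by linarith⟩)
        · exact inc_right h hρ hz h0 h1 hB.le
    · -- gap
      have h2 : ∑ i ∈ Finset.range (N + 1), (G (k + 1)).coeff i * z ^ i = 0 := by
        refine Finset.sum_eq_zero fun i hi => ?_
        rw [Finset.mem_range] at hi
        rw [h.Glow k i (by omega), zero_mul]
      rw [h2, tl_of_lt _ h1, mul_zero, add_zero, add_zero]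
      exact PP_ne h hρ hz k

end

end Pool.Agent.MPdf6699Lib
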