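import Mathlib

/-!
Base definitions for the half-strip chain (problem MP_df6699_an).
-/

namespace Pool.Agent.MPdf6699Lib

open Polynomial

/-- The half strip of half-width one tenth. -/
def Strip : Set ℂ := {z | 0 < z.re ∧ |z.im| < 1 / 10}

/-- The primitive cube root of unity with positive imaginary part. -/
noncomputable def om : ℂ := ⟨-1 / 2, Real.sqrt 3 / 2⟩

/-- Block coefficients attached to a sequence of partial sums. -/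
noncomputable def cf (ρ : ℕ → ℂ) (i : ℕ) : ℂ := ρ i - ρ (i + 1)

/-- Tail of the block polynomial. -/
noncomputable def tl (ρ : ℕ → ℂ) (d j : ℕ) (q : ℂ) : ℂ :=
  ∑ i ∈ Finset.Ico j (d + 1), cf ρ i * q ^ i

/-- Properties of a block of parameter `T` and length `d`. -/
structure BlockOK (T d : ℕ) (ρ : ℕ → ℂ) : Prop where
  zero : ρ 0 = 0
  top : ∀ j, d < j → ρ j = 0
  close : ∀ j, 1 ≤ j → j ≤ d → ‖ρ j - om ^ j‖ ≤ 1 / 20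
  small : ∀ q : ℂ, ‖1 - q‖ ≤ 1 / (4 * (T : ℝ) ^ 58) →
    ‖tl ρ d 0 q‖ ≤ Real.exp (-(20 * (T : ℝ) ^ 17)) * max 1 ‖q‖ ^ d
  sector : ∀ q : ℂ, ‖q‖ ≤ 1 → 0 ≤ q.re → |q.im| ≤ 1 / (T : ℝ) ^ 100 →
    1 / (4 * (T : ℝ) ^ 58) ≤ ‖1 - q‖ →
    0 < (tl ρ d 0 q).re ∧ |(tl ρ d 0 q).im| ≤ 2 * (tl ρ d 0 q).re

/-- The data of the chain. Block `k` leads from `G k` to `G (k+1)`. -/
structure ChainOK (T n : ℕ → ℕ) (x y C : ℕ → ℝ) (G : ℕ → ℂ[X]) : Prop where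
  G0 : G 0 = 1
  hT : ∀ k, 10 ^ 10 ≤ T k
  Tmono : ∀ k, T k ≤ T (k + 1)
  xlow : ∀ k, (T k : ℝ) ^ 100 ≤ x k
  xhigh : ∀ k, x k ≤ 2 * (T k : ℝ) ^ 100
  xy : ∀ k, x k + 1000 ≤ y k
  yx : ∀ k, y k + 1000 ≤ x (k + 1)
  xstep : ∀ k, x (k + 1) ≤ x k + 3 * (T k : ℝ) ^ 17
  Cpos : ∀ k, 0 < C k
  n0 : (T 0) ^ 80 < n 0
  nstep : ∀ k, n k + (T (k + 1)) ^ 80 < n (k + 1)
  Gdeg : ∀ k, (G (k + 1)).natDegree ≤ n k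
  Glow : ∀ k i, i + (T k) ^ 80 < n k → (G (k + 1)).coeff i = 0
  Gsum : ∀ k, ∑ i ∈ Finset.range (n k + 1), ‖(G (k + 1)).coeff i‖ * x k ^ i ≤
    1 / 1000 * (C k * x k ^ n k)
  T1 : ∀ k, ∀ z ∈ Strip, |z.re - x k| ≤ 100 →
    ‖(G k).eval z - C k * z ^ n k * Complex.exp (-(z - x k))‖ ≤
      1 / 20 * ‖C k * z ^ n k * Complex.exp (-(z - x k))‖
  T2 : ∀ k, ∀ z ∈ Strip, z.re ≤ x k - 100 →
    ‖C k * z ^ n k‖ * ‖(x k : ℂ) / z‖ ^ (T k) ^ 80 * (1 + (T k : ℝ) ^ 80 * ‖1 - (x k : ℂ) / z‖) ≤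
      1 / 100 * ‖(G k).eval z‖
  T3 : ∀ k, ∀ z ∈ Strip, x k + 100 ≤ z.re →
    ‖(G k).eval z‖ ≤ 1 / 1000 * (‖(x k : ℂ) / z‖ ^ (T k) ^ 80 * ‖C k * z ^ n k‖)
  D1 : ∀ k, ∀ z ∈ Strip, z.re ≤ y k - 100 →
    ‖(G (k + 1)).eval z‖ ≤ 1 / 20 * ‖(G k).eval z‖
  D2 : ∀ k, ∀ z ∈ Strip, y k + 100 ≤ z.re →
    ‖(G k).eval z‖ ≤ 1 / 20 * ‖(G (k + 1)).eval z‖
  D3 : ∀ k, ∀ z ∈ Strip, |z.re - y k| ≤ 100 →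
    0 ≤ ((G (k + 1)).eval z * (starRingEnd ℂ) ((G k).eval z)).re
  B1 : ∀ k, ∀ z ∈ Strip, ‖C k * z ^ n k‖ ≤ Real.exp (4 * (T k : ℝ) ^ 17) * ‖(G (k + 1)).eval z‖
  B2 : ∀ k, ∀ z ∈ Strip, x k * (1 + 1 / (5 * (T k : ℝ) ^ 58)) ≤ z.re →
    Real.exp (10 * (T (k + 1) : ℝ) ^ 17) * ‖C k * z ^ n k‖ ≤
      ‖(x (k + 1) : ℂ) / z‖ ^ (T (k + 1)) ^ 80 * ‖C (k + 1) * z ^ n (k + 1)‖
  B3 : ∀ k, ∀ z ∈ Strip, x k * (1 + 1 / (5 * (T k : ℝ) ^ 58)) ≤ z.re →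
    0 ≤ (C k * z ^ n k / (G (k + 1)).eval z).re ∧
    |(C k * z ^ n k / (G (k + 1)).eval z).im| ≤ 1 / 2 * (C k * z ^ n k / (G (k + 1)).eval z).re

end Pool.Agent.MPdf6699Lib
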