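import Pool.Agent.MPdf6699Lib.Base

/-!
Block lemma, part A: the polynomial `Th r L m` and the bound for its partial sums.
-/

namespace Pool.Agent.MPdf6699Lib

open Polynomial

/-! ### a coefficient bound from Parseval -/

theorem parseval_le (p : ℂ[X]) (M : ℝ) (hb : ∀ q : ℂ, ‖q‖ = 1 → ‖p.eval q‖ ≤ M) :
    ∑ i ∈ p.support, ‖p.coeff i‖ ^ 2 ≤ M ^ 2 := by
  rw [Polynomial.sum_sq_norm_coeff_eq_circleAverage]
  refine Real.circleAverage_mono_on_of_le_circle ?_ ?_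
  · apply ContinuousOn.circleIntegrable'
    fun_prop
  · intro x hx
    have hx1 : ‖x‖ = 1 := by
      simpa using hx
    exact pow_le_pow_left₀ (norm_nonneg _) (hb x hx1) 2

theorem sum_coeff_le (p : ℂ[X]) (M : ℝ) (hM : 0 ≤ M) (hb : ∀ q : ℂ, ‖q‖ = 1 → ‖p.eval q‖ ≤ M)
    (N : ℕ) (hN : p.natDegree < N) (n : ℕ) :
    ∑ i ∈ Finset.range n, ‖p.coeff i‖ ≤ Real.sqrt N * M := by
  have h1 : ∑ i ∈ Finset.range n, ‖p.coeff i‖ ≤ ∑ i ∈ p.support, ‖p.coeff i‖ := by
    have h2 : ∑ i ∈ Finset.range n, ‖p.coeff i‖ =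
        ∑ i ∈ (Finset.range n).filter (fun i => i ∈ p.support), ‖p.coeff i‖ := by
      rw [Finset.sum_filter]
      refine Finset.sum_congr rfl fun i _ => ?_
      by_cases hi : i ∈ p.support
      · rw [if_pos hi]
      · rw [if_neg hi]
        rw [Polynomial.notMem_support_iff] at hi
        rw [hi, norm_zero]
    rw [h2]
    refine Finset.sum_le_sum_of_subset_of_nonneg ?_ fun _ _ _ => norm_nonneg _
    intro i hi
    exact (Finset.mem_filter.1 hi).2
  refine h1.trans ?_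
  have h3 : (∑ i ∈ p.support, ‖p.coeff i‖) ^ 2 ≤ (p.support.card : ℝ) *
      ∑ i ∈ p.support, ‖p.coeff i‖ ^ 2 := sq_sum_le_card_mul_sum_sq
  have h4 : (p.support.card : ℝ) ≤ N := by
    have : p.support.card ≤ p.natDegree + 1 := Polynomial.card_supp_le_succ_natDegree p
    exact_mod_cast this.trans hN
  have h5 := parseval_le p M hb
  have h6 : (∑ i ∈ p.support, ‖p.coeff i‖) ^ 2 ≤ (Real.sqrt N * M) ^ 2 := by
    rw [mul_pow, Real.sq_sqrt (Nat.cast_nonneg N)]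
    refine h3.trans ?_
    refine mul_le_mul h4 h5 (Finset.sum_nonneg fun _ _ => by positivity) (Nat.cast_nonneg N)
  exact le_of_sq_le_sq h6 (by positivity)

/-! ### the base factor -/

/-- the base factor -/
noncomputable def Yp (r : ℝ) (L : ℕ) : ℂ[X] :=
  (1 - X) * ∑ i ∈ Finset.range L, C ((r : ℂ) ^ i) * X ^ i

/-- the power of the base factor -/
noncomputable def Th (r : ℝ) (L m : ℕ) : ℂ[X] := Yp r L ^ m

theorem Yp_eval (r : ℝ) (L : ℕ) (q : ℂ) :
    (Yp r L).eval q = (1 - q) * ∑ i ∈ Finset.range L, ((r : ℂ) * q) ^ i := by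
  simp [Yp, eval_finsetSum, mul_pow]

theorem Yp_eval_mul (r : ℝ) (L : ℕ) (q : ℂ) :
    (Yp r L).eval q * (1 - r * q) = (1 - q) * (1 - (r * q) ^ L) := by
  rw [Yp_eval, mul_assoc, geom_sum_mul_neg]

theorem Th_eval (r : ℝ) (L m : ℕ) (q : ℂ) : (Th r L m).eval q = ((Yp r L).eval q) ^ m := by
  simp [Th]

theorem Yp_map (r : ℝ) (L : ℕ) : (Yp r L).map (starRingEnd ℂ) = Yp r L := by
  simp [Yp, Polynomial.map_sum]

theorem Th_map (r : ℝ) (L m : ℕ) : (Th r L m).map (starRingEnd ℂ) = Th r L m := by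
  simp [Th, Yp_map]

theorem Th_coeff_conj (r : ℝ) (L m n : ℕ) :
    (starRingEnd ℂ) ((Th r L m).coeff n) = (Th r L m).coeff n := by
  conv_rhs => rw [← Th_map]
  rw [coeff_map]

theorem Yp_natDegree (r : ℝ) (L : ℕ) : (Yp r L).natDegree ≤ L := by
  rcases Nat.eq_zero_or_pos L with rfl | hL
  · simp [Yp]
  · refine (natDegree_mul_le).trans ?_
    have h1 : (1 - X : ℂ[X]).natDegree ≤ 1 := by
      refine (natDegree_sub_le _ _).trans ?_
      simp
    have h2 : (∑ i ∈ Finset.range L, C ((r : ℂ) ^ i) * X ^ i : ℂ[X]).natDegree ≤ L - 1 := by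
      refine natDegree_sum_le_of_forall_le _ _ ?_
      intro i hi
      refine (natDegree_C_mul_X_pow_le _ _).trans ?_
      have := Finset.mem_range.1 hi
      omega
    omega

theorem Th_natDegree (r : ℝ) (L m : ℕ) : (Th r L m).natDegree ≤ m * L := by
  refine natDegree_pow_le.trans ?_
  exact Nat.mul_le_mul_left _ (Yp_natDegree r L)

/-! ### bounds on the unit circle -/

theorem circle_ratio {r : ℝ} (h0 : 0 < r) (h1 : r < 1) {q : ℂ} (hq : ‖q‖ = 1) :
    ‖1 - q‖ ≤ (1 + (1 - r)) * ‖1 - r * q‖ := by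
  have hq2 : q.re ^ 2 + q.im ^ 2 = 1 := by
    have := Complex.sq_norm q
    rw [hq, Complex.normSq_apply] at this
    nlinarith
  have hre : q.re ≥ -1 := by nlinarith [sq_nonneg q.im, sq_nonneg (q.re - 1)]
  have e1 : ‖1 - q‖ ^ 2 = 2 - 2 * q.re := by
    rw [Complex.sq_norm, Complex.normSq_apply]
    simp
    nlinarith
  have e2 : ‖1 - r * q‖ ^ 2 = 1 + r ^ 2 - 2 * r * q.re := by
    rw [Complex.sq_norm, Complex.normSq_apply]
    simp
    nlinarith
  have h2 : (1 + r) * ‖1 - q‖ ≤ 2 * ‖1 - r * q‖ := by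
    refine le_of_sq_le_sq ?_ (by positivity)
    rw [mul_pow, mul_pow, e1, e2]
    nlinarith [mul_nonneg (sq_nonneg (1 - r)) (by linarith : (0:ℝ) ≤ 1 + q.re)]
  have h3 : (0:ℝ) ≤ ‖1 - q‖ := norm_nonneg _
  have h4 : (0:ℝ) ≤ ‖1 - r * q‖ := norm_nonneg _
  nlinarith [mul_nonneg h3 (by nlinarith : (0:ℝ) ≤ r - r ^ 2), mul_le_mul_of_nonneg_left h2 (by linarith : (0:ℝ) ≤ 2 - r)]

theorem H_bound {r : ℝ} (h0 : 0 < r) (h1 : r < 1) (L m : ℕ) {q : ℂ} (hq : ‖q‖ = 1)
    (hL : r ^ L ≤ 1 - r) (hm : (m : ℝ) * (1 - r) ≤ 1 / 100) (hr : 1 - r ≤ 1 / 100) :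
    ‖((1 - X) * (Th r L m - 1) : ℂ[X]).eval q‖ ≤ 4 * ((m : ℝ) * (1 - r)) := by
  set a : ℝ := 1 - r with ha
  have ha0 : 0 < a := by rw [ha]; linarith
  set y := (Yp r L).eval q with hy
  have hrq : ‖(r : ℂ) * q‖ = r := by
    rw [norm_mul, hq, mul_one, Complex.norm_real, Real.norm_eq_abs, abs_of_pos h0]
  have hne : 0 < ‖1 - r * q‖ := by
    have : 1 - r ≤ ‖1 - r * q‖ := by
      have := norm_sub_norm_le (1 : ℂ) (r * q)
      rw [hrq, norm_one] at this
      exact this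
    linarith
  have hcr := circle_ratio h0 h1 hq
  have hpow : ‖((r : ℂ) * q) ^ L‖ ≤ a := by
    rw [norm_pow, hrq]; exact hL
  have hY : ‖y‖ ≤ (1 + a) * (1 + a) := by
    have h2 := Yp_eval_mul r L q
    rw [← hy] at h2
    have h3 : ‖y‖ * ‖1 - r * q‖ ≤ ((1 + a) * (1 + a)) * ‖1 - r * q‖ := by
      rw [← norm_mul, h2, norm_mul]
      have h4 : ‖1 - ((r : ℂ) * q) ^ L‖ ≤ 1 + a := by
        refine (norm_sub_le _ _).trans ?_
        rw [norm_one]; linarith
      calc ‖1 - q‖ * ‖1 - ((r : ℂ) * q) ^ L‖ ≤ ((1 + a) * ‖1 - r * q‖) * (1 + a) :=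
            mul_le_mul hcr h4 (norm_nonneg _) (by positivity)
        _ = ((1 + a) * (1 + a)) * ‖1 - r * q‖ := by ring
    exact le_of_mul_le_mul_right h3 hne
  have hY1 : ‖(1 - q) * (y - 1)‖ ≤ (1 + a) * (3 * a) := by
    have h2 := Yp_eval_mul r L q
    rw [← hy] at h2
    have h3 : ((1 - q) * (y - 1)) * (1 - r * q) =
        (1 - q) * (-((a : ℂ) * q) - (1 - q) * (r * q) ^ L) := by
      have : ((a : ℝ) : ℂ) = 1 - r := by rw [ha]; push_cast; ring
      rw [this]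
      linear_combination (1 - q) * h2
    have h4 : ‖-((a : ℂ) * q) - (1 - q) * (r * q) ^ L‖ ≤ 3 * a := by
      refine (norm_sub_le _ _).trans ?_
      rw [norm_neg, norm_mul, norm_mul, hq, mul_one, Complex.norm_real, Real.norm_eq_abs,
        abs_of_pos ha0]
      have h5 : ‖1 - q‖ ≤ 2 := by
        refine (norm_sub_le _ _).trans ?_
        rw [norm_one, hq]; norm_num
      nlinarith [mul_le_mul h5 hpow (norm_nonneg _) (by norm_num : (0:ℝ) ≤ 2)]
    have h6 : ‖(1 - q) * (y - 1)‖ * ‖1 - r * q‖ ≤ ((1 + a) * (3 * a)) * ‖1 - r * q‖ := by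
      rw [← norm_mul, h3, norm_mul]
      calc ‖1 - q‖ * ‖-((a : ℂ) * q) - (1 - q) * (r * q) ^ L‖
          ≤ ((1 + a) * ‖1 - r * q‖) * (3 * a) :=
            mul_le_mul hcr h4 (norm_nonneg _) (by positivity)
        _ = ((1 + a) * (3 * a)) * ‖1 - r * q‖ := by ring
    exact le_of_mul_le_mul_right h6 hne
  have hev : ((1 - X) * (Th r L m - 1) : ℂ[X]).eval q =
      ((1 - q) * (y - 1)) * ∑ i ∈ Finset.range m, y ^ i := by
    simp only [eval_mul, eval_sub, eval_one, eval_X, Th_eval, ← hy]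
    have := mul_geom_sum y m
    rw [← this]; ring
  rw [hev, norm_mul]
  have hexp : ((1 + a) * (1 + a)) ^ m ≤ 1.03 := by
    have h2 : ((1 + a) * (1 + a)) ^ m = (1 + a) ^ (2 * m) := by
      rw [pow_mul]; congr 1; ring
    rw [h2]
    have h3 : (1 + a) ^ (2 * m) ≤ Real.exp (2 * m * a) := by
      have h4 : 1 + a ≤ Real.exp a := by
        have := Real.add_one_le_exp a; linarith
      calc (1 + a) ^ (2 * m) ≤ (Real.exp a) ^ (2 * m) := pow_le_pow_left₀ (by positivity) h4 _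
        _ = Real.exp (2 * m * a) := by
          rw [← Real.exp_nat_mul]; push_cast; ring_nf
    refine h3.trans ?_
    have h5 : 2 * (m : ℝ) * a ≤ 0.02 := by linarith
    have h6 : Real.exp (2 * (m : ℝ) * a) ≤ Real.exp 0.02 := Real.exp_le_exp.2 h5
    have h7 : Real.exp 0.02 ≤ 1.03 := by
      have := Real.exp_bound_div_one_sub_of_interval (x := 0.02) (by norm_num) (by norm_num)
      refine this.trans (by norm_num)
    linarith
  have hsum : ‖∑ i ∈ Finset.range m, y ^ i‖ ≤ m * 1.03 := by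
    refine (norm_sum_le _ _).trans ?_
    calc ∑ i ∈ Finset.range m, ‖y ^ i‖ ≤ ∑ i ∈ Finset.range m, (1.03 : ℝ) := by
          refine Finset.sum_le_sum fun i hi => ?_
          rw [norm_pow]
          have h2 : ‖y‖ ^ i ≤ ((1 + a) * (1 + a)) ^ i := pow_le_pow_left₀ (norm_nonneg _) hY i
          have h3 : ((1 + a) * (1 + a)) ^ i ≤ ((1 + a) * (1 + a)) ^ m :=
            pow_le_pow_right₀ (by nlinarith) (Finset.mem_range.1 hi).le
          linarith
      _ = m * 1.03 := by rw [Finset.sum_const, Finset.card_range, nsmul_eq_mul]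
  have hm0 : (0:ℝ) ≤ m := Nat.cast_nonneg m
  calc ‖(1 - q) * (y - 1)‖ * ‖∑ i ∈ Finset.range m, y ^ i‖
      ≤ ((1 + a) * (3 * a)) * (m * 1.03) :=
        mul_le_mul hY1 hsum (norm_nonneg _) (by positivity)
    _ ≤ 4 * ((m : ℝ) * a) := by
      have : 0 ≤ (m : ℝ) * a := by positivity
      nlinarith

end Pool.Agent.MPdf6699Lib
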