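import Pool.Agent.MPdf6699Lib.BlockA

/-!
Block lemma, part B: partial sums at the cube root of unity and the coefficients `rho`.
-/

namespace Pool.Agent.MPdf6699Lib

open Polynomial

/-! ### Abel summation -/

theorem one_sub_X_coeff_zero (Q : ℂ[X]) : ((1 - X) * Q).coeff 0 = Q.coeff 0 := by
  simp

theorem one_sub_X_coeff_succ (Q : ℂ[X]) (n : ℕ) :
    ((1 - X) * Q).coeff (n + 1) = Q.coeff (n + 1) - Q.coeff n := by
  simp [sub_mul]

theorem coeff_eq_sum (Q : ℂ[X]) (n : ℕ) :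
    Q.coeff n = ∑ i ∈ Finset.range (n + 1), ((1 - X) * Q).coeff i := by
  induction n with
  | zero => rw [Finset.sum_range_one, one_sub_X_coeff_zero]
  | succ n ih =>
    rw [Finset.sum_range_succ, ← ih, one_sub_X_coeff_succ]; ring

theorem abel_sum (Q : ℂ[X]) (w : ℂ) (n : ℕ) :
    (1 - w) * ∑ j ∈ Finset.range (n + 1), Q.coeff j * w ^ j =
      ∑ j ∈ Finset.range (n + 1), ((1 - X) * Q).coeff j * w ^ j - Q.coeff n * w ^ (n + 1) := by
  induction n with
  | zero =>
    rw [Finset.sum_range_one, Finset.sum_range_one, one_sub_X_coeff_zero]; ring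
  | succ n ih =>
    rw [Finset.sum_range_succ, mul_add, ih, Finset.sum_range_succ _ (n + 1), one_sub_X_coeff_succ]
    ring

/-- partial sums of a polynomial -/
noncomputable def psum (P : ℂ[X]) (w : ℂ) (n : ℕ) : ℂ :=
  ∑ j ∈ Finset.range (n + 1), P.coeff j * w ^ j

theorem psum_succ (P : ℂ[X]) (w : ℂ) (n : ℕ) :
    psum P w (n + 1) = psum P w n + P.coeff (n + 1) * w ^ (n + 1) := by
  unfold psum
  rw [Finset.sum_range_succ]

theorem psum_zero (P : ℂ[X]) (w : ℂ) : psum P w 0 = P.coeff 0 := by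
  simp [psum]

theorem psum_eval (P : ℂ[X]) (w : ℂ) (n : ℕ) (h : P.natDegree ≤ n) : psum P w n = P.eval w := by
  unfold psum
  rw [Polynomial.eval_eq_sum_range' (by omega : P.natDegree < n + 1)]

theorem coeff_close (P : ℂ[X]) (E : ℝ)
    (hE : ∀ n, ∑ i ∈ Finset.range n, ‖((1 - X) * (P - 1) : ℂ[X]).coeff i‖ ≤ E) (n : ℕ) :
    ‖(P - 1).coeff n‖ ≤ E := by
  rw [coeff_eq_sum]
  exact (norm_sum_le _ _).trans (hE _)

theorem psum_close (P : ℂ[X]) (E : ℝ)
    (hE : ∀ n, ∑ i ∈ Finset.range n, ‖((1 - X) * (P - 1) : ℂ[X]).coeff i‖ ≤ E) (w : ℂ)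
    (hw : ‖w‖ = 1) (hw1 : 1 ≤ ‖1 - w‖) (n : ℕ) :
    ‖psum P w n - 1‖ ≤ 2 * E := by
  have h1 : psum P w n - 1 = ∑ j ∈ Finset.range (n + 1), (P - 1).coeff j * w ^ j := by
    unfold psum
    simp only [coeff_sub, sub_mul, Finset.sum_sub_distrib]
    congr 1
    rw [Finset.sum_eq_single 0]
    · simp
    · intro b _ hb
      rw [coeff_one, if_neg hb, zero_mul]
    · intro h; simp at h
  have h2 := abel_sum (P - 1) w n
  rw [← h1] at h2
  have h3 : ‖(1 - w) * (psum P w n - 1)‖ ≤ E + E := by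
    rw [h2]
    refine (norm_sub_le _ _).trans (add_le_add ?_ ?_)
    · refine (norm_sum_le _ _).trans ?_
      refine le_trans (le_of_eq ?_) (hE (n + 1))
      refine Finset.sum_congr rfl fun j _ => ?_
      rw [norm_mul, norm_pow, hw, one_pow, mul_one]
    · rw [norm_mul, norm_pow, hw, one_pow, mul_one]
      exact coeff_close P E hE n
  rw [norm_mul] at h3
  have h4 : (0:ℝ) ≤ ‖psum P w n - 1‖ := norm_nonneg _
  nlinarith

/-! ### the cube root of unity -/

theorem obm_re : om.re = -1 / 2 := rfl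
theorem obm_im : om.im = Real.sqrt 3 / 2 := rfl

theorem sqrt3_sq : Real.sqrt 3 * Real.sqrt 3 = 3 := Real.mul_self_sqrt (by norm_num)

theorem obm_normSq : Complex.normSq om = 1 := by
  rw [Complex.normSq_apply, obm_re, obm_im]
  nlinarith [sqrt3_sq]

theorem obm_norm : ‖om‖ = 1 := by
  have h : ‖om‖ ^ 2 = 1 := by rw [Complex.sq_norm, obm_normSq]
  have h0 : 0 ≤ ‖om‖ := norm_nonneg _
  nlinarith

/-- the conjugate cube root of unity -/
noncomputable def ow : ℂ := (starRingEnd ℂ) om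

theorem ow_norm : ‖ow‖ = 1 := by
  rw [ow, Complex.norm_conj, obm_norm]

theorem om_mul_ow : om * ow = 1 := by
  rw [ow, Complex.mul_conj, obm_normSq]; simp

theorem conj_ow : (starRingEnd ℂ) ow = om := by
  rw [ow, Complex.conj_conj]

theorem one_sub_ow_norm : 1 ≤ ‖1 - ow‖ := by
  have h := Complex.re_le_norm (1 - ow)
  have h2 : (1 - ow).re = 3 / 2 := by
    rw [ow]; simp [obm_re]; norm_num
  rw [h2] at h
  linarith

/-! ### the block coefficients -/

/-- the unimodular constant -/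
noncomputable def cst (P : ℂ[X]) : ℂ := P.eval ow / P.eval om

/-- the block coefficients -/
noncomputable def rho (P : ℂ[X]) (d i : ℕ) : ℂ :=
  if 1 ≤ i ∧ i ≤ d then
    om ^ i * (psum P ow (i - 1) + cst P * (starRingEnd ℂ) (psum P ow (d - i)) - P.eval ow)
  else 0

theorem eval_om (P : ℂ[X]) (hP : P.map (starRingEnd ℂ) = P) :
    P.eval om = (starRingEnd ℂ) (P.eval ow) := by
  rw [← conj_ow]
  conv_lhs => rw [← hP]
  rw [eval_map, eval₂_at_apply]

theorem eval_ow_close {P : ℂ[X]} {ε : ℝ} (hc : ∀ n, ‖psum P ow n - 1‖ ≤ ε) :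
    ‖P.eval ow - 1‖ ≤ ε := by
  rw [← psum_eval P ow P.natDegree le_rfl]; exact hc _

theorem eval_ow_ne {P : ℂ[X]} {ε : ℝ} (hε : ε < 1) (hc : ∀ n, ‖psum P ow n - 1‖ ≤ ε) :
    P.eval ow ≠ 0 := by
  intro h
  have := eval_ow_close hc
  rw [h, zero_sub, norm_neg, norm_one] at this
  linarith

theorem cst_mul {P : ℂ[X]} {ε : ℝ} (hP : P.map (starRingEnd ℂ) = P) (hε : ε < 1)
    (hc : ∀ n, ‖psum P ow n - 1‖ ≤ ε) : cst P * P.eval om = P.eval ow := by
  have h := eval_ow_ne hε hc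
  have h2 : P.eval om ≠ 0 := by
    rw [eval_om P hP]
    simpa using h
  rw [cst, div_mul_cancel₀ _ h2]

theorem cst_norm {P : ℂ[X]} {ε : ℝ} (hP : P.map (starRingEnd ℂ) = P) (hε : ε < 1)
    (hc : ∀ n, ‖psum P ow n - 1‖ ≤ ε) : ‖cst P‖ = 1 := by
  have h := eval_ow_ne hε hc
  rw [cst, eval_om P hP, norm_div, Complex.norm_conj]
  exact div_self (by simpa using h)

theorem rho_close {P : ℂ[X]} {ε : ℝ} (hP : P.map (starRingEnd ℂ) = P) (hε : ε < 1)
    (hc : ∀ n, ‖psum P ow n - 1‖ ≤ ε) (d i : ℕ) (h1 : 1 ≤ i) (h2 : i ≤ d) :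
    ‖rho P d i - om ^ i‖ ≤ 3 * ε := by
  rw [rho, if_pos ⟨h1, h2⟩]
  have e : om ^ i * (psum P ow (i - 1) + cst P * (starRingEnd ℂ) (psum P ow (d - i)) -
      P.eval ow) - om ^ i = om ^ i * ((psum P ow (i - 1) - 1) +
      cst P * (starRingEnd ℂ) ((psum P ow (d - i) - 1) - (P.eval ow - 1))) := by
    rw [map_sub, map_sub, map_sub, map_one, ← eval_om P hP]
    have := cst_mul hP hε hc
    linear_combination (om ^ i) * this
  rw [e, norm_mul, norm_pow, obm_norm, one_pow, one_mul]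
  refine (norm_add_le _ _).trans ?_
  rw [norm_mul, cst_norm hP hε hc, one_mul, Complex.norm_conj]
  have h3 := norm_sub_le (psum P ow (d - i) - 1) (P.eval ow - 1)
  have h4 := hc (i - 1)
  have h5 := hc (d - i)
  have h6 := eval_ow_close hc
  linarith

/-! ### the closed form of the block polynomial -/

theorem tl_abel (ρ : ℕ → ℂ) (q : ℂ) (n : ℕ) :
    ∑ i ∈ Finset.range n, (ρ i - ρ (i + 1)) * q ^ i =
      ρ 0 - (1 - q) * ∑ i ∈ Finset.range n, ρ (i + 1) * q ^ i - ρ n * q ^ n := by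
  induction n with
  | zero => simp
  | succ n ih =>
    rw [Finset.sum_range_succ, ih, Finset.sum_range_succ]
    ring

theorem tlb_eq (ρ : ℕ → ℂ) (d : ℕ) (h0 : ρ 0 = 0) (hd : ρ (d + 1) = 0) (q : ℂ) :
    tl ρ d 0 q = -((1 - q) * ∑ i ∈ Finset.range d, ρ (i + 1) * q ^ i) := by
  have h1 : tl ρ d 0 q = ∑ i ∈ Finset.range (d + 1), (ρ i - ρ (i + 1)) * q ^ i := by
    unfold tl cf
    rw [← Finset.range_eq_Ico]
  rw [h1, tl_abel, h0, hd, Finset.sum_range_succ, hd]
  ring

theorem sum1 (P : ℂ[X]) (q : ℂ) (n : ℕ) :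
    (1 - om * q) * ∑ i ∈ Finset.range (n + 1), (om * q) ^ i * psum P ow i =
      ∑ i ∈ Finset.range (n + 1), P.coeff i * q ^ i - psum P ow n * (om * q) ^ (n + 1) := by
  induction n with
  | zero => simp [psum_zero]; ring
  | succ n ih =>
    rw [Finset.sum_range_succ, mul_add, ih, Finset.sum_range_succ _ (n + 1), psum_succ]
    have h : (om * q) ^ (n + 1) * ow ^ (n + 1) = q ^ (n + 1) := by
      rw [← mul_pow]
      congr 1
      rw [mul_comm om q, mul_assoc, om_mul_ow, mul_one]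
    linear_combination (P.coeff (n + 1)) * h

theorem sum2 (t : ℕ → ℂ) (u : ℂ) (n : ℕ) :
    (1 - u) * ∑ j ∈ Finset.range (n + 1), u ^ (n - j) * t j =
      t n - u ^ (n + 1) * t 0 - ∑ j ∈ Finset.range n, u ^ (n - j) * (t (j + 1) - t j) := by
  induction n with
  | zero => simp; ring
  | succ n ih =>
    have h1 : ∑ j ∈ Finset.range (n + 1), u ^ (n + 1 - j) * t j =
        u * ∑ j ∈ Finset.range (n + 1), u ^ (n - j) * t j := by
      rw [Finset.mul_sum]
      refine Finset.sum_congr rfl fun j hj => ?_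
      have : n + 1 - j = (n - j) + 1 := by
        have := Finset.mem_range.1 hj
        omega
      rw [this]; ring
    have h2 : ∑ j ∈ Finset.range n, u ^ (n + 1 - j) * (t (j + 1) - t j) =
        u * ∑ j ∈ Finset.range n, u ^ (n - j) * (t (j + 1) - t j) := by
      rw [Finset.mul_sum]
      refine Finset.sum_congr rfl fun j hj => ?_
      have : n + 1 - j = (n - j) + 1 := by
        have := Finset.mem_range.1 hj
        omega
      rw [this]; ring
    have h3 : ∑ j ∈ Finset.range (n + 1 + 1), u ^ (n + 1 - j) * t j =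
        u * ∑ j ∈ Finset.range (n + 1), u ^ (n - j) * t j + t (n + 1) := by
      rw [Finset.sum_range_succ, h1, Nat.sub_self, pow_zero, one_mul]
    have h4 : ∑ j ∈ Finset.range (n + 1), u ^ (n + 1 - j) * (t (j + 1) - t j) =
        u * ∑ j ∈ Finset.range n, u ^ (n - j) * (t (j + 1) - t j) + u * (t (n + 1) - t n) := by
      rw [Finset.sum_range_succ, h2]
      have : n + 1 - n = 1 := by omega
      rw [this, pow_one]
    rw [h3, h4]
    linear_combination u * ih

/-- the reversed polynomial -/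
noncomputable def rv (P : ℂ[X]) (d : ℕ) (q : ℂ) : ℂ :=
  ∑ j ∈ Finset.range d, P.coeff j * q ^ (d - j)

theorem sum3 (P : ℂ[X]) (hP : ∀ n, (starRingEnd ℂ) (P.coeff n) = P.coeff n) (q : ℂ) (n : ℕ) :
    (1 - om * q) * ∑ i ∈ Finset.range (n + 1), (om * q) ^ i * (starRingEnd ℂ) (psum P ow (n - i)) =
      (starRingEnd ℂ) (psum P ow n) - om ^ (n + 1) * rv P (n + 1) q := by
  have h1 : ∑ i ∈ Finset.range (n + 1), (om * q) ^ i * (starRingEnd ℂ) (psum P ow (n - i)) =
      ∑ j ∈ Finset.range (n + 1), (om * q) ^ (n - j) * (starRingEnd ℂ) (psum P ow j) := by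
    rw [← Finset.sum_range_reflect]
    refine Finset.sum_congr rfl fun j hj => ?_
    have hj' := Finset.mem_range.1 hj
    have e1 : n + 1 - 1 - j = n - j := by omega
    have e2 : n - (n - j) = j := by omega
    rw [e1, e2]
  rw [h1, sum2, rv, Finset.sum_range_succ', psum_zero, hP]
  have h2 : ∑ j ∈ Finset.range n, (om * q) ^ (n - j) *
      ((starRingEnd ℂ) (psum P ow (j + 1)) - (starRingEnd ℂ) (psum P ow j)) =
      om ^ (n + 1) * ∑ j ∈ Finset.range n, P.coeff (j + 1) * q ^ (n + 1 - (j + 1)) := by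
    rw [Finset.mul_sum]
    refine Finset.sum_congr rfl fun j hj => ?_
    have hj' := Finset.mem_range.1 hj
    rw [psum_succ, map_add, map_mul, map_pow, conj_ow, hP]
    have e1 : n + 1 - (j + 1) = n - j := by omega
    have e2 : om ^ (n + 1) = om ^ (n - j) * om ^ (j + 1) := by
      rw [← pow_add]; congr 1; omega
    rw [e1, e2, mul_pow]
    ring
  rw [h2, Nat.sub_zero, mul_pow]
  ring

theorem block_identity {P : ℂ[X]} {ε : ℝ} (hP : P.map (starRingEnd ℂ) = P) (hε : ε < 1)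
    (hc : ∀ n, ‖psum P ow n - 1‖ ≤ ε) (d : ℕ) (hd : P.natDegree < d) (q : ℂ) :
    (1 - om * q) * ∑ i ∈ Finset.range d, rho P d (i + 1) * q ^ i =
      om * (P.eval q - cst P * om ^ d * rv P d q) := by
  obtain ⟨n, rfl⟩ : ∃ n, d = n + 1 := ⟨d - 1, by omega⟩
  have hcoef : ∀ n, (starRingEnd ℂ) (P.coeff n) = P.coeff n := by
    intro n
    conv_rhs => rw [← hP]
    rw [coeff_map]
  have h1 : ∑ i ∈ Finset.range (n + 1), rho P (n + 1) (i + 1) * q ^ i =
      om * (∑ i ∈ Finset.range (n + 1), (om * q) ^ i * psum P ow i +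
        cst P * ∑ i ∈ Finset.range (n + 1), (om * q) ^ i * (starRingEnd ℂ) (psum P ow (n - i)) -
        P.eval ow * ∑ i ∈ Finset.range (n + 1), (om * q) ^ i) := by
    rw [Finset.mul_sum, Finset.mul_sum, ← Finset.sum_add_distrib, ← Finset.sum_sub_distrib,
      Finset.mul_sum]
    refine Finset.sum_congr rfl fun i hi => ?_
    have hi' := Finset.mem_range.1 hi
    rw [rho, if_pos ⟨by omega, by omega⟩]
    have e1 : i + 1 - 1 = i := by omega
    have e2 : n + 1 - (i + 1) = n - i := by omega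
    rw [e1, e2, mul_pow]
    ring
  have s1 := sum1 P q n
  have s2 := sum3 P hcoef q n
  have s3 : (1 - om * q) * ∑ i ∈ Finset.range (n + 1), (om * q) ^ i = 1 - (om * q) ^ (n + 1) := by
    rw [mul_comm]; exact geom_sum_mul_neg _ _
  have hev : ∑ i ∈ Finset.range (n + 1), P.coeff i * q ^ i = P.eval q := by
    rw [Polynomial.eval_eq_sum_range' (by omega : P.natDegree < n + 1)]
  have hps : psum P ow n = P.eval ow := psum_eval P ow n (by omega)
  rw [hev, hps] at s1
  rw [hps, ← eval_om P hP] at s2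
  have hcm := cst_mul hP hε hc
  rw [h1]
  linear_combination om * s1 + om * cst P * s2 - om * P.eval ow * s3 + om * hcm

theorem tl_identity {P : ℂ[X]} {ε : ℝ} (hP : P.map (starRingEnd ℂ) = P) (hε : ε < 1)
    (hc : ∀ n, ‖psum P ow n - 1‖ ≤ ε) (d : ℕ) (hd : P.natDegree < d) (q : ℂ) :
    (1 - om * q) * tl (rho P d) d 0 q =
      -((1 - q) * (om * (P.eval q - cst P * om ^ d * rv P d q))) := by
  rw [tlb_eq _ _ (by simp [rho]) (by simp [rho]), ← block_identity hP hε hc d hd q]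
  ring

end Pool.Agent.MPdf6699Lib
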