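import Pool.Agent.MPdf6699Lib.BlockB

/-!
Block lemma, part C: the estimates near `1` and in the sector.
-/

namespace Pool.Agent.MPdf6699Lib

open Polynomial

theorem om_ne : om ≠ 0 := by
  intro h
  have := obm_norm
  rw [h, norm_zero] at this
  norm_num at this

theorem one_sub_om_mul (q : ℂ) : ‖1 - om * q‖ = ‖q - ow‖ := by
  have h : 1 - om * q = -(om * (q - ow)) := by
    linear_combination -om_mul_ow
  rw [h, norm_neg, norm_mul, obm_norm, one_mul]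

theorem one_sub_om_mul_ge (q : ℂ) : q.re + 1 / 2 ≤ ‖1 - om * q‖ := by
  rw [one_sub_om_mul]
  have h := Complex.re_le_norm (q - ow)
  have h2 : (q - ow).re = q.re + 1 / 2 := by
    rw [ow]; simp [obm_re]; ring
  rw [h2] at h
  exact h

theorem geom_norm_le {u : ℂ} (hu : ‖u‖ < 1) (L : ℕ) :
    ‖∑ i ∈ Finset.range L, u ^ i‖ ≤ 1 / (1 - ‖u‖) := by
  have h1 : ‖∑ i ∈ Finset.range L, u ^ i‖ ≤ ∑ i ∈ Finset.range L, ‖u‖ ^ i := by
    refine (norm_sum_le _ _).trans (le_of_eq ?_)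
    exact Finset.sum_congr rfl fun i _ => norm_pow _ _
  refine h1.trans ?_
  have h2 : (∑ i ∈ Finset.range L, ‖u‖ ^ i) * (1 - ‖u‖) = 1 - ‖u‖ ^ L := geom_sum_mul_neg _ _
  rw [le_div_iff₀ (by linarith), h2]
  have : 0 ≤ ‖u‖ ^ L := by positivity
  linarith

theorem Y_small {r : ℝ} (h0 : 0 < r) (h1 : r < 1) (L : ℕ) {q : ℂ}
    (hq : ‖1 - q‖ ≤ (1 - r) / 4) : ‖(Yp r L).eval q‖ ≤ 1 / 3 := by
  have hn : ‖q‖ ≤ 1 + (1 - r) / 4 := by
    have := norm_sub_norm_le q 1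
    rw [norm_one, norm_sub_rev] at this
    linarith
  have hrq : ‖(r : ℂ) * q‖ ≤ 1 - 3 / 4 * (1 - r) := by
    rw [norm_mul, Complex.norm_real, Real.norm_eq_abs, abs_of_pos h0]
    nlinarith
  rw [Yp_eval, norm_mul]
  have h2 := geom_norm_le (u := (r : ℂ) * q) (by linarith) L
  have h3 : 1 / (1 - ‖(r : ℂ) * q‖) ≤ 1 / (3 / 4 * (1 - r)) := by
    apply one_div_le_one_div_of_le <;> linarith
  calc ‖1 - q‖ * ‖∑ i ∈ Finset.range L, ((r : ℂ) * q) ^ i‖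
      ≤ ((1 - r) / 4) * (1 / (3 / 4 * (1 - r))) :=
        mul_le_mul hq (h2.trans h3) (norm_nonneg _) (by linarith)
    _ = 1 / 3 := by
      have : (1 - r) ≠ 0 := by linarith
      field_simp

theorem Y_small_inv {r : ℝ} (h0 : 0 < r) (h1 : r < 1) (L : ℕ) {q : ℂ}
    (hq : ‖1 - q‖ ≤ (1 - r) / 4) : ‖(Yp r L).eval q⁻¹‖ ≤ 1 / 3 := by
  have hn : 1 - (1 - r) / 4 ≤ ‖q‖ := by
    have := norm_sub_norm_le 1 q
    rw [norm_one] at this
    linarith
  have hq0 : 0 < ‖q‖ := by linarith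
  have hqne : q ≠ 0 := norm_pos_iff.1 hq0
  have hrq : ‖(r : ℂ) * q⁻¹‖ = r / ‖q‖ := by
    rw [norm_mul, Complex.norm_real, Real.norm_eq_abs, abs_of_pos h0, norm_inv, div_eq_mul_inv]
  have hlt : r / ‖q‖ < 1 := by
    rw [div_lt_one hq0]; linarith
  rw [Yp_eval, norm_mul]
  have h2 := geom_norm_le (u := (r : ℂ) * q⁻¹) (by rw [hrq]; exact hlt) L
  rw [hrq] at h2
  have h3 : ‖1 - q⁻¹‖ = ‖1 - q‖ / ‖q‖ := by
    have : 1 - q⁻¹ = -((1 - q) / q) := by field_simp; ring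
    rw [this, norm_neg, norm_div]
  rw [h3]
  calc ‖1 - q‖ / ‖q‖ * ‖∑ i ∈ Finset.range L, ((r : ℂ) * q⁻¹) ^ i‖
      ≤ ‖1 - q‖ / ‖q‖ * (1 / (1 - r / ‖q‖)) :=
        mul_le_mul_of_nonneg_left h2 (by positivity)
    _ = ‖1 - q‖ / (‖q‖ - r) := by
      have e1 : ‖q‖ - r ≠ 0 := by linarith
      have e2 : ‖q‖ ≠ 0 := by linarith
      have e3 : 1 - r / ‖q‖ ≠ 0 := by linarith
      field_simp
    _ ≤ 1 / 3 := by
      rw [div_le_iff₀ (by linarith)]
      linarith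

theorem rv_eq (P : ℂ[X]) (d : ℕ) (hd : P.natDegree < d) (q : ℂ) (hq : q ≠ 0) :
    rv P d q = q ^ d * P.eval q⁻¹ := by
  rw [rv, Polynomial.eval_eq_sum_range' hd, Finset.mul_sum]
  refine Finset.sum_congr rfl fun j hj => ?_
  have hj' := Finset.mem_range.1 hj
  have : q ^ d = q ^ (d - j) * q ^ j := by
    rw [← pow_add]; congr 1; omega
  rw [this, inv_pow]
  have h2 : q ^ j ≠ 0 := pow_ne_zero _ hq
  field_simp

theorem rv_le (P : ℂ[X]) (D d : ℕ) (hD : P.natDegree ≤ D) (hd : D < d) (hc : ∀ n, ‖P.coeff n‖ ≤ 2)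
    (q : ℂ) (hq : ‖q‖ ≤ 1) : ‖rv P d q‖ ≤ 2 * (D + 1) * ‖q‖ ^ (d - D) := by
  have h1 : rv P d q = ∑ j ∈ Finset.range (D + 1), P.coeff j * q ^ (d - j) := by
    rw [rv]
    symm
    refine Finset.sum_subset ?_ ?_
    · intro j hj
      have := Finset.mem_range.1 hj
      exact Finset.mem_range.2 (by omega)
    · intro j _ hj
      have : D < j := by
        by_contra h
        exact hj (Finset.mem_range.2 (by omega))
      rw [Polynomial.coeff_eq_zero_of_natDegree_lt (by omega), zero_mul]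
  rw [h1]
  refine (norm_sum_le _ _).trans ?_
  calc ∑ j ∈ Finset.range (D + 1), ‖P.coeff j * q ^ (d - j)‖
      ≤ ∑ j ∈ Finset.range (D + 1), 2 * ‖q‖ ^ (d - D) := by
        refine Finset.sum_le_sum fun j hj => ?_
        have hj' := Finset.mem_range.1 hj
        rw [norm_mul, norm_pow]
        refine mul_le_mul (hc j) ?_ (by positivity) (by norm_num)
        exact pow_le_pow_of_le_one (norm_nonneg _) hq (by omega)
    _ = 2 * (D + 1) * ‖q‖ ^ (d - D) := by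
      rw [Finset.sum_const, Finset.card_range, nsmul_eq_mul]
      push_cast
      ring

theorem small_gen {r : ℝ} (h0 : 0 < r) (h1 : r < 1) (L m d : ℕ) {ε : ℝ} (hε : ε < 1)
    (hc : ∀ n, ‖psum (Th r L m) ow n - 1‖ ≤ ε) (hd : m * L < d) {q : ℂ}
    (hq : ‖1 - q‖ ≤ (1 - r) / 4) :
    ‖tl (rho (Th r L m) d) d 0 q‖ ≤ (1 / 3) ^ m * max 1 ‖q‖ ^ d := by
  have hdeg := Th_natDegree r L m
  have hid := tl_identity (Th_map r L m) hε hc d (by omega) q
  have hn : ‖1 - om * q‖ * ‖tl (rho (Th r L m) d) d 0 q‖ =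
      ‖1 - q‖ * ‖(Th r L m).eval q - cst (Th r L m) * om ^ d * rv (Th r L m) d q‖ := by
    rw [← norm_mul, hid, norm_neg, norm_mul, norm_mul, obm_norm, one_mul]
  have hre : 1 - (1 - r) / 4 ≤ q.re := by
    have := Complex.re_le_norm (1 - q)
    simp at this
    linarith
  have h2 : 1 ≤ ‖1 - om * q‖ := by
    have := one_sub_om_mul_ge q
    linarith
  have hq0 : q ≠ 0 := by
    intro h
    rw [h] at hre
    simp at hre
    linarith
  have h3 : ‖(Th r L m).eval q‖ ≤ (1 / 3) ^ m * max 1 ‖q‖ ^ d := by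
    rw [Th_eval, norm_pow]
    have e1 := pow_le_pow_left₀ (norm_nonneg _) (Y_small h0 h1 L hq) m
    have e2 : (1:ℝ) ≤ max 1 ‖q‖ ^ d := one_le_pow₀ (le_max_left _ _)
    have e3 : (0:ℝ) ≤ (1 / 3) ^ m := by positivity
    nlinarith
  have h4 : ‖rv (Th r L m) d q‖ ≤ (1 / 3) ^ m * max 1 ‖q‖ ^ d := by
    rw [rv_eq _ _ (by omega) _ hq0, norm_mul, norm_pow, Th_eval, norm_pow, mul_comm]
    refine mul_le_mul ?_ ?_ (by positivity) (by positivity)
    · exact pow_le_pow_left₀ (norm_nonneg _) (Y_small_inv h0 h1 L hq) m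
    · exact pow_le_pow_left₀ (norm_nonneg _) (le_max_right _ _) d
  have h5 : ‖(Th r L m).eval q - cst (Th r L m) * om ^ d * rv (Th r L m) d q‖ ≤
      2 * ((1 / 3) ^ m * max 1 ‖q‖ ^ d) := by
    refine (norm_sub_le _ _).trans ?_
    rw [norm_mul, norm_mul, cst_norm (Th_map r L m) hε hc, norm_pow, obm_norm]
    simp only [one_pow, one_mul]
    linarith
  have h6 : (0:ℝ) ≤ (1 / 3) ^ m * max 1 ‖q‖ ^ d := by positivity
  have h7 : ‖1 - q‖ * ‖(Th r L m).eval q - cst (Th r L m) * om ^ d * rv (Th r L m) d q‖ ≤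
      (1 / 4) * (2 * ((1 / 3) ^ m * max 1 ‖q‖ ^ d)) :=
    mul_le_mul (by linarith) h5 (norm_nonneg _) (by norm_num)
  have h8 : (0:ℝ) ≤ ‖tl (rho (Th r L m) d) d 0 q‖ := norm_nonneg _
  nlinarith

/-! ### multiplicative closeness to one -/

theorem near_mul {u v : ℂ} {e f : ℝ} (hu : ‖u - 1‖ ≤ Real.exp e - 1)
    (hv : ‖v - 1‖ ≤ Real.exp f - 1) : ‖u * v - 1‖ ≤ Real.exp (e + f) - 1 := by
  have h : u * v - 1 = (u - 1) * (v - 1) + (u - 1) + (v - 1) := by ring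
  rw [h, Real.exp_add]
  refine (norm_add_le _ _).trans ?_
  have h2 := norm_add_le ((u - 1) * (v - 1)) (u - 1)
  rw [norm_mul] at h2
  have h3 := mul_le_mul hu hv (norm_nonneg _) ((norm_nonneg _).trans hu)
  nlinarith

theorem near_pow {u : ℂ} {e : ℝ} (hu : ‖u - 1‖ ≤ Real.exp e - 1) (n : ℕ) :
    ‖u ^ n - 1‖ ≤ Real.exp (n * e) - 1 := by
  induction n with
  | zero => simp
  | succ n ih =>
    rw [pow_succ]
    have := near_mul ih hu
    have e1 : ((n + 1 : ℕ) : ℝ) * e = n * e + e := by push_cast; ring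
    rw [e1]
    exact this

theorem near_of_le {u : ℂ} {e : ℝ} (hu : ‖u - 1‖ ≤ e) : ‖u - 1‖ ≤ Real.exp e - 1 := by
  have := Real.add_one_le_exp e
  linarith

theorem norm_pow_sub_pow {a b : ℂ} (ha : ‖a‖ ≤ 1) (hb : ‖b‖ ≤ 1) (n : ℕ) :
    ‖a ^ n - b ^ n‖ ≤ n * ‖a - b‖ := by
  induction n with
  | zero => simp
  | succ n ih =>
    have h : a ^ (n + 1) - b ^ (n + 1) = a ^ n * (a - b) + (a ^ n - b ^ n) * b := by ring
    rw [h]
    refine (norm_add_le _ _).trans ?_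
    rw [norm_mul, norm_mul, norm_pow]
    have h1 : ‖a‖ ^ n ≤ 1 := pow_le_one₀ (norm_nonneg _) ha
    have h2 : 0 ≤ ‖a - b‖ := norm_nonneg _
    have h3 : 0 ≤ ‖a ^ n - b ^ n‖ := norm_nonneg _
    push_cast
    nlinarith [mul_le_mul_of_nonneg_right h1 h2, mul_le_mul_of_nonneg_left hb h3]

end Pool.Agent.MPdf6699Lib
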