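import Pool.Agent.MPdf6699Lib.BlockC

/-!
Block lemma, part D: the sector estimate.
-/

namespace Pool.Agent.MPdf6699Lib

open Polynomial

theorem exp_le_aux {t : ℝ} (h0 : 0 ≤ t) (h : t ≤ 1 / 100) : Real.exp t - 1 ≤ 1.02 * t := by
  rcases h0.eq_or_lt with rfl | h0'
  · simp
  have := Real.exp_bound_div_one_sub_of_interval (x := t) h0 (by linarith)
  have h2 : 1 / (1 - t) ≤ 1 + 1.02 * t := by
    rw [div_le_iff₀ (by linarith)]
    nlinarith
  linarith

theorem sector_final {g : ℂ} {q η : ℂ} (hre : 0 ≤ q.re) (him : |q.im| ≤ 1 / 1000) (hq : ‖q‖ ≤ 1)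
    (hη : ‖η‖ ≤ 1 / 100) (hg : g = ((starRingEnd ℂ) q - om) * (1 + η)) :
    0 < g.re ∧ |g.im| ≤ 2 * g.re := by
  have hP : ‖((starRingEnd ℂ) q - om) * η‖ ≤ 1 / 50 := by
    rw [norm_mul]
    have h1 : ‖(starRingEnd ℂ) q - om‖ ≤ 2 := by
      refine (norm_sub_le _ _).trans ?_
      rw [Complex.norm_conj, obm_norm]; linarith
    calc ‖(starRingEnd ℂ) q - om‖ * ‖η‖ ≤ 2 * (1 / 100) :=
          mul_le_mul h1 hη (norm_nonneg _) (by norm_num)
      _ = 1 / 50 := by norm_num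
  set P := ((starRingEnd ℂ) q - om) * η with hPdef
  have hg2 : g = ((starRingEnd ℂ) q - om) + P := by rw [hg, hPdef]; ring
  have h1 := (Complex.abs_re_le_norm P).trans hP
  have h2 := (Complex.abs_im_le_norm P).trans hP
  rw [abs_le] at h1 h2
  have h3 : g.re = q.re + 1 / 2 + P.re := by
    rw [hg2]; simp [obm_re]; ring
  have h4 : g.im = -q.im - Real.sqrt 3 / 2 + P.im := by
    rw [hg2]; simp [obm_im]
  have h5 : Real.sqrt 3 ≤ 1.7321 := by
    rw [Real.sqrt_le_left (by norm_num)]; norm_num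
  have h6 : 0 ≤ Real.sqrt 3 := Real.sqrt_nonneg _
  rw [abs_le] at him
  rw [h3, h4]
  refine ⟨by linarith, ?_⟩
  rw [abs_le]
  constructor <;> linarith

theorem form_aux {Q O Y Z N N' X1 : ℂ} (h1 : X1 ≠ 0) (h2 : N ≠ 0) (h3 : N' ≠ 0) :
    -(Q * (O * (Y * Z))) / N = X1 * Y / (N * N') * ((-O * N') * (Q / X1 * Z)) := by
  field_simp

theorem sector_gen {r : ℝ} (h0 : 0 < r) (h1 : r < 1) (L m d : ℕ) {ε : ℝ} (hε : ε < 1)
    (hc : ∀ n, ‖psum (Th r L m) ow n - 1‖ ≤ ε) (hd : m * L < d) {q : ℂ} {δ : ℝ}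
    (hq1 : ‖q‖ ≤ 1) (hre : 0 ≤ q.re) (him : |q.im| ≤ δ) (hfar : (1 - r) / 4 ≤ ‖1 - q‖)
    (hδ : δ ≤ (1 - r) / 5000) (hrL : r ^ L ≤ 1 / 2)
    (hsm : (m : ℝ) * (6 * (δ / (1 - r)) + 2 * L * δ) ≤ 1 / 1000)
    (hrv : ‖rv (Th r L m) d q‖ ≤ (1 / 12) ^ m / 1000) :
    0 < (tl (rho (Th r L m) d) d 0 q).re ∧
      |(tl (rho (Th r L m) d) d 0 q).im| ≤ 2 * (tl (rho (Th r L m) d) d 0 q).re := by
  set a : ℝ := 1 - r with ha
  have ha0 : 0 < a := by rw [ha]; linarith
  set x : ℝ := q.re with hx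
  have hδ0 : 0 ≤ δ := (abs_nonneg _).trans him
  have hx1 : x ≤ 1 := (Complex.re_le_norm q).trans hq1
  have h1x : a / 5 ≤ 1 - x := by
    have h2 := Complex.norm_le_abs_re_add_abs_im (1 - q)
    have h3 : (1 - q).re = 1 - x := by simp [hx]
    have h4 : (1 - q).im = -q.im := by simp
    rw [h3, h4, abs_neg, abs_of_nonneg (by linarith)] at h2
    linarith
  have h1x0 : 0 < 1 - x := by linarith
  have hrx : a ≤ 1 - r * x := by rw [ha]; nlinarith
  have hrx0 : 0 < 1 - r * x := by linarith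
  have hrxL : (r * x) ^ L ≤ 1 / 2 := by
    refine le_trans (pow_le_pow_left₀ (by positivity) ?_ L) hrL
    nlinarith
  have hrxL0 : 0 < 1 - (r * x) ^ L := by linarith
  have hqx : ‖q - (x : ℂ)‖ ≤ δ := by
    have h2 : q - (x : ℂ) = (q.im : ℂ) * Complex.I := by
      apply Complex.ext <;> simp [hx]
    rw [h2, norm_mul, Complex.norm_I, mul_one, Complex.norm_real]
    exact him
  have hrq : ‖(r : ℂ) * q‖ ≤ r := by
    rw [norm_mul, Complex.norm_real, Real.norm_eq_abs, abs_of_pos h0]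
    nlinarith
  have h1rq : a ≤ ‖1 - (r : ℂ) * q‖ := by
    have := norm_sub_norm_le (1 : ℂ) (r * q)
    rw [norm_one] at this
    linarith
  have h1rq0 : (1 - (r : ℂ) * q) ≠ 0 := norm_pos_iff.1 (by linarith)
  have c1 : (1 - (x : ℂ)) ≠ 0 := by
    have : ((1 - x : ℝ) : ℂ) ≠ 0 := by exact_mod_cast h1x0.ne'
    simpa using this
  have c2 : (1 - (r : ℂ) * x) ≠ 0 := by
    have : ((1 - r * x : ℝ) : ℂ) ≠ 0 := by exact_mod_cast hrx0.ne'
    simpa using this
  have c3 : (1 - ((r : ℂ) * x) ^ L) ≠ 0 := by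
    have : ((1 - (r * x) ^ L : ℝ) : ℂ) ≠ 0 := by exact_mod_cast hrxL0.ne'
    simpa using this
  -- the three ratios
  set U1 : ℂ := (1 - q) / (1 - x) with hU1
  set U2 : ℂ := (1 - r * x) / (1 - r * q) with hU2
  set U3 : ℂ := (1 - (r * q) ^ L) / (1 - (r * x) ^ L) with hU3
  have b1 : ‖U1 - 1‖ ≤ 5 * (δ / a) := by
    have h2 : U1 - 1 = -((q - x) / (1 - x)) := by
      rw [hU1]; field_simp; ring
    rw [h2, norm_neg, norm_div]
    have h3 : ‖(1 - (x : ℂ))‖ = 1 - x := by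
      have : (1 - (x : ℂ)) = ((1 - x : ℝ) : ℂ) := by push_cast; ring
      rw [this, Complex.norm_real, Real.norm_eq_abs, abs_of_pos h1x0]
    rw [h3, div_le_iff₀ h1x0]
    have h4 : δ = 5 * (δ / a) * (a / 5) := by field_simp
    calc ‖q - (x : ℂ)‖ ≤ δ := hqx
      _ = 5 * (δ / a) * (a / 5) := h4
      _ ≤ 5 * (δ / a) * (1 - x) := mul_le_mul_of_nonneg_left h1x (by positivity)
  have b2 : ‖U2 - 1‖ ≤ δ / a := by
    have h2 : U2 - 1 = r * (q - x) / (1 - r * q) := by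
      rw [hU2]; field_simp; ring
    rw [h2, norm_div, norm_mul, Complex.norm_real, Real.norm_eq_abs, abs_of_pos h0]
    rw [div_le_iff₀ (by linarith)]
    calc r * ‖q - (x : ℂ)‖ ≤ 1 * δ := mul_le_mul h1.le hqx (norm_nonneg _) (by norm_num)
      _ = δ / a * a := by field_simp
      _ ≤ δ / a * ‖1 - (r : ℂ) * q‖ := mul_le_mul_of_nonneg_left h1rq (by positivity)
  have b3 : ‖U3 - 1‖ ≤ 2 * L * δ := by
    have h2 : U3 - 1 = ((r * x) ^ L - (r * q) ^ L) / (1 - (r * x) ^ L) := by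
      rw [hU3]; field_simp; ring
    have hrx' : ‖(r : ℂ) * x‖ ≤ 1 := by
      rw [norm_mul, Complex.norm_real, Complex.norm_real, Real.norm_eq_abs, Real.norm_eq_abs,
        abs_of_pos h0, abs_of_nonneg hre]
      nlinarith
    have h3 : ‖((r : ℂ) * x) ^ L - (r * q) ^ L‖ ≤ L * δ := by
      refine (norm_pow_sub_pow hrx' (hrq.trans h1.le) L).trans ?_
      refine mul_le_mul_of_nonneg_left ?_ (Nat.cast_nonneg L)
      rw [← mul_sub, norm_mul, Complex.norm_real, Real.norm_eq_abs, abs_of_pos h0, norm_sub_rev]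
      nlinarith [norm_nonneg (q - (x : ℂ))]
    have h4 : ‖(1 - ((r : ℂ) * x) ^ L)‖ = 1 - (r * x) ^ L := by
      have : (1 - ((r : ℂ) * x) ^ L) = ((1 - (r * x) ^ L : ℝ) : ℂ) := by push_cast; ring
      rw [this, Complex.norm_real, Real.norm_eq_abs, abs_of_pos hrxL0]
    rw [h2, norm_div, h4, div_le_iff₀ hrxL0]
    have h5 : (0:ℝ) ≤ L * δ := by positivity
    nlinarith
  -- the value of the base factor
  set yx : ℝ := (1 - x) * (1 - (r * x) ^ L) / (1 - r * x) with hyx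
  have hyx1 : 1 / 12 ≤ yx := by
    rw [hyx, le_div_iff₀ hrx0]
    have h2 : 1 - r * x ≤ 6 * (1 - x) := by
      have : 1 - r * x = (1 - x) + a * x := by rw [ha]; ring
      nlinarith
    nlinarith
  have hYq : (Yp r L).eval q = yx * (U1 * U2 * U3) := by
    have h2 := Yp_eval_mul r L q
    have h3 : (Yp r L).eval q = (1 - q) * (1 - (r * q) ^ L) / (1 - r * q) := by
      rw [eq_div_iff h1rq0]; exact h2
    rw [h3, hyx, hU1, hU2, hU3]
    push_cast
    field_simp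
  have hyxm : 0 < yx ^ m := by positivity
  have hyxmc : ((yx : ℂ)) ^ m ≠ 0 := by
    have : ((yx ^ m : ℝ) : ℂ) ≠ 0 := by exact_mod_cast hyxm.ne'
    simpa using this
  set V : ℂ := (U1 * U2 * U3) ^ m with hV
  have hPq : (Th r L m).eval q = (yx : ℂ) ^ m * V := by
    rw [Th_eval, hYq, hV, mul_pow]
  set W : ℂ := -(cst (Th r L m) * om ^ d * rv (Th r L m) d q) / (yx : ℂ) ^ m with hW
  have hWn : ‖W‖ ≤ 1 / 1000 := by
    rw [hW, norm_div, norm_neg, norm_mul, norm_mul, cst_norm (Th_map r L m) hε hc, norm_pow,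
      obm_norm, one_pow, one_mul, one_mul, norm_pow, Complex.norm_real, Real.norm_eq_abs,
      abs_of_pos (by linarith), div_le_iff₀ hyxm]
    refine hrv.trans ?_
    have : (1 / 12 : ℝ) ^ m ≤ yx ^ m := pow_le_pow_left₀ (by norm_num) hyx1 m
    linarith
  -- closeness
  have n1 := near_of_le b1
  have n123 := near_mul (near_mul n1 (near_of_le b2)) (near_of_le b3)
  have nV := near_pow n123 m
  have nUV := near_mul n1 nV
  have h5a : 5 * (δ / a) ≤ 1 / 1000 := by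
    have : δ / a ≤ 1 / 5000 := by
      rw [div_le_iff₀ ha0]; linarith
    linarith
  have hda : 0 ≤ δ / a := by positivity
  have hexp1 : (m : ℝ) * (5 * (δ / a) + δ / a + 2 * L * δ) ≤ 1 / 1000 := by
    have : 5 * (δ / a) + δ / a + 2 * L * δ = 6 * (δ / a) + 2 * L * δ := by ring
    rw [this]; exact hsm
  have hexp2 : Real.exp (5 * (δ / a) + (m : ℝ) * (5 * (δ / a) + δ / a + 2 * L * δ)) - 1 ≤
      0.0021 := by
    have hnn : 0 ≤ 5 * (δ / a) + (m : ℝ) * (5 * (δ / a) + δ / a + 2 * L * δ) := by positivity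
    have := exp_le_aux hnn (by linarith)
    linarith
  have hU1n : ‖U1‖ ≤ 1.1 := by
    have : ‖U1‖ ≤ ‖U1 - 1‖ + ‖(1 : ℂ)‖ := by
      have := norm_add_le (U1 - 1) 1
      simpa using this
    rw [norm_one] at this
    linarith
  set η : ℂ := U1 * (V + W) - 1 with hη
  have hηn : ‖η‖ ≤ 1 / 100 := by
    have h2 : η = (U1 * V - 1) + U1 * W := by rw [hη]; ring
    rw [h2]
    refine (norm_add_le _ _).trans ?_
    rw [norm_mul]
    have h3 : ‖U1 * V - 1‖ ≤ 0.0021 := nUV.trans hexp2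
    have h4 : ‖U1‖ * ‖W‖ ≤ 1.1 * (1 / 1000) := mul_le_mul hU1n hWn (norm_nonneg _) (by norm_num)
    linarith
  -- final formula
  have hid := tl_identity (Th_map r L m) hε hc d (by have := Th_natDegree r L m; omega) q
  set t := tl (rho (Th r L m) d) d 0 q with ht
  have hnorm : 0 < ‖1 - om * q‖ := by
    have := one_sub_om_mul_ge q
    linarith
  have hne : (1 - om * q) ≠ 0 := norm_pos_iff.1 hnorm
  set A : ℝ := (1 - x) * yx ^ m / Complex.normSq (1 - om * q) with hA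
  have hns : 0 < Complex.normSq (1 - om * q) := Complex.normSq_pos.2 hne
  have hApos : 0 < A := by positivity
  have hform : t = (A : ℂ) * (((starRingEnd ℂ) q - om) * (1 + η)) := by
    have hnsc : ((Complex.normSq (1 - om * q) : ℝ) : ℂ) =
        (1 - om * q) * (starRingEnd ℂ) (1 - om * q) := (Complex.mul_conj _).symm
    have hconj : (starRingEnd ℂ) (1 - om * q) = 1 - ow * (starRingEnd ℂ) q := by
      rw [map_sub, map_one, map_mul, ow]
    have hne2 : (1 - ow * (starRingEnd ℂ) q) ≠ 0 := by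
      rw [← hconj]
      exact (_root_.map_ne_zero _).2 hne
    have e1 : (1 - om * q) * t = -((1 - q) * (om * ((yx : ℂ) ^ m * (V + W)))) := by
      rw [hid, hPq]
      congr 3
      rw [mul_add, hW]
      field_simp
      ring
    have e2 : (1 : ℂ) + η = (1 - q) / (1 - x) * (V + W) := by
      rw [hη, hU1]; ring
    have e3 : t = -((1 - q) * (om * ((yx : ℂ) ^ m * (V + W)))) / (1 - om * q) := by
      rw [eq_div_iff hne, mul_comm]; exact e1
    rw [e3, e2, hA]
    push_cast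
    rw [hnsc, hconj]
    have e4 : -om * (1 - ow * (starRingEnd ℂ) q) = (starRingEnd ℂ) q - om := by
      linear_combination ((starRingEnd ℂ) q) * om_mul_ow
    rw [← e4]
    exact form_aux c1 hne hne2
  have hgo := sector_final (g := ((starRingEnd ℂ) q - om) * (1 + η)) hre
    (him.trans (by linarith)) hq1 hηn rfl
  rw [hform]
  rw [Complex.re_ofReal_mul, Complex.im_ofReal_mul]
  refine ⟨mul_pos hApos hgo.1, ?_⟩
  rw [abs_mul, abs_of_pos hApos]
  nlinarith [hgo.2]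

end Pool.Agent.MPdf6699Lib
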