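import Pool.Agent.MPdf6699Lib.BlockD

/-!
Block lemma, part E: numerical parameters and the final statement.
-/

namespace Pool.Agent.MPdf6699Lib

open Polynomial

theorem pow_le_exp_sq {t : ℝ} (ht : 10 ^ 10 ≤ t) (n : ℕ) (hn : n ≤ 1000) :
    t ^ n ≤ Real.exp (t ^ 2) := by
  have h1 : t ≤ Real.exp t := by
    have := Real.add_one_le_exp t; linarith
  have h2 : t ^ n ≤ Real.exp (n * t) := by
    rw [Real.exp_nat_mul]
    exact pow_le_pow_left₀ (by linarith) h1 n
  refine h2.trans (Real.exp_le_exp.2 ?_)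
  have h3 : (n : ℝ) ≤ 1000 := by exact_mod_cast hn
  nlinarith

theorem one_sub_pow_le {a : ℝ} (ha : a ≤ 1) (n : ℕ) : (1 - a) ^ n ≤ Real.exp (-(n * a)) := by
  have h1 : 1 - a ≤ Real.exp (-a) := by
    have := Real.add_one_le_exp (-a); linarith
  calc (1 - a) ^ n ≤ (Real.exp (-a)) ^ n := pow_le_pow_left₀ (by linarith) h1 n
    _ = Real.exp (-(n * a)) := by rw [← Real.exp_nat_mul]; ring_nf

theorem third_le_exp : (1 / 3 : ℝ) ≤ Real.exp (-1) := by
  have h := Real.exp_one_lt_d9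
  rw [Real.exp_neg, ← one_div]
  apply one_div_le_one_div_of_le (Real.exp_pos 1)
  linarith

theorem exp_neg_three_le : Real.exp (-3) ≤ 1 / 12 := by
  have h := Real.exp_one_gt_d9
  have h2 : Real.exp 3 = Real.exp 1 ^ 3 := by rw [← Real.exp_nat_mul]; norm_num
  rw [Real.exp_neg, ← one_div]
  apply one_div_le_one_div_of_le (by norm_num)
  rw [h2]
  have h3 : (2.7 : ℝ) ^ 3 ≤ Real.exp 1 ^ 3 := pow_le_pow_left₀ (by norm_num) (by linarith) 3
  linarith

theorem block_exists (T : ℕ) (hT : 10 ^ 10 ≤ T) : ∃ ρ : ℕ → ℂ, BlockOK T (T ^ 80) ρ := by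
  set t : ℝ := (T : ℝ) with ht
  have hT' : (10 : ℝ) ^ 10 ≤ t := by rw [ht]; exact_mod_cast hT
  have ht0 : 0 < t := by linarith
  have ht1 : 1 ≤ t := by linarith
  have hpw : ∀ n k : ℕ, n ≤ k → t ^ n ≤ t ^ k := fun n k h => pow_le_pow_right₀ ht1 h
  set a : ℝ := 1 / t ^ 58 with ha
  have ha0 : 0 < a := by positivity
  have hbig : (10 : ℝ) ^ 10 ≤ t ^ 58 := hT'.trans (by simpa using hpw 1 58 (by norm_num))
  have ha1 : a ≤ 1 / 10 ^ 10 := one_div_le_one_div_of_le (by norm_num) hbig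
  set r : ℝ := 1 - a with hr
  have h1r : 1 - r = a := by rw [hr]; ring
  have hr0 : 0 < r := by
    have : a < 1 := lt_of_le_of_lt ha1 (by norm_num)
    linarith
  have hr1 : r < 1 := by linarith
  set L : ℕ := T ^ 60 with hL
  set m : ℕ := T ^ 18 with hm
  have hLr : (L : ℝ) = t ^ 60 := by rw [hL, ht]; push_cast; ring
  have hmr : (m : ℝ) = t ^ 18 := by rw [hm, ht]; push_cast; ring
  have hmL : m * L = T ^ 78 := by rw [hm, hL, ← pow_add]
  have hTpos : 0 < T := by omega
  have hd : m * L < T ^ 80 := by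
    rw [hmL]
    exact Nat.pow_lt_pow_right (by omega) (by norm_num)
  -- r ^ L is tiny
  have hrL : r ^ L ≤ a := by
    rw [hr]
    refine (one_sub_pow_le (by linarith [ha1, (by norm_num : (1:ℝ) / 10 ^ 10 ≤ 1)]) L).trans ?_
    have e : (L : ℝ) * a = t ^ 2 := by
      rw [hLr, ha]; field_simp
    rw [e, Real.exp_neg, ha, ← one_div]
    exact one_div_le_one_div_of_le (by positivity) (pow_le_exp_sq hT' 58 (by norm_num))
  have hma : (m : ℝ) * (1 - r) = 1 / t ^ 40 := by
    rw [h1r, hmr, ha]; field_simp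
  have h40 : (1 : ℝ) / t ^ 40 ≤ 1 / 10 ^ 10 :=
    one_div_le_one_div_of_le (by norm_num) (hT'.trans (by simpa using hpw 1 40 (by norm_num)))
  -- partial sums
  set P := Th r L m with hP
  have hHb : ∀ q : ℂ, ‖q‖ = 1 → ‖((1 - X) * (P - 1) : ℂ[X]).eval q‖ ≤ 4 * ((m : ℝ) * (1 - r)) := by
    intro q hq
    refine H_bound hr0 hr1 L m hq (by rw [h1r]; exact hrL) ?_ ?_
    · rw [hma]; exact h40.trans (by norm_num)
    · rw [h1r]; exact ha1.trans (by norm_num)
  have hdegH : ((1 - X) * (P - 1) : ℂ[X]).natDegree < m * L + 2 := by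
    have h2 : (1 - X : ℂ[X]).natDegree ≤ 1 := by
      refine (natDegree_sub_le _ _).trans ?_
      simp
    have h3 : (P - 1 : ℂ[X]).natDegree ≤ m * L := by
      refine (natDegree_sub_le _ _).trans ?_
      have := Th_natDegree r L m
      simp
      exact this
    have h4 := natDegree_mul_le (p := (1 - X : ℂ[X])) (q := P - 1)
    omega
  have hE : ∀ n, ∑ i ∈ Finset.range n, ‖((1 - X) * (P - 1) : ℂ[X]).coeff i‖ ≤ 1 / 1000 := by
    intro n
    refine (sum_coeff_le _ _ (by rw [hma]; positivity) hHb (m * L + 2) hdegH n).trans ?_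
    have h2 : Real.sqrt ((m * L + 2 : ℕ) : ℝ) ≤ 2 * t ^ 39 := by
      rw [Real.sqrt_le_left (by positivity)]
      rw [hmL]
      have h3 : ((T ^ 78 + 2 : ℕ) : ℝ) = t ^ 78 + 2 := by rw [ht]; push_cast; ring
      rw [h3]
      have h4 : (2 * t ^ 39) ^ 2 = 4 * t ^ 78 := by ring
      rw [h4]
      have h5 : (1 : ℝ) ≤ t ^ 78 := one_le_pow₀ ht1
      linarith
    rw [hma]
    calc Real.sqrt ((m * L + 2 : ℕ) : ℝ) * (4 * (1 / t ^ 40))
        ≤ (2 * t ^ 39) * (4 * (1 / t ^ 40)) := mul_le_mul_of_nonneg_right h2 (by positivity)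
      _ = 8 / t := by field_simp; norm_num
      _ ≤ 1 / 1000 := by
        rw [div_le_iff₀ ht0]; linarith
  have hc : ∀ n, ‖psum P ow n - 1‖ ≤ 1 / 500 := by
    intro n
    have := psum_close P _ hE ow ow_norm one_sub_ow_norm n
    linarith
  have hcoef : ∀ n, ‖P.coeff n‖ ≤ 2 := by
    intro n
    have h2 := coeff_close P _ hE n
    have h3 : P.coeff n = (P - 1).coeff n + (1 : ℂ[X]).coeff n := by simp
    rw [h3]
    refine (norm_add_le _ _).trans ?_
    have h4 : ‖(1 : ℂ[X]).coeff n‖ ≤ 1 := by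
      rw [coeff_one]; split_ifs <;> simp
    linarith
  refine ⟨rho P (T ^ 80), ?_, ?_, ?_, ?_, ?_⟩
  · simp [rho]
  · intro j hj
    simp only [rho]
    rw [if_neg (by omega)]
  · intro j h1 h2
    refine (rho_close (Th_map r L m) (by norm_num) hc _ _ h1 h2).trans (by norm_num)
  · intro q hq
    have hq : ‖1 - q‖ ≤ 1 / (4 * t ^ 58) := hq
    have hq' : ‖1 - q‖ ≤ (1 - r) / 4 := by
      rw [h1r, ha]
      refine hq.trans (le_of_eq ?_)
      field_simp
    refine (small_gen hr0 hr1 L m (T ^ 80) (by norm_num) hc hd hq').trans ?_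
    refine mul_le_mul_of_nonneg_right ?_ (by positivity)
    calc (1 / 3 : ℝ) ^ m ≤ (Real.exp (-1)) ^ m := pow_le_pow_left₀ (by norm_num) third_le_exp m
      _ = Real.exp (-(t ^ 18)) := by rw [← Real.exp_nat_mul, hmr]; ring_nf
      _ ≤ Real.exp (-(20 * t ^ 17)) := by
        apply Real.exp_le_exp.2
        have : t ^ 18 = t * t ^ 17 := by ring
        have h17 : (0:ℝ) < t ^ 17 := by positivity
        nlinarith
  · intro q hq1 hre him hfar
    have hδa : 1 / t ^ 100 = a * (1 / t ^ 42) := by rw [ha]; field_simp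
    have h42 : (1 : ℝ) / t ^ 42 ≤ 1 / 10 ^ 10 :=
      one_div_le_one_div_of_le (by norm_num) (hT'.trans (by simpa using hpw 1 42 (by norm_num)))
    have hfar : 1 / (4 * t ^ 58) ≤ ‖1 - q‖ := hfar
    have hfar' : (1 - r) / 4 ≤ ‖1 - q‖ := by
      rw [h1r, ha]
      refine le_trans (le_of_eq ?_) hfar
      field_simp
    refine sector_gen hr0 hr1 L m (T ^ 80) (by norm_num) hc hd (δ := 1 / t ^ 100) hq1 hre him hfar'
      ?_ ?_ ?_ ?_
    · rw [h1r, hδa]
      nlinarith
    · refine hrL.trans (ha1.trans (by norm_num))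
    · rw [h1r, hmr, hLr]
      have e1 : (1 / t ^ 100) / a = 1 / t ^ 42 := by rw [ha]; field_simp
      rw [e1]
      have e2 : t ^ 18 * (6 * (1 / t ^ 42) + 2 * t ^ 60 * (1 / t ^ 100)) =
          6 * (1 / t ^ 24) + 2 * (1 / t ^ 22) := by
        field_simp
      rw [e2]
      have h24 : (1 : ℝ) / t ^ 24 ≤ 1 / 10 ^ 10 :=
        one_div_le_one_div_of_le (by norm_num) (hT'.trans (by simpa using hpw 1 24 (by norm_num)))
      have h22 : (1 : ℝ) / t ^ 22 ≤ 1 / 10 ^ 10 :=
        one_div_le_one_div_of_le (by norm_num) (hT'.trans (by simpa using hpw 1 22 (by norm_num)))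
      nlinarith
    · have hD : (Th r L m).natDegree ≤ T ^ 78 := by
        rw [← hmL]; exact Th_natDegree r L m
      have hDd : T ^ 78 < T ^ 80 := by rw [← hmL]; exact hd
      refine (rv_le P (T ^ 78) (T ^ 80) hD hDd hcoef q hq1).trans ?_
      -- the modulus of q
      have hqn : ‖q‖ ≤ 1 - a / 6 := by
        have h2 := Complex.norm_le_abs_re_add_abs_im q
        have h3 := Complex.norm_le_abs_re_add_abs_im (1 - q)
        have h4 : (1 - q).re = 1 - q.re := by simp
        have h5 : (1 - q).im = -q.im := by simp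
        have h6 : q.re ≤ 1 := (Complex.re_le_norm q).trans hq1
        rw [h4, h5, abs_neg, abs_of_nonneg (by linarith : 0 ≤ 1 - q.re)] at h3
        rw [abs_of_nonneg hre] at h2
        rw [h1r] at hfar'
        have h7 : 1 / t ^ 100 ≤ a * (1 / 10 ^ 10) := by
          rw [hδa]; exact mul_le_mul_of_nonneg_left h42 ha0.le
        linarith
      have h2 : ‖q‖ ^ (T ^ 80 - T ^ 78) ≤ Real.exp (-(t ^ 20)) := by
        have h3 : ‖q‖ ^ (T ^ 80 - T ^ 78) ≤ (1 - a / 6) ^ (T ^ 80 - T ^ 78) :=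
          pow_le_pow_left₀ (norm_nonneg _) hqn _
        refine h3.trans ((one_sub_pow_le (by linarith) _).trans (Real.exp_le_exp.2 ?_))
        have h4 : ((T ^ 80 - T ^ 78 : ℕ) : ℝ) = t ^ 80 - t ^ 78 := by
          rw [Nat.cast_sub hDd.le, ht]; push_cast; ring
        rw [h4]
        have h5 : (t ^ 80 - t ^ 78) * (a / 6) = (t ^ 22 - t ^ 20) / 6 := by
          rw [ha]; field_simp
        rw [h5]
        have h6 : t ^ 22 = t ^ 2 * t ^ 20 := by ring
        have h7 : (0:ℝ) < t ^ 20 := by positivity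
        have h8 : (7 : ℝ) ≤ t ^ 2 := by nlinarith
        nlinarith
      have h3 : 2 * ((T ^ 78 : ℕ) + 1 : ℝ) ≤ Real.exp (t ^ 2) / 1000 := by
        have h4 : ((T ^ 78 : ℕ) : ℝ) = t ^ 78 := by rw [ht]; push_cast; ring
        rw [h4]
        have h5 := pow_le_exp_sq hT' 79 (by norm_num)
        have h6 : t ^ 79 = t * t ^ 78 := by ring
        have h7 : (1 : ℝ) ≤ t ^ 78 := one_le_pow₀ ht1
        rw [le_div_iff₀ (by norm_num)]
        nlinarith
      calc 2 * ((T ^ 78 : ℕ) + 1 : ℝ) * ‖q‖ ^ (T ^ 80 - T ^ 78)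
          ≤ Real.exp (t ^ 2) / 1000 * Real.exp (-(t ^ 20)) :=
            mul_le_mul h3 h2 (by positivity) (by positivity)
        _ = Real.exp (t ^ 2 - t ^ 20) / 1000 := by
          rw [sub_eq_add_neg, Real.exp_add]; ring
        _ ≤ (1 / 12) ^ m / 1000 := by
          refine div_le_div_of_nonneg_right ?_ (by norm_num)
          calc Real.exp (t ^ 2 - t ^ 20) ≤ Real.exp (-(3 * t ^ 18)) := by
                apply Real.exp_le_exp.2
                have e1 : t ^ 20 = t ^ 2 * t ^ 18 := by ring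
                have e2 : t ^ 2 ≤ t ^ 18 := hpw 2 18 (by norm_num)
                have e3 : (0:ℝ) < t ^ 18 := by positivity
                have e4 : (4 : ℝ) ≤ t ^ 2 := by nlinarith
                nlinarith
            _ = (Real.exp (-3)) ^ m := by
                rw [← Real.exp_nat_mul, hmr]; ring_nf
            _ ≤ (1 / 12) ^ m :=
                pow_le_pow_left₀ (Real.exp_pos _).le exp_neg_three_le m

end Pool.Agent.MPdf6699Lib
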