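import Mathlib

/-!
General comparison lemmas for functions with a controlled logarithmic derivative.
-/

namespace Pool.Agent.MPdf6699Lib

open Complex

/-- A function with logarithmic derivative close to `c` along a segment behaves as an
exponential. -/
theorem window_aux {F s : ℂ → ℂ} {z0 z1 c : ℂ} {τ : ℝ} (hτ : 0 < τ)
    (hF : ∀ t : ℝ, 0 ≤ t → t ≤ 1 →
      HasDerivAt F (F (z0 + t * (z1 - z0)) * s (z0 + t * (z1 - z0))) (z0 + t * (z1 - z0)))
    (hs : ∀ t : ℝ, 0 ≤ t → t ≤ 1 → ‖s (z0 + t * (z1 - z0)) - c‖ ≤ τ) :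
    ‖F z1 - F z0 * exp (c * (z1 - z0))‖ ≤
      (Real.exp (τ * ‖z1 - z0‖) - 1) * ‖F z0 * exp (c * (z1 - z0))‖ := by
  by_cases hz : z1 = z0
  · subst hz; simp
  have hn : 0 < ‖z1 - z0‖ := norm_pos_iff.mpr (sub_ne_zero.mpr hz)
  set κ : ℝ := τ * ‖z1 - z0‖ with hκ
  have hκ0 : 0 < κ := mul_pos hτ hn
  set g : ℝ → ℂ := fun t => F (z0 + t * (z1 - z0)) * exp (-(c * (t * (z1 - z0)))) with hg
  have hder : ∀ t : ℝ, 0 ≤ t → t ≤ 1 →
      HasDerivAt g (g t * ((s (z0 + t * (z1 - z0)) - c) * (z1 - z0))) t := by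
    intro t h0 h1
    have hp : HasDerivAt (fun t : ℝ => z0 + (t : ℂ) * (z1 - z0)) (z1 - z0) t := by
      have h1 : HasDerivAt (fun t : ℝ => (t : ℂ)) 1 t := Complex.ofRealCLM.hasDerivAt
      have h2 := (h1.mul_const (z1 - z0)).const_add z0
      simpa using h2
    have hF' := (hF t h0 h1)
    have hcomp := HasDerivAt.comp_of_eq t (hF') hp rfl
    have hp2 : HasDerivAt (fun t : ℝ => -(c * ((t : ℂ) * (z1 - z0)))) (-(c * (z1 - z0))) t := by
      have h1 : HasDerivAt (fun t : ℝ => (t : ℂ)) 1 t := Complex.ofRealCLM.hasDerivAt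
      have h2 := ((h1.mul_const (z1 - z0)).const_mul c).fun_neg
      simpa using h2
    have hexp := hp2.cexp
    have := hcomp.mul hexp
    refine this.congr_deriv ?_
    simp only [hg, Function.comp]
    ring
  have hcont : ContinuousOn (fun t => g t - g 0) (Set.Icc 0 1) := by
    intro t ht
    exact ((hder t ht.1 ht.2).continuousAt.sub continuousAt_const).continuousWithinAt
  have hgr := norm_le_gronwallBound_of_norm_deriv_right_le (f := fun t => g t - g 0)
    (f' := fun t => g t * ((s (z0 + t * (z1 - z0)) - c) * (z1 - z0))) (δ := 0) (K := κ)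
    (ε := κ * ‖g 0‖) (a := 0) (b := 1) hcont
    (fun t ht => ((hder t ht.1 ht.2.le).sub_const (g 0)).hasDerivWithinAt)
    (by simp)
    (by
      intro t ht
      have h1 := hs t ht.1 ht.2.le
      have h0 : ‖g t * ((s (z0 + t * (z1 - z0)) - c) * (z1 - z0))‖ =
          ‖g t‖ * (‖s (z0 + t * (z1 - z0)) - c‖ * ‖z1 - z0‖) := by
        rw [norm_mul (g t), norm_mul (s (z0 + t * (z1 - z0)) - c)]
      rw [h0]
      have h2 : ‖g t‖ ≤ ‖g t - g 0‖ + ‖g 0‖ := by
        have := norm_add_le (g t - g 0) (g 0)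
        simpa using this
      have h3 : ‖s (z0 + t * (z1 - z0)) - c‖ * ‖z1 - z0‖ ≤ κ :=
        mul_le_mul_of_nonneg_right h1 hn.le
      calc ‖g t‖ * (‖s (z0 + t * (z1 - z0)) - c‖ * ‖z1 - z0‖)
          ≤ (‖g t - g 0‖ + ‖g 0‖) * κ := by
            apply mul_le_mul h2 h3 (by positivity) (by positivity)
        _ = κ * ‖g t - g 0‖ + κ * ‖g 0‖ := by ring)
    1 (by simp)
  have hgb : gronwallBound 0 κ (κ * ‖g 0‖) (1 - 0) = (Real.exp κ - 1) * ‖g 0‖ := by
    rw [gronwallBound_of_K_ne_0 hκ0.ne']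
    field_simp
    simp
  rw [hgb] at hgr
  have hg0 : g 0 = F z0 := by simp [hg]
  have hg1 : g 1 = F z1 * exp (-(c * (z1 - z0))) := by simp [hg]
  simp only [hg0, hg1] at hgr
  have hE : ‖F z1 - F z0 * exp (c * (z1 - z0))‖ =
      ‖F z1 * exp (-(c * (z1 - z0))) - F z0‖ * ‖exp (c * (z1 - z0))‖ := by
    rw [← norm_mul, sub_mul, mul_assoc, ← exp_add]
    simp
  rw [hE, norm_mul, ← mul_assoc]
  exact mul_le_mul_of_nonneg_right hgr (norm_nonneg _)

/-- Growth along a horizontal segment. -/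
theorem growth_aux {F s : ℂ → ℂ} {a b c y : ℝ} (hab : a ≤ b)
    (hF : ∀ t : ℝ, a ≤ t → t ≤ b →
      HasDerivAt F (F (t + y * I) * s (t + y * I)) (t + y * I))
    (hs : ∀ t : ℝ, a ≤ t → t ≤ b → c ≤ (s (t + y * I)).re) :
    Real.exp (c * (b - a)) * ‖F (a + y * I)‖ ≤ ‖F (b + y * I)‖ := by
  set g : ℝ → ℝ := fun t => ‖F (t + y * I)‖ ^ 2 * Real.exp (-(2 * c * t)) with hg
  have hder : ∀ t : ℝ, a ≤ t → t ≤ b →
      HasDerivAt g (2 * ((s (t + y * I)).re - c) * g t) t := by
    intro t h0 h1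
    have hp : HasDerivAt (fun t : ℝ => (t : ℂ) + y * I) 1 t := by
      have h1 : HasDerivAt (fun t : ℝ => (t : ℂ)) 1 t := Complex.ofRealCLM.hasDerivAt
      simpa using h1.add_const (y * I)
    have hcomp := HasDerivAt.comp_of_eq t (hF t h0 h1) hp rfl
    have hn := hcomp.norm_sq
    have hE : HasDerivAt (fun t : ℝ => Real.exp (-(2 * c * t)))
        (Real.exp (-(2 * c * t)) * (-(2 * c))) t := by
      have h1 : HasDerivAt (fun t : ℝ => -(2 * c * t)) (-(2 * c)) t := by
        simpa using ((hasDerivAt_id t).const_mul (2 * c)).fun_neg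
      exact h1.exp
    have := hn.mul hE
    refine this.congr_deriv ?_
    simp only [hg, Function.comp]
    rw [Complex.inner]
    have h4 : (F (t + y * I) * s (t + y * I) * 1 * (starRingEnd ℂ) (F (t + y * I))).re =
        ‖F (t + y * I)‖ ^ 2 * (s (t + y * I)).re := by
      have h3 : F (t + y * I) * s (t + y * I) * 1 * (starRingEnd ℂ) (F (t + y * I)) =
          ((‖F (t + y * I)‖ ^ 2 : ℝ) : ℂ) * s (t + y * I) := by
        rw [← Complex.normSq_eq_norm_sq, Complex.normSq_eq_conj_mul_self]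
        ring
      rw [h3, Complex.re_ofReal_mul]
    rw [h4]; ring
  have hmono : MonotoneOn g (Set.Icc a b) := by
    apply monotoneOn_of_deriv_nonneg (convex_Icc a b)
    · intro t ht
      exact (hder t ht.1 ht.2).continuousAt.continuousWithinAt
    · intro t ht
      rw [interior_Icc] at ht
      exact (hder t ht.1.le ht.2.le).differentiableAt.differentiableWithinAt
    · intro t ht
      rw [interior_Icc] at ht
      rw [(hder t ht.1.le ht.2.le).deriv]
      have := hs t ht.1.le ht.2.le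
      have hg0 : 0 ≤ g t := by simp only [hg]; positivity
      have : 0 ≤ 2 * ((s (t + y * I)).re - c) := by linarith
      positivity
  have h := hmono (Set.left_mem_Icc.mpr hab) (Set.right_mem_Icc.mpr hab) hab
  simp only [hg] at h
  have h5 : (Real.exp (c * (b - a)) * ‖F (a + y * I)‖) ^ 2 ≤ ‖F (b + y * I)‖ ^ 2 := by
    have e1 : (Real.exp (c * (b - a)) * ‖F (a + y * I)‖) ^ 2 =
        (‖F (a + y * I)‖ ^ 2 * Real.exp (-(2 * c * a))) * Real.exp (2 * c * b) := by
      rw [mul_pow, ← Real.exp_nat_mul, mul_assoc, ← Real.exp_add, mul_comm]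
      congr 2
      push_cast; ring
    have e2 : ‖F (b + y * I)‖ ^ 2 =
        (‖F (b + y * I)‖ ^ 2 * Real.exp (-(2 * c * b))) * Real.exp (2 * c * b) := by
      rw [mul_assoc, ← Real.exp_add]; simp
    rw [e1, e2]
    exact mul_le_mul_of_nonneg_right h (Real.exp_pos _).le
  exact (sq_le_sq₀ (by positivity) (norm_nonneg _)).mp h5

end Pool.Agent.MPdf6699Lib
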