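import Mathlib
import Pool.Agent.MPdf6699Lib.Gen

/-!
The local lemma at a touching or crossing point.
-/

namespace Pool.Agent.MPdf6699Lib

open Complex

/-- The cluster shape function. -/
noncomputable def Qd (ζ : ℂ) (w : ℝ) : ℂ := ζ ^ 2 / ((w - ζ) ^ 2 + w ^ 2)

theorem Qd_normSq (ζ : ℂ) (w : ℝ) :
    normSq (((w : ℂ) - ζ) ^ 2 + (w : ℂ) ^ 2) =
      ((w - ζ.re) ^ 2 + w ^ 2 + ζ.im ^ 2) ^ 2 - 4 * w ^ 2 * ζ.im ^ 2 := by
  rw [normSq_apply]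
  simp [pow_two]
  ring

theorem Qd_den_lower {ζ : ℂ} {w : ℝ} (hw : 1 ≤ w) (hy : |ζ.im| ≤ 1 / 10) :
    w ^ 2 / 2 ≤ ‖((w : ℂ) - ζ) ^ 2 + (w : ℂ) ^ 2‖ := by
  have h1 : (w ^ 2 / 2) ^ 2 ≤ ‖((w : ℂ) - ζ) ^ 2 + (w : ℂ) ^ 2‖ ^ 2 := by
    rw [← normSq_eq_norm_sq, Qd_normSq]
    have hy2 : ζ.im ^ 2 ≤ 1 / 100 := by
      have := abs_le.mp hy
      nlinarith [this.1, this.2]
    have hw2 : 1 ≤ w ^ 2 := by nlinarith
    have hQ : w ^ 2 ≤ (w - ζ.re) ^ 2 + w ^ 2 + ζ.im ^ 2 := by nlinarith [sq_nonneg (w - ζ.re), sq_nonneg ζ.im]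
    have hQ2 : w ^ 2 * w ^ 2 ≤ ((w - ζ.re) ^ 2 + w ^ 2 + ζ.im ^ 2) ^ 2 := by
      rw [pow_two ((w - ζ.re) ^ 2 + w ^ 2 + ζ.im ^ 2)]
      exact mul_le_mul hQ hQ (by positivity) (by positivity)
    nlinarith [mul_le_mul_of_nonneg_left hy2 (by positivity : 0 ≤ 4 * w ^ 2), mul_le_mul hw2 hw2 (by norm_num) (by positivity)]
  exact (sq_le_sq₀ (by positivity) (norm_nonneg _)).mp h1

theorem Qd_norm {ζ : ℂ} {w : ℝ} (hw : 1 ≤ w) (hy : |ζ.im| ≤ 1 / 10) :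
    ‖Qd ζ w‖ ≤ 2 * ‖ζ‖ ^ 2 / w ^ 2 := by
  have h := Qd_den_lower (ζ := ζ) hw hy
  have hw2 : 0 < w ^ 2 := by positivity
  rw [Qd, norm_div, norm_pow]
  rw [div_le_div_iff₀ (by linarith) hw2]
  nlinarith [mul_le_mul_of_nonneg_left h (by positivity : 0 ≤ 2 * ‖ζ‖ ^ 2)]

theorem Qd_re {ζ : ℂ} {w : ℝ} (hw : 1 ≤ w) (hy : |ζ.im| ≤ 1 / 10) :
    ζ.re ^ 2 / (2 * ζ.re ^ 2 + 5 * w ^ 2) - 1 / w ^ 2 ≤ (Qd ζ w).re := by
  have hden := Qd_den_lower (ζ := ζ) hw hy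
  have hns := Qd_normSq ζ w
  set t := ζ.re with ht
  set y := ζ.im with hy'
  have hy2 : y ^ 2 ≤ 1 / 100 := by
    have := abs_le.mp hy
    nlinarith [this.1, this.2]
  have hw2 : 1 ≤ w ^ 2 := by nlinarith
  set Q := (w - t) ^ 2 + w ^ 2 + y ^ 2 with hQ
  have hQw : w ^ 2 ≤ Q := by rw [hQ]; nlinarith [sq_nonneg (w - t), sq_nonneg y]
  have hQ4 : Q ≤ 2 * t ^ 2 + 5 * w ^ 2 := by
    rw [hQ]; nlinarith [sq_nonneg (w + t)]
  have hQ2 : w ^ 2 * w ^ 2 ≤ Q ^ 2 := by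
    rw [pow_two Q]
    exact mul_le_mul hQw hQw (by positivity) (by positivity)
  have hD : 0 < Q ^ 2 - 4 * w ^ 2 * y ^ 2 := by
    nlinarith [mul_le_mul_of_nonneg_left hy2 (by positivity : 0 ≤ 4 * w ^ 2), mul_le_mul hw2 hw2 (by norm_num) (by positivity)]
  have hre : (Qd ζ w).re = ((t ^ 2 + y ^ 2) * Q - 4 * w ^ 2 * y ^ 2) / (Q ^ 2 - 4 * w ^ 2 * y ^ 2) := by
    rw [Qd, div_re, hns, ← add_div]
    congr 1
    simp [pow_two]
    rw [← ht, ← hy', hQ]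
    ring
  rw [hre]
  have h1 : t ^ 2 / (2 * t ^ 2 + 5 * w ^ 2) ≤ (t ^ 2 + y ^ 2) * Q / (Q ^ 2 - 4 * w ^ 2 * y ^ 2) := by
    rw [div_le_div_iff₀ (by positivity) hD]
    have hQ0 : 0 < Q := by nlinarith
    have e1 : t ^ 2 * (Q ^ 2 - 4 * w ^ 2 * y ^ 2) ≤ t ^ 2 * Q ^ 2 := by
      apply mul_le_mul_of_nonneg_left _ (sq_nonneg t)
      have : 0 ≤ 4 * w ^ 2 * y ^ 2 := by positivity
      linarith
    have e2 : t ^ 2 * Q ^ 2 ≤ (t ^ 2 + y ^ 2) * Q * (2 * t ^ 2 + 5 * w ^ 2) := by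
      have e3 : t ^ 2 * Q ≤ (t ^ 2 + y ^ 2) * Q := mul_le_mul_of_nonneg_right (by nlinarith [sq_nonneg y]) hQ0.le
      calc t ^ 2 * Q ^ 2 = (t ^ 2 * Q) * Q := by ring
        _ ≤ ((t ^ 2 + y ^ 2) * Q) * (2 * t ^ 2 + 5 * w ^ 2) :=
          mul_le_mul e3 hQ4 hQ0.le (by positivity)
    linarith
  have h2 : 4 * w ^ 2 * y ^ 2 / (Q ^ 2 - 4 * w ^ 2 * y ^ 2) ≤ 1 / w ^ 2 := by
    rw [div_le_div_iff₀ hD (by positivity)]
    nlinarith [mul_le_mul_of_nonneg_left hy2 (by positivity : 0 ≤ 4 * w ^ 2), mul_le_mul_of_nonneg_left hy2 (by positivity : 0 ≤ 4 * w ^ 2 * w ^ 2), mul_le_mul hw2 hw2 (by norm_num) (by positivity)]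
  rw [sub_div]
  linarith

theorem near_lemma {H s E : ℂ → ℂ} {A w R e0 p : ℝ} (hw : 1 ≤ w) (hA : 0 ≤ A) (hR : 100 ≤ R)
    (hp : 0 ≤ p) (H0 : H 0 = 1)
    (hH : ∀ ζ : ℂ, |ζ.re| ≤ R → |ζ.im| < 1 / 10 → HasDerivAt H (H ζ * s ζ) ζ)
    (hs : ∀ ζ : ℂ, |ζ.re| ≤ R → |ζ.im| < 1 / 10 → s ζ = 1 + ((A / w : ℝ) : ℂ) * Qd ζ w + E ζ)
    (hE : ∀ ζ : ℂ, |ζ.re| ≤ R → |ζ.im| < 1 / 10 → ‖E ζ‖ ≤ e0 + p * ‖ζ‖)
    (n1 : A / w * (2 * 101 ^ 2 / w ^ 2) + e0 + 101 * p ≤ 1 / 3000)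
    (n2 : ∀ t : ℝ, 0 ≤ t → t ≤ R → e0 + p * (t + 1) ≤ 1 / 4 + A / w * (t ^ 2 / (2 * t ^ 2 + 5 * w ^ 2)))
    (n3 : A / w / w ^ 2 ≤ 1 / 4) :
    (∀ ζ : ℂ, |ζ.re| ≤ 100 → |ζ.im| < 1 / 10 → ‖H ζ - exp ζ‖ ≤ 1 / 20 * ‖exp ζ‖) ∧
    (∀ ζ : ℂ, 100 ≤ ζ.re → ζ.re ≤ R → |ζ.im| < 1 / 10 →
      19 / 20 * Real.exp 100 * Real.exp ((ζ.re - 100) / 2) ≤ ‖H ζ‖) ∧
    (∀ ζ : ℂ, -R ≤ ζ.re → ζ.re ≤ -100 → |ζ.im| < 1 / 10 →
      ‖H ζ‖ ≤ 21 / 20 * Real.exp (-100) * Real.exp ((ζ.re + 100) / 2)) := by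
  have hwin : ∀ ζ : ℂ, |ζ.re| ≤ 100 → |ζ.im| < 1 / 10 → ‖H ζ - exp ζ‖ ≤ 1 / 20 * ‖exp ζ‖ := by
    intro ζ h1 h2
    have hn : ‖ζ‖ ≤ 101 := by
      have := Complex.norm_le_abs_re_add_abs_im ζ
      linarith
    have hmem : ∀ t : ℝ, 0 ≤ t → t ≤ 1 → |((0 : ℂ) + t * (ζ - 0)).re| ≤ 100 ∧
        |((0 : ℂ) + t * (ζ - 0)).im| < 1 / 10 ∧ ‖(0 : ℂ) + t * (ζ - 0)‖ ≤ 101 := by
      intro t ht0 ht1
      have e : (0 : ℂ) + t * (ζ - 0) = t * ζ := by ring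
      rw [e]
      refine ⟨?_, ?_, ?_⟩
      · rw [Complex.re_ofReal_mul, abs_mul, abs_of_nonneg ht0]
        nlinarith [abs_nonneg ζ.re]
      · rw [Complex.im_ofReal_mul, abs_mul, abs_of_nonneg ht0]
        nlinarith [abs_nonneg ζ.im]
      · rw [norm_mul, Complex.norm_real, Real.norm_eq_abs, abs_of_nonneg ht0]
        nlinarith [norm_nonneg ζ]
    have h := window_aux (F := H) (s := s) (z0 := 0) (z1 := ζ) (c := 1) (τ := 1 / 3000)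
      (by norm_num)
      (fun t h0 h1' => hH _ (by linarith [(hmem t h0 h1').1]) (hmem t h0 h1').2.1)
      (by
        intro t ht0 ht1
        obtain ⟨m1, m2, m3⟩ := hmem t ht0 ht1
        rw [hs _ (by linarith) m2]
        set ξ := (0 : ℂ) + t * (ζ - 0) with hξ
        have e1 : 1 + ((A / w : ℝ) : ℂ) * Qd ξ w + E ξ - 1 = ((A / w : ℝ) : ℂ) * Qd ξ w + E ξ := by ring
        rw [e1]
        have hAw : 0 ≤ A / w := div_nonneg hA (by linarith)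
        have e2 : ‖((A / w : ℝ) : ℂ) * Qd ξ w‖ ≤ A / w * (2 * 101 ^ 2 / w ^ 2) := by
          rw [norm_mul, Complex.norm_real, Real.norm_eq_abs, abs_of_nonneg hAw]
          apply mul_le_mul_of_nonneg_left _ hAw
          refine (Qd_norm hw m2.le).trans ?_
          apply div_le_div_of_nonneg_right _ (by positivity)
          have : ‖ξ‖ ^ 2 ≤ 101 ^ 2 := by
            apply pow_le_pow_left₀ (norm_nonneg _) m3
          linarith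
        have e3 : ‖E ξ‖ ≤ e0 + 101 * p := by
          refine (hE ξ (by linarith) m2).trans ?_
          nlinarith
        refine (norm_add_le _ _).trans ?_
        linarith)
    rw [H0] at h
    simp only [one_mul, sub_zero] at h
    refine h.trans ?_
    apply mul_le_mul_of_nonneg_right _ (norm_nonneg _)
    have h3 : (1 : ℝ) / 3000 * ‖ζ‖ ≤ 101 / 3000 := by linarith
    have h4 : Real.exp (1 / 3000 * ‖ζ‖) ≤ Real.exp (101 / 3000) := Real.exp_le_exp.mpr h3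
    have h5 : Real.exp (101 / 3000) ≤ 21 / 20 := by
      have := Real.exp_bound_div_one_sub_of_interval (x := 101 / 3000) (by norm_num) (by norm_num)
      norm_num at this ⊢
      linarith
    linarith
  have hsre : ∀ ζ : ℂ, |ζ.re| ≤ R → |ζ.im| < 1 / 10 → 1 / 2 ≤ (s ζ).re := by
    intro ζ h1 h2
    rw [hs ζ h1 h2]
    have hAw : 0 ≤ A / w := div_nonneg hA (by linarith)
    have e1 := Qd_re (ζ := ζ) hw h2.le
    have e2 := hE ζ h1 h2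
    have e3 : -‖E ζ‖ ≤ (E ζ).re := by
      have := Complex.abs_re_le_norm (E ζ)
      linarith [neg_abs_le (E ζ).re]
    have e4 : ‖ζ‖ ≤ |ζ.re| + 1 := by
      have := Complex.norm_le_abs_re_add_abs_im ζ
      linarith
    have e5 := n2 |ζ.re| (abs_nonneg _) h1
    rw [sq_abs] at e5
    have e6 : p * ‖ζ‖ ≤ p * (|ζ.re| + 1) := mul_le_mul_of_nonneg_left e4 hp
    have e7 : A / w * (ζ.re ^ 2 / (2 * ζ.re ^ 2 + 5 * w ^ 2) - 1 / w ^ 2) ≤ A / w * (Qd ζ w).re :=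
      mul_le_mul_of_nonneg_left e1 hAw
    have e8 : A / w * (1 / w ^ 2) = A / w / w ^ 2 := by ring
    simp only [Complex.add_re, Complex.one_re, Complex.re_ofReal_mul]
    rw [mul_sub, e8] at e7
    linarith
  refine ⟨hwin, ?_, ?_⟩
  · intro ζ h1 h2 h3
    have hy : ∀ t : ℝ, ((t : ℂ) + ζ.im * I).re = t ∧ ((t : ℂ) + ζ.im * I).im = ζ.im := by
      intro t; simp
    have hg := growth_aux (F := H) (s := s) (a := 100) (b := ζ.re) (c := 1 / 2) (y := ζ.im) h1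
      (fun t ht0 ht1 => hH _ (by rw [(hy t).1, abs_of_nonneg (by linarith)]; linarith)
        (by rw [(hy t).2]; exact h3))
      (fun t ht0 ht1 => hsre _ (by rw [(hy t).1, abs_of_nonneg (by linarith)]; linarith)
        (by rw [(hy t).2]; exact h3))
    rw [Complex.re_add_im] at hg
    have hz := hwin ((100 : ℝ) + ζ.im * I) (by rw [(hy 100).1]; norm_num) (by rw [(hy 100).2]; exact h3)
    have hexp : ‖exp (((100 : ℝ) : ℂ) + ζ.im * I)‖ = Real.exp 100 := by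
      rw [Complex.norm_exp, (hy 100).1]
    rw [hexp] at hz
    have h5 : 19 / 20 * Real.exp 100 ≤ ‖H (((100 : ℝ) : ℂ) + ζ.im * I)‖ := by
      have := norm_sub_norm_le (exp (((100 : ℝ) : ℂ) + ζ.im * I)) (H (((100 : ℝ) : ℂ) + ζ.im * I))
      rw [norm_sub_rev] at this
      rw [hexp] at this
      linarith
    refine le_trans ?_ hg
    have h6 : (ζ.re - 100) / 2 = 1 / 2 * (ζ.re - 100) := by ring
    rw [h6]
    nlinarith [mul_le_mul_of_nonneg_left h5 (Real.exp_pos (1 / 2 * (ζ.re - 100))).le]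
  · intro ζ h1 h2 h3
    have hy : ∀ t : ℝ, ((t : ℂ) + ζ.im * I).re = t ∧ ((t : ℂ) + ζ.im * I).im = ζ.im := by
      intro t; simp
    have hg := growth_aux (F := H) (s := s) (a := ζ.re) (b := -100) (c := 1 / 2) (y := ζ.im) h2
      (fun t ht0 ht1 => hH _ (by rw [(hy t).1, abs_of_nonpos (by linarith)]; linarith)
        (by rw [(hy t).2]; exact h3))
      (fun t ht0 ht1 => hsre _ (by rw [(hy t).1, abs_of_nonpos (by linarith)]; linarith)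
        (by rw [(hy t).2]; exact h3))
    rw [Complex.re_add_im] at hg
    have hz := hwin ((-100 : ℝ) + ζ.im * I) (by rw [(hy (-100)).1]; norm_num) (by rw [(hy (-100)).2]; exact h3)
    have hexp : ‖exp (((-100 : ℝ) : ℂ) + ζ.im * I)‖ = Real.exp (-100) := by
      rw [Complex.norm_exp, (hy (-100)).1]
    rw [hexp] at hz
    have h5 : ‖H (((-100 : ℝ) : ℂ) + ζ.im * I)‖ ≤ 21 / 20 * Real.exp (-100) := by
      have := norm_sub_norm_le (H (((-100 : ℝ) : ℂ) + ζ.im * I)) (exp (((-100 : ℝ) : ℂ) + ζ.im * I))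
      rw [hexp] at this
      linarith
    have h6 : Real.exp (1 / 2 * (-100 - ζ.re)) * Real.exp ((ζ.re + 100) / 2) = 1 := by
      have e : 1 / 2 * (-100 - ζ.re) + (ζ.re + 100) / 2 = 0 := by ring
      rw [← Real.exp_add, e, Real.exp_zero]
    have h7 : ‖H ζ‖ = Real.exp (1 / 2 * (-100 - ζ.re)) * ‖H ζ‖ * Real.exp ((ζ.re + 100) / 2) := by
      calc ‖H ζ‖ = (Real.exp (1 / 2 * (-100 - ζ.re)) * Real.exp ((ζ.re + 100) / 2)) * ‖H ζ‖ := by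
            rw [h6, one_mul]
        _ = _ := by ring
    rw [h7]
    exact mul_le_mul_of_nonneg_right (hg.trans h5) (Real.exp_pos _).le

end Pool.Agent.MPdf6699Lib
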