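import Mathlib
import Pool.Agent.MPdf6699Lib.Near

/-!
Cluster functions and their logarithmic derivatives.
-/

namespace Pool.Agent.MPdf6699Lib

open Complex

/-- The logarithmic derivative of a pair of conjugate zeros. -/
noncomputable def sg (ζ : ℂ) (w : ℝ) : ℂ := 2 * ζ / (ζ ^ 2 + w ^ 2)

theorem sg_den_ne {ζ : ℂ} {w : ℝ} (hw : 1 ≤ w) (hy : |ζ.im| ≤ 1 / 10) : ζ ^ 2 + (w : ℂ) ^ 2 ≠ 0 := by
  intro h
  have h1 : (ζ - w * I) * (ζ + w * I) = 0 := by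
    have : (ζ - w * I) * (ζ + w * I) = ζ ^ 2 + (w : ℂ) ^ 2 := by
      ring_nf; rw [I_sq]; ring
    rw [this, h]
  rcases mul_eq_zero.mp h1 with h2 | h2
  · have := congrArg Complex.im h2
    simp at this
    have := abs_le.mp hy
    linarith
  · have := congrArg Complex.im h2
    simp at this
    have := abs_le.mp hy
    linarith

theorem sg_split {ζ : ℂ} {w : ℝ} (hw : 1 ≤ w) (hy : |ζ.im| ≤ 1 / 10) :
    sg ζ w = 1 / (ζ - w * I) + 1 / (ζ + w * I) := by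
  have h := sg_den_ne hw hy
  have e : ζ ^ 2 + (w : ℂ) ^ 2 = (ζ - w * I) * (ζ + w * I) := by
    ring_nf; rw [I_sq]; ring
  have h' := h
  rw [e] at h'
  have h1 : ζ - w * I ≠ 0 := left_ne_zero_of_mul h'
  have h2 : ζ + w * I ≠ 0 := right_ne_zero_of_mul h'
  rw [sg, e, div_add_div _ _ h1 h2]
  congr 1
  ring

theorem inv_diff {a b : ℂ} {R : ℝ} (hR : 0 < R) (ha : 2 * R ≤ |a.re|) (hb : R ≤ |b.re|) :
    ‖1 / a - 1 / b‖ ≤ ‖a - b‖ / (2 * R ^ 2) := by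
  have h1 : 2 * R ≤ ‖a‖ := ha.trans (Complex.abs_re_le_norm a)
  have h2 : R ≤ ‖b‖ := hb.trans (Complex.abs_re_le_norm b)
  have ha0 : a ≠ 0 := by
    intro h; rw [h, norm_zero] at h1; linarith
  have hb0 : b ≠ 0 := by
    intro h; rw [h, norm_zero] at h2; linarith
  rw [div_sub_div _ _ ha0 hb0, norm_div, norm_mul]
  have e : 1 * b - a * 1 = -(a - b) := by ring
  rw [e, norm_neg]
  apply div_le_div_of_nonneg_left (norm_nonneg _) (by positivity)
  nlinarith [mul_le_mul h1 h2 hR.le (norm_nonneg a)]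

theorem sg_diff {a b : ℂ} {w R : ℝ} (hw : 1 ≤ w) (hR : 0 < R) (ha : 2 * R ≤ |a.re|)
    (hb : R ≤ |b.re|) (hya : |a.im| ≤ 1 / 10) (hyb : |b.im| ≤ 1 / 10) :
    ‖sg a w - sg b w‖ ≤ ‖a - b‖ / R ^ 2 := by
  rw [sg_split hw hya, sg_split hw hyb]
  have h1 := inv_diff (a := a - w * I) (b := b - w * I) hR (by simpa using ha) (by simpa using hb)
  have h2 := inv_diff (a := a + w * I) (b := b + w * I) hR (by simpa using ha) (by simpa using hb)
  have e1 : a - w * I - (b - w * I) = a - b := by ring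
  have e2 : a + w * I - (b + w * I) = a - b := by ring
  rw [e1] at h1
  rw [e2] at h2
  have e3 : 1 / (a - w * I) + 1 / (a + w * I) - (1 / (b - w * I) + 1 / (b + w * I)) =
      (1 / (a - w * I) - 1 / (b - w * I)) + (1 / (a + w * I) - 1 / (b + w * I)) := by ring
  rw [e3]
  refine (norm_add_le _ _).trans ?_
  have e4 : ‖a - b‖ / (2 * R ^ 2) + ‖a - b‖ / (2 * R ^ 2) = ‖a - b‖ / R ^ 2 := by
    field_simp; ring
  linarith

theorem sg_Qd {ζ : ℂ} {w : ℝ} (hw : 1 ≤ w) (hy : |ζ.im| ≤ 1 / 10) :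
    sg (w - ζ) w = ((1 / w : ℝ) : ℂ) - ((1 / w : ℝ) : ℂ) * Qd ζ w := by
  have h := sg_den_ne (ζ := w - ζ) hw (by simpa using hy)
  have hw0 : (w : ℂ) ≠ 0 := by
    norm_cast; linarith
  rw [sg, Qd]
  push_cast
  field_simp
  ring

/-- Data of a double cluster. -/
structure Cl where
  L : ℕ
  M : ℕ
  u : ℝ
  w : ℝ
  v : ℝ
  W : ℝ

/-- The cluster polynomial. -/
noncomputable def Cl.f (c : Cl) (z : ℂ) : ℂ :=
  ((z - c.u) ^ 2 + c.w ^ 2) ^ c.L * ((z - c.v) ^ 2 + c.W ^ 2) ^ c.M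

/-- Its logarithmic derivative. -/
noncomputable def Cl.S (c : Cl) (z : ℂ) : ℂ :=
  c.L * sg (z - c.u) c.w + c.M * sg (z - c.v) c.W

theorem Cl.f_ne {c : Cl} (hw : 1 ≤ c.w) (hW : 1 ≤ c.W) {z : ℂ} (hy : |z.im| ≤ 1 / 10) :
    c.f z ≠ 0 := by
  rw [Cl.f]
  apply mul_ne_zero
  · exact pow_ne_zero _ (sg_den_ne hw (by simpa using hy))
  · exact pow_ne_zero _ (sg_den_ne hW (by simpa using hy))

theorem pow_logderiv {F : ℂ → ℂ} {s z : ℂ} (n : ℕ) (h : HasDerivAt F (F z * s) z) :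
    HasDerivAt (fun z => F z ^ n) (F z ^ n * (n * s)) z := by
  have := h.pow n
  refine this.congr_deriv ?_
  rcases n with _ | n
  · simp
  · simp only [Nat.add_sub_cancel]
    rw [pow_succ]; push_cast; ring

theorem mul_logderiv {F G : ℂ → ℂ} {s t z : ℂ} (h : HasDerivAt F (F z * s) z)
    (h' : HasDerivAt G (G z * t) z) :
    HasDerivAt (fun z => F z * G z) (F z * G z * (s + t)) z := by
  refine (h.fun_mul h').congr_deriv ?_
  ring

theorem inv_logderiv {F : ℂ → ℂ} {s z : ℂ} (h : HasDerivAt F (F z * s) z) (h0 : F z ≠ 0) :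
    HasDerivAt (fun z => (F z)⁻¹) ((F z)⁻¹ * (-s)) z := by
  refine (h.fun_inv h0).congr_deriv ?_
  field_simp

theorem quad_logderiv {u w : ℝ} (hw : 1 ≤ w) {z : ℂ} (hy : |z.im| ≤ 1 / 10) :
    HasDerivAt (fun z : ℂ => (z - u) ^ 2 + (w : ℂ) ^ 2)
      (((z - u) ^ 2 + (w : ℂ) ^ 2) * sg (z - u) w) z := by
  have h : HasDerivAt (fun z : ℂ => (z - u) ^ 2 + (w : ℂ) ^ 2) (2 * (z - u)) z := by
    have := (((hasDerivAt_id z).sub_const (u : ℂ)).pow 2).add_const ((w : ℂ) ^ 2)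
    simpa using this
  refine h.congr_deriv ?_
  have hne := sg_den_ne (ζ := z - u) hw (by simpa using hy)
  rw [sg]
  field_simp

theorem Cl.hasDerivAt {c : Cl} (hw : 1 ≤ c.w) (hW : 1 ≤ c.W) {z : ℂ} (hy : |z.im| ≤ 1 / 10) :
    HasDerivAt c.f (c.f z * c.S z) z := by
  exact mul_logderiv (pow_logderiv c.L (quad_logderiv hw hy)) (pow_logderiv c.M (quad_logderiv hW hy))

/-- The real value of the logarithmic derivative at a real point. -/
noncomputable def Cl.Sr (c : Cl) (x : ℝ) : ℝ :=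
  c.L * (2 * (x - c.u) / ((x - c.u) ^ 2 + c.w ^ 2)) +
    c.M * (2 * (x - c.v) / ((x - c.v) ^ 2 + c.W ^ 2))

theorem Cl.S_real (c : Cl) (x : ℝ) : c.S x = (c.Sr x : ℂ) := by
  rw [Cl.S, Cl.Sr, sg, sg]
  push_cast
  ring

end Pool.Agent.MPdf6699Lib
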