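import Mathlib
import Pool.Agent.MPdf6699Lib.Cl

/-!
Local comparison at touching points and at crossing points.
-/

namespace Pool.Agent.MPdf6699Lib

open Complex

/-- Quotient of a cluster function and a monomial, normalised at `x`. -/
noncomputable def Ft (c : Cl) (x : ℝ) (N : ℕ) (z : ℂ) : ℂ :=
  c.f z * (c.f x)⁻¹ * ((x : ℂ) * z⁻¹) ^ N

/-- Quotient of two consecutive chain functions, normalised at `y`. -/
noncomputable def Fd (c c' : Cl) (y : ℝ) (N : ℕ) (z : ℂ) : ℂ :=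
  c'.f z * (c'.f y)⁻¹ * ((c.f z)⁻¹ * c.f y) * (z * (y : ℂ)⁻¹) ^ N

theorem const_logderiv (a z : ℂ) : HasDerivAt (fun _ : ℂ => a) (a * 0) z := by
  simpa using hasDerivAt_const z a

theorem id_logderiv {z : ℂ} (hz : z ≠ 0) : HasDerivAt (fun z : ℂ => z) (z * (1 / z)) z := by
  have := hasDerivAt_id z
  refine this.congr_deriv ?_
  field_simp

theorem Ft_logderiv {c : Cl} (hw : 1 ≤ c.w) (hW : 1 ≤ c.W) {x : ℝ} {N : ℕ} {z : ℂ} (hz : z ≠ 0)
    (hy : |z.im| ≤ 1 / 10) : HasDerivAt (Ft c x N) (Ft c x N z * (c.S z - N / z)) z := by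
  have h1 := mul_logderiv (Cl.hasDerivAt (c := c) hw hW hy) (const_logderiv ((c.f x)⁻¹) z)
  have h2 := pow_logderiv N (mul_logderiv (const_logderiv (x : ℂ) z) (inv_logderiv (id_logderiv hz) hz))
  refine (mul_logderiv h1 h2).congr_deriv ?_
  simp only [Ft]
  ring

theorem Fd_logderiv {c c' : Cl} (hw : 1 ≤ c.w) (hW : 1 ≤ c.W) (hw' : 1 ≤ c'.w) (hW' : 1 ≤ c'.W)
    {y : ℝ} {N : ℕ} {z : ℂ} (hz : z ≠ 0) (hy : |z.im| ≤ 1 / 10) :
    HasDerivAt (Fd c c' y N) (Fd c c' y N z * (N / z + c'.S z - c.S z)) z := by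
  have h1 := mul_logderiv (Cl.hasDerivAt (c := c') hw' hW' hy) (const_logderiv ((c'.f y)⁻¹) z)
  have h2 := mul_logderiv (inv_logderiv (Cl.hasDerivAt (c := c) hw hW hy) (Cl.f_ne hw hW hy))
    (const_logderiv (c.f y) z)
  have h3 := pow_logderiv N (mul_logderiv (id_logderiv hz) (const_logderiv ((y : ℂ)⁻¹) z))
  refine (mul_logderiv (mul_logderiv h1 h2) h3).congr_deriv ?_
  simp only [Fd]
  ring

theorem inv_lin_diff {N : ℕ} {x R : ℝ} {ζ : ℂ} (hR : 0 < R) (hRx : 2 * R ≤ x) (h : |ζ.re| ≤ R) :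
    ‖(N : ℂ) / (x - ζ) - N / x‖ ≤ 2 * N / x ^ 2 * ‖ζ‖ := by
  have hx : 0 < x := by linarith
  have h1 : x / 2 ≤ ‖(x : ℂ) - ζ‖ := by
    have h2 := Complex.abs_re_le_norm ((x : ℂ) - ζ)
    have h3 : ((x : ℂ) - ζ).re = x - ζ.re := by simp
    rw [h3] at h2
    have h4 := abs_le.mp h
    have h5 := le_abs_self (x - ζ.re)
    linarith
  have h0 : (x : ℂ) - ζ ≠ 0 := by
    intro h; rw [h, norm_zero] at h1; linarith
  have hx0 : (x : ℂ) ≠ 0 := by norm_cast; linarith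
  have e : (N : ℂ) / (x - ζ) - N / x = N * ζ / ((x - ζ) * x) := by
    field_simp; ring
  rw [e, norm_div, norm_mul, norm_mul, Complex.norm_natCast, Complex.norm_real, Real.norm_eq_abs,
    abs_of_pos hx]
  rw [div_le_iff₀ (by positivity)]
  have e2 : 2 * (N : ℝ) / x ^ 2 * ‖ζ‖ * (x / 2 * x) = N * ‖ζ‖ := by
    field_simp
  calc (N : ℝ) * ‖ζ‖ = 2 * (N : ℝ) / x ^ 2 * ‖ζ‖ * (x / 2 * x) := e2.symm
    _ ≤ _ := by
      apply mul_le_mul_of_nonneg_left _ (by positivity)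
      exact mul_le_mul_of_nonneg_right h1 hx.le

theorem touch_lemma {c : Cl} {x R : ℝ} {N : ℕ} (hw : 1 ≤ c.w) (hW : 1 ≤ c.W) (hx : x = c.v + c.W)
    (hR : 100 ≤ R) (hRx : 2 * R ≤ x) (hu : c.L = 0 ∨ c.u + 2 * R ≤ x)
    (hN1 : x * (c.Sr x + 1) ≤ N) (hN2 : (N : ℝ) ≤ x * (c.Sr x + 1) + 1)
    (n1 : (c.M : ℝ) / c.W * (2 * 101 ^ 2 / c.W ^ 2) + 1 / x + 101 * (c.L / R ^ 2 + 2 * N / x ^ 2) ≤ 1 / 3000)
    (n2 : ∀ t : ℝ, 0 ≤ t → t ≤ R → 1 / x + (c.L / R ^ 2 + 2 * N / x ^ 2) * (t + 1) ≤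
      1 / 4 + c.M / c.W * (t ^ 2 / (2 * t ^ 2 + 5 * c.W ^ 2)))
    (n3 : (c.M : ℝ) / c.W / c.W ^ 2 ≤ 1 / 4) :
    (∀ z : ℂ, |z.im| < 1 / 10 → |z.re - x| ≤ 100 → ‖Ft c x N z - exp (-(z - x))‖ ≤ 1 / 20 * ‖exp (-(z - x))‖) ∧
    (∀ z : ℂ, |z.im| < 1 / 10 → x - R ≤ z.re → z.re ≤ x - 100 →
      19 / 20 * Real.exp 100 * Real.exp ((x - z.re - 100) / 2) ≤ ‖Ft c x N z‖) ∧
    (∀ z : ℂ, |z.im| < 1 / 10 → x + 100 ≤ z.re → z.re ≤ x + R →
      ‖Ft c x N z‖ ≤ 21 / 20 * Real.exp (-100) * Real.exp ((x - z.re + 100) / 2)) := by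
  have hx0 : 0 < x := by linarith
  have hxc : (x : ℂ) ≠ 0 := by norm_cast; linarith
  have hfx : c.f x ≠ 0 := Cl.f_ne hw hW (by simp)
  set H : ℂ → ℂ := fun ζ => Ft c x N (x - ζ) with hH
  set s : ℂ → ℂ := fun ζ => -(c.S (x - ζ) - N / (x - ζ)) with hs
  set E : ℂ → ℂ := fun ζ => s ζ - (1 + ((c.M / c.W : ℝ) : ℂ) * Qd ζ c.W) with hEdef
  have hre : ∀ ζ : ℂ, ((x : ℂ) - ζ).re = x - ζ.re := by intro ζ; simp
  have him : ∀ ζ : ℂ, ((x : ℂ) - ζ).im = -ζ.im := by intro ζ; simp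
  have hne : ∀ ζ : ℂ, |ζ.re| ≤ R → (x : ℂ) - ζ ≠ 0 := by
    intro ζ h h0
    have h1 := congrArg Complex.re h0
    rw [hre] at h1
    simp only [Complex.zero_re] at h1
    have := abs_le.mp h
    linarith
  have hnear := near_lemma (H := H) (s := s) (E := E) (A := c.M) (w := c.W) (R := R) (e0 := 1 / x)
    (p := c.L / R ^ 2 + 2 * N / x ^ 2) hW (Nat.cast_nonneg _) hR (by positivity)
    (by
      simp only [hH, Ft, sub_zero]
      rw [mul_inv_cancel₀ hfx, mul_inv_cancel₀ hxc]; simp)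
    (by
      intro ζ h1 h2
      have hd := Ft_logderiv (x := x) (N := N) hw hW (hne ζ h1) (z := x - ζ)
        (by rw [him, abs_neg]; exact h2.le)
      have hin : HasDerivAt (fun ζ : ℂ => (x : ℂ) - ζ) (-1) ζ := by
        simpa using (hasDerivAt_id ζ).const_sub (x : ℂ)
      have := hd.comp ζ hin
      refine this.congr_deriv ?_
      simp only [hH, hs]
      ring)
    (by
      intro ζ h1 h2
      simp only [hEdef]; ring)
    (by
      intro ζ h1 h2
      have hQ := sg_Qd (ζ := ζ) hW h2.le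
      have hEeq : E ζ = (c.L : ℂ) * (sg ((x : ℂ) - c.u) c.w - sg (x - ζ - c.u) c.w) +
          ((N : ℂ) / (x - ζ) - N / x) + ((N : ℂ) / x - (c.Sr x : ℂ) - 1) := by
        have e1 : (x : ℂ) - ζ - c.v = c.W - ζ := by
          rw [hx]; push_cast; ring
        have e2 : (c.Sr x : ℂ) = c.L * sg ((x : ℂ) - c.u) c.w + c.M / c.W := by
          rw [← Cl.S_real, Cl.S]
          congr 1
          have e3 : (x : ℂ) - c.v = c.W - 0 := by
            rw [hx]; push_cast; ring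
          rw [e3, sg_Qd hW (by simp)]
          simp [Qd]
          ring
        simp only [hEdef, hs, Cl.S]
        rw [e1, hQ, e2]
        push_cast
        ring
      rw [hEeq]
      have b1 : ‖(c.L : ℂ) * (sg ((x : ℂ) - c.u) c.w - sg (x - ζ - c.u) c.w)‖ ≤ c.L / R ^ 2 * ‖ζ‖ := by
        rcases hu with h0 | h0
        · rw [h0]; simp
        · rw [norm_mul, Complex.norm_natCast]
          have h3 := abs_le.mp h1
          have := sg_diff (a := (x : ℂ) - c.u) (b := x - ζ - c.u) (R := R) hw (by linarith)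
            (by
              have : ((x : ℂ) - c.u).re = x - c.u := by simp
              rw [this, abs_of_nonneg (by linarith)]; linarith)
            (by
              have : ((x : ℂ) - ζ - c.u).re = x - ζ.re - c.u := by simp
              rw [this, abs_of_nonneg (by linarith)]; linarith)
            (by simp) (by simpa using h2.le)
          have e3 : (x : ℂ) - c.u - (x - ζ - c.u) = ζ := by ring
          rw [e3] at this
          calc (c.L : ℝ) * ‖sg ((x : ℂ) - c.u) c.w - sg (x - ζ - c.u) c.w‖ ≤ c.L * (‖ζ‖ / R ^ 2) :=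
                mul_le_mul_of_nonneg_left this (Nat.cast_nonneg _)
            _ = _ := by ring
      have b2 := inv_lin_diff (N := N) (x := x) (R := R) (ζ := ζ) (by linarith) hRx h1
      have b3 : ‖(N : ℂ) / x - (c.Sr x : ℂ) - 1‖ ≤ 1 / x := by
        have e4 : (N : ℂ) / x - (c.Sr x : ℂ) - 1 = (((N : ℝ) / x - c.Sr x - 1 : ℝ) : ℂ) := by
          push_cast; ring
        rw [e4, Complex.norm_real, Real.norm_eq_abs]
        have e5 : (N : ℝ) / x - c.Sr x - 1 = (N - x * (c.Sr x + 1)) / x := by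
          field_simp; ring
        rw [e5, abs_of_nonneg (div_nonneg (by linarith) hx0.le)]
        exact div_le_div_of_nonneg_right (by linarith) hx0.le
      refine (norm_add_le _ _).trans ?_
      refine (add_le_add (norm_add_le _ _) le_rfl).trans ?_
      have : (1 : ℝ) / x + (c.L / R ^ 2 + 2 * N / x ^ 2) * ‖ζ‖ =
        c.L / R ^ 2 * ‖ζ‖ + 2 * N / x ^ 2 * ‖ζ‖ + 1 / x := by ring
      rw [this]
      linarith)
    n1 n2 n3
  obtain ⟨g1, g2, g3⟩ := hnear
  have hHz : ∀ z : ℂ, H (x - z) = Ft c x N z := by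
    intro z; simp only [hH]; congr 1; ring
  refine ⟨?_, ?_, ?_⟩
  · intro z hy hz
    have := g1 (x - z) (by rw [hre, abs_sub_comm]; exact hz) (by rw [him, abs_neg]; exact hy)
    rw [hHz] at this
    have e : -(z - (x : ℂ)) = x - z := by ring
    rw [e]; exact this
  · intro z hy h1 h2
    have := g2 (x - z) (by rw [hre]; linarith) (by rw [hre]; linarith) (by rw [him, abs_neg]; exact hy)
    rw [hHz, hre] at this
    exact this
  · intro z hy h1 h2
    have := g3 (x - z) (by rw [hre]; linarith) (by rw [hre]; linarith) (by rw [him, abs_neg]; exact hy)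
    rw [hHz, hre] at this
    exact this

theorem cross_lemma {c c' : Cl} {y R p e0 : ℝ} {N : ℕ} (hw : 1 ≤ c.w) (hW : 1 ≤ c.W)
    (hw' : 1 ≤ c'.w) (hW' : 1 ≤ c'.W) (hR : 100 ≤ R) (hRy : 2 * R ≤ y)
    (hu' : c'.L = 0 ∨ c'.u = y + c'.w) (hv' : y + 2 * R ≤ c'.v)
    (hu : c.L = 0 ∨ c.u + 2 * R ≤ y) (hv : c.M = 0 ∨ c.v + 2 * R ≤ y)
    (hslope : |(N : ℝ) / y + c'.Sr y - c.Sr y - 1| ≤ e0)
    (hp : (c'.M + c.L + c.M : ℝ) / R ^ 2 + 2 * N / y ^ 2 ≤ p)
    (n1 : (c'.L : ℝ) / c'.w * (2 * 101 ^ 2 / c'.w ^ 2) + e0 + 101 * p ≤ 1 / 3000)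
    (n2 : ∀ t : ℝ, 0 ≤ t → t ≤ R → e0 + p * (t + 1) ≤
      1 / 4 + c'.L / c'.w * (t ^ 2 / (2 * t ^ 2 + 5 * c'.w ^ 2)))
    (n3 : (c'.L : ℝ) / c'.w / c'.w ^ 2 ≤ 1 / 4) :
    (∀ z : ℂ, |z.im| < 1 / 10 → |z.re - y| ≤ 100 → ‖Fd c c' y N z - exp (z - y)‖ ≤ 1 / 20 * ‖exp (z - y)‖) ∧
    (∀ z : ℂ, |z.im| < 1 / 10 → y + 100 ≤ z.re → z.re ≤ y + R →
      19 / 20 * Real.exp 100 * Real.exp ((z.re - y - 100) / 2) ≤ ‖Fd c c' y N z‖) ∧
    (∀ z : ℂ, |z.im| < 1 / 10 → y - R ≤ z.re → z.re ≤ y - 100 →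
      ‖Fd c c' y N z‖ ≤ 21 / 20 * Real.exp (-100) * Real.exp ((z.re - y + 100) / 2)) := by
  have hy0 : 0 < y := by linarith
  have hyc : (y : ℂ) ≠ 0 := by norm_cast; linarith
  have hfy : c.f y ≠ 0 := Cl.f_ne hw hW (by simp)
  have hfy' : c'.f y ≠ 0 := Cl.f_ne hw' hW' (by simp)
  set H : ℂ → ℂ := fun ζ => Fd c c' y N (y + ζ) with hH
  set s : ℂ → ℂ := fun ζ => N / (y + ζ) + c'.S (y + ζ) - c.S (y + ζ) with hs
  set E : ℂ → ℂ := fun ζ => s ζ - (1 + ((c'.L / c'.w : ℝ) : ℂ) * Qd ζ c'.w) with hEdef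
  have hre : ∀ ζ : ℂ, ((y : ℂ) + ζ).re = y + ζ.re := by intro ζ; simp
  have him : ∀ ζ : ℂ, ((y : ℂ) + ζ).im = ζ.im := by intro ζ; simp
  have hne : ∀ ζ : ℂ, |ζ.re| ≤ R → (y : ℂ) + ζ ≠ 0 := by
    intro ζ h h0
    have h1 := congrArg Complex.re h0
    rw [hre] at h1
    simp only [Complex.zero_re] at h1
    have := abs_le.mp h
    linarith
  have hp0 : 0 ≤ p := le_trans (by positivity) hp
  have hnear := near_lemma (H := H) (s := s) (E := E) (A := c'.L) (w := c'.w) (R := R) (e0 := e0)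
    (p := p) hw' (Nat.cast_nonneg _) hR hp0
    (by
      simp only [hH, Fd, add_zero]
      rw [mul_inv_cancel₀ hfy', inv_mul_cancel₀ hfy, mul_inv_cancel₀ hyc]; simp)
    (by
      intro ζ h1 h2
      have hd := Fd_logderiv (y := y) (N := N) hw hW hw' hW' (hne ζ h1) (z := y + ζ)
        (by rw [him]; exact h2.le)
      have hin : HasDerivAt (fun ζ : ℂ => (y : ℂ) + ζ) 1 ζ := by
        simpa using (hasDerivAt_id ζ).const_add (y : ℂ)
      have := hd.comp ζ hin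
      refine this.congr_deriv ?_
      simp only [hH, hs]
      ring)
    (by
      intro ζ h1 h2
      simp only [hEdef]; ring)
    (by
      intro ζ h1 h2
      have h3 := abs_le.mp h1
      -- left cluster of the new function
      have eL : (c'.L : ℂ) * sg ((y : ℂ) + ζ - c'.u) c'.w =
          (c'.L : ℂ) * sg ((y : ℂ) - c'.u) c'.w + ((c'.L / c'.w : ℝ) : ℂ) * Qd ζ c'.w := by
        rcases hu' with h0 | h0
        · rw [h0]; simp
        · have e1 : (y : ℂ) + ζ - c'.u = -(c'.w - ζ) := by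
            rw [h0]; push_cast; ring
          have e2 : (y : ℂ) - c'.u = -(c'.w - 0) := by
            rw [h0]; push_cast; ring
          have e3 : ∀ a : ℂ, sg (-a) c'.w = -sg a c'.w := by
            intro a; simp only [sg]; rw [neg_sq]; ring
          rw [e1, e2, e3, e3, sg_Qd hw' h2.le, sg_Qd hw' (by simp)]
          simp [Qd]
          ring
      have hEeq : E ζ = (c'.M : ℂ) * (sg ((y : ℂ) + ζ - c'.v) c'.W - sg ((y : ℂ) - c'.v) c'.W) +
          (c.L : ℂ) * (sg ((y : ℂ) - c.u) c.w - sg ((y : ℂ) + ζ - c.u) c.w) +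
          (c.M : ℂ) * (sg ((y : ℂ) - c.v) c.W - sg ((y : ℂ) + ζ - c.v) c.W) +
          ((N : ℂ) / (y - (-ζ)) - N / y) + (((N : ℝ) / y + c'.Sr y - c.Sr y - 1 : ℝ) : ℂ) := by
        have e2 : (c.Sr y : ℂ) = c.L * sg ((y : ℂ) - c.u) c.w + c.M * sg ((y : ℂ) - c.v) c.W := by
          rw [← Cl.S_real, Cl.S]
        have e2' : (c'.Sr y : ℂ) = c'.L * sg ((y : ℂ) - c'.u) c'.w + c'.M * sg ((y : ℂ) - c'.v) c'.W := by
          rw [← Cl.S_real, Cl.S]
        simp only [hEdef, hs, Cl.S]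
        rw [eL]
        push_cast
        rw [e2, e2']
        ring
      rw [hEeq]
      have key : ∀ (n : ℕ) (a b : ℝ), 1 ≤ b → (n = 0 ∨ 2 * R ≤ |y - a|) →
          ‖(n : ℂ) * (sg ((y : ℂ) - a) b - sg ((y : ℂ) + ζ - a) b)‖ ≤ n / R ^ 2 * ‖ζ‖ := by
        intro n a b hb h0
        rcases h0 with h0 | h0
        · rw [h0]; simp
        · rw [norm_mul, Complex.norm_natCast]
          have h4 : R ≤ |y + ζ.re - a| := by
            have e5 : y - a = (y + ζ.re - a) - ζ.re := by ring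
            have h5 := abs_sub (y + ζ.re - a) ζ.re
            rw [← e5] at h5
            linarith
          have := sg_diff (a := (y : ℂ) - a) (b := y + ζ - a) (R := R) hb (by linarith)
            (by
              have : ((y : ℂ) - a).re = y - a := by simp
              rw [this]; exact h0)
            (by
              have : ((y : ℂ) + ζ - a).re = y + ζ.re - a := by simp
              rw [this]; exact h4)
            (by simp) (by simpa using h2.le)
          have e3 : (y : ℂ) - a - (y + ζ - a) = -ζ := by ring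
          rw [e3, norm_neg] at this
          calc (n : ℝ) * ‖sg ((y : ℂ) - a) b - sg (y + ζ - a) b‖ ≤ n * (‖ζ‖ / R ^ 2) :=
                mul_le_mul_of_nonneg_left this (Nat.cast_nonneg _)
            _ = _ := by ring
      have b1 := key c'.M c'.v c'.W hW' (Or.inr (by rw [abs_sub_comm, abs_of_nonneg (by linarith)]; linarith))
      rw [← norm_neg] at b1
      have b1' : -((c'.M : ℂ) * (sg ((y : ℂ) - c'.v) c'.W - sg ((y : ℂ) + ζ - c'.v) c'.W)) =
        (c'.M : ℂ) * (sg ((y : ℂ) + ζ - c'.v) c'.W - sg ((y : ℂ) - c'.v) c'.W) := by ring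
      rw [b1'] at b1
      have b2 := key c.L c.u c.w hw (hu.imp id (fun h => by rw [abs_of_nonneg (by linarith)]; linarith))
      have b3 := key c.M c.v c.W hW (hv.imp id (fun h => by rw [abs_of_nonneg (by linarith)]; linarith))
      have b4 := inv_lin_diff (N := N) (x := y) (R := R) (ζ := -ζ) (by linarith) hRy (by simpa using h1)
      rw [norm_neg] at b4
      have b5 : ‖(((N : ℝ) / y + c'.Sr y - c.Sr y - 1 : ℝ) : ℂ)‖ ≤ e0 := by
        rw [Complex.norm_real, Real.norm_eq_abs]; exact hslope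
      have b6 : ((c'.M + c.L + c.M : ℝ) / R ^ 2 + 2 * N / y ^ 2) * ‖ζ‖ ≤ p * ‖ζ‖ :=
        mul_le_mul_of_nonneg_right hp (norm_nonneg _)
      refine (norm_add_le _ _).trans ?_
      refine (add_le_add (norm_add_le _ _) le_rfl).trans ?_
      refine (add_le_add (add_le_add (norm_add_le _ _) le_rfl) le_rfl).trans ?_
      refine (add_le_add (add_le_add (add_le_add (norm_add_le _ _) le_rfl) le_rfl) le_rfl).trans ?_
      have e7 : ((c'.M + c.L + c.M : ℝ) / R ^ 2 + 2 * N / y ^ 2) * ‖ζ‖ =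
        c'.M / R ^ 2 * ‖ζ‖ + c.L / R ^ 2 * ‖ζ‖ + c.M / R ^ 2 * ‖ζ‖ + 2 * N / y ^ 2 * ‖ζ‖ := by ring
      linarith)
    n1 n2 n3
  obtain ⟨g1, g2, g3⟩ := hnear
  have hHz : ∀ z : ℂ, H (z - y) = Fd c c' y N z := by
    intro z; simp only [hH]; congr 1; ring
  have hre' : ∀ z : ℂ, (z - (y : ℂ)).re = z.re - y := by intro z; simp
  have him' : ∀ z : ℂ, (z - (y : ℂ)).im = z.im := by intro z; simp
  refine ⟨?_, ?_, ?_⟩
  · intro z hy hz
    have := g1 (z - y) (by rw [hre']; exact hz) (by rw [him']; exact hy)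
    rw [hHz] at this
    exact this
  · intro z hy h1 h2
    have := g2 (z - y) (by rw [hre']; linarith) (by rw [hre']; linarith) (by rw [him']; exact hy)
    rw [hHz, hre'] at this
    exact this
  · intro z hy h1 h2
    have := g3 (z - y) (by rw [hre']; linarith) (by rw [hre']; linarith) (by rw [him']; exact hy)
    rw [hHz, hre'] at this
    exact this

end Pool.Agent.MPdf6699Lib
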