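import Mathlib
import Pool.Agent.MPdf6699Lib.Touch

/-!
Crude size bounds for cluster functions and the link between consecutive states.
-/

namespace Pool.Agent.MPdf6699Lib

open Complex

/-- The real cluster function. -/
noncomputable def Cl.fr (c : Cl) (x : ℝ) : ℝ :=
  ((x - c.u) ^ 2 + c.w ^ 2) ^ c.L * ((x - c.v) ^ 2 + c.W ^ 2) ^ c.M

theorem Cl.f_real (c : Cl) (x : ℝ) : c.f x = (c.fr x : ℂ) := by
  simp only [Cl.f, Cl.fr]
  push_cast
  ring

theorem quad_lower {z : ℂ} {u w : ℝ} (hw : 2 ≤ w) (hy : |z.im| ≤ 1 / 10) :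
    1 ≤ ‖(z - u) ^ 2 + (w : ℂ) ^ 2‖ := by
  have e : (z - u) ^ 2 + (w : ℂ) ^ 2 = ((z - u) - w * I) * ((z - u) + w * I) := by
    ring_nf; rw [I_sq]; ring
  rw [e, norm_mul]
  have h := abs_le.mp hy
  have h1 : 1 ≤ ‖(z - u) - w * I‖ := by
    have h2 := Complex.abs_im_le_norm ((z - u) - w * I)
    have h3 : ((z - u) - w * I).im = z.im - w := by simp
    rw [h3, abs_sub_comm, abs_of_nonneg (by linarith)] at h2
    linarith
  have h1' : 1 ≤ ‖(z - u) + w * I‖ := by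
    have h2 := Complex.abs_im_le_norm ((z - u) + w * I)
    have h3 : ((z - u) + w * I).im = z.im + w := by simp
    rw [h3, abs_of_nonneg (by linarith)] at h2
    linarith
  nlinarith

theorem quad_upper {z : ℂ} {u w b : ℝ} (hz : ‖z‖ ≤ b) (hu : |u| ≤ 2 * b) (hw0 : 0 ≤ w) (hw : w ≤ b) :
    ‖(z - u) ^ 2 + (w : ℂ) ^ 2‖ ≤ (4 * b) ^ 2 := by
  refine (norm_add_le _ _).trans ?_
  rw [norm_pow, norm_pow, Complex.norm_real, Real.norm_eq_abs, sq_abs]
  have h1 : ‖z - u‖ ≤ 3 * b := by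
    refine (norm_sub_le _ _).trans ?_
    rw [Complex.norm_real, Real.norm_eq_abs]; linarith
  have h2 : ‖z - u‖ ^ 2 ≤ (3 * b) ^ 2 := pow_le_pow_left₀ (norm_nonneg _) h1 2
  have h3 : w ^ 2 ≤ b ^ 2 := pow_le_pow_left₀ hw0 hw 2
  nlinarith [sq_nonneg b]

theorem Cl.f_lower {c : Cl} (hw : 2 ≤ c.w) (hW : 2 ≤ c.W) {z : ℂ} (hy : |z.im| ≤ 1 / 10) :
    1 ≤ ‖c.f z‖ := by
  rw [Cl.f, norm_mul, norm_pow, norm_pow]
  exact one_le_mul_of_one_le_of_one_le (one_le_pow₀ (quad_lower hw hy)) (one_le_pow₀ (quad_lower hW hy))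

theorem Cl.f_upper {c : Cl} {z : ℂ} {b : ℝ} {B : ℕ} (hw : 0 ≤ c.w) (hW : 0 ≤ c.W) (hz : ‖z‖ ≤ b)
    (hu : |c.u| ≤ 2 * b) (hv : |c.v| ≤ 2 * b) (hwb : c.w ≤ b) (hWb : c.W ≤ b) (hb : 1 ≤ b)
    (hB : 2 * (c.L + c.M) ≤ B) :
    ‖c.f z‖ ≤ (4 * b) ^ B := by
  rw [Cl.f, norm_mul, norm_pow, norm_pow]
  have h1 := quad_upper (z := z) hz hu hw hwb
  have h2 := quad_upper (z := z) hz hv hW hWb
  calc ‖(z - c.u) ^ 2 + (c.w : ℂ) ^ 2‖ ^ c.L * ‖(z - c.v) ^ 2 + (c.W : ℂ) ^ 2‖ ^ c.M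
      ≤ ((4 * b) ^ 2) ^ c.L * ((4 * b) ^ 2) ^ c.M := by
        apply mul_le_mul (pow_le_pow_left₀ (norm_nonneg _) h1 _) (pow_le_pow_left₀ (norm_nonneg _) h2 _)
          (by positivity) (by positivity)
    _ = (4 * b) ^ (2 * (c.L + c.M)) := by
        rw [← pow_mul, ← pow_mul, ← pow_add]; congr 1; ring
    _ ≤ (4 * b) ^ B := pow_le_pow_right₀ (by linarith) hB

theorem Cl.fr_pos {c : Cl} (hw : 2 ≤ c.w) (hW : 2 ≤ c.W) (x : ℝ) : 0 < c.fr x := by
  rw [Cl.fr]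
  have h1 : 0 < c.w ^ 2 := by positivity
  have h2 : 0 < c.W ^ 2 := by positivity
  positivity

theorem Cl.fr_norm {c : Cl} (hw : 2 ≤ c.w) (hW : 2 ≤ c.W) (x : ℝ) : ‖c.f x‖ = c.fr x := by
  rw [Cl.f_real, Complex.norm_real, Real.norm_eq_abs, abs_of_pos (Cl.fr_pos hw hW x)]

/-- Power comparison: ratio below one. -/
theorem ratio_pow_le {x R r : ℝ} (hx : 0 < x) (hR : 0 ≤ R) (hRx : R ≤ x) (hr : x + R ≤ r) (n : ℕ) :
    (x / r) ^ n ≤ Real.exp (-(n * R / (2 * x))) := by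
  have hr0 : 0 < r := by linarith
  have h1 : x / r ≤ Real.exp (-(R / (2 * x))) := by
    have h2 : x / r ≤ 1 - R / (2 * x) := by
      rw [div_le_iff₀ hr0]
      have h3 : 0 ≤ 1 - R / (2 * x) := by
        rw [sub_nonneg, div_le_one (by positivity)]; linarith
      have h4 : (1 - R / (2 * x)) * (x + R) ≤ (1 - R / (2 * x)) * r := mul_le_mul_of_nonneg_left hr h3
      have h5 : (1 - R / (2 * x)) * (x + R) = x + (R / 2) * (1 - R / x) := by
        field_simp; ring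
      have h6 : 0 ≤ (R / 2) * (1 - R / x) := by
        apply mul_nonneg (by linarith)
        rw [sub_nonneg, div_le_one hx]; exact hRx
      linarith
    have := Real.add_one_le_exp (-(R / (2 * x)))
    linarith
  calc (x / r) ^ n ≤ (Real.exp (-(R / (2 * x)))) ^ n := pow_le_pow_left₀ (by positivity) h1 n
    _ = Real.exp (-(n * R / (2 * x))) := by
      rw [← Real.exp_nat_mul]; congr 1; ring

/-- Power comparison: ratio below one, other side. -/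
theorem ratio_pow_le' {y R r : ℝ} (hy : 0 < y) (hr0 : 0 ≤ r) (hr : r ≤ y - R / 2) (n : ℕ) :
    (r / y) ^ n ≤ Real.exp (-(n * R / (2 * y))) := by
  have h1 : r / y ≤ Real.exp (-(R / (2 * y))) := by
    have h2 : r / y ≤ 1 - R / (2 * y) := by
      rw [div_le_iff₀ hy]
      have h5 : (1 - R / (2 * y)) * y = y - R / 2 := by
        field_simp
      linarith
    have := Real.add_one_le_exp (-(R / (2 * y)))
    linarith
  calc (r / y) ^ n ≤ (Real.exp (-(R / (2 * y)))) ^ n := pow_le_pow_left₀ (by positivity) h1 n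
    _ = Real.exp (-(n * R / (2 * y))) := by
      rw [← Real.exp_nat_mul]; congr 1; ring

end Pool.Agent.MPdf6699Lib
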