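import Mathlib
import Pool.Agent.MPdf6699Lib.Base
import Pool.Agent.MPdf6699Lib.Crude

/-!
States of the chain and the link between consecutive states.
-/

namespace Pool.Agent.MPdf6699Lib

open Complex

/-- A state of the chain. -/
structure St where
  T : ℕ
  c : Cl
  nu : ℕ
  Lam : ℝ

/-- The function attached to a state. -/
noncomputable def St.G (s : St) (z : ℂ) : ℂ := s.Lam * z ^ s.nu * s.c.f z

/-- Numerical conditions linking two consecutive states. -/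
structure Link (s s' : St) (x y R : ℝ) (N N' : ℕ) : Prop where
  hT : 10 ^ 10 ≤ s'.T
  w1 : 2 ≤ s.c.w
  W1 : 2 ≤ s.c.W
  w2 : 2 ≤ s'.c.w
  W2 : 2 ≤ s'.c.W
  xdef : x = s.c.v + s.c.W
  xlow : (s'.T : ℝ) ^ 100 ≤ x
  xhigh : x ≤ 2 * (s'.T : ℝ) ^ 100
  R100 : 2000 ≤ R
  RT : R ≤ (s'.T : ℝ) ^ 17
  Rxy : x + R ≤ y
  yT : y ≤ x + (s'.T : ℝ) ^ 17
  hu : s.c.L = 0 ∨ s.c.u + 2 * R ≤ x
  hv : s.c.M = 0 ∨ s.c.v + 2 * R ≤ y
  hu' : s'.c.L = 0 ∨ s'.c.u = y + s'.c.w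
  hv' : y + 2 * R ≤ s'.c.v
  u0 : 0 ≤ s.c.u
  ux : s.c.u ≤ 2 * x
  v0 : 0 ≤ s.c.v
  wx : s.c.w ≤ x
  Wx : s.c.W ≤ x
  u0' : 0 ≤ s'.c.u
  ux' : s'.c.u ≤ 2 * x
  vx' : s'.c.v ≤ y + (s'.T : ℝ) ^ 17
  wx' : s'.c.w ≤ (s'.T : ℝ) ^ 17
  Wx' : s'.c.W ≤ (s'.T : ℝ) ^ 17
  L1 : s.c.L ≤ s'.T ^ 14
  M1 : s.c.M ≤ s'.T ^ 14
  L2 : s'.c.L ≤ s'.T ^ 14
  M2 : s'.c.M ≤ s'.T ^ 14
  N1 : x * (s.c.Sr x + 1) ≤ N
  N2 : (N : ℝ) ≤ x * (s.c.Sr x + 1) + 1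
  NR : (s'.T : ℝ) ^ 17 / 10 ≤ N * R / x
  Nup : N * (y - x) / x ≤ 3 * (s'.T : ℝ) ^ 17
  Nlow : x ≤ N
  NN : N' + 2 * (s'.c.L + s'.c.M) = N
  t1 : (s.c.M : ℝ) / s.c.W * (2 * 101 ^ 2 / s.c.W ^ 2) + 1 / x +
    101 * (s.c.L / R ^ 2 + 2 * N / x ^ 2) ≤ 1 / 3000
  t2 : ∀ t : ℝ, 0 ≤ t → t ≤ R → 1 / x + (s.c.L / R ^ 2 + 2 * N / x ^ 2) * (t + 1) ≤
      1 / 4 + s.c.M / s.c.W * (t ^ 2 / (2 * t ^ 2 + 5 * s.c.W ^ 2))
  t3 : (s.c.M : ℝ) / s.c.W / s.c.W ^ 2 ≤ 1 / 4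
  cr : ∃ e0 p : ℝ, |(N' : ℝ) / y + s'.c.Sr y - s.c.Sr y - 1| ≤ e0 ∧
    (s'.c.M + s.c.L + s.c.M : ℝ) / R ^ 2 + 2 * N' / y ^ 2 ≤ p ∧
    (s'.c.L : ℝ) / s'.c.w * (2 * 101 ^ 2 / s'.c.w ^ 2) + e0 + 101 * p ≤ 1 / 3000 ∧
    (∀ t : ℝ, 0 ≤ t → t ≤ R → e0 + p * (t + 1) ≤
      1 / 4 + s'.c.L / s'.c.w * (t ^ 2 / (2 * t ^ 2 + 5 * s'.c.w ^ 2))) ∧
    (s'.c.L : ℝ) / s'.c.w / s'.c.w ^ 2 ≤ 1 / 4
  nu' : s'.nu = s.nu + N'
  Lpos : 0 < s.Lam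
  Lam' : s'.Lam = s.Lam * s.c.fr y / (s'.c.fr y * y ^ N')

variable {s s' : St} {x y R : ℝ} {N N' : ℕ}

/-- Coefficient of the tangent monomial. -/
noncomputable def St.Cm (s : St) (x : ℝ) (N : ℕ) : ℝ := s.Lam * s.c.fr x / x ^ N

theorem big_exp {t : ℝ} (ht : 10 ^ 10 ≤ t) : 100 * t ^ 100 ≤ Real.exp (101 * t) := by
  have h1 : t ≤ Real.exp t := by
    have := Real.add_one_le_exp t
    linarith
  have h2 : t ^ 100 ≤ Real.exp (100 * t) := by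
    have : Real.exp (100 * t) = Real.exp t ^ 100 := by
      rw [← Real.exp_nat_mul]; norm_num
    rw [this]
    exact pow_le_pow_left₀ (by linarith) h1 100
  have h3 : Real.exp (101 * t) = Real.exp t * Real.exp (100 * t) := by
    rw [← Real.exp_add]; congr 1; ring
  rw [h3]
  exact mul_le_mul (by linarith) h2 (by positivity) (Real.exp_pos _).le

theorem big_pow {T : ℕ} (hT : 10 ^ 10 ≤ T) {b : ℝ} (hb : 1 ≤ b) (hb2 : b ≤ 100 * (T : ℝ) ^ 100) {B : ℕ}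
    (hB : B ≤ 4 * T ^ 14) : b ^ B ≤ Real.exp ((T : ℝ) ^ 16 / 100) := by
  have ht : (10 : ℝ) ^ 10 ≤ T := by exact_mod_cast hT
  have h1 : b ≤ Real.exp (101 * T) := hb2.trans (big_exp ht)
  calc b ^ B ≤ b ^ (4 * T ^ 14) := pow_le_pow_right₀ hb hB
    _ ≤ (Real.exp (101 * T)) ^ (4 * T ^ 14) := pow_le_pow_left₀ (by linarith) h1 _
    _ = Real.exp (404 * (T : ℝ) ^ 15) := by
      rw [← Real.exp_nat_mul]; congr 1; push_cast; ring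
    _ ≤ Real.exp ((T : ℝ) ^ 16 / 100) := by
      apply Real.exp_le_exp.mpr
      have h2 : (0 : ℝ) ≤ (T : ℝ) ^ 15 := by positivity
      have h3 : (T : ℝ) ^ 16 = T * (T : ℝ) ^ 15 := by ring
      rw [h3]
      nlinarith

theorem big_lin {T : ℕ} (hT : 10 ^ 10 ≤ T) : 1000 * (1 + 2 * (T : ℝ) ^ 80) ≤ Real.exp ((T : ℝ) ^ 16 / 100) := by
  have ht : (10 : ℝ) ^ 10 ≤ T := by exact_mod_cast hT
  have ht1 : (1 : ℝ) ≤ T := by linarith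
  have h0 : (1 : ℝ) ≤ (T : ℝ) ^ 80 := one_le_pow₀ ht1
  have h1 : 1000 * (1 + 2 * (T : ℝ) ^ 80) ≤ 100 * (T : ℝ) ^ 100 := by
    have h2 : (T : ℝ) ^ 100 = (T : ℝ) ^ 20 * (T : ℝ) ^ 80 := by ring
    have h3 : (T : ℝ) ≤ (T : ℝ) ^ 20 := le_self_pow₀ ht1 (by norm_num)
    rw [h2]
    nlinarith
  refine h1.trans ((big_exp ht).trans ?_)
  apply Real.exp_le_exp.mpr
  have h3 : (T : ℝ) ^ 16 = T * (T : ℝ) ^ 15 := by ring
  have h4 : (T : ℝ) ≤ (T : ℝ) ^ 15 := le_self_pow₀ ht1 (by norm_num)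
  rw [h3]
  nlinarith

namespace Link

theorem tpos (h : Link s s' x y R N N') : (10 : ℝ) ^ 10 ≤ s'.T := by exact_mod_cast h.hT

theorem xpos (h : Link s s' x y R N N') : 0 < x := by
  have := h.tpos
  have : 0 < (s'.T : ℝ) ^ 100 := by positivity
  linarith [h.xlow]

theorem T17_small (h : Link s s' x y R N N') : (s'.T : ℝ) ^ 17 * 10 ^ 6 ≤ x := by
  have ht := h.tpos
  have ht1 : (1 : ℝ) ≤ s'.T := by linarith
  have h1 : (s'.T : ℝ) ^ 100 = (s'.T : ℝ) ^ 17 * (s'.T : ℝ) ^ 83 := by ring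
  have h2 : (s'.T : ℝ) ≤ (s'.T : ℝ) ^ 83 := le_self_pow₀ ht1 (by norm_num)
  have h3 : (s'.T : ℝ) ^ 17 * 10 ^ 6 ≤ (s'.T : ℝ) ^ 17 * (s'.T : ℝ) ^ 83 := by
    apply mul_le_mul_of_nonneg_left _ (by positivity)
    linarith
  linarith [h.xlow]

theorem ypos (h : Link s s' x y R N N') : 0 < y := by
  have := h.xpos; have := h.Rxy; have := h.R100; linarith

theorem y2x (h : Link s s' x y R N N') : y ≤ 11 / 10 * x := by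
  have h1 := h.T17_small
  have h2 := h.yT
  have h3 : (0 : ℝ) ≤ (s'.T : ℝ) ^ 17 := by positivity
  nlinarith

theorem Rx (h : Link s s' x y R N N') : 1000 * R ≤ x := by
  have h1 := h.T17_small
  have h2 := h.RT
  have h3 : (0 : ℝ) ≤ (s'.T : ℝ) ^ 17 := by positivity
  nlinarith

theorem Beven (h : Link s s' x y R N N') : 2 * (s.c.L + s.c.M) ≤ 4 * s'.T ^ 14 := by
  have := h.L1; have := h.M1; omega

theorem Beven' (h : Link s s' x y R N N') : 2 * (s'.c.L + s'.c.M) ≤ 4 * s'.T ^ 14 := by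
  have := h.L2; have := h.M2; omega

theorem T80 (h : Link s s' x y R N N') : (s'.T : ℝ) ^ 80 * (s'.T : ℝ) ^ 17 * 1000 ≤ x := by
  have ht := h.tpos
  have ht1 : (1 : ℝ) ≤ s'.T := by linarith
  have h1 : (s'.T : ℝ) ^ 100 = (s'.T : ℝ) ^ 80 * (s'.T : ℝ) ^ 17 * (s'.T : ℝ) ^ 3 := by ring
  have h2 : (s'.T : ℝ) ≤ (s'.T : ℝ) ^ 3 := le_self_pow₀ ht1 (by norm_num)
  have h3 : (s'.T : ℝ) ^ 80 * (s'.T : ℝ) ^ 17 * 1000 ≤
      (s'.T : ℝ) ^ 80 * (s'.T : ℝ) ^ 17 * (s'.T : ℝ) ^ 3 := by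
    apply mul_le_mul_of_nonneg_left _ (by positivity)
    linarith
  linarith [h.xlow]

theorem d_le_N (h : Link s s' x y R N N') : 100 * (s'.T ^ 80 + 4 * s'.T ^ 14 + 1) ≤ N := by
  have h1 := h.T80
  have h2 := h.Nlow
  have ht := h.tpos
  have ht1 : (1 : ℝ) ≤ s'.T := by linarith
  have h3 : (s'.T : ℝ) ≤ (s'.T : ℝ) ^ 17 := le_self_pow₀ ht1 (by norm_num)
  have h4 : (s'.T : ℝ) ^ 14 ≤ (s'.T : ℝ) ^ 80 := pow_le_pow_right₀ ht1 (by norm_num)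
  have h5 : (1 : ℝ) ≤ (s'.T : ℝ) ^ 80 := one_le_pow₀ ht1
  have h6 : 100 * ((s'.T : ℝ) ^ 80 + 4 * (s'.T : ℝ) ^ 14 + 1) ≤ N := by
    nlinarith [mul_le_mul_of_nonneg_left h3 (by positivity : (0 : ℝ) ≤ (s'.T : ℝ) ^ 80)]
  exact_mod_cast h6

/-- The two functions in terms of the quotients. -/
theorem G_eq (h : Link s s' x y R N N') {z : ℂ} (hz : z ≠ 0) :
    s.G z = s.Cm x N * z ^ (s.nu + N) * Ft s.c x N z := by
  have hx := h.xpos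
  have hfx : s.c.f x ≠ 0 := Cl.f_ne (by linarith [h.w1]) (by linarith [h.W1]) (by simp)
  have hxc : (x : ℂ) ≠ 0 := by norm_cast; linarith
  have hfr : (s.c.fr x : ℂ) ≠ 0 := by rw [← Cl.f_real]; exact hfx
  simp only [St.G, St.Cm, Ft]
  rw [Cl.f_real s.c x]
  push_cast
  rw [mul_pow, inv_pow, pow_add]
  field_simp

theorem G'_eq (h : Link s s' x y R N N') {z : ℂ} (hz : |z.im| ≤ 1 / 10) :
    s'.G z = s.G z * Fd s.c s'.c y N' z := by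
  have hy := h.ypos
  have hf : s.c.f z ≠ 0 := Cl.f_ne (by linarith [h.w1]) (by linarith [h.W1]) hz
  have hf' : s'.c.f y ≠ 0 := Cl.f_ne (by linarith [h.w2]) (by linarith [h.W2]) (by simp)
  have hyc : (y : ℂ) ≠ 0 := by norm_cast; linarith
  have hfr : (s'.c.fr y : ℂ) ≠ 0 := by rw [← Cl.f_real]; exact hf'
  simp only [St.G, Fd]
  rw [Cl.f_real s'.c y, Cl.f_real s.c y, h.Lam', h.nu']
  push_cast
  rw [mul_pow, inv_pow, pow_add]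
  field_simp

theorem Cpos (h : Link s s' x y R N N') : 0 < s.Cm x N := by
  have := h.xpos
  have := h.Lpos
  have := Cl.fr_pos h.w1 h.W1 x
  rw [St.Cm]; positivity

theorem Lpos' (h : Link s s' x y R N N') : 0 < s'.Lam := by
  have := h.ypos
  have := h.Lpos
  have := Cl.fr_pos h.w1 h.W1 y
  have := Cl.fr_pos h.w2 h.W2 y
  rw [h.Lam']; positivity

end Link

end Pool.Agent.MPdf6699Lib
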