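import Mathlib
import Pool.Agent.MPdf6699Lib.Link

/-!
The general step of the chain.
-/

namespace Pool.Agent.MPdf6699Lib

/-- Touching point of a state. -/
noncomputable def xs (s : St) : ℝ := s.c.v + s.c.W

/-- Degree increment at the touching point. -/
noncomputable def Ns (s : St) : ℕ := ⌈xs s * (s.c.Sr (xs s) + 1)⌉₊

/-- Parameter of the next state. -/
noncomputable def Tn (s : St) : ℕ := if ((s.T : ℝ) + 1) ^ 100 ≤ xs s then s.T + 1 else s.T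

/-- Crossing point after a state. -/
noncomputable def ys (s : St) : ℝ := xs s + (Tn s : ℝ) ^ 8

/-- Slope needed for the left cluster. -/
noncomputable def As (s : St) : ℝ :=
  ((Ns s - 4 * Tn s ^ 14 : ℕ) : ℝ) / ys s -
    (Tn s : ℝ) ^ 14 * (2 * (Tn s : ℝ) ^ 8 / (((Tn s : ℝ) ^ 8) ^ 2 + ((Tn s : ℝ) ^ 5) ^ 2)) -
    s.c.Sr (ys s) - 1

/-- Cluster of the next state. -/
noncomputable def cn (s : St) : Cl :=
  ⟨Tn s ^ 14, Tn s ^ 14, ys s + (Tn s : ℝ) ^ 14 / As s, (Tn s : ℝ) ^ 14 / As s,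
    ys s + (Tn s : ℝ) ^ 8, (Tn s : ℝ) ^ 5⟩

/-- The next state. -/
noncomputable def step (s : St) : St :=
  ⟨Tn s, cn s, s.nu + (Ns s - 4 * Tn s ^ 14),
    s.Lam * s.c.fr (ys s) / ((cn s).fr (ys s) * ys s ^ (Ns s - 4 * Tn s ^ 14))⟩

/-- Invariant of a state (after the first one). -/
structure Inv (s : St) : Prop where
  hT : 10 ^ 10 ≤ s.T
  M : s.c.M = s.T ^ 14
  W : s.c.W = (s.T : ℝ) ^ 5
  L : s.c.L ≤ s.T ^ 14
  hu : s.c.L = 0 ∨ s.c.u + 9 / 10 * (s.T : ℝ) ^ 8 ≤ xs s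
  w2 : 2 ≤ s.c.w
  wx : s.c.w ≤ xs s
  u0 : 0 ≤ s.c.u
  ux : s.c.u ≤ 2 * xs s
  xlow : (s.T : ℝ) ^ 100 ≤ xs s
  xhigh : xs s ≤ ((s.T : ℝ) + 1) ^ 100 + (s.T : ℝ) ^ 18
  Lpos : 0 < s.Lam

namespace Inv

variable {s : St}

theorem t0 (h : Inv s) : (10 : ℝ) ^ 10 ≤ s.T := by exact_mod_cast h.hT

theorem Tn_cases (_h : Inv s) : Tn s = s.T ∨ Tn s = s.T + 1 := by
  unfold Tn; split_ifs <;> simp

theorem Tn_ge (h : Inv s) : s.T ≤ Tn s := by
  rcases h.Tn_cases with h1 | h1 <;> omega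

theorem Tn_ge' (h : Inv s) : (s.T : ℝ) ≤ Tn s := by exact_mod_cast h.Tn_ge

theorem Tn_le (h : Inv s) : (Tn s : ℝ) ≤ (1 + 1 / 10 ^ 10) * s.T := by
  have ht := h.t0
  have h1 : (Tn s : ℝ) ≤ s.T + 1 := by
    rcases h.Tn_cases with h1 | h1
    · rw [h1]; linarith
    · rw [h1]; push_cast; linarith
  nlinarith

theorem Tn_hT (h : Inv s) : 10 ^ 10 ≤ Tn s := h.hT.trans h.Tn_ge

theorem Tn_pow (h : Inv s) {k : ℕ} (hk : k ≤ 17) : (Tn s : ℝ) ^ k ≤ 101 / 100 * (s.T : ℝ) ^ k := by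
  have h1 := pow_le_pow_left₀ (Nat.cast_nonneg _) h.Tn_le k
  rw [mul_pow] at h1
  refine h1.trans ?_
  apply mul_le_mul_of_nonneg_right _ (by positivity)
  calc (1 + 1 / 10 ^ 10 : ℝ) ^ k ≤ (1 + 1 / 10 ^ 10 : ℝ) ^ 17 := pow_le_pow_right₀ (by norm_num) hk
    _ ≤ 101 / 100 := by norm_num

theorem xs_pos (h : Inv s) : 0 < xs s := by
  have := h.t0
  have : 0 < (s.T : ℝ) ^ 100 := by positivity
  linarith [h.xlow]

theorem pow_succ_ge' {a : ℝ} (ha : 0 < a) : a ^ 100 + 100 * a ^ 99 ≤ (a + 1) ^ 100 := by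
  have h1 : 1 + ((100 : ℕ) : ℝ) * (1 / a) ≤ (1 + 1 / a) ^ 100 := by
    apply one_add_mul_le_pow
    have : 0 ≤ 1 / a := by positivity
    linarith
  have h2 : (a + 1) ^ 100 = a ^ 100 * (1 + 1 / a) ^ 100 := by
    rw [← mul_pow]; congr 1; field_simp
  have h3 : a ^ 100 * (1 + ((100 : ℕ) : ℝ) * (1 / a)) = a ^ 100 + 100 * a ^ 99 := by
    rw [pow_succ a 99]
    generalize a ^ 99 = b
    push_cast; field_simp
  have h6 := mul_le_mul_of_nonneg_left h1 (by positivity : 0 ≤ a ^ 100)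
  rw [h2, ← h3]
  exact h6

theorem pow_succ_ge {t : ℝ} (ht : (10 : ℝ) ^ 10 ≤ t) : (t + 1) ^ 100 + t ^ 18 < (t + 2) ^ 100 := by
  have h4 : t ^ 18 ≤ (t + 1) ^ 99 := by
    calc t ^ 18 ≤ (t + 1) ^ 18 := pow_le_pow_left₀ (by linarith) (by linarith) 18
      _ ≤ (t + 1) ^ 99 := pow_le_pow_right₀ (by linarith) (by norm_num)
  have h7 := pow_succ_ge' (a := t + 1) (by linarith)
  have e : t + 1 + 1 = t + 2 := by ring
  rw [e] at h7
  have h5 : 0 < (t + 1) ^ 99 := by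
    have : 0 < t + 1 := by linarith
    positivity
  refine lt_of_lt_of_le ?_ h7
  generalize (t + 1) ^ 99 = b at *
  generalize (t + 1) ^ 100 = c at *
  linarith

theorem pow_two_ge {t : ℝ} (ht : (10 : ℝ) ^ 10 ≤ t) : (t + 1) ^ 100 ≤ 2 * t ^ 100 := by
  have h2 : (t + 1) ^ 100 = t ^ 100 * (1 + 1 / t) ^ 100 := by
    rw [← mul_pow]; congr 1; field_simp
  have h3 : 1 + 1 / t ≤ 1 + 1 / 10 ^ 10 := by
    have := one_div_le_one_div_of_le (by norm_num) ht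
    linarith
  have h4 : (1 + 1 / t) ^ 100 ≤ 2 := by
    have h5 : 0 < t := by linarith
    calc (1 + 1 / t) ^ 100 ≤ (1 + 1 / 10 ^ 10) ^ 100 := pow_le_pow_left₀ (by positivity) h3 100
      _ ≤ 2 := by norm_num
  rw [h2, mul_comm]
  have : 0 ≤ t ^ 100 := by
    have h5 : 0 < t := by linarith
    positivity
  exact mul_le_mul_of_nonneg_right h4 this

theorem xlow' (h : Inv s) : (Tn s : ℝ) ^ 100 ≤ xs s := by
  unfold Tn
  split_ifs with hc
  · push_cast; exact hc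
  · exact h.xlow

theorem xlt (h : Inv s) : xs s < ((Tn s : ℝ) + 1) ^ 100 := by
  unfold Tn
  split_ifs with hc
  · push_cast
    have := pow_succ_ge h.t0
    have e : (s.T : ℝ) + 1 + 1 = s.T + 2 := by ring
    rw [e]
    exact lt_of_le_of_lt h.xhigh this
  · exact not_le.mp hc

theorem xhigh' (h : Inv s) : xs s ≤ 2 * (Tn s : ℝ) ^ 100 := by
  have h1 : (10 : ℝ) ^ 10 ≤ Tn s := by exact_mod_cast h.Tn_hT
  exact h.xlt.le.trans (pow_two_ge h1)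

/-- Large gaps between powers. -/
theorem gap {t : ℝ} (ht : (10 : ℝ) ^ 10 ≤ t) {a b : ℕ} (hab : a < b) : 10 ^ 10 * t ^ a ≤ t ^ b := by
  have h1 : t ^ (a + 1) ≤ t ^ b := pow_le_pow_right₀ (by linarith) hab
  have h2 : t ^ (a + 1) = t * t ^ a := by ring
  have h3 : 0 ≤ t ^ a := by
    have : 0 ≤ t := by linarith
    positivity
  nlinarith

end Inv

end Pool.Agent.MPdf6699Lib
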