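import Mathlib
import Pool.Agent.MPdf6699Lib.Step

/-!
Estimates for the general step.
-/

namespace Pool.Agent.MPdf6699Lib

theorem sgr_bound {a r w : ℝ} (hr : 0 < r) (ha : r ≤ a) :
    0 ≤ 2 * a / (a ^ 2 + w ^ 2) ∧ 2 * a / (a ^ 2 + w ^ 2) ≤ 2 / r := by
  have ha0 : 0 < a := by linarith
  constructor
  · positivity
  · rw [div_le_div_iff₀ (by positivity) hr]
    nlinarith [sq_nonneg w, mul_le_mul_of_nonneg_left ha ha0.le]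

namespace Inv

variable {s : St}

theorem xs_sub (h : Inv s) : xs s - s.c.v = (s.T : ℝ) ^ 5 := by
  have := h.W
  unfold xs
  linarith

theorem Sr_x (h : Inv s) : (s.T : ℝ) ^ 9 ≤ s.c.Sr (xs s) ∧ s.c.Sr (xs s) ≤ (s.T : ℝ) ^ 9 + 3 * (s.T : ℝ) ^ 6 := by
  have ht := h.t0
  have ht0 : (0 : ℝ) < s.T := by linarith
  have h2 : (s.c.M : ℝ) * (2 * (xs s - s.c.v) / ((xs s - s.c.v) ^ 2 + s.c.W ^ 2)) = (s.T : ℝ) ^ 9 := by
    rw [h.xs_sub, h.W, h.M]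
    push_cast
    field_simp
    ring
  rw [Cl.Sr, h2]
  rcases h.hu with h0 | h0
  · rw [h0]
    have : (0 : ℝ) ≤ (s.T : ℝ) ^ 6 := by positivity
    simp only [Nat.cast_zero, zero_mul, zero_add]
    constructor <;> linarith
  · have h3 := sgr_bound (a := xs s - s.c.u) (r := 9 / 10 * (s.T : ℝ) ^ 8) (w := s.c.w) (by positivity)
      (by linarith)
    have hL : (s.c.L : ℝ) ≤ (s.T : ℝ) ^ 14 := by
      have : ((s.c.L : ℕ) : ℝ) ≤ ((s.T ^ 14 : ℕ) : ℝ) := by exact_mod_cast h.L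
      push_cast at this; exact this
    have h4 : (s.c.L : ℝ) * (2 * (xs s - s.c.u) / ((xs s - s.c.u) ^ 2 + s.c.w ^ 2)) ≤
        (s.T : ℝ) ^ 14 * (2 / (9 / 10 * (s.T : ℝ) ^ 8)) :=
      mul_le_mul hL h3.2 h3.1 (by positivity)
    have h5 : (s.T : ℝ) ^ 14 * (2 / (9 / 10 * (s.T : ℝ) ^ 8)) = 20 / 9 * (s.T : ℝ) ^ 6 := by
      field_simp
      ring
    have h6 : 0 ≤ (s.c.L : ℝ) * (2 * (xs s - s.c.u) / ((xs s - s.c.u) ^ 2 + s.c.w ^ 2)) :=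
      mul_nonneg (Nat.cast_nonneg _) h3.1
    have h7 : (0 : ℝ) ≤ (s.T : ℝ) ^ 6 := by positivity
    constructor <;> linarith

theorem Sr_y (h : Inv s) : 0 ≤ s.c.Sr (ys s) ∧ s.c.Sr (ys s) ≤ 5 * (s.T : ℝ) ^ 6 := by
  have ht := h.t0
  have ht0 : (0 : ℝ) < s.T := by linarith
  have htn := h.Tn_ge'
  have h8 : (s.T : ℝ) ^ 8 ≤ (Tn s : ℝ) ^ 8 := pow_le_pow_left₀ ht0.le htn 8
  have hyx : ys s = xs s + (Tn s : ℝ) ^ 8 := rfl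
  have hxs := h.xs_sub
  have h1 := sgr_bound (a := ys s - s.c.v) (r := (s.T : ℝ) ^ 8) (w := s.c.W) (by positivity)
    (by
      have : (0 : ℝ) < (s.T : ℝ) ^ 5 := by positivity
      rw [hyx]; linarith)
  have hM : (s.c.M : ℝ) = (s.T : ℝ) ^ 14 := by rw [h.M]; push_cast; ring
  have hL : (s.c.L : ℝ) ≤ (s.T : ℝ) ^ 14 := by
    have : ((s.c.L : ℕ) : ℝ) ≤ ((s.T ^ 14 : ℕ) : ℝ) := by exact_mod_cast h.L
    push_cast at this; exact this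
  have h2 : (s.c.M : ℝ) * (2 * (ys s - s.c.v) / ((ys s - s.c.v) ^ 2 + s.c.W ^ 2)) ≤
      (s.T : ℝ) ^ 14 * (2 / (s.T : ℝ) ^ 8) :=
    mul_le_mul hM.le h1.2 h1.1 (by positivity)
  have h3 : (s.T : ℝ) ^ 14 * (2 / (s.T : ℝ) ^ 8) = 2 * (s.T : ℝ) ^ 6 := by
    field_simp
  have h4 : 0 ≤ (s.c.M : ℝ) * (2 * (ys s - s.c.v) / ((ys s - s.c.v) ^ 2 + s.c.W ^ 2)) :=
    mul_nonneg (Nat.cast_nonneg _) h1.1
  have h5 : 0 ≤ (s.c.L : ℝ) * (2 * (ys s - s.c.u) / ((ys s - s.c.u) ^ 2 + s.c.w ^ 2)) ∧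
      (s.c.L : ℝ) * (2 * (ys s - s.c.u) / ((ys s - s.c.u) ^ 2 + s.c.w ^ 2)) ≤ 3 * (s.T : ℝ) ^ 6 := by
    rcases h.hu with h0 | h0
    · rw [h0]; simp
    · have h3 := sgr_bound (a := ys s - s.c.u) (r := 9 / 10 * (s.T : ℝ) ^ 8) (w := s.c.w) (by positivity)
        (by
          have : (0 : ℝ) < (Tn s : ℝ) ^ 8 := by
            have : 0 < (s.T : ℝ) ^ 8 := by positivity
            linarith
          rw [hyx]; linarith)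
      have h4 : (s.c.L : ℝ) * (2 * (ys s - s.c.u) / ((ys s - s.c.u) ^ 2 + s.c.w ^ 2)) ≤
          (s.T : ℝ) ^ 14 * (2 / (9 / 10 * (s.T : ℝ) ^ 8)) :=
        mul_le_mul hL h3.2 h3.1 (by positivity)
      have h5 : (s.T : ℝ) ^ 14 * (2 / (9 / 10 * (s.T : ℝ) ^ 8)) = 20 / 9 * (s.T : ℝ) ^ 6 := by
        field_simp
        ring
      have h7 : (0 : ℝ) ≤ (s.T : ℝ) ^ 6 := by positivity
      exact ⟨mul_nonneg (Nat.cast_nonneg _) h3.1, by linarith⟩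
  rw [Cl.Sr]
  constructor
  · linarith [h5.1]
  · linarith [h5.2]

theorem x_ge (h : Inv s) {k : ℕ} (hk : k ≤ 99) : 10 ^ 10 * (Tn s : ℝ) ^ k ≤ xs s := by
  have h1 : (10 : ℝ) ^ 10 ≤ Tn s := by exact_mod_cast h.Tn_hT
  exact (gap h1 (by omega : k < 100)).trans h.xlow'

theorem Ns_bounds (h : Inv s) : xs s * (s.c.Sr (xs s) + 1) ≤ Ns s ∧
    (Ns s : ℝ) ≤ xs s * (s.c.Sr (xs s) + 1) + 1 := by
  have hx := h.xs_pos
  have h1 := h.Sr_x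
  have ht := h.t0
  have h9 : (0 : ℝ) ≤ (s.T : ℝ) ^ 9 := by positivity
  unfold Ns
  constructor
  · exact Nat.le_ceil _
  · exact (Nat.ceil_lt_add_one (by
      apply mul_nonneg hx.le; linarith)).le

theorem Ns_div (h : Inv s) : (s.T : ℝ) ^ 9 + 1 ≤ Ns s / xs s ∧
    Ns s / xs s ≤ (s.T : ℝ) ^ 9 + 3 * (s.T : ℝ) ^ 6 + 2 := by
  have hx := h.xs_pos
  have h1 := h.Sr_x
  have h2 := h.Ns_bounds
  have hx1 : 1 ≤ xs s := by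
    have := h.x_ge (k := 0) (by norm_num)
    simp at this; linarith
  constructor
  · rw [le_div_iff₀ hx]
    nlinarith [h1.1]
  · rw [div_le_iff₀ hx]
    nlinarith [h1.2]

theorem four_le (h : Inv s) : 4 * Tn s ^ 14 ≤ Ns s := by
  have h1 := h.Ns_div.1
  have hx := h.xs_pos
  rw [le_div_iff₀ hx] at h1
  have h2 := h.x_ge (k := 14) (by norm_num)
  have h9 : (0 : ℝ) ≤ (s.T : ℝ) ^ 9 := by positivity
  have h3 : (4 * (Tn s : ℝ) ^ 14) ≤ Ns s := by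
    have h4 : (0 : ℝ) ≤ (Tn s : ℝ) ^ 14 := by positivity
    nlinarith
  exact_mod_cast h3

theorem Nn_cast (h : Inv s) : ((Ns s - 4 * Tn s ^ 14 : ℕ) : ℝ) = Ns s - 4 * (Tn s : ℝ) ^ 14 := by
  rw [Nat.cast_sub h.four_le]; push_cast; ring

theorem ys_pos (h : Inv s) : 0 < ys s := by
  have := h.xs_pos
  unfold ys; positivity

theorem As_bounds (h : Inv s) : 98 / 100 * (Tn s : ℝ) ^ 9 ≤ As s ∧ As s ≤ 101 / 100 * (Tn s : ℝ) ^ 9 := by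
  have ht := h.t0
  have ht0 : (0 : ℝ) < s.T := by linarith
  have hT' : (10 : ℝ) ^ 10 ≤ Tn s := by exact_mod_cast h.Tn_hT
  have hT0 : (0 : ℝ) < Tn s := by linarith
  have htn := h.Tn_ge'
  have hx := h.xs_pos
  have hy := h.ys_pos
  have hsy := h.Sr_y
  have hN := h.Ns_div
  have hyx : ys s = xs s + (Tn s : ℝ) ^ 8 := rfl
  have q9 := h.Tn_pow (k := 9) (by norm_num)
  have q9' : (s.T : ℝ) ^ 9 ≤ (Tn s : ℝ) ^ 9 := pow_le_pow_left₀ ht0.le htn 9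
  have q6 : (s.T : ℝ) ^ 6 ≤ (Tn s : ℝ) ^ 6 := pow_le_pow_left₀ ht0.le htn 6
  have g69 := gap hT' (a := 6) (b := 9) (by norm_num)
  have p6 : (1 : ℝ) ≤ (Tn s : ℝ) ^ 6 := one_le_pow₀ (by linarith)
  have hmid : 0 ≤ (Tn s : ℝ) ^ 14 * (2 * (Tn s : ℝ) ^ 8 / (((Tn s : ℝ) ^ 8) ^ 2 + ((Tn s : ℝ) ^ 5) ^ 2)) ∧
      (Tn s : ℝ) ^ 14 * (2 * (Tn s : ℝ) ^ 8 / (((Tn s : ℝ) ^ 8) ^ 2 + ((Tn s : ℝ) ^ 5) ^ 2)) ≤
        2 * (Tn s : ℝ) ^ 6 := by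
    have := sgr_bound (a := (Tn s : ℝ) ^ 8) (r := (Tn s : ℝ) ^ 8) (w := (Tn s : ℝ) ^ 5) (by positivity) le_rfl
    constructor
    · exact mul_nonneg (by positivity) this.1
    · calc (Tn s : ℝ) ^ 14 * (2 * (Tn s : ℝ) ^ 8 / (((Tn s : ℝ) ^ 8) ^ 2 + ((Tn s : ℝ) ^ 5) ^ 2))
          ≤ (Tn s : ℝ) ^ 14 * (2 / (Tn s : ℝ) ^ 8) := mul_le_mul_of_nonneg_left this.2 (by positivity)
        _ = 2 * (Tn s : ℝ) ^ 6 := by field_simp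
  have hlow : (s.T : ℝ) ^ 9 ≤ ((Ns s - 4 * Tn s ^ 14 : ℕ) : ℝ) / ys s := by
    rw [h.Nn_cast, le_div_iff₀ hy, hyx]
    have h1 := hN.1
    rw [le_div_iff₀ hx] at h1
    have h2 := h.x_ge (k := 17) (by norm_num)
    have h3 : (Tn s : ℝ) ^ 14 ≤ (Tn s : ℝ) ^ 17 := pow_le_pow_right₀ (by linarith) (by norm_num)
    have h4 : (s.T : ℝ) ^ 9 * (Tn s : ℝ) ^ 8 ≤ (Tn s : ℝ) ^ 17 := by
      have e : (Tn s : ℝ) ^ 17 = (Tn s : ℝ) ^ 9 * (Tn s : ℝ) ^ 8 := by ring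
      rw [e]
      exact mul_le_mul_of_nonneg_right q9' (by positivity)
    have h5 : (0 : ℝ) ≤ (Tn s : ℝ) ^ 17 := by positivity
    nlinarith
  have hup : ((Ns s - 4 * Tn s ^ 14 : ℕ) : ℝ) / ys s ≤ (s.T : ℝ) ^ 9 + 3 * (s.T : ℝ) ^ 6 + 2 := by
    refine le_trans ?_ hN.2
    rw [h.Nn_cast]
    apply div_le_div₀ (by positivity)
    · have : (0 : ℝ) ≤ (Tn s : ℝ) ^ 14 := by positivity
      linarith
    · exact hx
    · rw [hyx]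
      have : (0 : ℝ) ≤ (Tn s : ℝ) ^ 8 := by positivity
      linarith
  unfold As
  constructor
  · linarith [hmid.2, hsy.2]
  · linarith [hmid.1, hsy.1]

theorem wn_bounds (h : Inv s) : 99 / 100 * (Tn s : ℝ) ^ 5 ≤ (Tn s : ℝ) ^ 14 / As s ∧
    (Tn s : ℝ) ^ 14 / As s ≤ 103 / 100 * (Tn s : ℝ) ^ 5 := by
  have hT' : (10 : ℝ) ^ 10 ≤ Tn s := by exact_mod_cast h.Tn_hT
  have hT0 : (0 : ℝ) < Tn s := by linarith
  have hA := h.As_bounds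
  have hA0 : 0 < As s := lt_of_lt_of_le (by positivity) hA.1
  have e : (Tn s : ℝ) ^ 14 = (Tn s : ℝ) ^ 5 * (Tn s : ℝ) ^ 9 := by ring
  have h5 : (0 : ℝ) < (Tn s : ℝ) ^ 5 := by positivity
  have h9 : (0 : ℝ) < (Tn s : ℝ) ^ 9 := by positivity
  constructor
  · rw [le_div_iff₀ hA0, e]
    nlinarith [mul_le_mul_of_nonneg_left hA.2 h5.le]
  · rw [div_le_iff₀ hA0, e]
    nlinarith [mul_le_mul_of_nonneg_left hA.1 h5.le]

theorem slope_one (h : Inv s) :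
    ((Ns s - 4 * Tn s ^ 14 : ℕ) : ℝ) / ys s + (cn s).Sr (ys s) - s.c.Sr (ys s) - 1 = 0 := by
  have hT' : (10 : ℝ) ^ 10 ≤ Tn s := by exact_mod_cast h.Tn_hT
  have hT0 : (0 : ℝ) < Tn s := by linarith
  have hA := h.As_bounds
  have hA0 : 0 < As s := lt_of_lt_of_le (by positivity) hA.1
  have h1 : (cn s).Sr (ys s) = -As s -
      (Tn s : ℝ) ^ 14 * (2 * (Tn s : ℝ) ^ 8 / (((Tn s : ℝ) ^ 8) ^ 2 + ((Tn s : ℝ) ^ 5) ^ 2)) := by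
    rw [Cl.Sr]
    have e1 : ys s - (cn s).u = -((Tn s : ℝ) ^ 14 / As s) := by simp [cn]
    have e2 : ys s - (cn s).v = -(Tn s : ℝ) ^ 8 := by simp [cn]
    rw [e1, e2]
    have e3 : (((cn s).L : ℕ) : ℝ) = (Tn s : ℝ) ^ 14 := by simp [cn]
    have e4 : (((cn s).M : ℕ) : ℝ) = (Tn s : ℝ) ^ 14 := by simp [cn]
    have e5 : (cn s).w = (Tn s : ℝ) ^ 14 / As s := rfl
    have e6 : (cn s).W = (Tn s : ℝ) ^ 5 := rfl
    rw [e3, e4, e5, e6]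
    have e7 : (Tn s : ℝ) ^ 14 * (2 * -((Tn s : ℝ) ^ 14 / As s) /
        ((-((Tn s : ℝ) ^ 14 / As s)) ^ 2 + ((Tn s : ℝ) ^ 14 / As s) ^ 2)) = -As s := by
      field_simp
      ring
    rw [e7, neg_sq]
    ring
  rw [h1]
  simp only [As]
  ring

end Inv

end Pool.Agent.MPdf6699Lib
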