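import Mathlib
import Pool.Agent.MPdf6699Lib.Step2

/-!
The general step satisfies the link conditions.
-/

namespace Pool.Agent.MPdf6699Lib

/-- Elementary inequality behind the local lemmas. -/
theorem shape_ineq {t p a w : ℝ} (ht : (10 : ℝ) ^ 10 ≤ t) (hp0 : 0 ≤ p) (hp : p ≤ 30 / t ^ 2)
    (ha : 9 / 10 * t ^ 9 ≤ a) (hw0 : 0 < w) (hw : w ≤ 11 / 10 * t ^ 5) {r : ℝ} (hr0 : 0 ≤ r) (hr : r ≤ t ^ 8) :
    1 / 100 + p * (r + 1) ≤ 1 / 4 + a * (r ^ 2 / (2 * r ^ 2 + 5 * w ^ 2)) := by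
  have ht0 : 0 < t := by linarith
  have ha0 : 0 ≤ a := le_trans (by positivity) ha
  have hnn : 0 ≤ a * (r ^ 2 / (2 * r ^ 2 + 5 * w ^ 2)) := by positivity
  have hpt : p * t ^ 2 ≤ 30 := by
    rw [le_div_iff₀ (by positivity)] at hp; exact hp
  rcases le_total r t with h1 | h1
  · -- small r
    have h2 : p * (r + 1) ≤ 1 / 10 := by
      have h3 : p * (r + 1) ≤ p * (2 * t) := mul_le_mul_of_nonneg_left (by linarith) hp0
      have h4 : p * t * t ≤ 30 := by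
        calc p * t * t = p * t ^ 2 := by ring
          _ ≤ 30 := hpt
      have h5 : 0 ≤ p * t := by positivity
      nlinarith
    linarith
  · have hr1 : 0 < r := by linarith
    have h2 : p * (r + 1) ≤ 2 * p * r := by nlinarith
    rcases le_total r (t ^ 5) with h3 | h3
    · -- middle range
      have h4 : 2 * r ^ 2 + 5 * w ^ 2 ≤ 9 * t ^ 10 := by
        have h5 : r ^ 2 ≤ (t ^ 5) ^ 2 := pow_le_pow_left₀ hr0 h3 2
        have h6 : w ^ 2 ≤ (11 / 10 * t ^ 5) ^ 2 := pow_le_pow_left₀ hw0.le hw 2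
        have e : (t ^ 5) ^ 2 = t ^ 10 := by ring
        have e2 : (11 / 10 * t ^ 5) ^ 2 = 121 / 100 * t ^ 10 := by ring
        rw [e] at h5
        rw [e2] at h6
        have : 0 ≤ t ^ 10 := by positivity
        linarith
      have h7 : r / 10 ≤ a * (r ^ 2 / (2 * r ^ 2 + 5 * w ^ 2)) := by
        have h8 : 9 / 10 * t ^ 9 * (r ^ 2 / (9 * t ^ 10)) ≤ a * (r ^ 2 / (2 * r ^ 2 + 5 * w ^ 2)) := by
          apply mul_le_mul ha _ (by positivity) ha0
          exact div_le_div_of_nonneg_left (by positivity) (by positivity) h4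
        have h9 : 9 / 10 * t ^ 9 * (r ^ 2 / (9 * t ^ 10)) = r ^ 2 / (10 * t) := by
          field_simp
        have h10 : r / 10 ≤ r ^ 2 / (10 * t) := by
          rw [div_le_div_iff₀ (by norm_num) (by positivity)]
          nlinarith
        linarith
      have h11 : 2 * p ≤ 1 / 10 := by
        have : p * 1 ≤ p * t := mul_le_mul_of_nonneg_left (by linarith) hp0
        have h4 : p * t * t ≤ 30 := by
          calc p * t * t = p * t ^ 2 := by ring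
            _ ≤ 30 := hpt
        have h5 : 0 ≤ p * t := by positivity
        nlinarith
      nlinarith
    · -- large range
      have h4 : 2 * r ^ 2 + 5 * w ^ 2 ≤ 9 * r ^ 2 := by
        have h6 : w ^ 2 ≤ (11 / 10 * r) ^ 2 := pow_le_pow_left₀ hw0.le (by linarith) 2
        nlinarith
      have h7 : 1 / 10 * t ^ 9 ≤ a * (r ^ 2 / (2 * r ^ 2 + 5 * w ^ 2)) := by
        have h8 : 9 / 10 * t ^ 9 * (r ^ 2 / (9 * r ^ 2)) ≤ a * (r ^ 2 / (2 * r ^ 2 + 5 * w ^ 2)) := by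
          apply mul_le_mul ha _ (by positivity) ha0
          exact div_le_div_of_nonneg_left (by positivity) (by positivity) h4
        have h9 : 9 / 10 * t ^ 9 * (r ^ 2 / (9 * r ^ 2)) = 1 / 10 * t ^ 9 := by
          field_simp
        linarith
      have h10 : 2 * p * r ≤ 60 * t ^ 6 := by
        calc 2 * p * r ≤ 2 * p * t ^ 8 := mul_le_mul_of_nonneg_left hr (by positivity)
          _ = 2 * (p * t ^ 2) * t ^ 6 := by ring
          _ ≤ 2 * 30 * t ^ 6 := by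
            apply mul_le_mul_of_nonneg_right _ (by positivity)
            linarith
          _ = _ := by ring
      have h11 := Inv.gap ht (a := 6) (b := 9) (by norm_num)
      have : 0 ≤ t ^ 6 := by positivity
      linarith

theorem shape_small {t a w : ℝ} (ht : (10 : ℝ) ^ 10 ≤ t) (_ha0 : 0 ≤ a) (ha : a ≤ 11 / 10 * t ^ 9)
    (hw : 9 / 10 * t ^ 5 ≤ w) : a * (2 * 101 ^ 2 / w ^ 2) ≤ 1 / 10 ^ 5 ∧ a / w ^ 2 ≤ 1 / 4 := by
  have ht0 : 0 < t := by linarith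
  have hw2 : 81 / 100 * t ^ 10 ≤ w ^ 2 := by
    have h6 : (9 / 10 * t ^ 5) ^ 2 ≤ w ^ 2 := pow_le_pow_left₀ (by positivity) hw 2
    have e2 : (9 / 10 * t ^ 5) ^ 2 = 81 / 100 * t ^ 10 := by ring
    rw [e2] at h6; exact h6
  have h10 := Inv.gap ht (a := 9) (b := 10) (by norm_num)
  have hw20 : 0 < w ^ 2 := lt_of_lt_of_le (by positivity) hw2
  have h9 : 0 < t ^ 9 := by positivity
  constructor
  · rw [← mul_div_assoc, div_le_iff₀ hw20]
    nlinarith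
  · rw [div_le_iff₀ hw20]
    nlinarith

namespace Inv

variable {s : St}

theorem step_link (h : Inv s) :
    Link s (step s) (xs s) (ys s) (2 / 5 * (s.T : ℝ) ^ 8) (Ns s) (Ns s - 4 * Tn s ^ 14) := by
  have ht := h.t0
  have ht0 : (0 : ℝ) < s.T := by linarith
  have hT' : (10 : ℝ) ^ 10 ≤ Tn s := by exact_mod_cast h.Tn_hT
  have hT0 : (0 : ℝ) < Tn s := by linarith
  have htn := h.Tn_ge'
  have hx := h.xs_pos
  have hy := h.ys_pos
  have hyx : ys s = xs s + (Tn s : ℝ) ^ 8 := rfl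
  have hA := h.As_bounds
  have hw := h.wn_bounds
  have hN := h.Ns_div
  have hNb := h.Ns_bounds
  have hxs := h.xs_sub
  have hW := h.W
  have q8 : (s.T : ℝ) ^ 8 ≤ (Tn s : ℝ) ^ 8 := pow_le_pow_left₀ ht0.le htn 8
  have q9 : (s.T : ℝ) ^ 9 ≤ (Tn s : ℝ) ^ 9 := pow_le_pow_left₀ ht0.le htn 9
  have q6 : (s.T : ℝ) ^ 6 ≤ (Tn s : ℝ) ^ 6 := pow_le_pow_left₀ ht0.le htn 6
  have q14 : (s.T : ℝ) ^ 14 ≤ (Tn s : ℝ) ^ 14 := pow_le_pow_left₀ ht0.le htn 14
  have r17 := h.Tn_pow (k := 17) (by norm_num)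
  have r9 := h.Tn_pow (k := 9) (by norm_num)
  have r14 := h.Tn_pow (k := 14) (by norm_num)
  have r8 := h.Tn_pow (k := 8) (by norm_num)
  have g08 := gap ht (a := 0) (b := 8) (by norm_num)
  have g58 := gap ht (a := 5) (b := 8) (by norm_num)
  have g05 := gap ht (a := 0) (b := 5) (by norm_num)
  have g69 := gap ht (a := 6) (b := 9) (by norm_num)
  have g09 := gap ht (a := 0) (b := 9) (by norm_num)
  have g917 := gap hT' (a := 9) (b := 17) (by norm_num)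
  have g817 := gap hT' (a := 8) (b := 17) (by norm_num)
  have g517 := gap hT' (a := 5) (b := 17) (by norm_num)
  have g58' := gap hT' (a := 5) (b := 8) (by norm_num)
  have g05' := gap hT' (a := 0) (b := 5) (by norm_num)
  have p5 : (0 : ℝ) < (s.T : ℝ) ^ 5 := by positivity
  have p8 : (0 : ℝ) < (s.T : ℝ) ^ 8 := by positivity
  have p9 : (0 : ℝ) < (s.T : ℝ) ^ 9 := by positivity
  have p6 : (0 : ℝ) < (s.T : ℝ) ^ 6 := by positivity
  have p14 : (0 : ℝ) < (s.T : ℝ) ^ 14 := by positivity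
  have p5' : (0 : ℝ) < (Tn s : ℝ) ^ 5 := by positivity
  have p8' : (0 : ℝ) < (Tn s : ℝ) ^ 8 := by positivity
  have p17' : (0 : ℝ) < (Tn s : ℝ) ^ 17 := by positivity
  have xg17 := h.x_ge (k := 17) (by norm_num)
  have xg99 := h.x_ge (k := 99) (by norm_num)
  have xg14 := h.x_ge (k := 14) (by norm_num)
  have xg9 := h.x_ge (k := 9) (by norm_num)
  have hM : (s.c.M : ℝ) = (s.T : ℝ) ^ 14 := by rw [h.M]; push_cast; ring
  have hLc : (s.c.L : ℝ) ≤ (s.T : ℝ) ^ 14 := by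
    have : ((s.c.L : ℕ) : ℝ) ≤ ((s.T ^ 14 : ℕ) : ℝ) := by exact_mod_cast h.L
    push_cast at this; exact this
  simp only [pow_zero, mul_one] at g08 g09 g05' g05
  -- error coefficients
  have hinv : (1 : ℝ) / xs s ≤ 1 / 10 ^ 6 := by
    apply one_div_le_one_div_of_le (by norm_num)
    have := h.x_ge (k := 0) (by norm_num)
    simp at this; linarith
  have hNx : ∀ (n : ℝ), 0 ≤ n → n ≤ Ns s → ∀ z, xs s ≤ z → 2 * n / z ^ 2 ≤ 1 / (s.T : ℝ) ^ 2 := by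
    intro n hn0 hn z hz
    have h1 : n / xs s ≤ 2 * (s.T : ℝ) ^ 9 := by
      calc n / xs s ≤ Ns s / xs s := div_le_div_of_nonneg_right hn hx.le
        _ ≤ (s.T : ℝ) ^ 9 + 3 * (s.T : ℝ) ^ 6 + 2 := hN.2
        _ ≤ 2 * (s.T : ℝ) ^ 9 := by linarith
    have h2 : 2 * n / z ^ 2 ≤ 2 * n / xs s ^ 2 :=
      div_le_div_of_nonneg_left (by positivity) (by positivity) (pow_le_pow_left₀ hx.le hz 2)
    refine h2.trans ?_
    have h3 : 2 * n / xs s ^ 2 = 2 * (n / xs s) / xs s := by field_simp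
    rw [h3, div_le_div_iff₀ hx (by positivity)]
    have h4 : (s.T : ℝ) ^ 11 ≤ (Tn s : ℝ) ^ 11 := pow_le_pow_left₀ ht0.le htn 11
    have h5 := h.x_ge (k := 11) (by norm_num)
    have h6 : 2 * (n / xs s) * (s.T : ℝ) ^ 2 ≤ 4 * (s.T : ℝ) ^ 11 := by
      calc 2 * (n / xs s) * (s.T : ℝ) ^ 2 ≤ 2 * (2 * (s.T : ℝ) ^ 9) * (s.T : ℝ) ^ 2 := by
            apply mul_le_mul_of_nonneg_right _ (by positivity)
            linarith
        _ = _ := by ring
    have p11 : (0 : ℝ) < (s.T : ℝ) ^ 11 := by positivity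
    linarith
  have hdivR : ∀ (n : ℝ), n ≤ (s.T : ℝ) ^ 14 → n / (2 / 5 * (s.T : ℝ) ^ 8) ^ 2 ≤ 7 / (s.T : ℝ) ^ 2 := by
    intro n hn
    rw [div_le_div_iff₀ (by positivity) (by positivity)]
    calc n * (s.T : ℝ) ^ 2 ≤ (s.T : ℝ) ^ 14 * (s.T : ℝ) ^ 2 := mul_le_mul_of_nonneg_right hn (by positivity)
      _ = (s.T : ℝ) ^ 16 := by ring
      _ ≤ 7 * (4 / 25 * (s.T : ℝ) ^ 16) := by
        have : (0 : ℝ) ≤ (s.T : ℝ) ^ 16 := by positivity
        linarith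
      _ = _ := by ring
  have hsm : ∀ c : ℝ, 0 ≤ c → c ≤ 100 → c / (s.T : ℝ) ^ 2 ≤ 1 / 10 ^ 8 := by
    intro c hc0 hc
    have h2 := gap ht (a := 0) (b := 2) (by norm_num)
    simp only [pow_zero, mul_one] at h2
    rw [div_le_div_iff₀ (by positivity) (by norm_num)]
    nlinarith
  have hp1 : (s.c.L : ℝ) / (2 / 5 * (s.T : ℝ) ^ 8) ^ 2 + 2 * (Ns s : ℝ) / xs s ^ 2 ≤ 8 / (s.T : ℝ) ^ 2 := by
    have h1 := hdivR _ hLc
    have h2 := hNx (Ns s) (Nat.cast_nonneg _) le_rfl (xs s) le_rfl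
    have : 8 / (s.T : ℝ) ^ 2 = 7 / (s.T : ℝ) ^ 2 + 1 / (s.T : ℝ) ^ 2 := by ring
    linarith
  have hp1' : 0 ≤ (s.c.L : ℝ) / (2 / 5 * (s.T : ℝ) ^ 8) ^ 2 + 2 * (Ns s : ℝ) / xs s ^ 2 := by positivity
  have hMW : (s.c.M : ℝ) / s.c.W = (s.T : ℝ) ^ 9 := by
    rw [hM, hW]; field_simp
  have hAw : (((cn s).L : ℕ) : ℝ) / (cn s).w = As s := by
    have e3 : (((cn s).L : ℕ) : ℝ) = (Tn s : ℝ) ^ 14 := by simp [cn]
    have e5 : (cn s).w = (Tn s : ℝ) ^ 14 / As s := rfl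
    have hA0 : 0 < As s := lt_of_lt_of_le (by positivity) hA.1
    rw [e3, e5]; field_simp
  refine
    { hT := h.Tn_hT
      w1 := h.w2
      W1 := by rw [hW]; linarith
      w2 := ?_
      W2 := ?_
      xdef := rfl
      xlow := h.xlow'
      xhigh := h.xhigh'
      R100 := by linarith
      RT := ?_
      Rxy := by rw [hyx]; linarith
      yT := ?_
      hu := ?_
      hv := ?_
      hu' := ?_
      hv' := ?_
      u0 := h.u0
      ux := h.ux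
      v0 := ?_
      wx := h.wx
      Wx := ?_
      u0' := ?_
      ux' := ?_
      vx' := ?_
      wx' := ?_
      Wx' := ?_
      L1 := ?_
      M1 := ?_
      L2 := ?_
      M2 := ?_
      N1 := hNb.1
      N2 := hNb.2
      NR := ?_
      Nup := ?_
      Nlow := ?_
      NN := ?_
      t1 := ?_
      t2 := ?_
      t3 := ?_
      cr := ?_
      nu' := rfl
      Lpos := h.Lpos
      Lam' := rfl }
  · -- w2
    show 2 ≤ (Tn s : ℝ) ^ 14 / As s
    linarith [hw.1]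
  · show 2 ≤ (Tn s : ℝ) ^ 5
    linarith
  · show 2 / 5 * (s.T : ℝ) ^ 8 ≤ (Tn s : ℝ) ^ 17
    linarith
  · show ys s ≤ xs s + (Tn s : ℝ) ^ 17
    rw [hyx]; linarith
  · exact h.hu.imp id (fun h1 => by linarith)
  · right
    rw [hyx]; linarith
  · right; rfl
  · show ys s + 2 * (2 / 5 * (s.T : ℝ) ^ 8) ≤ ys s + (Tn s : ℝ) ^ 8
    linarith
  · -- v0
    have h1 : (s.T : ℝ) ^ 5 ≤ (Tn s : ℝ) ^ 5 := pow_le_pow_left₀ ht0.le htn 5
    have h2 := h.x_ge (k := 5) (by norm_num)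
    linarith
  · -- Wx
    have h1 : (s.T : ℝ) ^ 5 ≤ (Tn s : ℝ) ^ 5 := pow_le_pow_left₀ ht0.le htn 5
    have h2 := h.x_ge (k := 5) (by norm_num)
    linarith
  · show 0 ≤ ys s + (Tn s : ℝ) ^ 14 / As s
    linarith [hw.1]
  · show ys s + (Tn s : ℝ) ^ 14 / As s ≤ 2 * xs s
    rw [hyx]; linarith [hw.2]
  · show ys s + (Tn s : ℝ) ^ 8 ≤ ys s + (Tn s : ℝ) ^ 17
    linarith
  · show (Tn s : ℝ) ^ 14 / As s ≤ (Tn s : ℝ) ^ 17
    linarith [hw.2]
  · show (Tn s : ℝ) ^ 5 ≤ (Tn s : ℝ) ^ 17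
    linarith
  · show s.c.L ≤ Tn s ^ 14
    exact h.L.trans (Nat.pow_le_pow_left h.Tn_ge 14)
  · show s.c.M ≤ Tn s ^ 14
    exact (h.M.le).trans (Nat.pow_le_pow_left h.Tn_ge 14)
  · show Tn s ^ 14 ≤ Tn s ^ 14
    exact le_rfl
  · show Tn s ^ 14 ≤ Tn s ^ 14
    exact le_rfl
  · -- NR
    show (Tn s : ℝ) ^ 17 / 10 ≤ Ns s * (2 / 5 * (s.T : ℝ) ^ 8) / xs s
    have e : (Ns s : ℝ) * (2 / 5 * (s.T : ℝ) ^ 8) / xs s = Ns s / xs s * (2 / 5 * (s.T : ℝ) ^ 8) := by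
      ring
    rw [e]
    have h1 : (s.T : ℝ) ^ 9 * (2 / 5 * (s.T : ℝ) ^ 8) ≤ Ns s / xs s * (2 / 5 * (s.T : ℝ) ^ 8) :=
      mul_le_mul_of_nonneg_right (by linarith [hN.1]) (by positivity)
    have h2 : (s.T : ℝ) ^ 9 * (2 / 5 * (s.T : ℝ) ^ 8) = 2 / 5 * (s.T : ℝ) ^ 17 := by ring
    have : (0 : ℝ) ≤ (s.T : ℝ) ^ 17 := by positivity
    linarith
  · -- Nup
    show Ns s * (ys s - xs s) / xs s ≤ 3 * (Tn s : ℝ) ^ 17
    have e : (Ns s : ℝ) * (ys s - xs s) / xs s = Ns s / xs s * (Tn s : ℝ) ^ 8 := by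
      rw [hyx]; ring
    rw [e]
    have h1 : Ns s / xs s * (Tn s : ℝ) ^ 8 ≤ (2 * (Tn s : ℝ) ^ 9) * (Tn s : ℝ) ^ 8 :=
      mul_le_mul_of_nonneg_right (by linarith [hN.2]) (by positivity)
    have h2 : (2 * (Tn s : ℝ) ^ 9) * (Tn s : ℝ) ^ 8 = 2 * (Tn s : ℝ) ^ 17 := by ring
    linarith
  · -- Nlow
    have h1 := hN.1
    rw [le_div_iff₀ hx] at h1
    nlinarith
  · -- NN
    show Ns s - 4 * Tn s ^ 14 + 2 * (Tn s ^ 14 + Tn s ^ 14) = Ns s
    have := h.four_le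
    omega
  · -- t1
    rw [hMW, hW]
    have h1 := (shape_small (t := (s.T : ℝ)) (a := (s.T : ℝ) ^ 9) (w := (s.T : ℝ) ^ 5) ht p9.le (by linarith)
      (by linarith)).1
    have h2 := hsm 8 (by norm_num) (by norm_num)
    have : 101 * ((s.c.L : ℝ) / (2 / 5 * (s.T : ℝ) ^ 8) ^ 2 + 2 * (Ns s : ℝ) / xs s ^ 2) ≤ 101 * (1 / 10 ^ 8) :=
      mul_le_mul_of_nonneg_left (hp1.trans h2) (by norm_num)
    norm_num at h1 this hinv ⊢
    linarith
  · -- t2
    intro r hr0 hr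
    rw [hMW, hW]
    have h1 := shape_ineq (t := (s.T : ℝ)) (p := (s.c.L : ℝ) / (2 / 5 * (s.T : ℝ) ^ 8) ^ 2 + 2 * (Ns s : ℝ) / xs s ^ 2)
      (a := (s.T : ℝ) ^ 9) (w := (s.T : ℝ) ^ 5) (r := r) ht hp1'
      (hp1.trans (by gcongr; norm_num)) (by linarith) p5 (by linarith) hr0 (by linarith)
    linarith
  · -- t3
    rw [hMW, hW]
    exact (shape_small (t := (s.T : ℝ)) (a := (s.T : ℝ) ^ 9) (w := (s.T : ℝ) ^ 5) ht p9.le (by linarith)
      (by linarith)).2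
  · -- cr
    have hcw : (step s).c = cn s := rfl
    rw [hcw, hAw]
    have hcnw : (cn s).w = (Tn s : ℝ) ^ 14 / As s := rfl
    have hcnM : (((cn s).M : ℕ) : ℝ) = (Tn s : ℝ) ^ 14 := by simp [cn]
    have hA0 : 0 < As s := lt_of_lt_of_le (by positivity) hA.1
    refine ⟨0, 30 / (Tn s : ℝ) ^ 2, ?_, ?_, ?_, ?_, ?_⟩
    · rw [h.slope_one]; simp
    · rw [hcnM, hM]
      have r2 := h.Tn_pow (k := 2) (by norm_num)
      have h1 : ((Tn s : ℝ) ^ 14 + s.c.L + (s.T : ℝ) ^ 14) / (2 / 5 * (s.T : ℝ) ^ 8) ^ 2 ≤ 25 / (s.T : ℝ) ^ 2 := by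
        have h2 : (Tn s : ℝ) ^ 14 + s.c.L + (s.T : ℝ) ^ 14 ≤ 35 / 10 * (s.T : ℝ) ^ 14 := by linarith
        calc ((Tn s : ℝ) ^ 14 + s.c.L + (s.T : ℝ) ^ 14) / (2 / 5 * (s.T : ℝ) ^ 8) ^ 2
            ≤ (35 / 10 * (s.T : ℝ) ^ 14) / (2 / 5 * (s.T : ℝ) ^ 8) ^ 2 :=
              div_le_div_of_nonneg_right h2 (by positivity)
          _ = 35 / 10 * ((s.T : ℝ) ^ 14 / (2 / 5 * (s.T : ℝ) ^ 8) ^ 2) := by ring
          _ ≤ 35 / 10 * (7 / (s.T : ℝ) ^ 2) := mul_le_mul_of_nonneg_left (hdivR _ le_rfl) (by norm_num)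
          _ ≤ 25 / (s.T : ℝ) ^ 2 := by
            rw [← mul_div_assoc]
            exact div_le_div_of_nonneg_right (by norm_num) (by positivity)
      have h3 : 2 * ((Ns s - 4 * Tn s ^ 14 : ℕ) : ℝ) / ys s ^ 2 ≤ 1 / (s.T : ℝ) ^ 2 := by
        apply hNx _ (Nat.cast_nonneg _)
        · exact_mod_cast Nat.sub_le _ _
        · rw [hyx]; linarith
      have h4 : 25 / (s.T : ℝ) ^ 2 + 1 / (s.T : ℝ) ^ 2 ≤ 30 / (Tn s : ℝ) ^ 2 := by
        rw [← add_div, div_le_div_iff₀ (by positivity) (by positivity)]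
        have : (0 : ℝ) ≤ (s.T : ℝ) ^ 2 := by positivity
        linarith
      linarith
    · have h1 := (shape_small (t := (Tn s : ℝ)) (a := As s) (w := (cn s).w) hT' hA0.le (by linarith [hA.2])
        (by rw [hcnw]; linarith [hw.1])).1
      have h2 : 30 / (Tn s : ℝ) ^ 2 ≤ 1 / 10 ^ 8 := by
        refine le_trans ?_ (hsm 30 (by norm_num) (by norm_num))
        exact div_le_div_of_nonneg_left (by norm_num) (by positivity) (pow_le_pow_left₀ ht0.le htn 2)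
      norm_num at h1 h2 ⊢
      linarith
    · intro r hr0 hr
      have h1 := shape_ineq (t := (Tn s : ℝ)) (p := 30 / (Tn s : ℝ) ^ 2)
        (a := As s) (w := (cn s).w) (r := r) hT' (by positivity)
        le_rfl (by linarith [hA.1]) (by rw [hcnw]; positivity) (by rw [hcnw]; linarith [hw.2]) hr0 (by linarith)
      linarith
    · exact (shape_small (t := (Tn s : ℝ)) (a := As s) (w := (cn s).w) hT' hA0.le (by linarith [hA.2])
        (by rw [hcnw]; linarith [hw.1])).2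

theorem step_inv (h : Inv s) : Inv (step s) := by
  have ht := h.t0
  have ht0 : (0 : ℝ) < s.T := by linarith
  have hT' : (10 : ℝ) ^ 10 ≤ Tn s := by exact_mod_cast h.Tn_hT
  have hT0 : (0 : ℝ) < Tn s := by linarith
  have hx := h.xs_pos
  have hyx : ys s = xs s + (Tn s : ℝ) ^ 8 := rfl
  have hw := h.wn_bounds
  have hL := h.step_link
  have g58' := gap hT' (a := 5) (b := 8) (by norm_num)
  have g05' := gap hT' (a := 0) (b := 5) (by norm_num)
  have g818 := gap hT' (a := 8) (b := 18) (by norm_num)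
  simp only [pow_zero, mul_one] at g05'
  have p5' : (0 : ℝ) < (Tn s : ℝ) ^ 5 := by positivity
  have p8' : (0 : ℝ) < (Tn s : ℝ) ^ 8 := by positivity
  have xg8 := h.x_ge (k := 8) (by norm_num)
  have hxs' : xs (step s) = xs s + 2 * (Tn s : ℝ) ^ 8 + (Tn s : ℝ) ^ 5 := by
    show ys s + (Tn s : ℝ) ^ 8 + (Tn s : ℝ) ^ 5 = _
    rw [hyx]; ring
  refine
    { hT := h.Tn_hT
      M := rfl
      W := rfl
      L := le_rfl
      hu := ?_
      w2 := hL.w2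
      wx := ?_
      u0 := hL.u0'
      ux := ?_
      xlow := ?_
      xhigh := ?_
      Lpos := ?_ }
  · right
    show ys s + (Tn s : ℝ) ^ 14 / As s + 9 / 10 * (Tn s : ℝ) ^ 8 ≤ xs (step s)
    rw [hxs', hyx]
    linarith [hw.2]
  · show (Tn s : ℝ) ^ 14 / As s ≤ xs (step s)
    rw [hxs']
    linarith [hw.2]
  · have := hL.ux'
    rw [hxs']
    linarith
  · show (Tn s : ℝ) ^ 100 ≤ xs (step s)
    rw [hxs']
    have := h.xlow'
    linarith
  · show xs (step s) ≤ ((Tn s : ℝ) + 1) ^ 100 + (Tn s : ℝ) ^ 18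
    have := h.xlt
    rw [hxs']
    generalize ((Tn s : ℝ) + 1) ^ 100 = b at *
    linarith
  · exact mul_pos h.Lpos (Cl.fr_pos hL.w1 hL.W1 _) |>.trans_le le_rfl |> fun h1 =>
      div_pos h1 (mul_pos (Cl.fr_pos hL.w2 hL.W2 _) (pow_pos h.ys_pos _))

end Inv

end Pool.Agent.MPdf6699Lib
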