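import Mathlib
import Pool.Agent.MPdf6699Lib.Step3

/-!
The first step of the chain.
-/

namespace Pool.Agent.MPdf6699Lib

/-- Initial state. -/
noncomputable def st0 (T : ℕ) : St := ⟨T, ⟨0, 0, 0, 2, (T : ℝ) ^ 100 - 2, 2⟩, 0, 1⟩

/-- First crossing point. -/
noncomputable def y0 (T : ℕ) : ℝ := (T : ℝ) ^ 100 + (T : ℝ) ^ 17

/-- Cluster of the first nontrivial state. -/
noncomputable def c1 (T : ℕ) : Cl := ⟨0, T ^ 14, 0, 2, y0 T + (T : ℝ) ^ 17, (T : ℝ) ^ 5⟩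

/-- First nontrivial state. -/
noncomputable def st1 (T : ℕ) : St :=
  ⟨T, c1 T, 0 + (T ^ 100 - 2 * T ^ 14), 1 * (st0 T).c.fr (y0 T) / ((c1 T).fr (y0 T) * y0 T ^ (T ^ 100 - 2 * T ^ 14))⟩

theorem two_le_pow {T : ℕ} (hT : 10 ^ 10 ≤ T) : 2 * T ^ 14 ≤ T ^ 100 := by
  have e : T ^ 100 = T ^ 86 * T ^ 14 := by rw [← pow_add]
  rw [e]
  apply Nat.mul_le_mul_right
  calc 2 ≤ T := by omega
    _ ≤ T ^ 86 := Nat.le_self_pow (by norm_num) _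

theorem first_slope {T : ℕ} (hT : 10 ^ 10 ≤ T) :
    |((T ^ 100 - 2 * T ^ 14 : ℕ) : ℝ) / y0 T + (c1 T).Sr (y0 T) - (st0 T).c.Sr (y0 T) - 1| ≤ 1 / 10 ^ 5 := by
  have ht : (10 : ℝ) ^ 10 ≤ T := by exact_mod_cast hT
  have ht0 : (0 : ℝ) < T := by linarith
  have hy0 : 0 < y0 T := by unfold y0; positivity
  have hS0 : (st0 T).c.Sr (y0 T) = 0 := by simp [Cl.Sr, st0]
  have hS1 : (c1 T).Sr (y0 T) = -((T : ℝ) ^ 14 * (2 * (T : ℝ) ^ 17 / (((T : ℝ) ^ 17) ^ 2 + ((T : ℝ) ^ 5) ^ 2))) := by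
    rw [Cl.Sr]
    have e2 : y0 T - (c1 T).v = -(T : ℝ) ^ 17 := by simp [c1]
    have e3 : (((c1 T).L : ℕ) : ℝ) = 0 := by simp [c1]
    have e4 : (((c1 T).M : ℕ) : ℝ) = (T : ℝ) ^ 14 := by simp [c1]
    have e6 : (c1 T).W = (T : ℝ) ^ 5 := rfl
    rw [e2, e3, e4, e6, neg_sq]
    ring
  rw [hS0, hS1]
  have h1 := sgr_bound (a := (T : ℝ) ^ 17) (r := (T : ℝ) ^ 17) (w := (T : ℝ) ^ 5) (by positivity) le_rfl
  have h2 : (T : ℝ) ^ 14 * (2 * (T : ℝ) ^ 17 / (((T : ℝ) ^ 17) ^ 2 + ((T : ℝ) ^ 5) ^ 2)) ≤ 1 / 10 ^ 6 := by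
    calc (T : ℝ) ^ 14 * (2 * (T : ℝ) ^ 17 / (((T : ℝ) ^ 17) ^ 2 + ((T : ℝ) ^ 5) ^ 2))
        ≤ (T : ℝ) ^ 14 * (2 / (T : ℝ) ^ 17) := mul_le_mul_of_nonneg_left h1.2 (by positivity)
      _ ≤ 1 / 10 ^ 6 := by
        rw [← mul_div_assoc, div_le_div_iff₀ (by positivity) (by norm_num)]
        have := Inv.gap ht (a := 14) (b := 17) (by norm_num)
        have : (0 : ℝ) ≤ (T : ℝ) ^ 14 := by positivity
        linarith
  have h3 : 0 ≤ (T : ℝ) ^ 14 * (2 * (T : ℝ) ^ 17 / (((T : ℝ) ^ 17) ^ 2 + ((T : ℝ) ^ 5) ^ 2)) :=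
    mul_nonneg (by positivity) h1.1
  have hcast : ((T ^ 100 - 2 * T ^ 14 : ℕ) : ℝ) = (T : ℝ) ^ 100 - 2 * (T : ℝ) ^ 14 := by
    rw [Nat.cast_sub (two_le_pow hT)]; push_cast; ring
  have h4 : ((T ^ 100 - 2 * T ^ 14 : ℕ) : ℝ) / y0 T ≤ 1 := by
    rw [hcast, div_le_one hy0]
    unfold y0
    have : (0 : ℝ) ≤ (T : ℝ) ^ 14 := by positivity
    have : (0 : ℝ) ≤ (T : ℝ) ^ 17 := by positivity
    linarith
  have h5 : 1 - 1 / 10 ^ 6 ≤ ((T ^ 100 - 2 * T ^ 14 : ℕ) : ℝ) / y0 T := by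
    rw [hcast, le_div_iff₀ hy0]
    unfold y0
    have g1 := Inv.gap ht (a := 17) (b := 100) (by norm_num)
    have g2 := Inv.gap ht (a := 14) (b := 17) (by norm_num)
    have : (0 : ℝ) ≤ (T : ℝ) ^ 14 := by positivity
    have : (0 : ℝ) ≤ (T : ℝ) ^ 17 := by positivity
    linarith
  rw [abs_le]
  constructor
  · norm_num at h2 h5 ⊢; linarith
  · norm_num at h2 h5 ⊢; linarith

theorem first_link {T : ℕ} (hT : 10 ^ 10 ≤ T) :
    Link (st0 T) (st1 T) ((T : ℝ) ^ 100) (y0 T) ((T : ℝ) ^ 17 / 2) (T ^ 100) (T ^ 100 - 2 * T ^ 14) := by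
  have ht : (10 : ℝ) ^ 10 ≤ T := by exact_mod_cast hT
  have ht0 : (0 : ℝ) < T := by linarith
  have hy0 : 0 < y0 T := by unfold y0; positivity
  have hyx : y0 T = (T : ℝ) ^ 100 + (T : ℝ) ^ 17 := rfl
  have g1 := Inv.gap ht (a := 17) (b := 100) (by norm_num)
  have g2 := Inv.gap ht (a := 14) (b := 17) (by norm_num)
  have g3 := Inv.gap ht (a := 0) (b := 17) (by norm_num)
  have g4 := Inv.gap ht (a := 0) (b := 5) (by norm_num)
  have g5 := Inv.gap ht (a := 5) (b := 17) (by norm_num)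
  have g6 := Inv.gap ht (a := 0) (b := 100) (by norm_num)
  simp only [pow_zero, mul_one] at g3 g4 g6
  have p17 : (0 : ℝ) < (T : ℝ) ^ 17 := by positivity
  have p14 : (0 : ℝ) < (T : ℝ) ^ 14 := by positivity
  have p100 : (0 : ℝ) < (T : ℝ) ^ 100 := by positivity
  have p5 : (0 : ℝ) < (T : ℝ) ^ 5 := by positivity
  have hSr : (st0 T).c.Sr ((T : ℝ) ^ 100) = 0 := by simp [Cl.Sr, st0]
  have hNc : ((T ^ 100 : ℕ) : ℝ) = (T : ℝ) ^ 100 := by push_cast; ring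
  have hinv : 1 / (T : ℝ) ^ 100 ≤ 1 / 10 ^ 10 := one_div_le_one_div_of_le (by norm_num) g6
  have h2N : 2 * ((T ^ 100 : ℕ) : ℝ) / ((T : ℝ) ^ 100) ^ 2 = 2 * (1 / (T : ℝ) ^ 100) := by
    rw [hNc]
    generalize (T : ℝ) ^ 100 = b at *
    field_simp
  refine
    { hT := hT
      w1 := le_rfl
      W1 := le_rfl
      w2 := le_rfl
      W2 := by show 2 ≤ (T : ℝ) ^ 5; linarith
      xdef := by show (T : ℝ) ^ 100 = (T : ℝ) ^ 100 - 2 + 2; ring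
      xlow := le_rfl
      xhigh := by show (T : ℝ) ^ 100 ≤ 2 * (T : ℝ) ^ 100; linarith
      R100 := by linarith
      RT := by show (T : ℝ) ^ 17 / 2 ≤ (T : ℝ) ^ 17; linarith
      Rxy := by rw [hyx]; linarith
      yT := le_rfl
      hu := Or.inl rfl
      hv := Or.inl rfl
      hu' := Or.inl rfl
      hv' := by show y0 T + 2 * ((T : ℝ) ^ 17 / 2) ≤ y0 T + (T : ℝ) ^ 17; linarith
      u0 := le_rfl
      ux := by show 0 ≤ 2 * (T : ℝ) ^ 100; linarith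
      v0 := by show 0 ≤ (T : ℝ) ^ 100 - 2; linarith
      wx := by show 2 ≤ (T : ℝ) ^ 100; linarith
      Wx := by show 2 ≤ (T : ℝ) ^ 100; linarith
      u0' := le_rfl
      ux' := by show 0 ≤ 2 * (T : ℝ) ^ 100; linarith
      vx' := le_rfl
      wx' := by show 2 ≤ (T : ℝ) ^ 17; linarith
      Wx' := by show (T : ℝ) ^ 5 ≤ (T : ℝ) ^ 17; linarith
      L1 := Nat.zero_le _
      M1 := Nat.zero_le _
      L2 := Nat.zero_le _
      M2 := by show T ^ 14 ≤ T ^ 14; exact le_rfl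
      N1 := by rw [hSr, hNc]; linarith
      N2 := by rw [hSr, hNc]; linarith
      NR := ?_
      Nup := ?_
      Nlow := by rw [hNc]
      NN := ?_
      t1 := ?_
      t2 := ?_
      t3 := ?_
      cr := ?_
      nu' := rfl
      Lpos := by show (0 : ℝ) < 1; norm_num
      Lam' := rfl }
  · show (T : ℝ) ^ 17 / 10 ≤ ((T ^ 100 : ℕ) : ℝ) * ((T : ℝ) ^ 17 / 2) / (T : ℝ) ^ 100
    rw [hNc, mul_div_assoc, mul_div_assoc']
    have : (T : ℝ) ^ 100 * ((T : ℝ) ^ 17 / 2) / (T : ℝ) ^ 100 = (T : ℝ) ^ 17 / 2 := by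
      generalize (T : ℝ) ^ 100 = b at *
      field_simp
    rw [this]; linarith
  · show ((T ^ 100 : ℕ) : ℝ) * (y0 T - (T : ℝ) ^ 100) / (T : ℝ) ^ 100 ≤ 3 * (T : ℝ) ^ 17
    rw [hNc, hyx]
    have : (T : ℝ) ^ 100 * ((T : ℝ) ^ 100 + (T : ℝ) ^ 17 - (T : ℝ) ^ 100) / (T : ℝ) ^ 100 = (T : ℝ) ^ 17 := by
      generalize (T : ℝ) ^ 100 = b at *
      field_simp
      ring
    rw [this]; linarith
  · show T ^ 100 - 2 * T ^ 14 + 2 * (0 + T ^ 14) = T ^ 100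
    have := two_le_pow hT
    omega
  · rw [h2N]
    show ((0 : ℕ) : ℝ) / 2 * (2 * 101 ^ 2 / 2 ^ 2) + 1 / (T : ℝ) ^ 100 +
      101 * (((0 : ℕ) : ℝ) / ((T : ℝ) ^ 17 / 2) ^ 2 + 2 * (1 / (T : ℝ) ^ 100)) ≤ 1 / 3000
    rw [Nat.cast_zero, zero_div, zero_mul, zero_div]
    norm_num at hinv ⊢
    linarith
  · intro r hr0 hr
    rw [h2N]
    show 1 / (T : ℝ) ^ 100 + (((0 : ℕ) : ℝ) / ((T : ℝ) ^ 17 / 2) ^ 2 + 2 * (1 / (T : ℝ) ^ 100)) * (r + 1) ≤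
      1 / 4 + ((0 : ℕ) : ℝ) / 2 * (r ^ 2 / (2 * r ^ 2 + 5 * 2 ^ 2))
    rw [Nat.cast_zero, zero_div, zero_div, zero_mul]
    have h3 : 1 / (T : ℝ) ^ 100 * (r + 1) ≤ 1 / 10 ^ 9 := by
      rw [one_div_mul_eq_div, div_le_div_iff₀ p100 (by norm_num)]
      linarith
    norm_num at hinv h3 ⊢
    linarith
  · show ((0 : ℕ) : ℝ) / 2 / 2 ^ 2 ≤ 1 / 4
    norm_num
  · refine ⟨1 / 10 ^ 5, 1 / (T : ℝ) ^ 18, first_slope hT, ?_, ?_, ?_, ?_⟩
    · show (((T ^ 14 : ℕ) : ℝ) + ((0 : ℕ) : ℝ) + ((0 : ℕ) : ℝ)) / ((T : ℝ) ^ 17 / 2) ^ 2 +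
        2 * ((T ^ 100 - 2 * T ^ 14 : ℕ) : ℝ) / y0 T ^ 2 ≤ 1 / (T : ℝ) ^ 18
      have hcast : ((T ^ 14 : ℕ) : ℝ) = (T : ℝ) ^ 14 := by push_cast; ring
      rw [hcast, Nat.cast_zero, add_zero, add_zero]
      have h1 : (T : ℝ) ^ 14 / ((T : ℝ) ^ 17 / 2) ^ 2 = 4 / (T : ℝ) ^ 20 := by
        field_simp; ring
      have h2 : 2 * ((T ^ 100 - 2 * T ^ 14 : ℕ) : ℝ) / y0 T ^ 2 ≤ 2 / (T : ℝ) ^ 20 := by
        have h3 : ((T ^ 100 - 2 * T ^ 14 : ℕ) : ℝ) ≤ y0 T := by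
          have : ((T ^ 100 - 2 * T ^ 14 : ℕ) : ℝ) ≤ ((T ^ 100 : ℕ) : ℝ) := by exact_mod_cast Nat.sub_le _ _
          rw [hNc] at this
          rw [hyx]; linarith
        calc 2 * ((T ^ 100 - 2 * T ^ 14 : ℕ) : ℝ) / y0 T ^ 2 ≤ 2 * y0 T / y0 T ^ 2 :=
              div_le_div_of_nonneg_right (by linarith) (by positivity)
          _ = 2 / y0 T := by field_simp
          _ ≤ 2 / (T : ℝ) ^ 20 := by
              apply div_le_div_of_nonneg_left (by norm_num) (by positivity)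
              have := Inv.gap ht (a := 20) (b := 100) (by norm_num)
              have : (0 : ℝ) ≤ (T : ℝ) ^ 20 := by positivity
              rw [hyx]; linarith
      have h4 : 4 / (T : ℝ) ^ 20 + 2 / (T : ℝ) ^ 20 ≤ 1 / (T : ℝ) ^ 18 := by
        rw [← add_div, div_le_div_iff₀ (by positivity) (by positivity)]
        have := Inv.gap ht (a := 18) (b := 20) (by norm_num)
        have : (0 : ℝ) ≤ (T : ℝ) ^ 18 := by positivity
        linarith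
      rw [h1]
      linarith
    · show ((0 : ℕ) : ℝ) / 2 * (2 * 101 ^ 2 / 2 ^ 2) + 1 / 10 ^ 5 + 101 * (1 / (T : ℝ) ^ 18) ≤ 1 / 3000
      have h1 : 1 / (T : ℝ) ^ 18 ≤ 1 / 10 ^ 10 := by
        apply one_div_le_one_div_of_le (by norm_num)
        have := Inv.gap ht (a := 0) (b := 18) (by norm_num)
        simpa using this
      rw [Nat.cast_zero, zero_div, zero_mul]
      norm_num at h1 ⊢
      linarith
    · intro r hr0 hr
      show 1 / 10 ^ 5 + 1 / (T : ℝ) ^ 18 * (r + 1) ≤ 1 / 4 + ((0 : ℕ) : ℝ) / 2 * (r ^ 2 / (2 * r ^ 2 + 5 * 2 ^ 2))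
      rw [Nat.cast_zero, zero_div, zero_mul]
      have h3 : 1 / (T : ℝ) ^ 18 * (r + 1) ≤ 1 / 10 ^ 9 := by
        rw [one_div_mul_eq_div, div_le_div_iff₀ (by positivity) (by norm_num)]
        have := Inv.gap ht (a := 17) (b := 18) (by norm_num)
        linarith
      norm_num at h3 ⊢
      linarith
    · show ((0 : ℕ) : ℝ) / 2 / 2 ^ 2 ≤ 1 / 4
      norm_num

theorem first_inv {T : ℕ} (hT : 10 ^ 10 ≤ T) : Inv (st1 T) := by
  have ht : (10 : ℝ) ^ 10 ≤ T := by exact_mod_cast hT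
  have ht0 : (0 : ℝ) < T := by linarith
  have hL := first_link hT
  have g3 := Inv.gap ht (a := 0) (b := 17) (by norm_num)
  have g5 := Inv.gap ht (a := 5) (b := 17) (by norm_num)
  have g7 := Inv.gap ht (a := 17) (b := 18) (by norm_num)
  simp only [pow_zero, mul_one] at g3
  have p17 : (0 : ℝ) < (T : ℝ) ^ 17 := by positivity
  have p100 : (0 : ℝ) < (T : ℝ) ^ 100 := by positivity
  have p5 : (0 : ℝ) < (T : ℝ) ^ 5 := by positivity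
  have hxs : xs (st1 T) = (T : ℝ) ^ 100 + 2 * (T : ℝ) ^ 17 + (T : ℝ) ^ 5 := by
    show y0 T + (T : ℝ) ^ 17 + (T : ℝ) ^ 5 = _
    unfold y0; ring
  refine
    { hT := hT
      M := rfl
      W := rfl
      L := Nat.zero_le _
      hu := Or.inl rfl
      w2 := le_rfl
      wx := by rw [hxs]; show 2 ≤ _; linarith
      u0 := le_rfl
      ux := by rw [hxs]; show 0 ≤ _; linarith
      xlow := by rw [hxs]; show (T : ℝ) ^ 100 ≤ _; linarith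
      xhigh := ?_
      Lpos := ?_ }
  · rw [hxs]
    show _ ≤ ((T : ℝ) + 1) ^ 100 + (T : ℝ) ^ 18
    have : (T : ℝ) ^ 100 ≤ ((T : ℝ) + 1) ^ 100 := pow_le_pow_left₀ ht0.le (by linarith) 100
    generalize ((T : ℝ) + 1) ^ 100 = b at *
    linarith
  · exact hL.Lpos'

end Pool.Agent.MPdf6699Lib
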