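import Mathlib
import Pool.Agent.MPdf6699Lib.Link

/-!
Touching estimates for a link.
-/

namespace Pool.Agent.MPdf6699Lib

open Complex

variable {s s' : St} {x y R : ℝ} {N N' : ℕ}

theorem exp100 : 10 ^ 6 ≤ Real.exp 100 := by
  have h : (2 : ℝ) ≤ Real.exp 1 := by
    have := Real.add_one_le_exp (1 : ℝ); linarith
  have h2 : Real.exp 100 = Real.exp 1 ^ 100 := by rw [← Real.exp_nat_mul]; norm_num
  rw [h2]
  calc (10 : ℝ) ^ 6 ≤ 2 ^ 100 := by norm_num
    _ ≤ _ := pow_le_pow_left₀ (by norm_num) h 100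

theorem exp100' : Real.exp (-100) ≤ 1 / 10 ^ 6 := by
  rw [Real.exp_neg, ← one_div]
  exact one_div_le_one_div_of_le (by norm_num) exp100

theorem re_le_norm' (z : ℂ) : z.re ≤ ‖z‖ := (le_abs_self _).trans (Complex.abs_re_le_norm z)

theorem norm_le_re' {z : ℂ} (h0 : 0 < z.re) (h : |z.im| < 1 / 10) : ‖z‖ ≤ z.re + 1 / 10 := by
  have := Complex.norm_le_abs_re_add_abs_im z
  rw [abs_of_pos h0] at this
  linarith

theorem strip_ne0 {z : ℂ} (hz : z ∈ Strip) : z ≠ 0 := by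
  intro h; rw [h] at hz; simp [Strip] at hz

theorem norm_xz {x : ℝ} (hx : 0 < x) (z : ℂ) : ‖(x : ℂ) / z‖ = x / ‖z‖ := by
  rw [norm_div, Complex.norm_real, Real.norm_eq_abs, abs_of_pos hx]

namespace Link

theorem T1 (h : Link s s' x y R N N') {z : ℂ} (hz : z ∈ Strip) (hr : |z.re - x| ≤ 100) :
    ‖s.G z - s.Cm x N * z ^ (s.nu + N) * Complex.exp (-(z - x))‖ ≤
      1 / 20 * ‖s.Cm x N * z ^ (s.nu + N) * Complex.exp (-(z - x))‖ := by
  have ht := (touch_lemma (c := s.c) (x := x) (R := R) (N := N) (by linarith [h.w1]) (by linarith [h.W1])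
    h.xdef (by linarith [h.R100]) (by linarith [h.Rx, h.R100]) h.hu h.N1 h.N2 h.t1 h.t2 h.t3).1 z hz.2 hr
  rw [h.G_eq (strip_ne0 hz), ← mul_sub, norm_mul, norm_mul (_ * _) (Complex.exp _)]
  calc ‖(s.Cm x N : ℂ) * z ^ (s.nu + N)‖ * ‖Ft s.c x N z - Complex.exp (-(z - x))‖
      ≤ ‖(s.Cm x N : ℂ) * z ^ (s.nu + N)‖ * (1 / 20 * ‖Complex.exp (-(z - x))‖) :=
        mul_le_mul_of_nonneg_left ht (norm_nonneg _)
    _ = _ := by ring

theorem Ft_norm (h : Link s s' x y R N N') (z : ℂ) :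
    ‖Ft s.c x N z‖ = ‖s.c.f z‖ / s.c.fr x * (x / ‖z‖) ^ N := by
  have hx := h.xpos
  rw [Ft, norm_mul, norm_mul, norm_inv, norm_pow, norm_mul, norm_inv, Cl.fr_norm h.w1 h.W1,
    Complex.norm_real, Real.norm_eq_abs, abs_of_pos hx]
  rfl

theorem frx_le (h : Link s s' x y R N N') : s.c.fr x ≤ Real.exp ((s'.T : ℝ) ^ 16 / 100) := by
  have hx := h.xpos
  have hx1 : 1 ≤ x := by linarith [h.Rx, h.R100]
  have h1 := Cl.f_upper (c := s.c) (z := x) (b := x) (B := 2 * (s.c.L + s.c.M)) (by linarith [h.w1])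
    (by linarith [h.W1]) (by rw [Complex.norm_real, Real.norm_eq_abs, abs_of_pos hx])
    (by rw [abs_of_nonneg h.u0]; exact h.ux) (by rw [abs_of_nonneg h.v0]; linarith [h.xdef, h.W1]) h.wx h.Wx hx1 le_rfl
  rw [Cl.fr_norm h.w1 h.W1] at h1
  exact h1.trans (big_pow h.hT (by linarith) (by
    have := h.xhigh
    have : (0 : ℝ) ≤ (s'.T : ℝ) ^ 100 := by positivity
    linarith) h.Beven)

theorem T3 (h : Link s s' x y R N N') {z : ℂ} (hz : z ∈ Strip) (hr : x + 100 ≤ z.re) :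
    ‖s.G z‖ ≤ 1 / 1000 * (‖(x : ℂ) / z‖ ^ (s'.T) ^ 80 * ‖s.Cm x N * z ^ (s.nu + N)‖) := by
  have hx := h.xpos
  have hznorm : x ≤ ‖z‖ := by linarith [re_le_norm' z]
  have hz0 : 0 < ‖z‖ := by linarith
  suffices hF : ‖Ft s.c x N z‖ ≤ 1 / 1000 * (x / ‖z‖) ^ (s'.T) ^ 80 by
    rw [h.G_eq (strip_ne0 hz), norm_mul, norm_xz hx]
    calc ‖(s.Cm x N : ℂ) * z ^ (s.nu + N)‖ * ‖Ft s.c x N z‖
        ≤ ‖(s.Cm x N : ℂ) * z ^ (s.nu + N)‖ * (1 / 1000 * (x / ‖z‖) ^ (s'.T) ^ 80) :=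
          mul_le_mul_of_nonneg_left hF (norm_nonneg _)
      _ = _ := by ring
  by_cases hnear : z.re ≤ x + R
  · have ht := (touch_lemma (c := s.c) (x := x) (R := R) (N := N) (by linarith [h.w1]) (by linarith [h.W1])
      h.xdef (by linarith [h.R100]) (by linarith [h.Rx]) h.hu h.N1 h.N2 h.t1 h.t2 h.t3).2.2 z hz.2 hr hnear
    have e1 : Real.exp ((x - z.re + 100) / 2) ≤ 1 := by
      rw [← Real.exp_zero]
      apply Real.exp_le_exp.mpr; linarith
    have e2 : ‖Ft s.c x N z‖ ≤ 21 / 20 * (1 / 10 ^ 6) := by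
      refine ht.trans ?_
      have := exp100'
      have h3 : 21 / 20 * Real.exp (-100) * Real.exp ((x - z.re + 100) / 2) ≤ 21 / 20 * Real.exp (-100) * 1 :=
        mul_le_mul_of_nonneg_left e1 (by positivity)
      linarith
    have e3 : (1 : ℝ) / 2 ≤ (x / ‖z‖) ^ (s'.T) ^ 80 := by
      have hb := one_add_mul_le_pow (a := x / ‖z‖ - 1) (by
        have : 0 < x / ‖z‖ := by positivity
        linarith) (s'.T ^ 80)
      have e4 : -(2 * R / x) ≤ x / ‖z‖ - 1 := by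
        have : x / ‖z‖ - 1 = -((‖z‖ - x) / ‖z‖) := by field_simp; ring
        rw [this]
        apply neg_le_neg
        have h5 : ‖z‖ - x ≤ 2 * R := by
          have := norm_le_re' hz.1 hz.2
          linarith [h.R100]
        calc (‖z‖ - x) / ‖z‖ ≤ 2 * R / ‖z‖ := div_le_div_of_nonneg_right h5 hz0.le
          _ ≤ 2 * R / x := div_le_div_of_nonneg_left (by linarith [h.R100]) hx hznorm
      have e6 : ((s'.T ^ 80 : ℕ) : ℝ) * (2 * R / x) ≤ 1 / 2 := by
        have := h.T80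
        have h7 := h.RT
        have h8 : (0 : ℝ) ≤ (s'.T : ℝ) ^ 80 := by positivity
        push_cast
        rw [← mul_div_assoc, div_le_iff₀ hx]
        nlinarith [mul_le_mul_of_nonneg_left h7 h8]
      have e7 : ((s'.T ^ 80 : ℕ) : ℝ) * (-(2 * R / x)) ≤ ((s'.T ^ 80 : ℕ) : ℝ) * (x / ‖z‖ - 1) :=
        mul_le_mul_of_nonneg_left e4 (Nat.cast_nonneg _)
      have e8 : 1 + (x / ‖z‖ - 1) = x / ‖z‖ := by ring
      rw [e8] at hb
      linarith
    linarith
  · push Not at hnear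
    rw [h.Ft_norm]
    have hB := h.Beven
    set B := 2 * (s.c.L + s.c.M) with hBdef
    have hz1 : 1 ≤ ‖z‖ := by linarith [h.Rx, h.R100]
    have h1 := Cl.f_upper (c := s.c) (z := z) (b := ‖z‖) (B := B) (by linarith [h.w1])
      (by linarith [h.W1]) le_rfl
      (by rw [abs_of_nonneg h.u0]; linarith [h.ux]) (by rw [abs_of_nonneg h.v0]; linarith [h.xdef, h.W1])
      (by linarith [h.wx]) (by linarith [h.Wx]) hz1 le_rfl
    have h2 : 1 ≤ s.c.fr x := by
      rw [← Cl.fr_norm h.w1 h.W1]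
      exact Cl.f_lower h.w1 h.W1 (by simp)
    have hdN := h.d_le_N
    obtain ⟨K, hK⟩ : ∃ K, N = K + B + s'.T ^ 80 := ⟨N - (B + s'.T ^ 80), by omega⟩
    have h3 : ‖s.c.f z‖ / s.c.fr x ≤ (4 * ‖z‖) ^ B := by
      rw [div_le_iff₀ (by linarith)]
      nlinarith [norm_nonneg (s.c.f z)]
    have h4 : (4 * ‖z‖) ^ B * (x / ‖z‖) ^ N = (4 * x) ^ B * (x / ‖z‖) ^ K * (x / ‖z‖) ^ (s'.T ^ 80) := by
      rw [hK, pow_add, pow_add, mul_pow, mul_pow, div_pow x ‖z‖ B]
      field_simp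
    have h5 := ratio_pow_le (x := x) (R := R) (r := ‖z‖) hx (by linarith [h.R100]) (by linarith [h.Rx, h.R100])
      (by linarith [re_le_norm' z]) K
    have h6 : (4 * x) ^ B ≤ Real.exp ((s'.T : ℝ) ^ 16 / 100) := big_pow h.hT (by linarith [h.Rx, h.R100]) (by
      have := h.xhigh
      have : (0 : ℝ) ≤ (s'.T : ℝ) ^ 100 := by positivity
      linarith) hB
    have h7 : (s'.T : ℝ) ^ 17 / 40 ≤ K * R / (2 * x) := by
      have hKN : (N : ℝ) / 2 ≤ K := by
        have : N ≤ 2 * K := by omega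
        have : (N : ℝ) ≤ 2 * K := by exact_mod_cast this
        linarith
      have hR0 : 0 < R := by linarith [h.R100]
      have := h.NR
      have e : K * R / (2 * x) = (K * R / x) / 2 := by field_simp
      rw [e]
      have e2 : N / 2 * R / x ≤ K * R / x := by
        apply div_le_div_of_nonneg_right _ hx.le
        exact mul_le_mul_of_nonneg_right hKN hR0.le
      have e3 : (N : ℝ) / 2 * R / x = N * R / x / 2 := by ring
      linarith
    have h8 : (4 * x) ^ B * (x / ‖z‖) ^ K ≤ 1 / 1000 := by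
      have ht := h.tpos
      calc (4 * x) ^ B * (x / ‖z‖) ^ K
          ≤ Real.exp ((s'.T : ℝ) ^ 16 / 100) * Real.exp (-(K * R / (2 * x))) :=
            mul_le_mul h6 h5 (by positivity) (by positivity)
        _ = Real.exp ((s'.T : ℝ) ^ 16 / 100 - K * R / (2 * x)) := by rw [← Real.exp_add]; congr 1
        _ ≤ Real.exp (-100) := by
          apply Real.exp_le_exp.mpr
          have e1 : (s'.T : ℝ) ^ 17 = s'.T * (s'.T : ℝ) ^ 16 := by ring
          have e2 : (1 : ℝ) ≤ (s'.T : ℝ) ^ 16 := one_le_pow₀ (by linarith)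
          nlinarith
        _ ≤ 1 / 1000 := by
          have := exp100'
          linarith
    calc ‖s.c.f z‖ / s.c.fr x * (x / ‖z‖) ^ N ≤ (4 * ‖z‖) ^ B * (x / ‖z‖) ^ N :=
          mul_le_mul_of_nonneg_right h3 (by positivity)
      _ = (4 * x) ^ B * (x / ‖z‖) ^ K * (x / ‖z‖) ^ (s'.T ^ 80) := h4
      _ ≤ _ := mul_le_mul_of_nonneg_right h8 (by positivity)

theorem T2 (h : Link s s' x y R N N') {z : ℂ} (hz : z ∈ Strip) (hr : z.re ≤ x - 100) :
    ‖s.Cm x N * z ^ (s.nu + N)‖ * ‖(x : ℂ) / z‖ ^ (s'.T) ^ 80 *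
      (1 + (s'.T : ℝ) ^ 80 * ‖1 - (x : ℂ) / z‖) ≤ 1 / 100 * ‖s.G z‖ := by
  have hx := h.xpos
  have hzn : ‖z‖ ≤ z.re + 1 / 10 := norm_le_re' hz.1 hz.2
  have hz0 : 0 < ‖z‖ := norm_pos_iff.mpr (strip_ne0 hz)
  have hd0 : (0 : ℝ) ≤ (s'.T : ℝ) ^ 80 := by positivity
  have e1z : ‖1 - (x : ℂ) / z‖ = ‖z - x‖ / ‖z‖ := by
    rw [← norm_div]; congr 1
    have := strip_ne0 hz
    field_simp
  suffices hF : (x / ‖z‖) ^ (s'.T) ^ 80 * (1 + (s'.T : ℝ) ^ 80 * ‖1 - (x : ℂ) / z‖) ≤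
      1 / 100 * ‖Ft s.c x N z‖ by
    rw [h.G_eq (strip_ne0 hz), norm_mul (_ * _) (Ft s.c x N z), norm_xz hx]
    calc ‖(s.Cm x N : ℂ) * z ^ (s.nu + N)‖ * (x / ‖z‖) ^ (s'.T) ^ 80 *
          (1 + (s'.T : ℝ) ^ 80 * ‖1 - (x : ℂ) / z‖)
        = ‖(s.Cm x N : ℂ) * z ^ (s.nu + N)‖ * ((x / ‖z‖) ^ (s'.T) ^ 80 *
          (1 + (s'.T : ℝ) ^ 80 * ‖1 - (x : ℂ) / z‖)) := by ring
      _ ≤ ‖(s.Cm x N : ℂ) * z ^ (s.nu + N)‖ * (1 / 100 * ‖Ft s.c x N z‖) :=
          mul_le_mul_of_nonneg_left hF (norm_nonneg _)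
      _ = _ := by ring
  by_cases hnear : x - R ≤ z.re
  · have ht := (touch_lemma (c := s.c) (x := x) (R := R) (N := N) (by linarith [h.w1]) (by linarith [h.W1])
      h.xdef (by linarith [h.R100]) (by linarith [h.Rx]) h.hu h.N1 h.N2 h.t1 h.t2 h.t3).2.1 z hz.2 hnear hr
    have e1 : 1 ≤ Real.exp ((x - z.re - 100) / 2) := by
      rw [← Real.exp_zero]
      apply Real.exp_le_exp.mpr; linarith
    have e2 : 19 / 20 * 10 ^ 6 ≤ ‖Ft s.c x N z‖ := by
      refine le_trans ?_ ht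
      have := exp100
      have h3 : 19 / 20 * Real.exp 100 * 1 ≤ 19 / 20 * Real.exp 100 * Real.exp ((x - z.re - 100) / 2) :=
        mul_le_mul_of_nonneg_left e1 (by positivity)
      linarith
    have hzl : x - R ≤ ‖z‖ := by linarith [re_le_norm' z]
    have hzl2 : x / 2 ≤ ‖z‖ := by linarith [h.Rx, h.R100]
    have hR0 : 0 < R := by linarith [h.R100]
    have hdR : (s'.T : ℝ) ^ 80 * (2 * R) ≤ x / 100 := by
      have := h.T80
      have h7 := h.RT
      nlinarith [mul_le_mul_of_nonneg_left h7 hd0]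
    have e3 : (x / ‖z‖) ^ (s'.T) ^ 80 ≤ 2 := by
      have h1 : x / ‖z‖ ≤ Real.exp (2 * R / x) := by
        have h2 : x / ‖z‖ ≤ 1 + 2 * R / x := by
          rw [div_le_iff₀ hz0]
          have h3 : (1 + 2 * R / x) * (x - R) ≤ (1 + 2 * R / x) * ‖z‖ :=
            mul_le_mul_of_nonneg_left hzl (by positivity)
          have h4 : (1 + 2 * R / x) * (x - R) = x + R - 2 * R * R / x := by field_simp; ring
          have h5 : 2 * R * R / x ≤ R := by
            rw [div_le_iff₀ hx]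
            nlinarith [h.Rx]
          linarith
        have := Real.add_one_le_exp (2 * R / x)
        linarith
      calc (x / ‖z‖) ^ (s'.T) ^ 80 ≤ (Real.exp (2 * R / x)) ^ (s'.T) ^ 80 :=
            pow_le_pow_left₀ (by positivity) h1 _
        _ = Real.exp ((s'.T : ℝ) ^ 80 * (2 * R) / x) := by
            rw [← Real.exp_nat_mul]; congr 1; push_cast; ring
        _ ≤ Real.exp (1 / 100) := by
            apply Real.exp_le_exp.mpr
            rw [div_le_iff₀ hx]; linarith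
        _ ≤ 2 := by
            have := Real.exp_bound_div_one_sub_of_interval (x := 1 / 100) (by norm_num) (by norm_num)
            norm_num at this ⊢
            linarith
    have e4 : (s'.T : ℝ) ^ 80 * ‖1 - (x : ℂ) / z‖ ≤ 1 := by
      rw [e1z]
      have h5 : ‖z - x‖ ≤ 2 * R := by
        have h6 := Complex.norm_le_abs_re_add_abs_im (z - x)
        have h7 : (z - x).re = z.re - x := by simp
        have h8 : (z - x).im = z.im := by simp
        rw [h7, h8, abs_of_nonpos (by linarith)] at h6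
        linarith [hz.2, h.R100]
      calc (s'.T : ℝ) ^ 80 * (‖z - x‖ / ‖z‖) ≤ (s'.T : ℝ) ^ 80 * (2 * R / (x / 2)) := by
            apply mul_le_mul_of_nonneg_left _ hd0
            exact div_le_div₀ (by positivity) h5 (by positivity) hzl2
        _ = (s'.T : ℝ) ^ 80 * (2 * R) / (x / 2) := by ring
        _ ≤ 1 := by
            rw [div_le_one (by positivity)]; linarith
    have e5 : 0 ≤ (s'.T : ℝ) ^ 80 * ‖1 - (x : ℂ) / z‖ := mul_nonneg hd0 (norm_nonneg _)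
    calc (x / ‖z‖) ^ (s'.T) ^ 80 * (1 + (s'.T : ℝ) ^ 80 * ‖1 - (x : ℂ) / z‖)
        ≤ 2 * 2 := mul_le_mul e3 (by linarith) (by linarith) (by norm_num)
      _ ≤ 1 / 100 * ‖Ft s.c x N z‖ := by linarith
  · push Not at hnear
    rw [h.Ft_norm]
    have hB := h.Beven
    have h2 : 1 ≤ ‖s.c.f z‖ := Cl.f_lower h.w1 h.W1 hz.2.le
    have hfr0 : 0 < s.c.fr x := Cl.fr_pos h.w1 h.W1 x
    have hfr := h.frx_le
    have hzle : ‖z‖ ≤ x - R / 2 := by linarith [h.R100]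
    have hzx : ‖z‖ ≤ x := by linarith [h.R100]
    have hq1 : 1 ≤ x / ‖z‖ := by rw [le_div_iff₀ hz0]; linarith
    have hdN := h.d_le_N
    obtain ⟨K, hK⟩ : ∃ K, N = K + (s'.T ^ 80 + 1) := ⟨N - (s'.T ^ 80 + 1), by omega⟩
    have h3 : 1 + (s'.T : ℝ) ^ 80 * ‖1 - (x : ℂ) / z‖ ≤ (1 + 2 * (s'.T : ℝ) ^ 80) * (x / ‖z‖) := by
      have h4 : ‖1 - (x : ℂ) / z‖ ≤ 2 * (x / ‖z‖) := by
        refine (norm_sub_le _ _).trans ?_
        rw [norm_xz hx, norm_one]; linarith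
      nlinarith [mul_le_mul_of_nonneg_left h4 hd0]
    have h5 := ratio_pow_le' (y := x) (R := R) (r := ‖z‖) hx (norm_nonneg _) hzle K
    have h7 : (s'.T : ℝ) ^ 17 / 40 ≤ K * R / (2 * x) := by
      have hKN : (N : ℝ) / 2 ≤ K := by
        have : N ≤ 2 * K := by omega
        have : (N : ℝ) ≤ 2 * K := by exact_mod_cast this
        linarith
      have hR0 : 0 < R := by linarith [h.R100]
      have := h.NR
      have e : K * R / (2 * x) = (K * R / x) / 2 := by field_simp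
      rw [e]
      have e2 : N / 2 * R / x ≤ K * R / x := by
        apply div_le_div_of_nonneg_right _ hx.le
        exact mul_le_mul_of_nonneg_right hKN hR0.le
      have e3 : (N : ℝ) / 2 * R / x = N * R / x / 2 := by ring
      linarith
    have ht := h.tpos
    -- the key smallness
    have h8 : 1000 * (1 + 2 * (s'.T : ℝ) ^ 80) * s.c.fr x * (‖z‖ / x) ^ K ≤ 1 := by
      calc 1000 * (1 + 2 * (s'.T : ℝ) ^ 80) * s.c.fr x * (‖z‖ / x) ^ K
          ≤ Real.exp ((s'.T : ℝ) ^ 16 / 100) * Real.exp ((s'.T : ℝ) ^ 16 / 100) *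
            Real.exp (-(K * R / (2 * x))) := by
            apply mul_le_mul _ h5 (by positivity) (by positivity)
            apply mul_le_mul (big_lin h.hT) hfr hfr0.le (by positivity)
        _ = Real.exp ((s'.T : ℝ) ^ 16 / 100 + (s'.T : ℝ) ^ 16 / 100 - K * R / (2 * x)) := by
            rw [← Real.exp_add, ← Real.exp_add]; congr 1
        _ ≤ Real.exp 0 := by
          apply Real.exp_le_exp.mpr
          have e1 : (s'.T : ℝ) ^ 17 = s'.T * (s'.T : ℝ) ^ 16 := by ring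
          have e2 : (1 : ℝ) ≤ (s'.T : ℝ) ^ 16 := one_le_pow₀ (by linarith)
          nlinarith
        _ = 1 := Real.exp_zero
    have h9 : (‖z‖ / x) ^ K * (x / ‖z‖) ^ K = 1 := by
      rw [← mul_pow]
      have : ‖z‖ / x * (x / ‖z‖) = 1 := by field_simp
      rw [this, one_pow]
    have h10 : 1000 * (1 + 2 * (s'.T : ℝ) ^ 80) * s.c.fr x ≤ (x / ‖z‖) ^ K := by
      have e := mul_le_mul_of_nonneg_right h8 (by positivity : 0 ≤ (x / ‖z‖) ^ K)
      rw [one_mul, mul_assoc, h9, mul_one] at e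
      exact e
    have h11 : (x / ‖z‖) ^ (s'.T) ^ 80 * ((1 + 2 * (s'.T : ℝ) ^ 80) * (x / ‖z‖)) ≤
        1 / 100 * (1 / s.c.fr x * (x / ‖z‖) ^ N) := by
      rw [hK, pow_add, pow_add, pow_one]
      have e : 1 / 100 * (1 / s.c.fr x * ((x / ‖z‖) ^ K * ((x / ‖z‖) ^ s'.T ^ 80 * (x / ‖z‖)))) =
          (x / ‖z‖) ^ (s'.T) ^ 80 * ((x / ‖z‖) ^ K / (100 * s.c.fr x) * (x / ‖z‖)) := by
        generalize (x / ‖z‖) ^ s'.T ^ 80 = P1
        generalize (x / ‖z‖) ^ K = P2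
        field_simp
      rw [e]
      apply mul_le_mul_of_nonneg_left _ (by positivity)
      apply mul_le_mul_of_nonneg_right _ (by positivity)
      rw [le_div_iff₀ (by positivity)]
      have e0 : 0 ≤ (1 + 2 * (s'.T : ℝ) ^ 80) * s.c.fr x := by positivity
      linarith
    calc (x / ‖z‖) ^ (s'.T) ^ 80 * (1 + (s'.T : ℝ) ^ 80 * ‖1 - (x : ℂ) / z‖)
        ≤ (x / ‖z‖) ^ (s'.T) ^ 80 * ((1 + 2 * (s'.T : ℝ) ^ 80) * (x / ‖z‖)) :=
          mul_le_mul_of_nonneg_left h3 (by positivity)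
      _ ≤ 1 / 100 * (1 / s.c.fr x * (x / ‖z‖) ^ N) := h11
      _ ≤ 1 / 100 * (‖s.c.f z‖ / s.c.fr x * (x / ‖z‖) ^ N) := by
          apply mul_le_mul_of_nonneg_left _ (by norm_num)
          apply mul_le_mul_of_nonneg_right _ (by positivity)
          exact div_le_div_of_nonneg_right h2 hfr0.le

end Link

end Pool.Agent.MPdf6699Lib
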