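import Mathlib
import Pool.Agent.MPdf6699Lib.LinkT

/-!
Crossing estimates for a link.
-/

namespace Pool.Agent.MPdf6699Lib

open Complex

variable {s s' : St} {x y R : ℝ} {N N' : ℕ}

namespace Link

theorem y3T (h : Link s s' x y R N N') : y ≤ 3 * (s'.T : ℝ) ^ 100 := by
  have h1 := h.y2x
  have h2 := h.xhigh
  have : (0 : ℝ) ≤ (s'.T : ℝ) ^ 100 := by positivity
  linarith

theorem fy_upper (h : Link s s' x y R N N') {z : ℂ} {b : ℝ} (hz : ‖z‖ ≤ b) (hb : y ≤ b) :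
    ‖s.c.f z‖ ≤ (4 * b) ^ (2 * (s.c.L + s.c.M)) := by
  have hx := h.xpos
  have hy := h.y2x
  have hR := h.R100
  have hRx := h.Rx
  have hxy := h.Rxy
  exact Cl.f_upper (by linarith [h.w1]) (by linarith [h.W1]) hz
    (by rw [abs_of_nonneg h.u0]; linarith [h.ux]) (by rw [abs_of_nonneg h.v0]; linarith [h.xdef, h.W1])
    (by linarith [h.wx]) (by linarith [h.Wx]) (by linarith) le_rfl

theorem v0' (h : Link s s' x y R N N') : 0 ≤ s'.c.v := by
  linarith [h.hv', h.ypos, h.R100]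

theorem fy'_upper (h : Link s s' x y R N N') {z : ℂ} {b : ℝ} (hz : ‖z‖ ≤ b) (hb : x ≤ b) :
    ‖s'.c.f z‖ ≤ (4 * b) ^ (2 * (s'.c.L + s'.c.M)) := by
  have hx := h.xpos
  have hy := h.y2x
  have hR := h.R100
  have hRx := h.Rx
  have hxy := h.Rxy
  have hT := h.T17_small
  have hT0 : (0 : ℝ) ≤ (s'.T : ℝ) ^ 17 := by positivity
  exact Cl.f_upper (by linarith [h.w2]) (by linarith [h.W2]) hz
    (by rw [abs_of_nonneg h.u0']; linarith [h.ux']) (by rw [abs_of_nonneg h.v0']; nlinarith [h.vx'])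
    (by nlinarith [h.wx']) (by nlinarith [h.Wx']) (by linarith) le_rfl

theorem Fd_norm (h : Link s s' x y R N N') (z : ℂ) :
    ‖Fd s.c s'.c y N' z‖ = ‖s'.c.f z‖ / s'.c.fr y * (s.c.fr y / ‖s.c.f z‖) * (‖z‖ / y) ^ N' := by
  have hy := h.ypos
  rw [Fd, norm_mul, norm_mul, norm_mul, norm_mul, norm_inv, norm_inv, norm_pow, norm_mul, norm_inv,
    Cl.fr_norm h.w1 h.W1, Cl.fr_norm h.w2 h.W2,
    Complex.norm_real, Real.norm_eq_abs, abs_of_pos hy]
  rw [div_eq_mul_inv, div_eq_mul_inv, div_eq_mul_inv]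
  ring

theorem cross (h : Link s s' x y R N N') :
    (∀ z : ℂ, |z.im| < 1 / 10 → |z.re - y| ≤ 100 →
      ‖Fd s.c s'.c y N' z - exp (z - y)‖ ≤ 1 / 20 * ‖exp (z - y)‖) ∧
    (∀ z : ℂ, |z.im| < 1 / 10 → y + 100 ≤ z.re → z.re ≤ y + R →
      19 / 20 * Real.exp 100 * Real.exp ((z.re - y - 100) / 2) ≤ ‖Fd s.c s'.c y N' z‖) ∧
    (∀ z : ℂ, |z.im| < 1 / 10 → y - R ≤ z.re → z.re ≤ y - 100 →
      ‖Fd s.c s'.c y N' z‖ ≤ 21 / 20 * Real.exp (-100) * Real.exp ((z.re - y + 100) / 2)) := by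
  obtain ⟨e0, p, c1, c2, c3, c4, c5⟩ := h.cr
  have hx := h.xpos
  have hR := h.R100
  have hRx := h.Rx
  have hxy := h.Rxy
  exact cross_lemma (by linarith [h.w1]) (by linarith [h.W1]) (by linarith [h.w2])
    (by linarith [h.W2]) (by linarith [h.R100]) (by linarith) h.hu' h.hv'
    (h.hu.imp id (fun h1 => by linarith)) h.hv c1 c2 c3 c4 c5

theorem NK (h : Link s s' x y R N N') {K : ℕ} (hK : N ≤ 2 * K) :
    (s'.T : ℝ) ^ 17 / 50 ≤ K * R / (2 * y) := by
  have hx := h.xpos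
  have hy := h.ypos
  have hy2 := h.y2x
  have hR0 : 0 < R := by linarith [h.R100]
  have hKN : (N : ℝ) / 2 ≤ K := by
    have : (N : ℝ) ≤ 2 * K := by exact_mod_cast hK
    linarith
  have h1 := h.NR
  have h2 : (N : ℝ) * R / x / 2 * (1 / (2 * (11 / 10))) ≤ K * R / (2 * y) := by
    have e : (N : ℝ) * R / x / 2 * (1 / (2 * (11 / 10))) = (N / 2) * R / (2 * (11 / 10 * x)) := by
      field_simp
    rw [e]
    apply div_le_div₀ (by positivity) (mul_le_mul_of_nonneg_right hKN hR0.le) (by positivity)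
    linarith
  have h3 : (0 : ℝ) ≤ (s'.T : ℝ) ^ 17 := by positivity
  linarith

theorem D1 (h : Link s s' x y R N N') {z : ℂ} (hz : z ∈ Strip) (hr : z.re ≤ y - 100) :
    ‖s'.G z‖ ≤ 1 / 20 * ‖s.G z‖ := by
  have hx := h.xpos
  have hy := h.ypos
  have hz0 : 0 < ‖z‖ := norm_pos_iff.mpr (strip_ne0 hz)
  suffices hF : ‖Fd s.c s'.c y N' z‖ ≤ 1 / 20 by
    rw [h.G'_eq hz.2.le, norm_mul]
    nlinarith [norm_nonneg (s.G z)]
  by_cases hnear : y - R ≤ z.re
  · have ht := h.cross.2.2 z hz.2 hnear hr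
    have e1 : Real.exp ((z.re - y + 100) / 2) ≤ 1 := by
      rw [← Real.exp_zero]
      apply Real.exp_le_exp.mpr; linarith
    refine ht.trans ?_
    have := exp100'
    have h3 : 21 / 20 * Real.exp (-100) * Real.exp ((z.re - y + 100) / 2) ≤ 21 / 20 * Real.exp (-100) * 1 :=
      mul_le_mul_of_nonneg_left e1 (by positivity)
    linarith
  · push Not at hnear
    rw [h.Fd_norm]
    have hzn : ‖z‖ ≤ z.re + 1 / 10 := norm_le_re' hz.1 hz.2
    have hzle : ‖z‖ ≤ y - R / 2 := by linarith [h.R100]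
    have hzy : ‖z‖ ≤ y := by linarith [h.R100]
    have h1 := h.fy'_upper (z := z) (b := y) hzy (by linarith [h.Rxy, h.R100])
    have h2 := h.fy_upper (z := y) (b := y) (by rw [Complex.norm_real, Real.norm_eq_abs, abs_of_pos hy]) le_rfl
    rw [Cl.fr_norm h.w1 h.W1] at h2
    have h3 : 1 ≤ s'.c.fr y := by
      rw [← Cl.fr_norm h.w2 h.W2]
      exact Cl.f_lower h.w2 h.W2 (by simp)
    have h4 : 1 ≤ ‖s.c.f z‖ := Cl.f_lower h.w1 h.W1 hz.2.le
    have h5 := ratio_pow_le' (y := y) (R := R) (r := ‖z‖) hy (norm_nonneg _) hzle N'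
    have hNN := h.NN
    have hdN := h.d_le_N
    have hB := h.Beven
    have hB' := h.Beven'
    have h7 := h.NK (K := N') (by omega)
    have hy1 : 1 ≤ 4 * y := by linarith [h.Rx, h.R100, h.Rxy]
    have hy100 : 4 * y ≤ 100 * (s'.T : ℝ) ^ 100 := by
      have := h.y3T
      have : (0 : ℝ) ≤ (s'.T : ℝ) ^ 100 := by positivity
      linarith
    have h8 := big_pow h.hT hy1 hy100 hB'
    have h9 := big_pow h.hT hy1 hy100 hB
    have hfr0 : 0 < s.c.fr y := Cl.fr_pos h.w1 h.W1 y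
    have h10 : ‖s'.c.f z‖ / s'.c.fr y ≤ Real.exp ((s'.T : ℝ) ^ 16 / 100) := by
      rw [div_le_iff₀ (by linarith)]
      nlinarith [Real.exp_pos ((s'.T : ℝ) ^ 16 / 100)]
    have h11 : s.c.fr y / ‖s.c.f z‖ ≤ Real.exp ((s'.T : ℝ) ^ 16 / 100) := by
      rw [div_le_iff₀ (by linarith)]
      nlinarith [Real.exp_pos ((s'.T : ℝ) ^ 16 / 100)]
    have ht := h.tpos
    calc ‖s'.c.f z‖ / s'.c.fr y * (s.c.fr y / ‖s.c.f z‖) * (‖z‖ / y) ^ N'
        ≤ Real.exp ((s'.T : ℝ) ^ 16 / 100) * Real.exp ((s'.T : ℝ) ^ 16 / 100) *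
          Real.exp (-(N' * R / (2 * y))) := by
          apply mul_le_mul _ h5 (by positivity) (by positivity)
          apply mul_le_mul h10 h11 (by positivity) (by positivity)
      _ = Real.exp ((s'.T : ℝ) ^ 16 / 100 + (s'.T : ℝ) ^ 16 / 100 - N' * R / (2 * y)) := by
          rw [← Real.exp_add, ← Real.exp_add]; congr 1
      _ ≤ Real.exp (-100) := by
        apply Real.exp_le_exp.mpr
        have e1 : (s'.T : ℝ) ^ 17 = s'.T * (s'.T : ℝ) ^ 16 := by ring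
        have e2 : (1 : ℝ) ≤ (s'.T : ℝ) ^ 16 := one_le_pow₀ (by linarith)
        nlinarith
      _ ≤ 1 / 20 := by
        have := exp100'
        linarith

theorem D2 (h : Link s s' x y R N N') {z : ℂ} (hz : z ∈ Strip) (hr : y + 100 ≤ z.re) :
    ‖s.G z‖ ≤ 1 / 20 * ‖s'.G z‖ := by
  have hx := h.xpos
  have hy := h.ypos
  have hz0 : 0 < ‖z‖ := norm_pos_iff.mpr (strip_ne0 hz)
  suffices hF : 20 ≤ ‖Fd s.c s'.c y N' z‖ by
    rw [h.G'_eq hz.2.le, norm_mul]
    nlinarith [norm_nonneg (s.G z)]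
  by_cases hnear : z.re ≤ y + R
  · have ht := h.cross.2.1 z hz.2 hr hnear
    have e1 : 1 ≤ Real.exp ((z.re - y - 100) / 2) := by
      rw [← Real.exp_zero]
      apply Real.exp_le_exp.mpr; linarith
    refine le_trans ?_ ht
    have := exp100
    have h3 : 19 / 20 * Real.exp 100 * 1 ≤ 19 / 20 * Real.exp 100 * Real.exp ((z.re - y - 100) / 2) :=
      mul_le_mul_of_nonneg_left e1 (by positivity)
    linarith
  · push Not at hnear
    rw [h.Fd_norm]
    have hzn : y + R ≤ ‖z‖ := by linarith [re_le_norm' z]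
    have hzy : y ≤ ‖z‖ := by linarith [h.R100]
    have hxy : x ≤ y := by linarith [h.Rxy, h.R100]
    have h1 := h.fy_upper (z := z) (b := ‖z‖) le_rfl hzy
    have h2 := h.fy'_upper (z := y) (b := y) (by rw [Complex.norm_real, Real.norm_eq_abs, abs_of_pos hy]) hxy
    rw [Cl.fr_norm h.w2 h.W2] at h2
    have h3 : 1 ≤ s.c.fr y := by
      rw [← Cl.fr_norm h.w1 h.W1]
      exact Cl.f_lower h.w1 h.W1 (by simp)
    have h4 : 1 ≤ ‖s'.c.f z‖ := Cl.f_lower h.w2 h.W2 hz.2.le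
    have hf0 : 0 < ‖s.c.f z‖ := by
      have := Cl.f_lower h.w1 h.W1 (z := z) hz.2.le
      linarith
    have hfr0' : 0 < s'.c.fr y := Cl.fr_pos h.w2 h.W2 y
    have hNN := h.NN
    have hdN := h.d_le_N
    have hB := h.Beven
    have hB' := h.Beven'
    obtain ⟨K, hK⟩ : ∃ K, N' = K + 2 * (s.c.L + s.c.M) := ⟨N' - 2 * (s.c.L + s.c.M), by omega⟩
    have h5 := ratio_pow_le (x := y) (R := R) (r := ‖z‖) hy (by linarith [h.R100])
      (by linarith [h.Rx, h.R100, h.Rxy]) hzn K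
    have h7 := h.NK (K := K) (by omega)
    have hy1 : 1 ≤ 4 * y := by linarith [h.Rx, h.R100, h.Rxy]
    have hy100 : 4 * y ≤ 100 * (s'.T : ℝ) ^ 100 := by
      have := h.y3T
      have : (0 : ℝ) ≤ (s'.T : ℝ) ^ 100 := by positivity
      linarith
    have h8 := big_pow h.hT hy1 hy100 hB'
    have h9 := big_pow h.hT hy1 hy100 hB
    have ht := h.tpos
    have h12 : 20 * (4 * y) ^ (2 * (s'.c.L + s'.c.M)) * (4 * y) ^ (2 * (s.c.L + s.c.M)) * (y / ‖z‖) ^ K ≤ 1 := by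
      calc 20 * (4 * y) ^ (2 * (s'.c.L + s'.c.M)) * (4 * y) ^ (2 * (s.c.L + s.c.M)) * (y / ‖z‖) ^ K
          ≤ 20 * Real.exp ((s'.T : ℝ) ^ 16 / 100) * Real.exp ((s'.T : ℝ) ^ 16 / 100) *
            Real.exp (-(K * R / (2 * y))) := by
            apply mul_le_mul _ h5 (by positivity) (by positivity)
            apply mul_le_mul _ h9 (by positivity) (by positivity)
            exact mul_le_mul_of_nonneg_left h8 (by norm_num)
        _ = 20 * Real.exp ((s'.T : ℝ) ^ 16 / 100 + (s'.T : ℝ) ^ 16 / 100 - K * R / (2 * y)) := by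
            rw [mul_assoc, mul_assoc, ← Real.exp_add, ← Real.exp_add]; congr 2; ring
        _ ≤ 20 * Real.exp (-100) := by
          apply mul_le_mul_of_nonneg_left _ (by norm_num)
          apply Real.exp_le_exp.mpr
          have e1 : (s'.T : ℝ) ^ 17 = s'.T * (s'.T : ℝ) ^ 16 := by ring
          have e2 : (1 : ℝ) ≤ (s'.T : ℝ) ^ 16 := one_le_pow₀ (by linarith)
          nlinarith
        _ ≤ 1 := by
          have := exp100'
          linarith
    have h13 : (y / ‖z‖) ^ K * (‖z‖ / y) ^ K = 1 := by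
      rw [← mul_pow]
      have : y / ‖z‖ * (‖z‖ / y) = 1 := by field_simp
      rw [this, one_pow]
    have h14 : 20 * (4 * y) ^ (2 * (s'.c.L + s'.c.M)) * (4 * y) ^ (2 * (s.c.L + s.c.M)) ≤ (‖z‖ / y) ^ K := by
      have e := mul_le_mul_of_nonneg_right h12 (by positivity : 0 ≤ (‖z‖ / y) ^ K)
      rw [one_mul, mul_assoc, h13, mul_one] at e
      exact e
    have h15 : 1 / (4 * y) ^ (2 * (s'.c.L + s'.c.M)) ≤ ‖s'.c.f z‖ / s'.c.fr y :=
      div_le_div₀ (by positivity) h4 hfr0' h2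
    have h16 : 1 / (4 * ‖z‖) ^ (2 * (s.c.L + s.c.M)) ≤ s.c.fr y / ‖s.c.f z‖ :=
      div_le_div₀ (by linarith) h3 hf0 h1
    generalize hb1 : 2 * (s.c.L + s.c.M) = B1 at *
    generalize hb2 : 2 * (s'.c.L + s'.c.M) = B2 at *
    have h17 : (1 / (4 * y) ^ B2) * (1 / (4 * ‖z‖) ^ B1) * (‖z‖ / y) ^ N' =
        (‖z‖ / y) ^ K / ((4 * y) ^ B2 * (4 * y) ^ B1) := by
      rw [hK, pow_add, mul_pow 4 ‖z‖ B1, mul_pow 4 y B1, div_pow ‖z‖ y B1]
      field_simp
    calc (20 : ℝ) ≤ (‖z‖ / y) ^ K / ((4 * y) ^ B2 * (4 * y) ^ B1) := by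
          rw [le_div_iff₀ (by positivity), ← mul_assoc]; exact h14
      _ = (1 / (4 * y) ^ B2) * (1 / (4 * ‖z‖) ^ B1) * (‖z‖ / y) ^ N' := h17.symm
      _ ≤ ‖s'.c.f z‖ / s'.c.fr y * (s.c.fr y / ‖s.c.f z‖) * (‖z‖ / y) ^ N' := by
          apply mul_le_mul_of_nonneg_right _ (by positivity)
          exact mul_le_mul h15 h16 (by positivity) (by positivity)

theorem D3 (h : Link s s' x y R N N') {z : ℂ} (hz : z ∈ Strip) (hr : |z.re - y| ≤ 100) :
    0 ≤ (s'.G z * (starRingEnd ℂ) (s.G z)).re := by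
  have ht := h.cross.1 z hz.2 hr
  rw [h.G'_eq hz.2.le]
  have e : s.G z * Fd s.c s'.c y N' z * (starRingEnd ℂ) (s.G z) =
      ((normSq (s.G z) : ℝ) : ℂ) * Fd s.c s'.c y N' z := by
    rw [Complex.normSq_eq_conj_mul_self]; ring
  rw [e, Complex.re_ofReal_mul]
  apply mul_nonneg (normSq_nonneg _)
  have h1 : (exp (z - y)).re = Real.exp (z.re - y) * Real.cos z.im := by
    rw [Complex.exp_re]; simp
  have h2 : ‖exp (z - y)‖ = Real.exp (z.re - y) := by
    rw [Complex.norm_exp]; simp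
  have h3 := Complex.abs_re_le_norm (Fd s.c s'.c y N' z - exp (z - y))
  rw [Complex.sub_re, h1] at h3
  rw [h2] at ht
  have h4 : 1 / 2 ≤ Real.cos z.im := by
    have := Real.one_sub_sq_div_two_le_cos (x := z.im)
    have h5 := abs_lt.mp hz.2
    nlinarith
  have h6 := (abs_le.mp (h3.trans ht)).1
  nlinarith [Real.exp_pos (z.re - y)]

end Link

end Pool.Agent.MPdf6699Lib
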