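import Mathlib
import Pool.Agent.MPdf6699Lib.LinkD

/-!
Global comparison of the monomial with the next chain function.
-/

namespace Pool.Agent.MPdf6699Lib

open Complex

variable {s s' : St} {x y R : ℝ} {N N' : ℕ}

namespace Link

theorem pow_exp (h : Link s s' x y R N N') : (y / x) ^ N ≤ Real.exp (3 * (s'.T : ℝ) ^ 17) := by
  have hx := h.xpos
  have h1 : y / x ≤ Real.exp ((y - x) / x) := by
    have := Real.add_one_le_exp ((y - x) / x)
    have e : (y - x) / x + 1 = y / x := by field_simp; ring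
    linarith
  calc (y / x) ^ N ≤ (Real.exp ((y - x) / x)) ^ N := pow_le_pow_left₀ (by have := h.ypos; positivity) h1 N
    _ = Real.exp (N * (y - x) / x) := by rw [← Real.exp_nat_mul]; congr 1; ring
    _ ≤ _ := Real.exp_le_exp.mpr h.Nup

theorem zpow_le (h : Link s s' x y R N N') {z : ℂ} (hz : |z.im| < 1 / 10) :
    ‖z‖ ^ (2 * (s'.c.L + s'.c.M)) ≤ (4 * y) ^ (2 * (s'.c.L + s'.c.M)) * ‖s'.c.f z‖ := by
  have hx := h.xpos
  have hy := h.ypos
  have hf := Cl.f_lower h.w2 h.W2 (z := z) hz.le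
  have hT := h.T17_small
  have hT0 : (0 : ℝ) ≤ (s'.T : ℝ) ^ 17 := by positivity
  have hxy : x ≤ y := by linarith [h.Rxy, h.R100]
  have hy1 : 1 ≤ y := by linarith [h.Rx, h.R100]
  by_cases hc : ‖z‖ ≤ 4 * y
  · calc ‖z‖ ^ (2 * (s'.c.L + s'.c.M)) ≤ (4 * y) ^ (2 * (s'.c.L + s'.c.M)) :=
          pow_le_pow_left₀ (norm_nonneg _) hc _
      _ ≤ _ := le_mul_of_one_le_right (by positivity) hf
  · push Not at hc
    have key : ∀ u w : ℝ, 0 ≤ u → u ≤ 2 * y → 2 ≤ w → w ≤ y →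
        (‖z‖ / 4) ^ 2 ≤ ‖(z - u) ^ 2 + (w : ℂ) ^ 2‖ := by
      intro u w hu0 hu hw0 hw
      have h1 : ‖z‖ / 2 ≤ ‖z - u‖ := by
        have := norm_sub_norm_le z (u : ℂ)
        rw [Complex.norm_real, Real.norm_eq_abs, abs_of_nonneg hu0] at this
        linarith
      have h2 := norm_sub_norm_le ((z - u) ^ 2) (-((w : ℂ) ^ 2))
      rw [sub_neg_eq_add, norm_neg, norm_pow, norm_pow, Complex.norm_real, Real.norm_eq_abs, sq_abs] at h2
      have h3 : (‖z‖ / 2) ^ 2 ≤ ‖z - u‖ ^ 2 := pow_le_pow_left₀ (by positivity) h1 2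
      have h4 : w ^ 2 ≤ (‖z‖ / 4) ^ 2 := by
        apply pow_le_pow_left₀ (by linarith)
        linarith
      nlinarith [sq_nonneg ‖z‖]
    have hq1 := key s'.c.u s'.c.w h.u0' (by linarith [h.ux']) h.w2 (by nlinarith [h.wx'])
    have hq2 := key s'.c.v s'.c.W h.v0' (by nlinarith [h.vx']) h.W2 (by nlinarith [h.Wx'])
    have h5 : (‖z‖ / 4) ^ (2 * (s'.c.L + s'.c.M)) ≤ ‖s'.c.f z‖ := by
      rw [Cl.f, norm_mul, norm_pow, norm_pow]
      calc (‖z‖ / 4) ^ (2 * (s'.c.L + s'.c.M)) = ((‖z‖ / 4) ^ 2) ^ s'.c.L * ((‖z‖ / 4) ^ 2) ^ s'.c.M := by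
            rw [← pow_mul, ← pow_mul, ← pow_add]; congr 1; ring
        _ ≤ _ := mul_le_mul (pow_le_pow_left₀ (by positivity) hq1 _) (pow_le_pow_left₀ (by positivity) hq2 _)
          (by positivity) (by positivity)
    have h6 : ‖z‖ ^ (2 * (s'.c.L + s'.c.M)) = 4 ^ (2 * (s'.c.L + s'.c.M)) * (‖z‖ / 4) ^ (2 * (s'.c.L + s'.c.M)) := by
      rw [← mul_pow]; congr 1; ring
    rw [h6]
    have h7 : (4 : ℝ) ^ (2 * (s'.c.L + s'.c.M)) ≤ (4 * y) ^ (2 * (s'.c.L + s'.c.M)) :=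
      pow_le_pow_left₀ (by norm_num) (by linarith) _
    exact mul_le_mul h7 h5 (by positivity) (by positivity)

theorem y_eq (h : Link s s' x y R N N') : s.nu + N = s'.nu + 2 * (s'.c.L + s'.c.M) := by
  have := h.nu'; have := h.NN; omega

theorem B1 (h : Link s s' x y R N N') {z : ℂ} (hz : z ∈ Strip) :
    ‖s.Cm x N * z ^ (s.nu + N)‖ ≤ Real.exp (4 * (s'.T : ℝ) ^ 17) * ‖s'.G z‖ := by
  have hx := h.xpos
  have hy := h.ypos
  have hL := h.Lpos
  have hC := h.Cpos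
  have hL' := h.Lpos'
  have hzp := h.zpow_le hz.2
  have hxy : x ≤ y := by linarith [h.Rxy, h.R100]
  have hy1 : 1 ≤ y := by linarith [h.Rx, h.R100]
  rw [h.y_eq, pow_add, norm_mul, norm_mul, norm_pow, norm_pow, Complex.norm_real, Real.norm_eq_abs,
    abs_of_pos hC, St.G, norm_mul, norm_mul, norm_pow, Complex.norm_real, Real.norm_eq_abs, abs_of_pos hL']
  have hB' := h.Beven'
  have hNN := h.NN
  generalize hb2 : 2 * (s'.c.L + s'.c.M) = B2 at *
  -- main constant inequality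
  have hfrx := h.frx_le
  have hfry : 1 ≤ s.c.fr y := by
    rw [← Cl.fr_norm h.w1 h.W1]
    exact Cl.f_lower h.w1 h.W1 (by simp)
  have hfry' := h.fy'_upper (z := y) (b := y) (by rw [Complex.norm_real, Real.norm_eq_abs, abs_of_pos hy]) hxy
  rw [Cl.fr_norm h.w2 h.W2, hb2] at hfry'
  have hfr'0 : 0 < s'.c.fr y := Cl.fr_pos h.w2 h.W2 y
  have hfr0 : 0 < s.c.fr x := Cl.fr_pos h.w1 h.W1 x
  have hpe := h.pow_exp
  have hy100 : 16 * y ≤ 100 * (s'.T : ℝ) ^ 100 := by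
    have := h.y3T
    have : (0 : ℝ) ≤ (s'.T : ℝ) ^ 100 := by positivity
    linarith
  have h8 := big_pow h.hT (b := 16 * y) (by linarith) hy100 hB'
  have ht := h.tpos
  have hconst : s.Cm x N * (4 * y) ^ B2 ≤ Real.exp (4 * (s'.T : ℝ) ^ 17) * s'.Lam := by
    rw [St.Cm, h.Lam']
    have e1 : s.Lam * s.c.fr x / x ^ N * (4 * y) ^ B2 = s.Lam * (s.c.fr x * (4 * y) ^ B2) / x ^ N := by
      ring
    have e2 : Real.exp (4 * (s'.T : ℝ) ^ 17) * (s.Lam * s.c.fr y / (s'.c.fr y * y ^ N')) =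
        s.Lam * (Real.exp (4 * (s'.T : ℝ) ^ 17) * s.c.fr y) / (s'.c.fr y * y ^ N') := by ring
    rw [e1, e2, div_le_div_iff₀ (by positivity) (by positivity)]
    have e3 : s.Lam * (s.c.fr x * (4 * y) ^ B2) * (s'.c.fr y * y ^ N') =
        s.Lam * (s.c.fr x * (4 * y) ^ B2 * (s'.c.fr y * y ^ N')) := by ring
    have e4 : s.Lam * (Real.exp (4 * (s'.T : ℝ) ^ 17) * s.c.fr y) * x ^ N =
        s.Lam * (Real.exp (4 * (s'.T : ℝ) ^ 17) * s.c.fr y * x ^ N) := by ring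
    rw [e3, e4]
    apply mul_le_mul_of_nonneg_left _ hL.le
    have e5 : (y / x) ^ N * x ^ N = y ^ N := by rw [← mul_pow]; congr 1; field_simp
    calc s.c.fr x * (4 * y) ^ B2 * (s'.c.fr y * y ^ N')
        ≤ Real.exp ((s'.T : ℝ) ^ 16 / 100) * (4 * y) ^ B2 * ((4 * y) ^ B2 * y ^ N') := by
          apply mul_le_mul _ _ (by positivity) (by positivity)
          · exact mul_le_mul_of_nonneg_right hfrx (by positivity)
          · exact mul_le_mul_of_nonneg_right hfry' (by positivity)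
      _ = Real.exp ((s'.T : ℝ) ^ 16 / 100) * (16 * y) ^ B2 * y ^ N := by
          rw [← hNN, pow_add]
          have : (16 * y : ℝ) ^ B2 * y ^ B2 = (4 * y) ^ B2 * (4 * y) ^ B2 := by
            rw [← mul_pow, ← mul_pow]; congr 1; ring
          calc Real.exp ((s'.T : ℝ) ^ 16 / 100) * (4 * y) ^ B2 * ((4 * y) ^ B2 * y ^ N')
              = Real.exp ((s'.T : ℝ) ^ 16 / 100) * ((4 * y) ^ B2 * (4 * y) ^ B2) * y ^ N' := by ring
            _ = Real.exp ((s'.T : ℝ) ^ 16 / 100) * ((16 * y) ^ B2 * y ^ B2) * y ^ N' := by rw [this]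
            _ = _ := by ring
      _ ≤ Real.exp ((s'.T : ℝ) ^ 16 / 100) * Real.exp ((s'.T : ℝ) ^ 16 / 100) *
          (Real.exp (3 * (s'.T : ℝ) ^ 17) * x ^ N) := by
          apply mul_le_mul _ _ (by positivity) (by positivity)
          · exact mul_le_mul_of_nonneg_left h8 (Real.exp_pos _).le
          · rw [← e5]
            exact mul_le_mul_of_nonneg_right hpe (by positivity)
      _ = Real.exp ((s'.T : ℝ) ^ 16 / 100 + (s'.T : ℝ) ^ 16 / 100 + 3 * (s'.T : ℝ) ^ 17) * x ^ N := by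
          rw [Real.exp_add, Real.exp_add]; ring
      _ ≤ Real.exp (4 * (s'.T : ℝ) ^ 17) * x ^ N := by
          apply mul_le_mul_of_nonneg_right _ (by positivity)
          apply Real.exp_le_exp.mpr
          have e1 : (s'.T : ℝ) ^ 17 = s'.T * (s'.T : ℝ) ^ 16 := by ring
          have e2 : (1 : ℝ) ≤ (s'.T : ℝ) ^ 16 := one_le_pow₀ (by linarith)
          nlinarith
      _ ≤ Real.exp (4 * (s'.T : ℝ) ^ 17) * s.c.fr y * x ^ N := by
          apply mul_le_mul_of_nonneg_right _ (by positivity)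
          exact le_mul_of_one_le_right (Real.exp_pos _).le hfry
  calc s.Cm x N * (‖z‖ ^ s'.nu * ‖z‖ ^ B2)
      ≤ s.Cm x N * (‖z‖ ^ s'.nu * ((4 * y) ^ B2 * ‖s'.c.f z‖)) := by
        apply mul_le_mul_of_nonneg_left _ hC.le
        exact mul_le_mul_of_nonneg_left hzp (by positivity)
    _ = (s.Cm x N * (4 * y) ^ B2) * (‖z‖ ^ s'.nu * ‖s'.c.f z‖) := by ring
    _ ≤ (Real.exp (4 * (s'.T : ℝ) ^ 17) * s'.Lam) * (‖z‖ ^ s'.nu * ‖s'.c.f z‖) :=
        mul_le_mul_of_nonneg_right hconst (by positivity)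
    _ = _ := by ring

end Link

end Pool.Agent.MPdf6699Lib
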