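import Mathlib
import Pool.Agent.MPdf6699Lib.LinkB

/-!
Argument of the quotient far to the right.
-/

namespace Pool.Agent.MPdf6699Lib

open Complex

variable {s s' : St} {x y R : ℝ} {N N' : ℕ}

theorem sg_bound {ζ : ℂ} {w r : ℝ} (hw : 1 ≤ w) (hy : |ζ.im| ≤ 1 / 10) (hr : 0 < r) (h : r ≤ ζ.re) :
    ‖sg ζ w‖ ≤ 2 / r := by
  rw [sg_split hw hy]
  have h1 : ∀ b : ℝ, ‖1 / (ζ + b * I)‖ ≤ 1 / r := by
    intro b
    rw [norm_div, norm_one]
    apply one_div_le_one_div_of_le hr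
    have := re_le_norm' (ζ + b * I)
    have e : (ζ + b * I).re = ζ.re := by simp
    rw [e] at this
    linarith
  have h2 := h1 (-w)
  have h3 := h1 w
  have e : ζ - w * I = ζ + ((-w : ℝ) : ℂ) * I := by push_cast; ring
  rw [e]
  refine (norm_add_le _ _).trans ?_
  have : 2 / r = 1 / r + 1 / r := by ring
  linarith

namespace Link

theorem far_dist (h : Link s s' x y R N N') {ξ : ℝ}
    (hξ : x * (1 + 1 / (5 * (s'.T : ℝ) ^ 58)) ≤ ξ) : x + 2 * (s'.T : ℝ) ^ 17 + (s'.T : ℝ) ^ 41 ≤ ξ := by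
  have ht := h.tpos
  have ht1 : (1 : ℝ) ≤ s'.T := by linarith
  have h1 : (s'.T : ℝ) ^ 42 / 5 ≤ x / (5 * (s'.T : ℝ) ^ 58) := by
    rw [div_le_div_iff₀ (by norm_num) (by positivity)]
    have := h.xlow
    have e : (s'.T : ℝ) ^ 42 * (5 * (s'.T : ℝ) ^ 58) = 5 * (s'.T : ℝ) ^ 100 := by ring
    linarith
  have h2 : x * (1 + 1 / (5 * (s'.T : ℝ) ^ 58)) = x + x / (5 * (s'.T : ℝ) ^ 58) := by ring
  have h3 : 2 * (s'.T : ℝ) ^ 17 + (s'.T : ℝ) ^ 41 ≤ (s'.T : ℝ) ^ 42 / 5 := by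
    have e1 : (s'.T : ℝ) ^ 42 = s'.T * (s'.T : ℝ) ^ 41 := by ring
    have e2 : (s'.T : ℝ) ^ 17 ≤ (s'.T : ℝ) ^ 41 := pow_le_pow_right₀ ht1 (by norm_num)
    have e3 : (0 : ℝ) ≤ (s'.T : ℝ) ^ 41 := by positivity
    nlinarith
  linarith

theorem B3 (h : Link s s' x y R N N') {z : ℂ} (hz : z ∈ Strip)
    (hr : x * (1 + 1 / (5 * (s'.T : ℝ) ^ 58)) ≤ z.re) :
    0 ≤ (s.Cm x N * z ^ (s.nu + N) / s'.G z).re ∧
    |(s.Cm x N * z ^ (s.nu + N) / s'.G z).im| ≤ 1 / 2 * (s.Cm x N * z ^ (s.nu + N) / s'.G z).re := by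
  have hx := h.xpos
  have hC := h.Cpos
  have hL' := h.Lpos'
  have ht := h.tpos
  have ht1 : (1 : ℝ) ≤ s'.T := by linarith
  have hfar := h.far_dist hr
  have hB' := h.Beven'
  set B2 := 2 * (s'.c.L + s'.c.M) with hB2
  set K : ℝ := s.Cm x N / s'.Lam with hK
  have hK0 : 0 < K := div_pos hC hL'
  set hh : ℂ → ℂ := fun z => (K : ℂ) * (z ^ B2 * (s'.c.f z)⁻¹) with hhdef
  have hw2 : (1 : ℝ) ≤ s'.c.w := by linarith [h.w2]
  have hW2 : (1 : ℝ) ≤ s'.c.W := by linarith [h.W2]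
  have hval : ∀ z : ℂ, z ≠ 0 → |z.im| ≤ 1 / 10 → s.Cm x N * z ^ (s.nu + N) / s'.G z = hh z := by
    intro z hz0 hy
    have hf := Cl.f_ne hw2 hW2 hy
    have hLc : (s'.Lam : ℂ) ≠ 0 := by norm_cast; linarith
    simp only [hhdef, hK, St.G]
    rw [h.y_eq, pow_add, ← hB2]
    push_cast
    field_simp
  have hlog : ∀ z : ℂ, z ≠ 0 → |z.im| ≤ 1 / 10 →
      HasDerivAt hh (hh z * (B2 * (1 / z) + -(s'.c.S z))) z := by
    intro z hz0 hy
    have h1 := mul_logderiv (const_logderiv (K : ℂ) z) (mul_logderiv (pow_logderiv B2 (id_logderiv hz0))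
      (inv_logderiv (Cl.hasDerivAt (c := s'.c) hw2 hW2 hy) (Cl.f_ne hw2 hW2 hy)))
    refine h1.congr_deriv ?_
    simp only [hhdef]
    ring
  have hpt : ∀ t : ℝ, 0 ≤ t → t ≤ 1 → ((z.re : ℂ) + t * (z - z.re)).re = z.re ∧
      |((z.re : ℂ) + t * (z - z.re)).im| ≤ 1 / 10 := by
    intro t h0 h1
    constructor
    · simp
    · have : ((z.re : ℂ) + t * (z - z.re)).im = t * z.im := by simp
      rw [this, abs_mul, abs_of_nonneg h0]
      nlinarith [hz.2, abs_nonneg z.im]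
  have hne : ∀ t : ℝ, 0 ≤ t → t ≤ 1 → ((z.re : ℂ) + t * (z - z.re)) ≠ 0 := by
    intro t h0 h1 h2
    have := congrArg Complex.re h2
    rw [(hpt t h0 h1).1] at this
    simp at this
    linarith [hz.1]
  have hwin := window_aux (F := hh) (s := fun z => B2 * (1 / z) + -(s'.c.S z)) (z0 := (z.re : ℂ)) (z1 := z)
    (c := 0) (τ := 1 / 10) (by norm_num)
    (fun t h0 h1 => hlog _ (hne t h0 h1) (hpt t h0 h1).2)
    (by
      intro t h0 h1
      obtain ⟨p1, p2⟩ := hpt t h0 h1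
      have p3 := hne t h0 h1
      set ξ : ℂ := (z.re : ℂ) + t * (z - z.re) with hξ
      rw [sub_zero]
      have hT41 : (0 : ℝ) < (s'.T : ℝ) ^ 41 := by positivity
      have b1 : ‖(B2 : ℂ) * (1 / ξ)‖ ≤ 4 * (s'.T : ℝ) ^ 14 / (s'.T : ℝ) ^ 41 := by
        rw [norm_mul, Complex.norm_natCast, norm_div, norm_one, mul_one_div]
        apply div_le_div₀ (by positivity)
        · have : ((B2 : ℕ) : ℝ) ≤ ((4 * s'.T ^ 14 : ℕ) : ℝ) := by exact_mod_cast hB'
          push_cast at this; exact this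
        · exact hT41
        · have := re_le_norm' ξ
          rw [p1] at this
          have : (0 : ℝ) ≤ (s'.T : ℝ) ^ 17 := by positivity
          linarith
      have b2 : ‖(s'.c.L : ℂ) * sg (ξ - s'.c.u) s'.c.w‖ ≤ 2 * (s'.T : ℝ) ^ 14 / (s'.T : ℝ) ^ 41 := by
        rcases h.hu' with h0 | h0
        · rw [h0]; simp; positivity
        · rw [norm_mul, Complex.norm_natCast]
          have := sg_bound (ζ := ξ - s'.c.u) (w := s'.c.w) (r := (s'.T : ℝ) ^ 41) hw2 (by simpa using p2) hT41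
            (by
              have e : (ξ - (s'.c.u : ℂ)).re = ξ.re - s'.c.u := by simp
              rw [e, p1, h0]
              linarith [h.yT, h.wx'])
          have hLc : (s'.c.L : ℝ) ≤ (s'.T : ℝ) ^ 14 := by
            have : ((s'.c.L : ℕ) : ℝ) ≤ ((s'.T ^ 14 : ℕ) : ℝ) := by exact_mod_cast h.L2
            push_cast at this; exact this
          calc (s'.c.L : ℝ) * ‖sg (ξ - s'.c.u) s'.c.w‖ ≤ (s'.T : ℝ) ^ 14 * (2 / (s'.T : ℝ) ^ 41) :=
                mul_le_mul hLc this (norm_nonneg _) (by positivity)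
            _ = _ := by ring
      have b3 : ‖(s'.c.M : ℂ) * sg (ξ - s'.c.v) s'.c.W‖ ≤ 2 * (s'.T : ℝ) ^ 14 / (s'.T : ℝ) ^ 41 := by
        rw [norm_mul, Complex.norm_natCast]
        have := sg_bound (ζ := ξ - s'.c.v) (w := s'.c.W) (r := (s'.T : ℝ) ^ 41) hW2 (by simpa using p2) hT41
          (by
            have e : (ξ - (s'.c.v : ℂ)).re = ξ.re - s'.c.v := by simp
            rw [e, p1]
            linarith [h.yT, h.vx'])
        have hLc : (s'.c.M : ℝ) ≤ (s'.T : ℝ) ^ 14 := by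
          have : ((s'.c.M : ℕ) : ℝ) ≤ ((s'.T ^ 14 : ℕ) : ℝ) := by exact_mod_cast h.M2
          push_cast at this; exact this
        calc (s'.c.M : ℝ) * ‖sg (ξ - s'.c.v) s'.c.W‖ ≤ (s'.T : ℝ) ^ 14 * (2 / (s'.T : ℝ) ^ 41) :=
              mul_le_mul hLc this (norm_nonneg _) (by positivity)
          _ = _ := by ring
      have b4 : 4 * (s'.T : ℝ) ^ 14 / (s'.T : ℝ) ^ 41 + (2 * (s'.T : ℝ) ^ 14 / (s'.T : ℝ) ^ 41 +
          2 * (s'.T : ℝ) ^ 14 / (s'.T : ℝ) ^ 41) ≤ 1 / 10 := by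
        have e1 : (s'.T : ℝ) ^ 41 = (s'.T : ℝ) ^ 14 * (s'.T : ℝ) ^ 27 := by ring
        have e2 : (s'.T : ℝ) ≤ (s'.T : ℝ) ^ 27 := le_self_pow₀ ht1 (by norm_num)
        rw [← add_div, ← add_div, div_le_div_iff₀ hT41 (by norm_num)]
        have e3 : (0 : ℝ) ≤ (s'.T : ℝ) ^ 14 := by positivity
        rw [e1]
        nlinarith [mul_le_mul_of_nonneg_left e2 e3]
      refine (norm_add_le _ _).trans ?_
      rw [norm_neg, Cl.S]
      refine (add_le_add le_rfl (norm_add_le _ _)).trans ?_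
      linarith)
  simp only [zero_mul, Complex.exp_zero, mul_one] at hwin
  have hreal : ∃ a : ℝ, 0 < a ∧ hh (z.re : ℂ) = (a : ℂ) := by
    refine ⟨K * (z.re ^ B2 * (s'.c.fr z.re)⁻¹), ?_, ?_⟩
    · have := Cl.fr_pos h.w2 h.W2 z.re
      have := hz.1
      positivity
    · simp only [hhdef]
      rw [Cl.f_real]
      push_cast
      rfl
  obtain ⟨a, ha, hae⟩ := hreal
  rw [hae, Complex.norm_real, Real.norm_eq_abs, abs_of_pos ha] at hwin
  have hdist : ‖z - (z.re : ℂ)‖ ≤ 1 / 10 := by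
    have e : z - (z.re : ℂ) = z.im * I := by
      apply Complex.ext <;> simp
    rw [e, norm_mul, Complex.norm_I, mul_one, Complex.norm_real, Real.norm_eq_abs]
    exact hz.2.le
  have hexp : Real.exp (1 / 10 * ‖z - (z.re : ℂ)‖) - 1 ≤ 1 / 10 := by
    have h1 : Real.exp (1 / 10 * ‖z - (z.re : ℂ)‖) ≤ Real.exp (1 / 100) := by
      apply Real.exp_le_exp.mpr; linarith
    have := Real.exp_bound_div_one_sub_of_interval (x := 1 / 100) (by norm_num) (by norm_num)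
    norm_num at this ⊢
    linarith
  have hfin : ‖hh z - (a : ℂ)‖ ≤ 1 / 10 * a := hwin.trans (mul_le_mul_of_nonneg_right hexp ha.le)
  rw [hval z (strip_ne0 hz) hz.2.le]
  have h1 := Complex.abs_re_le_norm (hh z - (a : ℂ))
  have h2 := Complex.abs_im_le_norm (hh z - (a : ℂ))
  simp only [Complex.sub_re, Complex.sub_im, Complex.ofReal_re, Complex.ofReal_im, sub_zero] at h1 h2
  have h3 := (abs_le.mp (h1.trans hfin)).1
  constructor
  · linarith
  · have := h2.trans hfin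
    linarith

end Link

end Pool.Agent.MPdf6699Lib
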