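import Mathlib
import Pool.Agent.MPdf6699Lib.LinkB

/-!
Polynomial side of the chain: degrees and coefficient sums.
-/

namespace Pool.Agent.MPdf6699Lib

open Polynomial

variable {s s' : St} {x y R : ℝ} {N N' : ℕ}

/-- Quadratic factor. -/
noncomputable def quadP (u w : ℝ) : ℂ[X] := (X - C (u : ℂ)) ^ 2 + C ((w : ℂ) ^ 2)

/-- Polynomial attached to a state. -/
noncomputable def St.P (s : St) : ℂ[X] :=
  C (s.Lam : ℂ) * X ^ s.nu * (quadP s.c.u s.c.w ^ s.c.L * quadP s.c.v s.c.W ^ s.c.M)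

theorem St.P_eval (s : St) (z : ℂ) : s.P.eval z = s.G z := by
  simp [St.P, St.G, Cl.f, quadP]

theorem quadP_natDegree (u w : ℝ) : (quadP u w).natDegree ≤ 2 := by
  rw [quadP]
  apply natDegree_add_le_of_degree_le
  · exact natDegree_pow_le_of_le 2 (natDegree_X_sub_C_le _)
  · rw [natDegree_C]; norm_num

theorem St.P_natDegree (s : St) : s.P.natDegree ≤ s.nu + 2 * (s.c.L + s.c.M) := by
  rw [St.P]
  refine natDegree_mul_le.trans ?_
  have h1 : (C (s.Lam : ℂ) * X ^ s.nu : ℂ[X]).natDegree ≤ s.nu := natDegree_C_mul_X_pow_le _ _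
  have h2 : (quadP s.c.u s.c.w ^ s.c.L * quadP s.c.v s.c.W ^ s.c.M).natDegree ≤ 2 * (s.c.L + s.c.M) := by
    refine natDegree_mul_le.trans ?_
    have h3 := natDegree_pow_le_of_le s.c.L (quadP_natDegree s.c.u s.c.w)
    have h4 := natDegree_pow_le_of_le s.c.M (quadP_natDegree s.c.v s.c.W)
    omega
  omega

theorem St.P_low (s : St) {i : ℕ} (hi : i < s.nu) : s.P.coeff i = 0 := by
  rw [St.P, mul_assoc, coeff_C_mul, coeff_X_pow_mul']
  simp [not_le.mpr hi]

/-- Coefficientwise domination. -/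
def Dom (p : ℂ[X]) (q : ℝ[X]) : Prop := ∀ i, ‖p.coeff i‖ ≤ q.coeff i

theorem Dom.mul {p p' : ℂ[X]} {q q' : ℝ[X]} (h : Dom p q) (h' : Dom p' q') : Dom (p * p') (q * q') := by
  intro i
  rw [coeff_mul, coeff_mul]
  refine (norm_sum_le _ _).trans ?_
  apply Finset.sum_le_sum
  intro j _
  rw [norm_mul]
  exact mul_le_mul (h _) (h' _) (norm_nonneg _) ((norm_nonneg _).trans (h _))

theorem Dom.one : Dom 1 1 := by
  intro i
  rw [coeff_one, coeff_one]
  split_ifs <;> simp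

theorem Dom.pow {p : ℂ[X]} {q : ℝ[X]} (h : Dom p q) (n : ℕ) : Dom (p ^ n) (q ^ n) := by
  induction n with
  | zero => simpa using Dom.one
  | succ n ih => rw [pow_succ, pow_succ]; exact ih.mul h

theorem Dom.add {p p' : ℂ[X]} {q q' : ℝ[X]} (h : Dom p q) (h' : Dom p' q') : Dom (p + p') (q + q') := by
  intro i
  rw [coeff_add, coeff_add]
  exact (norm_add_le _ _).trans (add_le_add (h _) (h' _))

theorem Dom.C_ {a : ℂ} {b : ℝ} (h : ‖a‖ ≤ b) : Dom (C a) (C b) := by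
  intro i
  rw [coeff_C, coeff_C]
  split_ifs
  · exact h
  · simp

theorem Dom.X_ : Dom X X := by
  intro i
  rw [coeff_X, coeff_X]
  split_ifs <;> simp

theorem Dom.sum_le {p : ℂ[X]} {q : ℝ[X]} (h : Dom p q) {x : ℝ} (hx : 0 ≤ x) (n : ℕ) :
    ∑ i ∈ Finset.range n, ‖p.coeff i‖ * x ^ i ≤ q.eval x := by
  have hq : ∀ i, 0 ≤ q.coeff i := fun i => (norm_nonneg _).trans (h i)
  calc ∑ i ∈ Finset.range n, ‖p.coeff i‖ * x ^ i
      ≤ ∑ i ∈ Finset.range n, q.coeff i * x ^ i := by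
        apply Finset.sum_le_sum
        intro i _
        exact mul_le_mul_of_nonneg_right (h i) (by positivity)
    _ ≤ ∑ i ∈ Finset.range (max n (q.natDegree + 1)), q.coeff i * x ^ i := by
        apply Finset.sum_le_sum_of_subset_of_nonneg
        · exact Finset.range_mono (le_max_left _ _)
        · intro i _ _
          exact mul_nonneg (hq i) (by positivity)
    _ = q.eval x := by
        rw [eval_eq_sum_range' (n := max n (q.natDegree + 1)) (by omega)]

theorem quadP_dom {u w : ℝ} (hu : 0 ≤ u) : Dom (quadP u w) ((X + C u) ^ 2 + C (w ^ 2)) := by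
  rw [quadP]
  apply Dom.add
  · apply Dom.pow
    have : (X - C (u : ℂ) : ℂ[X]) = X + C (-(u : ℂ)) := by rw [C_neg]; ring
    rw [this]
    apply Dom.add Dom.X_ (Dom.C_ _)
    rw [norm_neg, Complex.norm_real, Real.norm_eq_abs, abs_of_nonneg hu]
  · apply Dom.C_
    rw [norm_pow, Complex.norm_real, Real.norm_eq_abs, sq_abs]

namespace Link

theorem Gdeg (h : Link s s' x y R N N') : s'.P.natDegree ≤ s.nu + N := by
  rw [h.y_eq]; exact s'.P_natDegree

theorem Glow (h : Link s s' x y R N N') (i : ℕ) (hi : i + (s'.T) ^ 80 < s.nu + N) : s'.P.coeff i = 0 := by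
  apply St.P_low
  have h1 := h.y_eq
  have h2 := h.Beven'
  have h3 : 4 * s'.T ^ 14 ≤ s'.T ^ 80 := by
    have hT := h.hT
    have e : s'.T ^ 80 = s'.T ^ 66 * s'.T ^ 14 := by rw [← pow_add]
    rw [e]
    apply Nat.mul_le_mul_right
    calc 4 ≤ s'.T := by omega
      _ ≤ s'.T ^ 66 := Nat.le_self_pow (by norm_num) _
  omega

theorem Gsum (h : Link s s' x y R N N') :
    ∑ i ∈ Finset.range (s.nu + N + 1), ‖s'.P.coeff i‖ * x ^ i ≤
      1 / 1000 * (s.Cm x N * x ^ (s.nu + N)) := by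
  have hx := h.xpos
  have hy := h.ypos
  have hL := h.Lpos
  have hL' := h.Lpos'
  have hxy : x ≤ y := by linarith [h.Rxy, h.R100]
  have hx1 : 1 ≤ x := by linarith [h.Rx, h.R100]
  have hdom : Dom s'.P (C s'.Lam * X ^ s'.nu * (((X + C s'.c.u) ^ 2 + C (s'.c.w ^ 2)) ^ s'.c.L *
      ((X + C s'.c.v) ^ 2 + C (s'.c.W ^ 2)) ^ s'.c.M)) := by
    rw [St.P]
    apply Dom.mul
    · apply Dom.mul (Dom.C_ _) (Dom.pow Dom.X_ _)
      rw [Complex.norm_real, Real.norm_eq_abs, abs_of_pos hL']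
    · exact Dom.mul ((quadP_dom h.u0').pow _) ((quadP_dom h.v0').pow _)
  refine (hdom.sum_le hx.le _).trans ?_
  simp only [eval_mul, eval_pow, eval_add, eval_X, eval_C]
  have hT := h.T17_small
  have hT0 : (0 : ℝ) ≤ (s'.T : ℝ) ^ 17 := by positivity
  have hq1 : (x + s'.c.u) ^ 2 + s'.c.w ^ 2 ≤ (4 * x) ^ 2 := by
    have h1 : (x + s'.c.u) ^ 2 ≤ (3 * x) ^ 2 :=
      pow_le_pow_left₀ (by linarith [h.u0']) (by linarith [h.ux']) 2
    have h2 : s'.c.w ^ 2 ≤ x ^ 2 := pow_le_pow_left₀ (by linarith [h.w2]) (by nlinarith [h.wx']) 2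
    nlinarith [sq_nonneg x]
  have hq2 : (x + s'.c.v) ^ 2 + s'.c.W ^ 2 ≤ (4 * x) ^ 2 := by
    have h1 : (x + s'.c.v) ^ 2 ≤ (3 * x) ^ 2 :=
      pow_le_pow_left₀ (by linarith [h.v0']) (by nlinarith [h.vx', h.yT]) 2
    have h2 : s'.c.W ^ 2 ≤ x ^ 2 := pow_le_pow_left₀ (by linarith [h.W2]) (by nlinarith [h.Wx']) 2
    nlinarith [sq_nonneg x]
  have hcl : ((x + s'.c.u) ^ 2 + s'.c.w ^ 2) ^ s'.c.L * ((x + s'.c.v) ^ 2 + s'.c.W ^ 2) ^ s'.c.M ≤
      (4 * x) ^ (2 * (s'.c.L + s'.c.M)) := by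
    calc ((x + s'.c.u) ^ 2 + s'.c.w ^ 2) ^ s'.c.L * ((x + s'.c.v) ^ 2 + s'.c.W ^ 2) ^ s'.c.M
        ≤ ((4 * x) ^ 2) ^ s'.c.L * ((4 * x) ^ 2) ^ s'.c.M := by
          apply mul_le_mul (pow_le_pow_left₀ (by positivity) hq1 _)
            (pow_le_pow_left₀ (by positivity) hq2 _) (by positivity) (by positivity)
      _ = (4 * x) ^ (2 * (s'.c.L + s'.c.M)) := by
          rw [← pow_mul, ← pow_mul, ← pow_add]; congr 1; ring
  have hB' := h.Beven'
  have hB := h.Beven
  have hdN := h.d_le_N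
  have hNN := h.NN
  have hbig := big_pow h.hT (b := 4 * x) (by linarith) (by
    have := h.xhigh
    have : (0 : ℝ) ≤ (s'.T : ℝ) ^ 100 := by positivity
    linarith) hB'
  have hy100 : 4 * y ≤ 100 * (s'.T : ℝ) ^ 100 := by
    have := h.y3T
    have : (0 : ℝ) ≤ (s'.T : ℝ) ^ 100 := by positivity
    linarith
  have hbig2 := big_pow h.hT (b := 4 * y) (by linarith) hy100 hB
  have hfry := h.fy_upper (z := y) (b := y) (by rw [Complex.norm_real, Real.norm_eq_abs, abs_of_pos hy]) le_rfl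
  rw [Cl.fr_norm h.w1 h.W1] at hfry
  have hfry0 : 0 < s.c.fr y := Cl.fr_pos h.w1 h.W1 y
  have hfry' : 1 ≤ s'.c.fr y := by
    rw [← Cl.fr_norm h.w2 h.W2]
    exact Cl.f_lower h.w2 h.W2 (by simp)
  have hfrx : 1 ≤ s.c.fr x := by
    rw [← Cl.fr_norm h.w1 h.W1]
    exact Cl.f_lower h.w1 h.W1 (by simp)
  have h5 := ratio_pow_le (x := x) (R := R) (r := y) hx (by linarith [h.R100]) (by linarith [h.Rx, h.R100])
    h.Rxy N'
  have h7 : (s'.T : ℝ) ^ 17 / 50 ≤ N' * R / (2 * x) := by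
    refine (h.NK (K := N') (by omega)).trans ?_
    have hR0 : 0 < R := by linarith [h.R100]
    exact div_le_div_of_nonneg_left (by positivity) (by positivity) (by linarith)
  have ht := h.tpos
  have hkey : 1000 * (s.c.fr y * (4 * x) ^ (2 * (s'.c.L + s'.c.M))) * (x / y) ^ N' ≤ 1 := by
    calc 1000 * (s.c.fr y * (4 * x) ^ (2 * (s'.c.L + s'.c.M))) * (x / y) ^ N'
        ≤ 1000 * (Real.exp ((s'.T : ℝ) ^ 16 / 100) * Real.exp ((s'.T : ℝ) ^ 16 / 100)) *
          Real.exp (-(N' * R / (2 * x))) := by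
          apply mul_le_mul _ h5 (by positivity) (by positivity)
          apply mul_le_mul_of_nonneg_left _ (by norm_num)
          exact mul_le_mul (hfry.trans hbig2) hbig (by positivity) (by positivity)
      _ = 1000 * Real.exp ((s'.T : ℝ) ^ 16 / 100 + (s'.T : ℝ) ^ 16 / 100 - N' * R / (2 * x)) := by
          rw [mul_assoc, ← Real.exp_add, ← Real.exp_add]; congr 2
      _ ≤ 1000 * Real.exp (-100) := by
        apply mul_le_mul_of_nonneg_left _ (by norm_num)
        apply Real.exp_le_exp.mpr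
        have e1 : (s'.T : ℝ) ^ 17 = s'.T * (s'.T : ℝ) ^ 16 := by ring
        have e2 : (1 : ℝ) ≤ (s'.T : ℝ) ^ 16 := one_le_pow₀ (by linarith)
        nlinarith
      _ ≤ 1 := by
        have := exp100'
        linarith
  generalize hb2 : 2 * (s'.c.L + s'.c.M) = B2 at *
  rw [h.Lam', h.nu', St.Cm]
  calc s.Lam * s.c.fr y / (s'.c.fr y * y ^ N') * x ^ (s.nu + N') *
        (((x + s'.c.u) ^ 2 + s'.c.w ^ 2) ^ s'.c.L * ((x + s'.c.v) ^ 2 + s'.c.W ^ 2) ^ s'.c.M)
      ≤ s.Lam * s.c.fr y / (1 * y ^ N') * x ^ (s.nu + N') * (4 * x) ^ B2 := by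
        apply mul_le_mul _ hcl (by positivity) (by positivity)
        apply mul_le_mul_of_nonneg_right _ (by positivity)
        apply div_le_div_of_nonneg_left (by positivity) (by positivity)
        exact mul_le_mul_of_nonneg_right hfry' (by positivity)
    _ = s.Lam * x ^ s.nu * (s.c.fr y * (4 * x) ^ B2 * (x / y) ^ N') := by
        rw [pow_add, div_pow]
        field_simp
    _ ≤ s.Lam * x ^ s.nu * (1 / 1000) := by
        apply mul_le_mul_of_nonneg_left _ (by positivity)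
        linarith
    _ ≤ s.Lam * x ^ s.nu * (1 / 1000 * s.c.fr x) := by
        apply mul_le_mul_of_nonneg_left _ (by positivity)
        linarith
    _ = 1 / 1000 * (s.Lam * s.c.fr x / x ^ N * x ^ (s.nu + N)) := by
        rw [pow_add]; field_simp

end Link

end Pool.Agent.MPdf6699Lib
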