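import Mathlib
import Pool.Agent.MPdf6699Lib.Base
import Pool.Agent.MPdf6699Lib.First
import Pool.Agent.MPdf6699Lib.Poly
import Pool.Agent.MPdf6699Lib.LinkA

/-!
The chain exists.
-/

namespace Pool.Agent.MPdf6699Lib

open Polynomial

/-- The states of the chain. -/
noncomputable def stq (T : ℕ) : ℕ → St
  | 0 => st0 T
  | 1 => st1 T
  | (k + 2) => step (stq T (k + 1))

/-- Touching points. -/
noncomputable def xq (T : ℕ) : ℕ → ℝ
  | 0 => (T : ℝ) ^ 100
  | (k + 1) => xs (stq T (k + 1))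

/-- Crossing points. -/
noncomputable def yq (T : ℕ) : ℕ → ℝ
  | 0 => y0 T
  | (k + 1) => ys (stq T (k + 1))

/-- Local radii. -/
noncomputable def Rq (T : ℕ) : ℕ → ℝ
  | 0 => (T : ℝ) ^ 17 / 2
  | (k + 1) => 2 / 5 * ((stq T (k + 1)).T : ℝ) ^ 8

/-- Degree increments. -/
noncomputable def Nq (T : ℕ) : ℕ → ℕ
  | 0 => T ^ 100
  | (k + 1) => Ns (stq T (k + 1))

/-- Reduced degree increments. -/
noncomputable def Nq' (T : ℕ) : ℕ → ℕ
  | 0 => T ^ 100 - 2 * T ^ 14
  | (k + 1) => Ns (stq T (k + 1)) - 4 * Tn (stq T (k + 1)) ^ 14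

theorem stq_inv {T : ℕ} (hT : 10 ^ 10 ≤ T) (k : ℕ) : Inv (stq T (k + 1)) := by
  induction k with
  | zero => exact first_inv hT
  | succ k ih => exact ih.step_inv

theorem links {T : ℕ} (hT : 10 ^ 10 ≤ T) (k : ℕ) :
    Link (stq T k) (stq T (k + 1)) (xq T k) (yq T k) (Rq T k) (Nq T k) (Nq' T k) := by
  cases k with
  | zero => exact first_link hT
  | succ k => exact (stq_inv hT k).step_link

/-- Block parameters. -/
noncomputable def Tq (T : ℕ) (k : ℕ) : ℕ := (stq T (k + 1)).T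

/-- Block degrees. -/
noncomputable def nq (T : ℕ) (k : ℕ) : ℕ := (stq T k).nu + Nq T k

/-- Monomial coefficients. -/
noncomputable def Cq (T : ℕ) (k : ℕ) : ℝ := (stq T k).Cm (xq T k) (Nq T k)

theorem xq_succ {T : ℕ} (hT : 10 ^ 10 ≤ T) (k : ℕ) :
    xq T (k + 1) = (stq T (k + 1)).c.v + (stq T (k + 1)).c.W := (links hT (k + 1)).xdef

theorem Tq_succ (T : ℕ) (k : ℕ) : Tq T (k + 1) = Tn (stq T (k + 1)) := rfl

theorem Tq_pow17 {T : ℕ} (hT : 10 ^ 10 ≤ T) (k : ℕ) :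
    (Tq T (k + 1) : ℝ) ^ 17 ≤ 101 / 100 * (Tq T k : ℝ) ^ 17 :=
  (stq_inv hT k).Tn_pow (k := 17) (by norm_num)

theorem xq_step {T : ℕ} (hT : 10 ^ 10 ≤ T) (k : ℕ) :
    xq T (k + 1) ≤ xq T k + 3 * (Tq T k : ℝ) ^ 17 := by
  have h := links hT k
  rw [xq_succ hT]
  have h1 := h.vx'
  have h2 := h.Wx'
  have h3 := h.yT
  show _ ≤ _ + 3 * ((stq T (k + 1)).T : ℝ) ^ 17
  linarith

theorem Cm_val {s s' : St} {x y R : ℝ} {N N' : ℕ} (h : Link s s' x y R N N') :
    s.G x = (s.Cm x N * x ^ (s.nu + N) : ℝ) := by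
  have hx := h.xpos
  simp only [St.G, St.Cm]
  rw [Cl.f_real]
  push_cast
  rw [pow_add]
  have : (x : ℂ) ≠ 0 := by norm_cast; linarith
  field_simp

theorem real_mem_strip {x : ℝ} (hx : 0 < x) : (x : ℂ) ∈ Strip := by
  constructor
  · simpa using hx
  · simp

theorem nq_rel {T : ℕ} (hT : 10 ^ 10 ≤ T) (k : ℕ) :
    nq T (k + 1) + 2 * ((stq T (k + 1)).c.L + (stq T (k + 1)).c.M) = nq T k + Nq T (k + 1) := by
  have h := (links hT k).y_eq
  unfold nq
  omega

theorem B2q {T : ℕ} (hT : 10 ^ 10 ≤ T) (k : ℕ) {z : ℂ} (hz : z ∈ Strip)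
    (hr : xq T k * (1 + 1 / (5 * (Tq T k : ℝ) ^ 58)) ≤ z.re) :
    Real.exp (10 * (Tq T (k + 1) : ℝ) ^ 17) * ‖Cq T k * z ^ nq T k‖ ≤
      ‖(xq T (k + 1) : ℂ) / z‖ ^ (Tq T (k + 1)) ^ 80 * ‖Cq T (k + 1) * z ^ nq T (k + 1)‖ := by
  have h := links hT k
  have h' := links hT (k + 1)
  have hfar := h.far_dist hr
  have hX := h'.xpos
  have hC := h.Cpos
  have hC' := h'.Cpos
  have hzr := re_le_norm' z
  set X := xq T (k + 1) with hXdef
  set r := ‖z‖ with hrdef
  have ht : (10 : ℝ) ^ 10 ≤ Tq T k := h.tpos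
  have ht0 : (0 : ℝ) < Tq T k := by linarith
  have hXk := xq_step hT k
  have g1 := Inv.gap ht (a := 17) (b := 41) (by norm_num)
  have p17 : (0 : ℝ) < (Tq T k : ℝ) ^ 17 := by positivity
  have hrX : X + (Tq T k : ℝ) ^ 41 / 2 ≤ r := by
    have e : (stq T (k + 1)).T = Tq T k := rfl
    rw [e] at hfar
    linarith
  have p41 : (0 : ℝ) < (Tq T k : ℝ) ^ 41 := by positivity
  have hr0 : 0 < r := by linarith
  -- the value at X
  have hB1 := h.B1 (real_mem_strip hX)
  have hval : ‖(stq T (k + 1)).G (X : ℂ)‖ = Cq T (k + 1) * X ^ nq T (k + 1) := by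
    rw [Cm_val h', Complex.norm_real, Real.norm_eq_abs, abs_of_pos]
    · rfl
    · exact mul_pos hC' (pow_pos hX _)
  rw [hval, norm_mul, norm_pow, Complex.norm_real, Complex.norm_real, Real.norm_eq_abs, Real.norm_eq_abs,
    abs_of_pos hC, abs_of_pos hX] at hB1
  -- reduce to real inequality
  rw [norm_mul, norm_mul, norm_pow, norm_pow, Complex.norm_real, Complex.norm_real, Real.norm_eq_abs,
    Real.norm_eq_abs, norm_xz hX, abs_of_pos (show 0 < Cq T k from hC), abs_of_pos (show 0 < Cq T (k + 1) from hC')]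
  rw [← hrdef]
  -- exponents
  have hrel := nq_rel hT k
  have hdN := h'.d_le_N
  have hBe := h'.Beven
  have eT : (stq T (k + 1 + 1)).T = Tq T (k + 1) := rfl
  rw [eT] at hdN hBe
  set D := Tq T (k + 1) ^ 80 with hD
  obtain ⟨K, hK⟩ : ∃ K, nq T (k + 1) = nq T k + D + K := ⟨nq T (k + 1) - nq T k - D, by omega⟩
  have hKN : Nq T (k + 1) ≤ 2 * K := by omega
  have hKX : X / 2 ≤ K := by
    have h1 := h'.Nlow
    have h2 : (Nq T (k + 1) : ℝ) ≤ 2 * K := by exact_mod_cast hKN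
    linarith
  have hT41X : (Tq T k : ℝ) ^ 41 / 2 ≤ X := by
    have g2 := Inv.gap ht (a := 41) (b := 100) (by norm_num)
    have h1 := h.xlow
    have h2 : xq T k ≤ X := by
      have := h.hv'
      have h3 := h.Rxy
      have h4 := h.R100
      have h5 := h.W2
      rw [hXdef, xq_succ hT]
      linarith
    have e : (stq T (k + 1)).T = Tq T k := rfl
    rw [e] at h1
    linarith
  have hpow := ratio_pow_le (x := X) (R := (Tq T k : ℝ) ^ 41 / 2) (r := r) hX (by positivity) hT41X hrX K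
  have hexp : Real.exp (10 * (Tq T (k + 1) : ℝ) ^ 17) * Real.exp (4 * (Tq T k : ℝ) ^ 17) * (X / r) ^ K ≤ 1 := by
    calc Real.exp (10 * (Tq T (k + 1) : ℝ) ^ 17) * Real.exp (4 * (Tq T k : ℝ) ^ 17) * (X / r) ^ K
        ≤ Real.exp (10 * (Tq T (k + 1) : ℝ) ^ 17) * Real.exp (4 * (Tq T k : ℝ) ^ 17) *
          Real.exp (-(K * ((Tq T k : ℝ) ^ 41 / 2) / (2 * X))) :=
          mul_le_mul_of_nonneg_left hpow (by positivity)
      _ = Real.exp (10 * (Tq T (k + 1) : ℝ) ^ 17 + 4 * (Tq T k : ℝ) ^ 17 -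
          K * ((Tq T k : ℝ) ^ 41 / 2) / (2 * X)) := by
          rw [← Real.exp_add, ← Real.exp_add]; congr 1
      _ ≤ Real.exp 0 := by
          apply Real.exp_le_exp.mpr
          have h1 := Tq_pow17 hT k
          have h2 : (Tq T k : ℝ) ^ 41 / 8 ≤ K * ((Tq T k : ℝ) ^ 41 / 2) / (2 * X) := by
            rw [le_div_iff₀ (by positivity)]
            have := mul_le_mul_of_nonneg_right hKX p41.le
            linarith
          linarith
      _ = 1 := Real.exp_zero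
  have hinv : (X / r) ^ K * (r / X) ^ K = 1 := by
    rw [← mul_pow]
    have : X / r * (r / X) = 1 := by field_simp
    rw [this, one_pow]
  have hE : Real.exp (10 * (Tq T (k + 1) : ℝ) ^ 17) * Real.exp (4 * (Tq T k : ℝ) ^ 17) ≤ (r / X) ^ K := by
    have e := mul_le_mul_of_nonneg_right hexp (by positivity : 0 ≤ (r / X) ^ K)
    rw [one_mul, mul_assoc, hinv, mul_one] at e
    exact e
  have e1 : Cq T k * r ^ nq T k = (Cq T k * X ^ nq T k) * (r / X) ^ nq T k := by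
    rw [div_pow]; field_simp
  have e2 : (X / r) ^ D * (Cq T (k + 1) * r ^ nq T (k + 1)) =
      (Cq T (k + 1) * X ^ nq T (k + 1)) * ((r / X) ^ nq T k * (r / X) ^ K) := by
    rw [hK]
    simp only [pow_add, div_pow]
    generalize X ^ D = a1
    have h1 : r ^ D ≠ 0 := by positivity
    generalize hb : r ^ D = b1 at *
    field_simp
  rw [e1, e2]
  have hC0 : 0 ≤ Cq T (k + 1) * X ^ nq T (k + 1) := mul_nonneg hC'.le (by positivity)
  calc Real.exp (10 * (Tq T (k + 1) : ℝ) ^ 17) * ((Cq T k * X ^ nq T k) * (r / X) ^ nq T k)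
      ≤ Real.exp (10 * (Tq T (k + 1) : ℝ) ^ 17) *
        ((Real.exp (4 * (Tq T k : ℝ) ^ 17) * (Cq T (k + 1) * X ^ nq T (k + 1))) * (r / X) ^ nq T k) := by
        apply mul_le_mul_of_nonneg_left _ (Real.exp_pos _).le
        exact mul_le_mul_of_nonneg_right hB1 (by positivity)
    _ = (Cq T (k + 1) * X ^ nq T (k + 1)) * ((r / X) ^ nq T k *
        (Real.exp (10 * (Tq T (k + 1) : ℝ) ^ 17) * Real.exp (4 * (Tq T k : ℝ) ^ 17))) := by ring
    _ ≤ (Cq T (k + 1) * X ^ nq T (k + 1)) * ((r / X) ^ nq T k * (r / X) ^ K) := by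
        apply mul_le_mul_of_nonneg_left _ hC0
        exact mul_le_mul_of_nonneg_left hE (by positivity)

theorem chain_ok {T : ℕ} (hT : 10 ^ 10 ≤ T) :
    ChainOK (Tq T) (nq T) (xq T) (yq T) (Cq T) (fun k => (stq T k).P) where
  G0 := by simp [stq, st0, St.P]
  hT := fun k => (links hT k).hT
  Tmono := fun k => (stq_inv hT k).Tn_ge
  xlow := fun k => (links hT k).xlow
  xhigh := fun k => (links hT k).xhigh
  xy := fun k => by
    have h := links hT k
    linarith [h.Rxy, h.R100]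
  yx := fun k => by
    have h := links hT k
    have h2 := h.W2
    rw [xq_succ hT]
    linarith [h.hv', h.R100]
  xstep := xq_step hT
  Cpos := fun k => (links hT k).Cpos
  n0 := by
    have h := (links hT 0).d_le_N
    have e : (stq T (0 + 1)).T = Tq T 0 := rfl
    rw [e] at h
    show Tq T 0 ^ 80 < (stq T 0).nu + Nq T 0
    omega
  nstep := fun k => by
    have h' := links hT (k + 1)
    have hrel := nq_rel hT k
    have hdN := h'.d_le_N
    have hBe := h'.Beven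
    have eT : (stq T (k + 1 + 1)).T = Tq T (k + 1) := rfl
    rw [eT] at hdN hBe
    omega
  Gdeg := fun k => (links hT k).Gdeg
  Glow := fun k i hi => (links hT k).Glow i hi
  Gsum := fun k => (links hT k).Gsum
  T1 := fun k z hz hr => by
    simp only [St.P_eval]
    exact (links hT k).T1 hz hr
  T2 := fun k z hz hr => by
    simp only [St.P_eval]
    exact (links hT k).T2 hz hr
  T3 := fun k z hz hr => by
    simp only [St.P_eval]
    exact (links hT k).T3 hz hr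
  D1 := fun k z hz hr => by
    simp only [St.P_eval]
    exact (links hT k).D1 hz hr
  D2 := fun k z hz hr => by
    simp only [St.P_eval]
    exact (links hT k).D2 hz hr
  D3 := fun k z hz hr => by
    simp only [St.P_eval]
    exact (links hT k).D3 hz hr
  B1 := fun k z hz => by
    simp only [St.P_eval]
    exact (links hT k).B1 hz
  B2 := fun k z hz hr => B2q hT k hz hr
  B3 := fun k z hz hr => by
    simp only [St.P_eval]
    exact (links hT k).B3 hz hr

/-- Growth of the degrees. -/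
theorem growth {T : ℕ} (hT : 10 ^ 10 ≤ T) (k : ℕ) :
    (nq T (k + 1) : ℝ) + xq T (k + 2) * (Tq T (k + 1) : ℝ) ^ 9 / 2 ≤ nq T (k + 2) ∧
    xq T (k + 2) ≤ xq T (k + 1) + 3 * (Tq T (k + 1) : ℝ) ^ 8 := by
  have hI := stq_inv hT k
  have hI' := stq_inv hT (k + 1)
  have h' := links hT (k + 2)
  have ht : (10 : ℝ) ^ 10 ≤ Tq T (k + 1) := (links hT (k + 1)).tpos
  have ht0 : (0 : ℝ) < Tq T (k + 1) := by linarith
  constructor
  · have hrel := nq_rel hT (k + 1)
    have hN := hI'.Ns_div.1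
    have hx := hI'.xs_pos
    rw [le_div_iff₀ hx] at hN
    have eN : Nq T (k + 1 + 1) = Ns (stq T (k + 2)) := rfl
    have ex : xq T (k + 2) = xs (stq T (k + 2)) := rfl
    have eT : (stq T (k + 2)).T = Tq T (k + 1) := rfl
    have eL : (stq T (k + 1 + 1)).c.L = Tq T (k + 1) ^ 14 := rfl
    have eM : (stq T (k + 1 + 1)).c.M = Tq T (k + 1) ^ 14 := rfl
    rw [eN, eL, eM] at hrel
    rw [eT] at hN
    rw [ex]
    have hrel' : (nq T (k + 2) : ℝ) + 4 * (Tq T (k + 1) : ℝ) ^ 14 = nq T (k + 1) + Ns (stq T (k + 2)) := by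
      have : ((nq T (k + 1 + 1) + 2 * (Tq T (k + 1) ^ 14 + Tq T (k + 1) ^ 14) : ℕ) : ℝ) =
        ((nq T (k + 1) + Ns (stq T (k + 2)) : ℕ) : ℝ) := by rw [hrel]
      push_cast at this
      linarith
    have hxl := (links hT (k + 1)).xlow
    have g := hI'.x_ge (k := 14) (by norm_num)
    have g2 : (Tq T (k + 1) : ℝ) ^ 14 ≤ (Tn (stq T (k + 1 + 1)) : ℝ) ^ 14 :=
      pow_le_pow_left₀ ht0.le hI'.Tn_ge' 14
    have p9 : (0 : ℝ) ≤ (Tq T (k + 1) : ℝ) ^ 9 := by positivity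
    have p14 : (0 : ℝ) ≤ (Tq T (k + 1) : ℝ) ^ 14 := by positivity
    nlinarith
  · have ex : xq T (k + 2) = ys (stq T (k + 1)) + (Tn (stq T (k + 1)) : ℝ) ^ 8 + (Tn (stq T (k + 1)) : ℝ) ^ 5 := rfl
    have ey : ys (stq T (k + 1)) = xq T (k + 1) + (Tn (stq T (k + 1)) : ℝ) ^ 8 := rfl
    have eT : (Tn (stq T (k + 1)) : ℝ) = Tq T (k + 1) := rfl
    rw [ex, ey, eT]
    have g := Inv.gap ht (a := 5) (b := 8) (by norm_num)
    have p5 : (0 : ℝ) ≤ (Tq T (k + 1) : ℝ) ^ 5 := by positivity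
    linarith

end Pool.Agent.MPdf6699Lib
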