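import Mathlib
import Pool.Agent.MPdf6699Lib.Chain
import Pool.Agent.MPdf6699Lib.AsmC5
import Pool.Agent.MPdf6699Lib.BlockE

/-!
Growth of the chain: degrees, values at touching points, coefficient bounds.
-/

namespace Pool.Agent.MPdf6699Lib

open Filter Topology Polynomial

section
variable {T n : ℕ → ℕ} {x y C : ℕ → ℝ} {G : ℕ → ℂ[X]} {ρ : ℕ → ℕ → ℂ}

theorem x_succ (h : ChainOK T n x y C G) (k : ℕ) : x k + 2000 ≤ x (k + 1) := by
  linarith [h.xy k, h.yx k]

theorem x_mono (h : ChainOK T n x y C G) : Monotone x :=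
  monotone_nat_of_le_succ (fun k => by linarith [x_succ h k])

theorem x_lin (h : ChainOK T n x y C G) (k : ℕ) : (k : ℝ) ≤ x k := by
  induction k with
  | zero =>
    have := x_ge h 0
    simp; linarith
  | succ k ih =>
    have := x_succ h k
    push_cast; linarith

theorem x_tendsto (h : ChainOK T n x y C G) : Tendsto x atTop atTop :=
  tendsto_atTop_mono (x_lin h) tendsto_natCast_atTop_atTop

theorem x_pos (h : ChainOK T n x y C G) (k : ℕ) : 0 < x k := by
  have := x_ge h k; linarith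

/-- The values at the touching points are at least one. -/
theorem G_ge_one (h : ChainOK T n x y C G) (k : ℕ) : 1 ≤ ‖(G k).eval (x k : ℂ)‖ := by
  have key : ∀ j, j ≤ k → 1 ≤ ‖(G j).eval (x k : ℂ)‖ := by
    intro j hj
    induction j with
    | zero => rw [h.G0]; simp
    | succ j ih =>
      have h1 := ih (by omega)
      have h2 := h.D2 j (x k) (real_mem_strip (x_pos h k)) (by
        have h3 := x_mono h (show j + 1 ≤ k by omega)
        have h4 := h.yx j
        simp only [Complex.ofReal_re]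
        linarith)
      linarith
  exact key k le_rfl

theorem Cx_ge (h : ChainOK T n x y C G) (k : ℕ) : 20 / 21 ≤ C k * x k ^ n k := by
  have h1 := h.T1 k (x k) (real_mem_strip (x_pos h k)) (by simp)
  have h2 := G_ge_one h k
  have hC := h.Cpos k
  have hx := x_pos h k
  rw [sub_self, neg_zero, Complex.exp_zero, mul_one] at h1
  have h3 : ‖(C k : ℂ) * (x k : ℂ) ^ n k‖ = C k * x k ^ n k := by
    rw [norm_mul, norm_pow, Complex.norm_real, Complex.norm_real, Real.norm_eq_abs, Real.norm_eq_abs,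
      abs_of_pos hC, abs_of_pos hx]
  rw [h3] at h1
  have h4 := norm_sub_norm_le ((G k).eval (x k : ℂ)) ((C k : ℂ) * (x k : ℂ) ^ n k)
  rw [h3] at h4
  linarith

theorem ser_low (h : ChainOK T n x y C G) (hρ : ∀ k, BlockOK (T k) ((T k) ^ 80) (ρ k)) (k : ℕ) :
    1 / 4 * (1 / x k ^ n k) ≤ ‖ser n x C G ρ (n k)‖ := by
  have h1 := ser_top h hρ k
  have h2 := Cx_ge h k
  have hx := x_pos h k
  have h3 : 1 / 2 * (1 / x k ^ n k) ≤ C k := by
    rw [mul_one_div, div_le_iff₀ (by positivity)]
    linarith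
  have h4 : 0 ≤ 1 / x k ^ n k := by positivity
  linarith

/-- Upper bound of a coefficient. -/
theorem ser_up (h : ChainOK T n x y C G) (hρ : ∀ k, BlockOK (T k) ((T k) ^ 80) (ρ k)) {k i : ℕ}
    (h1 : lo n k < i) (h2 : i ≤ n k) : ‖ser n x C G ρ i‖ ≤ 3 * C k * x k ^ (n k - i) := by
  have hC := h.Cpos k
  have hx := x_pos h k
  rw [ser_eq h hρ h1 h2]
  unfold bc
  rw [if_neg (by omega)]
  have hcf : ‖cf (ρ k) (n k - i)‖ ≤ 21 / 10 := by
    unfold cf
    refine (norm_sub_le _ _).trans ?_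
    have a1 := (hρ k).norm_le (n k - i)
    have a2 := (hρ k).norm_le (n k - i + 1)
    linarith
  have hG : ‖(G (k + 1)).coeff i‖ ≤ 1 / 1000 * C k * x k ^ (n k - i) := by
    have g1 := h.Gsum k
    have g2 : ‖(G (k + 1)).coeff i‖ * x k ^ i
        ≤ ∑ i ∈ Finset.range (n k + 1), ‖(G (k + 1)).coeff i‖ * x k ^ i :=
      Finset.single_le_sum (f := fun i => ‖(G (k + 1)).coeff i‖ * x k ^ i)
        (fun j _ => by positivity) (by rw [Finset.mem_range]; omega)
    have g3 : x k ^ n k = x k ^ (n k - i) * x k ^ i := by rw [← pow_add]; congr 1; omega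
    rw [g3] at g1
    have g4 : ‖(G (k + 1)).coeff i‖ * x k ^ i ≤ (1 / 1000 * C k * x k ^ (n k - i)) * x k ^ i := by
      linarith
    exact le_of_mul_le_mul_right g4 (by positivity)
  refine (norm_add_le _ _).trans ?_
  rw [norm_mul, norm_mul, norm_pow, Complex.norm_real, Complex.norm_real, Real.norm_eq_abs, Real.norm_eq_abs,
    abs_of_pos hC, abs_of_pos hx]
  have h5 : C k * x k ^ (n k - i) * ‖cf (ρ k) (n k - i)‖ ≤ C k * x k ^ (n k - i) * (21 / 10) :=
    mul_le_mul_of_nonneg_left hcf (by positivity)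
  have h6 : 0 ≤ C k * x k ^ (n k - i) := by positivity
  linarith

/-- Comparison of consecutive values. -/
theorem Cx_succ (h : ChainOK T n x y C G) (k : ℕ) :
    C (k + 1) * x (k + 1) ^ n (k + 1) ≤ C k * x (k + 1) ^ n k := by
  have hC := h.Cpos k
  have hC' := h.Cpos (k + 1)
  have hx := x_pos h k
  have hx' := x_pos h (k + 1)
  have hxx : x k ≤ x (k + 1) := by linarith [x_succ h k]
  -- upper bound of G (k+1) at x (k+1)
  have h1 : ‖(G (k + 1)).eval (x (k + 1) : ℂ)‖ ≤ 1 / 1000 * (C k * x (k + 1) ^ n k) := by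
    rw [eval_eq_sum_range' (n := n k + 1) (by have := h.Gdeg k; omega)]
    refine (norm_sum_le _ _).trans ?_
    have h2 : ∀ i ∈ Finset.range (n k + 1), ‖(G (k + 1)).coeff i * (x (k + 1) : ℂ) ^ i‖ ≤
        ‖(G (k + 1)).coeff i‖ * x k ^ i * (x (k + 1) / x k) ^ n k := by
      intro i hi
      rw [Finset.mem_range] at hi
      rw [norm_mul, norm_pow, Complex.norm_real, Real.norm_eq_abs, abs_of_pos hx']
      have h3 : x (k + 1) ^ i = x k ^ i * (x (k + 1) / x k) ^ i := by
        rw [← mul_pow]; congr 1; field_simp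
      rw [h3, ← mul_assoc]
      apply mul_le_mul_of_nonneg_left _ (by positivity)
      apply pow_le_pow_right₀ _ (by omega)
      rw [le_div_iff₀ hx]; linarith
    refine (Finset.sum_le_sum h2).trans ?_
    rw [← Finset.sum_mul]
    calc (∑ i ∈ Finset.range (n k + 1), ‖(G (k + 1)).coeff i‖ * x k ^ i) * (x (k + 1) / x k) ^ n k
        ≤ (1 / 1000 * (C k * x k ^ n k)) * (x (k + 1) / x k) ^ n k :=
          mul_le_mul_of_nonneg_right (h.Gsum k) (by positivity)
      _ = 1 / 1000 * (C k * (x k ^ n k * (x (k + 1) / x k) ^ n k)) := by ring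
      _ = _ := by
          rw [← mul_pow]
          have : x k * (x (k + 1) / x k) = x (k + 1) := by field_simp
          rw [this]
  have h4 := h.T1 (k + 1) (x (k + 1)) (real_mem_strip hx') (by simp)
  rw [sub_self, neg_zero, Complex.exp_zero, mul_one] at h4
  have h5 : ‖(C (k + 1) : ℂ) * (x (k + 1) : ℂ) ^ n (k + 1)‖ = C (k + 1) * x (k + 1) ^ n (k + 1) := by
    rw [norm_mul, norm_pow, Complex.norm_real, Complex.norm_real, Real.norm_eq_abs, Real.norm_eq_abs,
      abs_of_pos hC', abs_of_pos hx']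
  rw [h5] at h4
  have h6 := norm_sub_norm_le ((C (k + 1) : ℂ) * (x (k + 1) : ℂ) ^ n (k + 1)) ((G (k + 1)).eval (x (k + 1) : ℂ))
  rw [h5, norm_sub_rev] at h6
  have h7 : 0 ≤ C k * x (k + 1) ^ n k := by positivity
  linarith

/-- The normalised values are bounded. -/
theorem u_bdd (h : ChainOK T n x y C G) {R : ℝ} (hR : 1 ≤ R) :
    ∃ B : ℝ, ∀ k, C k * R ^ n k ≤ B := by
  obtain ⟨k0, hk0⟩ := (eventually_atTop.mp ((x_tendsto h).eventually_ge_atTop R))
  have hstep : ∀ k, k0 ≤ k → C (k + 1) * R ^ n (k + 1) ≤ C k * R ^ n k := by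
    intro k hk
    have h1 := Cx_succ h k
    have hx' := x_pos h (k + 1)
    have hC := h.Cpos k
    have hC' := h.Cpos (k + 1)
    have h2 := n_lt h k
    obtain ⟨d, hd⟩ : ∃ d, n (k + 1) = n k + d := ⟨n (k + 1) - n k, by omega⟩
    have h3 : C (k + 1) * x (k + 1) ^ d ≤ C k := by
      rw [hd, pow_add] at h1
      have h4 : 0 < x (k + 1) ^ n k := by positivity
      have h5 : (C (k + 1) * x (k + 1) ^ d) * x (k + 1) ^ n k ≤ C k * x (k + 1) ^ n k := by linarith
      exact le_of_mul_le_mul_right h5 h4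
    have h6 : R ^ d ≤ x (k + 1) ^ d := pow_le_pow_left₀ (by linarith) (hk0 (k + 1) (by omega)) d
    rw [hd, pow_add]
    have h7 : C (k + 1) * R ^ d ≤ C k := (mul_le_mul_of_nonneg_left h6 hC'.le).trans h3
    have h8 : 0 < R ^ n k := by positivity
    nlinarith [mul_le_mul_of_nonneg_right h7 h8.le]
  have hanti : ∀ k, k0 ≤ k → C k * R ^ n k ≤ C k0 * R ^ n k0 := by
    intro k hk
    induction k, hk using Nat.le_induction with
    | base => exact le_rfl
    | succ k hk ih => exact (hstep k hk).trans ih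
  refine ⟨∑ j ∈ Finset.range (k0 + 1), C j * R ^ n j, fun k => ?_⟩
  have hnn : ∀ j, 0 ≤ C j * R ^ n j := fun j => mul_nonneg (h.Cpos j).le (by positivity)
  rcases le_total k k0 with hk | hk
  · exact Finset.single_le_sum (f := fun j => C j * R ^ n j) (fun j _ => hnn j)
      (by rw [Finset.mem_range]; omega)
  · exact (hanti k hk).trans (Finset.single_le_sum (f := fun j => C j * R ^ n j) (fun j _ => hnn j)
      (by rw [Finset.mem_range]; omega))

end

end Pool.Agent.MPdf6699Lib
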