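import Mathlib

/-!
Order of an entire function from lower bounds of coefficients.
-/

namespace Pool.Agent.MPdf6699Lib

open Filter Topology

/-- Maximum modulus on the circle of radius `r`. -/
noncomputable def maxMod (f : ℂ → ℂ) (r : ℝ) : ℝ :=
  sSup ((fun z => ‖f z‖) '' Metric.sphere (0 : ℂ) r)

/-- Order of growth. -/
noncomputable def ordr (f : ℂ → ℂ) : EReal :=
  limsup (fun r : ℝ => ((Real.log (Real.log (maxMod f r)) / Real.log r : ℝ) : EReal)) atTop

theorem entire_hasFPower {a : ℕ → ℂ} (ha : ∀ z : ℂ, Summable fun k => a k * z ^ k) :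
    HasFPowerSeriesOnBall (fun z : ℂ => ∑' k, a k * z ^ k) (FormalMultilinearSeries.ofScalars ℂ a) 0 ⊤ := by
  have hrad : (FormalMultilinearSeries.ofScalars ℂ a).radius = ⊤ := by
    apply ENNReal.eq_top_of_forall_nnreal_le
    intro r
    apply FormalMultilinearSeries.le_radius_of_tendsto (l := 0)
    have h1 := (ha (r : ℝ)).tendsto_atTop_zero.norm
    simp only [norm_zero] at h1
    refine h1.congr (fun n => ?_)
    rw [FormalMultilinearSeries.ofScalars_norm, norm_mul, norm_pow, Complex.norm_real, Real.norm_eq_abs,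
      abs_of_nonneg r.coe_nonneg]
  have h := (FormalMultilinearSeries.ofScalars ℂ a).hasFPowerSeriesOnBall (by rw [hrad]; simp)
  rw [hrad] at h
  have e : (FormalMultilinearSeries.ofScalars ℂ a).sum = fun z : ℂ => ∑' k, a k * z ^ k := by
    funext z
    have := FormalMultilinearSeries.ofScalars_sum_eq (E := ℂ) a z
    rw [FormalMultilinearSeries.ofScalarsSum] at this
    rw [this]
    simp [smul_eq_mul]
  rw [e] at h
  exact h

theorem entire_diff {a : ℕ → ℂ} (ha : ∀ z : ℂ, Summable fun k => a k * z ^ k) :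
    Differentiable ℂ (fun z : ℂ => ∑' k, a k * z ^ k) := by
  intro z
  have h := (entire_hasFPower ha).differentiableOn
  have h2 := h z (by simp)
  exact h2.differentiableAt (by
    apply (Metric.isOpen_eball).mem_nhds
    simp)

theorem entire_deriv {a : ℕ → ℂ} (ha : ∀ z : ℂ, Summable fun k => a k * z ^ k) (n : ℕ) :
    iteratedDeriv n (fun z : ℂ => ∑' k, a k * z ^ k) 0 = n.factorial * a n := by
  have hpr := entire_hasFPower ha
  have h_fact_smul := hpr.factorial_smul 1 n
  simp only [FormalMultilinearSeries.apply_eq_prod_smul_coeff, Finset.prod_const, Finset.card_univ,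
    Fintype.card_fin, smul_eq_mul, nsmul_eq_mul, one_pow, one_mul,
    FormalMultilinearSeries.coeff_ofScalars] at h_fact_smul
  rw [h_fact_smul, ← iteratedDeriv_eq_iteratedFDeriv]

theorem coeff_le_maxMod {a : ℕ → ℂ} (ha : ∀ z : ℂ, Summable fun k => a k * z ^ k) {r : ℝ} (hr : 0 < r)
    (n : ℕ) : ‖a n‖ * r ^ n ≤ maxMod (fun z => ∑' k, a k * z ^ k) r := by
  set f : ℂ → ℂ := fun z => ∑' k, a k * z ^ k with hf
  have hd : Differentiable ℂ f := entire_diff ha
  have hbdd : BddAbove ((fun z => ‖f z‖) '' Metric.sphere (0 : ℂ) r) :=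
    (isCompact_sphere 0 r).bddAbove_image (hd.continuous.norm).continuousOn
  have h := Complex.norm_iteratedDeriv_le_of_forall_mem_sphere_norm_le (f := f) (c := 0) (R := r)
    (C := maxMod f r) n hr hd.diffContOnCl (by
      intro z hz
      exact le_csSup hbdd ⟨z, hz, rfl⟩)
  rw [hf, entire_deriv ha n, norm_mul, Complex.norm_natCast] at h
  have hfac : (0 : ℝ) < n.factorial := by exact_mod_cast n.factorial_pos
  rw [mul_div_assoc] at h
  have h2 := le_of_mul_le_mul_left h hfac
  rwa [le_div_iff₀ (by positivity)] at h2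

theorem order_lower {a : ℕ → ℂ} (ha : ∀ z : ℂ, Summable fun k => a k * z ^ k) {n : ℕ → ℕ} {X : ℕ → ℝ}
    {c0 : ℝ} (hc0 : 0 < c0) (hX : Tendsto X atTop atTop)
    (h1 : ∀ k, 1 / 4 * (1 / X k ^ n k) ≤ ‖a (n k)‖)
    (h2 : ∀ᶠ k in atTop, c0 * X k ^ (201 / 100 : ℝ) ≤ n k) :
    ((401 / 200 : ℝ) : EReal) ≤ ordr (fun z => ∑' k, a k * z ^ k) := by
  unfold ordr
  apply le_limsup_of_frequently_le _ (by isBoundedDefault)
  have h2X : Tendsto (fun k => 2 * X k) atTop atTop := hX.const_mul_atTop (by norm_num)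
  apply h2X.frequently
  apply Eventually.frequently
  have hlogX : Tendsto (fun k => Real.log (X k)) atTop atTop := Real.tendsto_log_atTop.comp hX
  have e1 := hX.eventually_ge_atTop 2
  have e2 := hlogX.eventually_ge_atTop (200 * (401 / 200 * Real.log 2 - Real.log (c0 / 4)))
  have hpow : Tendsto (fun k => c0 * X k ^ (201 / 100 : ℝ)) atTop atTop :=
    ((tendsto_rpow_atTop (by norm_num)).comp hX).const_mul_atTop hc0
  have e3 := hpow.eventually_ge_atTop 8
  filter_upwards [e1, e2, e3, h2] with k q1 q2 q3 q4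
  have hX0 : 0 < X k := by linarith
  set M := maxMod (fun z => ∑' k, a k * z ^ k) (2 * X k) with hM
  have hcoef := coeff_le_maxMod ha (r := 2 * X k) (by linarith) (n k)
  have hM1 : 1 / 4 * 2 ^ n k ≤ M := by
    refine le_trans ?_ hcoef
    calc 1 / 4 * (2 : ℝ) ^ n k = 1 / 4 * (1 / X k ^ n k) * (2 * X k) ^ n k := by
          rw [mul_pow]; field_simp
      _ ≤ ‖a (n k)‖ * (2 * X k) ^ n k := mul_le_mul_of_nonneg_right (h1 k) (by positivity)
  have hn8 : (8 : ℝ) ≤ n k := q3.trans q4
  have hlog2 : (69 / 100 : ℝ) ≤ Real.log 2 := by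
    have := Real.log_two_gt_d9
    linarith
  have hlog2' : Real.log 2 ≤ 70 / 100 := by
    have := Real.log_two_lt_d9
    linarith
  have hlogM : (n k : ℝ) / 4 ≤ Real.log M := by
    have h3 : Real.log (1 / 4 * 2 ^ n k) ≤ Real.log M := Real.log_le_log (by positivity) hM1
    have h4 : Real.log (1 / 4 * (2 : ℝ) ^ n k) = n k * Real.log 2 - 2 * Real.log 2 := by
      rw [Real.log_mul (by norm_num) (by positivity), Real.log_pow]
      have : Real.log (1 / 4) = -(2 * Real.log 2) := by
        have e : (1 / 4 : ℝ) = (2 ^ 2)⁻¹ := by norm_num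
        rw [e, Real.log_inv, Real.log_pow]; norm_num
      rw [this]; ring
    rw [h4] at h3
    nlinarith
  have hlogM0 : 0 < Real.log M := by linarith
  have hll : Real.log (c0 / 4) + 201 / 100 * Real.log (X k) ≤ Real.log (Real.log M) := by
    have h5 : c0 / 4 * X k ^ (201 / 100 : ℝ) ≤ Real.log M := by linarith
    have h6 := Real.log_le_log (by positivity) h5
    rw [Real.log_mul (by positivity) (by positivity), Real.log_rpow hX0] at h6
    exact h6
  have hlog2X : Real.log (2 * X k) = Real.log 2 + Real.log (X k) :=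
    Real.log_mul (by norm_num) hX0.ne'
  have hlX0 : 0 ≤ Real.log (X k) := Real.log_nonneg (by linarith)
  rw [EReal.coe_le_coe_iff, le_div_iff₀ (by rw [hlog2X]; linarith), hlog2X]
  linarith

end Pool.Agent.MPdf6699Lib
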