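import Mathlib
import Pool.Agent.MPdf6699Lib.Grow
import Pool.Agent.MPdf6699Lib.Order

/-!
The counterexample series.
-/

namespace Pool.Agent.MPdf6699Lib

open Filter Topology Polynomial

section
variable {T n : ℕ → ℕ} {x y C : ℕ → ℝ} {G : ℕ → ℂ[X]} {ρ : ℕ → ℕ → ℂ}

theorem xpow_le (h : ChainOK T n x y C G) (hn : ∀ k, x k ≤ n k) (k : ℕ) : x k ^ (T k) ^ 80 ≤ 2 ^ n k := by
  have ht : (10 : ℝ) ^ 10 ≤ T k := by exact_mod_cast h.hT k
  have ht0 : (0 : ℝ) < T k := by linarith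
  have hx := x_pos h k
  have h1 : x k ≤ Real.exp (101 * T k) := by
    refine le_trans ?_ (big_exp ht)
    have := h.xhigh k
    have : (0 : ℝ) ≤ (T k : ℝ) ^ 100 := by positivity
    linarith
  have h2 : (101 * (T k : ℝ) ^ 81) ≤ n k / 2 := by
    have h3 := hn k
    have h4 := h.xlow k
    have h5 := Inv.gap ht (a := 81) (b := 100) (by norm_num)
    have h6 : (0 : ℝ) ≤ (T k : ℝ) ^ 81 := by positivity
    linarith
  have h3 : Real.exp (n k / 2) ≤ 2 ^ n k := by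
    have h4 : Real.exp (1 / 2) ≤ 2 := by
      have := Real.exp_bound_div_one_sub_of_interval (x := 1 / 2) (by norm_num) (by norm_num)
      norm_num at this ⊢
      linarith
    calc Real.exp (n k / 2) = Real.exp (1 / 2) ^ n k := by rw [← Real.exp_nat_mul]; congr 1; ring
      _ ≤ 2 ^ n k := pow_le_pow_left₀ (Real.exp_pos _).le h4 _
  calc x k ^ (T k) ^ 80 ≤ Real.exp (101 * T k) ^ (T k) ^ 80 := pow_le_pow_left₀ hx.le h1 _
    _ = Real.exp (101 * (T k : ℝ) ^ 81) := by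
      rw [← Real.exp_nat_mul]; congr 1; push_cast; ring
    _ ≤ Real.exp (n k / 2) := Real.exp_le_exp.mpr h2
    _ ≤ 2 ^ n k := h3

theorem ser_bdd (h : ChainOK T n x y C G) (hρ : ∀ k, BlockOK (T k) ((T k) ^ 80) (ρ k))
    (hn : ∀ k, x k ≤ n k) {r : ℝ} (hr : 1 ≤ r) :
    ∃ B : ℝ, ∀ i, ‖ser n x C G ρ i‖ * r ^ i ≤ B := by
  obtain ⟨B, hB⟩ := u_bdd h (R := 2 * r) (by linarith)
  refine ⟨3 * |B| + 1, fun i => ?_⟩
  have hB0 : 0 ≤ |B| := abs_nonneg B
  rcases Nat.eq_zero_or_pos i with hi | hi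
  · rw [hi, ser_zero h hρ]
    simp
  · obtain ⟨k, hk1, hk2⟩ : ∃ k, lo n k < i ∧ i ≤ n k := by
      classical
      have hex : ∃ k, i ≤ n k := ⟨i, (k_lt_n h i).le⟩
      refine ⟨Nat.find hex, ?_, Nat.find_spec hex⟩
      rcases hk : Nat.find hex with _ | k
      · simpa [lo] using hi
      · have := Nat.find_min hex (m := k) (by omega)
        simp only [lo]
        omega
    rcases lt_or_ge (i + (T k) ^ 80) (n k) with hlow | hlow
    · rw [ser_eq h hρ hk1 hk2, bc_low h hρ hlow]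
      simp; positivity
    · have h1 := ser_up h hρ hk1 hk2
      have hC := h.Cpos k
      have hx := x_pos h k
      have hx1 : 1 ≤ x k := by have := x_ge h k; linarith
      have h2 : x k ^ (n k - i) ≤ 2 ^ n k :=
        (pow_le_pow_right₀ hx1 (by omega)).trans (xpow_le h hn k)
      have h3 : r ^ i ≤ r ^ n k := pow_le_pow_right₀ hr hk2
      calc ‖ser n x C G ρ i‖ * r ^ i ≤ (3 * C k * x k ^ (n k - i)) * r ^ i :=
            mul_le_mul_of_nonneg_right h1 (by positivity)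
        _ ≤ (3 * C k * 2 ^ n k) * r ^ n k := by
            apply mul_le_mul _ h3 (by positivity) (by positivity)
            exact mul_le_mul_of_nonneg_left h2 (by positivity)
        _ = 3 * (C k * (2 * r) ^ n k) := by rw [mul_pow]; ring
        _ ≤ 3 * |B| := by
            have := hB k
            have := le_abs_self B
            linarith
        _ ≤ 3 * |B| + 1 := by linarith

theorem ser_summable (h : ChainOK T n x y C G) (hρ : ∀ k, BlockOK (T k) ((T k) ^ 80) (ρ k))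
    (hn : ∀ k, x k ≤ n k) (z : ℂ) : Summable fun i => ser n x C G ρ i * z ^ i := by
  set r0 : ℝ := max 1 ‖z‖ with hr0
  have hr1 : 1 ≤ r0 := le_max_left _ _
  have hrz : ‖z‖ ≤ r0 := le_max_right _ _
  obtain ⟨B, hB⟩ := ser_bdd h hρ hn (r := 2 * r0) (by linarith)
  apply Summable.of_norm_bounded (g := fun i => B * (1 / 2 : ℝ) ^ i)
    ((summable_geometric_of_lt_one (by norm_num) (by norm_num)).mul_left B)
  intro i
  rw [norm_mul, norm_pow]
  have h1 := hB i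
  calc ‖ser n x C G ρ i‖ * ‖z‖ ^ i ≤ ‖ser n x C G ρ i‖ * r0 ^ i := by
        apply mul_le_mul_of_nonneg_left _ (norm_nonneg _)
        exact pow_le_pow_left₀ (norm_nonneg _) hrz i
    _ = (‖ser n x C G ρ i‖ * (2 * r0) ^ i) * (1 / 2 : ℝ) ^ i := by
        rw [mul_assoc, ← mul_pow]; congr 2; ring
    _ ≤ B * (1 / 2 : ℝ) ^ i := mul_le_mul_of_nonneg_right h1 (by positivity)

theorem ser_partial_ne (h : ChainOK T n x y C G) (hρ : ∀ k, BlockOK (T k) ((T k) ^ 80) (ρ k)) (N : ℕ)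
    {z : ℂ} (hz : z ∈ Strip) : ∑ i ∈ Finset.range (N + 1), ser n x C G ρ i * z ^ i ≠ 0 := by
  obtain ⟨k, hk1, hk2⟩ := exists_block h N
  rw [partial_sum h hρ (strip_ne hz) k N hk1 hk2]
  rcases Nat.eq_zero_or_pos (n k - N) with h0 | h0
  · have hN : N = n k := by omega
    have h1 := PP_ne h hρ hz (k + 1)
    subst hN
    rw [Nat.sub_self, sum_coeff_eq h k z]
    unfold PP at h1 ⊢
    rw [Finset.sum_range_succ (fun j => (G j).eval z) (k + 1),
      Finset.sum_range_succ (fun j => C j * z ^ n j * tl (ρ j) ((T j) ^ 80) 0 (x j / z)) k] at h1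
    intro h2
    apply h1
    linear_combination h2
  · rcases le_or_gt (n k - N) ((T k) ^ 80) with h1 | h1
    · rcases le_or_gt z.re (x k - 100) with hA | hA
      · exact inc_left h hρ hz hk2 hA
      · rcases le_or_gt z.re (x k + 100) with hB | hB
        · exact inc_mid h hρ hz h0 h1 (abs_le.mpr ⟨by linarith, by linarith⟩)
        · exact inc_right h hρ hz h0 h1 hB.le
    · have h2 : ∑ i ∈ Finset.range (N + 1), (G (k + 1)).coeff i * z ^ i = 0 := by
        refine Finset.sum_eq_zero fun i hi => ?_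
        rw [Finset.mem_range] at hi
        rw [h.Glow k i (by omega), zero_mul]
      rw [h2, tl_of_lt _ h1, mul_zero, add_zero, add_zero]
      exact PP_ne h hρ hz k

end

theorem nq_ge {T : ℕ} (hT : 10 ^ 10 ≤ T) (k : ℕ) : xq T k ≤ nq T k := by
  have h := (links hT k).Nlow
  unfold nq
  push_cast
  have : (0 : ℝ) ≤ ((stq T k).nu : ℝ) := Nat.cast_nonneg _
  linarith

/-- Convexity of a real power. -/
theorem rpow_sub_le {a b : ℝ} (ha : 0 < a) (hab : a ≤ b) :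
    b ^ (201 / 100 : ℝ) - a ^ (201 / 100 : ℝ) ≤ 201 / 100 * b ^ (101 / 100 : ℝ) * (b - a) := by
  have hb : 0 < b := by linarith
  have h1 := one_add_mul_self_le_rpow_one_add (s := a / b - 1) (by
    have : 0 < a / b := by positivity
    linarith) (p := 201 / 100) (by norm_num)
  have e1 : 1 + (a / b - 1) = a / b := by ring
  rw [e1, Real.div_rpow ha.le hb.le, le_div_iff₀ (by positivity)] at h1
  have e2 : b ^ (201 / 100 : ℝ) = b ^ (101 / 100 : ℝ) * b := by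
    have : (201 / 100 : ℝ) = 101 / 100 + 1 := by norm_num
    rw [this, Real.rpow_add hb, Real.rpow_one]
  have e3 : (1 + 201 / 100 * (a / b - 1)) * b ^ (201 / 100 : ℝ) =
      b ^ (201 / 100 : ℝ) - 201 / 100 * b ^ (101 / 100 : ℝ) * (b - a) := by
    rw [e2]
    field_simp
    ring
  rw [e3] at h1
  linarith

theorem Tq_root {T : ℕ} (hT : 10 ^ 10 ≤ T) (k : ℕ) :
    1 / 2 * (xq T (k + 2)) ^ (1 / 100 : ℝ) ≤ Tq T (k + 1) := by
  have h := links hT (k + 1)
  have h' := links hT (k + 2)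
  have hx := h'.xpos
  have ht : (10 : ℝ) ^ 10 ≤ Tq T (k + 1) := h.tpos
  have ht0 : (0 : ℝ) < Tq T (k + 1) := by linarith
  have h1 : xq T (k + 2) ≤ (2 * (Tq T (k + 1) : ℝ)) ^ 100 := by
    have h2 := (growth hT k).2
    have h3 : xq T (k + 1) ≤ 2 * (Tq T (k + 1) : ℝ) ^ 100 := h.xhigh
    have h4 := Inv.gap ht (a := 8) (b := 100) (by norm_num)
    rw [mul_pow]
    have h5 : (0 : ℝ) ≤ (Tq T (k + 1) : ℝ) ^ 100 := by positivity
    have h6 : (3 : ℝ) ≤ 2 ^ 100 := by norm_num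
    nlinarith
  have h2 : (xq T (k + 2)) ^ (1 / 100 : ℝ) ≤ 2 * (Tq T (k + 1) : ℝ) := by
    calc (xq T (k + 2)) ^ (1 / 100 : ℝ) ≤ ((2 * (Tq T (k + 1) : ℝ)) ^ 100) ^ (1 / 100 : ℝ) :=
          Real.rpow_le_rpow hx.le h1 (by norm_num)
      _ = 2 * (Tq T (k + 1) : ℝ) := by
          rw [← Real.rpow_natCast, ← Real.rpow_mul (by positivity)]
          norm_num
  linarith

theorem nq_growth {T : ℕ} (hT : 10 ^ 10 ≤ T) (k : ℕ) :
    (nq T (k + 1) : ℝ) + 1 / 25 * (xq T (k + 2) ^ (201 / 100 : ℝ) - xq T (k + 1) ^ (201 / 100 : ℝ)) ≤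
      nq T (k + 2) := by
  obtain ⟨g1, g2⟩ := growth hT k
  have hx1 := (links hT (k + 1)).xpos
  have hx2 := (links hT (k + 2)).xpos
  have hmono : xq T (k + 1) ≤ xq T (k + 2) := x_mono (chain_ok hT) (by omega)
  have hc := rpow_sub_le hx1 hmono
  have hr := Tq_root hT k
  have ht : (10 : ℝ) ^ 10 ≤ Tq T (k + 1) := (links hT (k + 1)).tpos
  have ht0 : (0 : ℝ) < Tq T (k + 1) := by linarith
  have h8 : (0 : ℝ) ≤ (Tq T (k + 1) : ℝ) ^ 8 := by positivity
  have e9 : (Tq T (k + 1) : ℝ) ^ 9 = Tq T (k + 1) * (Tq T (k + 1) : ℝ) ^ 8 := by ring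
  have h1 : xq T (k + 2) * (Tq T (k + 1) * ((xq T (k + 2) - xq T (k + 1)) / 3)) / 2 ≤
      xq T (k + 2) * (Tq T (k + 1) : ℝ) ^ 9 / 2 := by
    rw [e9]
    have : (xq T (k + 2) - xq T (k + 1)) / 3 ≤ (Tq T (k + 1) : ℝ) ^ 8 := by linarith
    have := mul_le_mul_of_nonneg_left this ht0.le
    have := mul_le_mul_of_nonneg_left this hx2.le
    linarith
  have e2 : xq T (k + 2) ^ (101 / 100 : ℝ) = xq T (k + 2) * xq T (k + 2) ^ (1 / 100 : ℝ) := by
    have : (101 / 100 : ℝ) = 1 + 1 / 100 := by norm_num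
    rw [this, Real.rpow_add hx2, Real.rpow_one]
  have hd : 0 ≤ xq T (k + 2) - xq T (k + 1) := by linarith
  have h2 : xq T (k + 2) ^ (101 / 100 : ℝ) * (xq T (k + 2) - xq T (k + 1)) ≤
      2 * (xq T (k + 2) * (Tq T (k + 1) * (xq T (k + 2) - xq T (k + 1)))) := by
    rw [e2]
    have h3 : xq T (k + 2) ^ (1 / 100 : ℝ) ≤ 2 * Tq T (k + 1) := by linarith
    have h4 := mul_le_mul_of_nonneg_left h3 hx2.le
    have h5 := mul_le_mul_of_nonneg_right h4 hd
    linarith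
  have h6 : 0 ≤ xq T (k + 2) * (Tq T (k + 1) * (xq T (k + 2) - xq T (k + 1))) := by positivity
  linarith

theorem nq_lower {T : ℕ} (hT : 10 ^ 10 ≤ T) (k : ℕ) :
    1 / 25 * (xq T (k + 1) ^ (201 / 100 : ℝ) - xq T 1 ^ (201 / 100 : ℝ)) ≤ nq T (k + 1) := by
  induction k with
  | zero => simp
  | succ k ih =>
    have := nq_growth hT k
    linarith

theorem nq_event {T : ℕ} (hT : 10 ^ 10 ≤ T) :
    ∀ᶠ k in atTop, 1 / 50 * xq T k ^ (201 / 100 : ℝ) ≤ nq T k := by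
  have hx := x_tendsto (chain_ok hT)
  have hp : Tendsto (fun k => xq T k ^ (201 / 100 : ℝ)) atTop atTop :=
    (tendsto_rpow_atTop (by norm_num)).comp hx
  filter_upwards [hp.eventually_ge_atTop (2 * xq T 1 ^ (201 / 100 : ℝ)), eventually_ge_atTop 1] with k h1 h2
  obtain ⟨j, rfl⟩ : ∃ j, k = j + 1 := ⟨k - 1, by omega⟩
  have := nq_lower hT j
  linarith

/-- The counterexample in the strip of half-width one tenth. -/
theorem core : ∃ a : ℕ → ℂ, (∀ N, ∀ z ∈ Strip, ∑ i ∈ Finset.range (N + 1), a i * z ^ i ≠ 0) ∧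
    (∀ z : ℂ, Summable fun i => a i * z ^ i) ∧
    ∃ (n : ℕ → ℕ) (x : ℕ → ℝ), Tendsto x atTop atTop ∧ (∀ k, 0 < x k) ∧
      (∀ k, 1 / 4 * (1 / x k ^ n k) ≤ ‖a (n k)‖) ∧
      ∀ᶠ k in atTop, 1 / 50 * x k ^ (201 / 100 : ℝ) ≤ n k := by
  obtain ⟨T, hT⟩ : ∃ T : ℕ, 10 ^ 10 ≤ T := ⟨_, le_rfl⟩
  have h := chain_ok hT
  choose ρ hρ using fun k => block_exists (Tq T k) (h.hT k)
  refine ⟨ser (nq T) (xq T) (Cq T) (fun k => (stq T k).P) ρ, ?_, ?_, nq T, xq T, x_tendsto h,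
    x_pos h, fun k => ser_low h hρ k, nq_event hT⟩
  · intro N z hz
    exact ser_partial_ne h hρ N hz
  · exact ser_summable h hρ (nq_ge hT)

end Pool.Agent.MPdf6699Lib
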